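import Pool.Agent.W_332fe5_h24.G2
import Pool.Agent.W_332fe5.O.A1b

set_option autoImplicit false

/-! Block 6, G3: the energy. -/

open MeasureTheory ProbabilityTheory Set Filter Topology
open scoped ENNReal NNReal

namespace Pool.Agent.W_332fe5.Six

/-- `‖w‖_2 ≤ |B|^(1/2 - 1/q) ‖w‖_q` for fields supported in the ball. -/
theorem G3_holder {q : ℝ} (hq : 2 ≤ q) : ∃ c : ℝ≥0∞, c ≠ ∞ ∧ ∀ w : L2, w ∈ Hs Bl →
    ENNReal.ofReal (‖w‖ ^ 2) ≤ c * eLpNorm w (ENNReal.ofReal q) volume ^ (2 : ℝ) := by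
  set c0 : ℝ≥0∞ := (volume : Measure E3) Bl ^ (1 / (2 : ℝ≥0∞).toReal - 1 / (ENNReal.ofReal q).toReal)
    with hc0
  have hBfin : (volume : Measure E3) Bl ≠ ∞ := measure_ball_lt_top.ne
  have hBpos : (volume : Measure E3) Bl ≠ 0 := (Metric.measure_ball_pos volume 0 zero_lt_one).ne'
  have hc0' : c0 ≠ ∞ := ENNReal.rpow_ne_top_of_ne_zero hBpos hBfin
  refine ⟨c0 ^ (2 : ℝ), ENNReal.rpow_ne_top_of_nonneg (by norm_num) hc0', fun w hw => ?_⟩
  have hBl : MeasurableSet Bl := Metric.isOpen_ball.measurableSet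
  have hind : (w : E3 → E3) =ᵐ[volume] Bl.indicator (w : E3 → E3) := by
    filter_upwards [Hs_supp hw] with x hx
    by_cases hxB : x ∈ Bl
    · rw [indicator_of_mem hxB]
    · rw [indicator_of_notMem hxB, hx hxB]
  have h1 : ∀ r : ℝ≥0∞, eLpNorm w r volume = eLpNorm w r (volume.restrict Bl) := by
    intro r
    rw [eLpNorm_congr_ae hind, eLpNorm_indicator_eq_eLpNorm_restrict hBl]
  have h2 : eLpNorm w 2 volume ≤ eLpNorm w (ENNReal.ofReal q) volume * c0 := by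
    rw [h1 2, h1 (ENNReal.ofReal q)]
    have h3 := eLpNorm_le_eLpNorm_mul_rpow_measure_univ (μ := (volume : Measure E3).restrict Bl)
      (p := 2) (q := ENNReal.ofReal q) (f := (w : E3 → E3))
      (by rw [← ENNReal.ofReal_ofNat]; exact ENNReal.ofReal_le_ofReal hq)
      ((Lp.aestronglyMeasurable w).restrict)
    rwa [Measure.restrict_apply_univ] at h3
  have h4 : ENNReal.ofReal (‖w‖ ^ 2) = eLpNorm w 2 volume ^ (2 : ℝ) := by
    rw [Lp.norm_def, ENNReal.ofReal_pow ENNReal.toReal_nonneg,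
      ENNReal.ofReal_toReal (Lp.eLpNorm_ne_top w)]
    norm_cast
  rw [h4]
  refine (ENNReal.rpow_le_rpow h2 (by norm_num)).trans ?_
  rw [ENNReal.mul_rpow_of_nonneg _ _ (by norm_num), mul_comm]

/-- The pointwise inequality in time. -/
theorem G3_young {p κ : ℝ} (hp : 2 < p) (a : ℝ≥0∞) {t : ℝ} (ht : 0 < t) :
    a ^ (2 : ℝ) ≤ a ^ p * ENNReal.ofReal (t ^ κ) + ENNReal.ofReal (t ^ (-(2 * κ / (p - 2)))) := by
  have hp2 : 0 < p - 2 := by linarith
  have hts : 0 < t ^ κ := Real.rpow_pos_of_pos ht κ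
  by_cases h : 1 ≤ a ^ (p - 2) * ENNReal.ofReal (t ^ κ)
  · refine le_add_right ?_
    have h1 : a ^ p = a ^ (2 : ℝ) * a ^ (p - 2) := by
      rw [← ENNReal.rpow_add_of_nonneg _ _ (by norm_num) hp2.le]
      congr 1
      ring
    rw [h1, mul_assoc]
    exact le_mul_of_one_le_right zero_le h
  · push Not at h
    refine le_add_left ?_
    have h1 : a ^ (p - 2) ≤ ENNReal.ofReal (t ^ (-κ)) := by
      have h2 : a ^ (p - 2) * ENNReal.ofReal (t ^ κ) * ENNReal.ofReal (t ^ (-κ)) ≤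
          1 * ENNReal.ofReal (t ^ (-κ)) := by gcongr
      rw [mul_assoc, ← ENNReal.ofReal_mul hts.le, ← Real.rpow_add ht, add_neg_cancel,
        Real.rpow_zero, ENNReal.ofReal_one, mul_one, one_mul] at h2
      exact h2
    have h3 := ENNReal.rpow_le_rpow h1 (show (0 : ℝ) ≤ 2 / (p - 2) by positivity)
    rw [← ENNReal.rpow_mul, ENNReal.ofReal_rpow_of_pos (Real.rpow_pos_of_pos ht _),
      ← Real.rpow_mul ht.le] at h3
    have e1 : (p - 2) * (2 / (p - 2)) = 2 := by field_simp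
    have e2 : -κ * (2 / (p - 2)) = -(2 * κ / (p - 2)) := by ring
    rwa [e1, e2] at h3

/-- The energy of the weight: `∫_0^1 ‖w‖_2² dt ≤ K` for every `ω` (Hölder on the ball, `q ≥ 2`, and
in time, `κ < p/2 - 1`). -/
theorem w_energy {zt p κ δ q : ℝ} (hp : Par zt p κ δ q) : ∃ K : ℝ, 0 ≤ K ∧
    ∀ (C : Core zt p κ δ q) (ω : C.Ω),
      ∫⁻ t in Ioo (0 : ℝ) 1, ENNReal.ofReal (‖C.w t ω‖ ^ 2) ≤ ENNReal.ofReal K := by
  obtain ⟨c, hc, hH⟩ := G3_holder hp.hq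
  have hp2 : 0 < p - 2 := by linarith [hp.hp]
  set M0 : ℝ≥0∞ := ∫⁻ t in Ioo (0 : ℝ) 1, ENNReal.ofReal (t ^ (-(2 * κ / (p - 2)))) with hM0
  have hM0' : M0 ≠ ∞ := by
    have h1 : IntegrableOn (fun t : ℝ => t ^ (-(2 * κ / (p - 2)))) (Ioo 0 1) := by
      rw [intervalIntegral.integrableOn_Ioo_rpow_iff zero_lt_one]
      have h2 : 2 * κ / (p - 2) < 1 := by
        rw [div_lt_one hp2]
        linarith [hp.k1]
      linarith
    have h2 := h1.hasFiniteIntegral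
    rw [hasFiniteIntegral_iff_ofReal] at h2
    · exact h2.ne
    · filter_upwards [ae_restrict_mem measurableSet_Ioo] with t ht
      exact (Real.rpow_pos_of_pos ht.1 _).le
  have hfin : c * (1 + M0) ≠ ∞ :=
    ENNReal.mul_ne_top hc (ENNReal.add_ne_top.2 ⟨ENNReal.one_ne_top, hM0'⟩)
  refine ⟨(c * (1 + M0)).toReal, ENNReal.toReal_nonneg, fun C ω => ?_⟩
  rw [ENNReal.ofReal_toReal hfin]
  calc ∫⁻ t in Ioo (0 : ℝ) 1, ENNReal.ofReal (‖C.w t ω‖ ^ 2)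
      ≤ ∫⁻ t in Ioo (0 : ℝ) 1, c * (eLpNorm (C.w t ω) (ENNReal.ofReal q) volume ^ p *
          ENNReal.ofReal (t ^ κ) + ENNReal.ofReal (t ^ (-(2 * κ / (p - 2))))) := by
        refine setLIntegral_mono' measurableSet_Ioo fun t ht => ?_
        refine (hH _ (C.w_mem t ω)).trans ?_
        exact mul_le_mul_right (G3_young hp.hp _ ht.1) c
    _ = c * ∫⁻ t in Ioo (0 : ℝ) 1, (eLpNorm (C.w t ω) (ENNReal.ofReal q) volume ^ p *
          ENNReal.ofReal (t ^ κ) + ENNReal.ofReal (t ^ (-(2 * κ / (p - 2))))) :=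
        lintegral_const_mul' _ _ hc
    _ ≤ c * (1 + M0) := by
        refine mul_le_mul_right ?_ c
        rw [lintegral_add_right _ (by fun_prop)]
        exact add_le_add (C.w_int ω) le_rfl

/-- `E ∫_0^1 ∫ U² y^(-3/2) ≤ K`. -/
theorem uC_int {zt p κ δ q : ℝ} (hp : Par zt p κ δ q) (hLin : Need1Lin δ) (hR : Need1Reg δ) :
    ∃ K : ℝ, 0 ≤ K ∧ ∀ C : Core zt p κ δ q,
      ∫⁻ z, (∫⁻ x in Bl, ENNReal.ofReal (uC C z x ^ 2 * yy x ^ (-(3 / 2 : ℝ))))
        ∂((volume.restrict (Ioo (0 : ℝ) 1)).prod C.P) ≤ ENNReal.ofReal K := by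
  obtain ⟨K1, hK1, h1⟩ := w_energy hp
  obtain ⟨K2, hK2, h2⟩ := hR
  refine ⟨K2 * K1, mul_nonneg hK2 hK1, fun C => ?_⟩
  have hBl : MeasurableSet Bl := Metric.isOpen_ball.measurableSet
  have hin : ∀ z : ℝ × C.Ω, (∫⁻ x in Bl, ENNReal.ofReal (uC C z x ^ 2 * yy x ^ (-(3 / 2 : ℝ)))) ≤
      ENNReal.ofReal K2 * ENNReal.ofReal (‖C.w z.1 z.2‖ ^ 2) := by
    intro z
    rw [← ENNReal.ofReal_mul hK2]
    refine le_trans ?_ (h2 (C.w z.1 z.2))
    refine setLIntegral_mono_ae' hBl ?_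
    filter_upwards [ev_ae (fld Bl δ (C.w z.1 z.2))] with x hx hxB
    refine ENNReal.ofReal_le_ofReal ?_
    have hy : 0 ≤ yy x := by
      simp only [Bl, mem_ball_zero_iff] at hxB
      unfold yy
      nlinarith [norm_nonneg x]
    refine mul_le_mul_of_nonneg_right ?_ (Real.rpow_nonneg hy _)
    rw [uC, hx]
    have h3 : |inner ℝ (fld Bl δ (C.w z.1 z.2) x) x| ≤ ‖fld Bl δ (C.w z.1 z.2) x‖ := by
      refine (abs_real_inner_le_norm _ _).trans ?_
      simp only [Bl, mem_ball_zero_iff] at hxB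
      exact mul_le_of_le_one_right (norm_nonneg _) hxB.le
    rw [← sq_abs (inner ℝ _ x)]
    exact pow_le_pow_left₀ (abs_nonneg _) h3 2
  have hmeas : Measurable fun z : ℝ × C.Ω => ENNReal.ofReal (‖C.w z.1 z.2‖ ^ 2) := by
    refine ENNReal.measurable_ofReal.comp ?_
    exact (C.w_meas.norm.measurable).pow_const 2
  calc ∫⁻ z, (∫⁻ x in Bl, ENNReal.ofReal (uC C z x ^ 2 * yy x ^ (-(3 / 2 : ℝ))))
        ∂((volume.restrict (Ioo (0 : ℝ) 1)).prod C.P)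
      ≤ ∫⁻ z, ENNReal.ofReal K2 * ENNReal.ofReal (‖C.w z.1 z.2‖ ^ 2)
        ∂((volume.restrict (Ioo (0 : ℝ) 1)).prod C.P) := lintegral_mono hin
    _ = ENNReal.ofReal K2 * ∫⁻ z, ENNReal.ofReal (‖C.w z.1 z.2‖ ^ 2)
        ∂((volume.restrict (Ioo (0 : ℝ) 1)).prod C.P) := lintegral_const_mul _ hmeas
    _ = ENNReal.ofReal K2 *
        ∫⁻ ω, (∫⁻ t in Ioo (0 : ℝ) 1, ENNReal.ofReal (‖C.w t ω‖ ^ 2)) ∂C.P := by
        rw [lintegral_prod_symm' _ hmeas]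
    _ ≤ ENNReal.ofReal K2 * ∫⁻ _ω, ENNReal.ofReal K1 ∂C.P := by
        refine mul_le_mul_right ?_ _
        exact lintegral_mono fun ω => h1 C ω
    _ = ENNReal.ofReal (K2 * K1) := by
        rw [lintegral_const, measure_univ, mul_one, ← ENNReal.ofReal_mul hK2]

end Pool.Agent.W_332fe5.Six
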