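import Pool.Agent.W_332fe5_h24.G4

set_option autoImplicit false

/-! Block 6, G5: from a stopped solution (`Core`) to the two-point data. -/

open MeasureTheory ProbabilityTheory Set Filter Topology
open scoped ENNReal NNReal

namespace Pool.Agent.W_332fe5.Six

/-- The two-point data of a stopped solution. -/
noncomputable def mkTwoPt {zt p κ δ q : ℝ} (hLin : Need1Lin δ)
    (hB : Need5Bdd zt p κ δ q) (C : Core zt p κ δ q) {T : ℝ} (hT : 0 < T) (hT1 : T ≤ 1)
    (G : C.Ω → E3 → ℝ) (mG : Measurable (Function.uncurry G)) (bG : ∀ ω x, |G ω x| ≤ 1)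
    (hG : ∀ᵐ ω ∂C.P, ∀ h ∈ CB, C.X h T ω = ∫ x, G ω x * h x) (K : ℝ) (hK : 0 ≤ K)
    (hK1 : ∫⁻ z, (∫⁻ x in Bl, ENNReal.ofReal (uC C z x ^ 2 * yy x ^ (-(3 / 2 : ℝ))))
        ∂((volume.restrict (Ioo (0 : ℝ) 1)).prod C.P) ≤ ENNReal.ofReal K) : TwoPt zt T where
  Ω := C.Ω
  mΩ := C.mΩ
  P := C.P
  prob := C.prob
  S := C.S
  S_meas := C.S_meas
  S_nonneg := C.S_nonneg
  Γ := gamC C
  Γ_meas := gamC_meas hLin C
  Γ_bdd := fun z x => by
    unfold gamC
    split_ifs
    · rw [abs_le]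
      exact ⟨le_max_left _ _, max_le (by norm_num) (min_le_left _ _)⟩
    · simp
  U := uC C
  U_meas := uC_meas hLin C
  K := K
  K_nonneg := hK
  U_int := by
    refine le_trans (lintegral_mono' (Measure.prod_mono ?_ le_rfl) le_rfl) hK1
    exact Measure.restrict_mono (Ioo_subset_Ioo_right hT1) le_rfl
  G := G
  G_meas := mG
  G_bdd := bG
  ident := fun _ hH _ hH' _ hη hηT => ident_C hLin hB C hT hT1 hG hH hH' hη hηT

end Pool.Agent.W_332fe5.Six
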