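import Pool.Agent.W_332fe5_h24.C2

set_option autoImplicit false

/-! Block 6, E5: the identity for the integrated kernel. -/

open MeasureTheory ProbabilityTheory Set Filter Topology
open scoped ENNReal NNReal

namespace Pool.Agent.W_332fe5.Six

/-- products with the time weight are nice families -/
theorem E5_fam {T R : ℝ} {w : ℝ → ℝ} (hw : Continuous w)
    {C : ℝ} (hwC : ∀ t, |w t| ≤ C) {Q : ℝ → ℝ → ℝ → ℝ}
    (hQ : Measurable fun v : ℝ × ℝ × ℝ => Q v.1 v.2.1 v.2.2) {K : ℝ}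
    (hQK : ∀ τ a b : ℝ, R ^ 2 ≤ τ → |Q τ a b| ≤ K) :
    NiceFam T (Ioo 0 T) (fun s t a b => w (t + s) * Q (s + R ^ 2) a b) := by
  constructor
  · apply Measurable.mul
    · exact hw.measurable.comp (by fun_prop)
    · exact hQ.comp (f := fun v : ℝ × ℝ × ℝ × ℝ => (v.1 + R ^ 2, v.2.2.1, v.2.2.2)) (by fun_prop)
  · refine ⟨C * K, ?_⟩
    intro s hs t _ a b
    rw [abs_mul]
    have h1 := hQK (s + R ^ 2) a b (by linarith [hs.1])
    exact mul_le_mul (hwC _) h1 (abs_nonneg _) ((abs_nonneg _).trans (hwC 0))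

theorem E5_th_bdd (T t : ℝ) : |th T t| ≤ 1 := by
  rw [abs_of_nonneg (th_nonneg T t)]
  exact th_le_one T t

theorem E5_dth_cont (T : ℝ) : Continuous (deriv (th T)) :=
  (th_smooth T).continuous_deriv (by simp)

theorem E5_dth_bdd {T : ℝ} (hT : 0 < T) : ∃ C : ℝ, ∀ t, |deriv (th T) t| ≤ C := by
  have hc := E5_dth_cont T
  obtain ⟨C, hC⟩ := (isCompact_Icc (a := T / 2) (b := T)).exists_bound_of_continuousOn
    hc.continuousOn
  refine ⟨max C 0, fun t => ?_⟩
  by_cases ht : t ∈ Icc (T / 2) T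
  · exact (hC t ht).trans (le_max_left _ _)
  · have h0 : deriv (th T) t = 0 := by
      rw [mem_Icc, not_and_or, not_le, not_le] at ht
      rcases ht with ht | ht
      · have : th T =ᶠ[𝓝 t] fun _ => 0 := by
          filter_upwards [Iio_mem_nhds ht] with x hx
          exact th_zero hT (Or.inl (le_of_lt hx))
        rw [this.deriv_eq]
        simp
      · have : th T =ᶠ[𝓝 t] fun _ => 0 := by
          filter_upwards [Ioi_mem_nhds ht] with x hx
          exact th_zero hT (Or.inr (le_of_lt hx))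
        rw [this.deriv_eq]
        simp
    rw [h0, abs_zero]
    exact le_max_right _ _

theorem FF_nice {zt : ℝ} (h : Zt zt) {T R r : ℝ} (hT : 0 < T) (hR : 0 < R) (hr : 0 < r) :
    Nice T (FF zt T R r) ∧ Nice T (FF1 zt T R r) ∧ Nice T (FF2 zt T R r) ∧
      Nice T (FEr zt T R r) := by
  have hth := (th_smooth T).continuous
  obtain ⟨m0, m1, m2, m3, m4⟩ := PK_meas zt r
  obtain ⟨K, hK⟩ := PK_bdd h hr (sq_pos_of_pos hR)
  have hI : MeasurableSet (Ioo (0 : ℝ) T) := measurableSet_Ioo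
  have hI1 : volume (Ioo (0 : ℝ) T) < ∞ := measure_Ioo_lt_top
  refine ⟨?_, ?_, ?_, ?_⟩
  · exact (E5_fam (R := R) hth (E5_th_bdd T) m0
      (fun τ a b hτ => (hK τ a b hτ).1)).nice hI hI1
  · exact (E5_fam (R := R) hth (E5_th_bdd T) m1
      (fun τ a b hτ => (hK τ a b hτ).2.1)).nice hI hI1
  · exact (E5_fam (R := R) hth (E5_th_bdd T) m2
      (fun τ a b hτ => (hK τ a b hτ).2.2.1)).nice hI hI1
  · exact (E5_fam (R := R) hth (E5_th_bdd T) m4
      (fun τ a b hτ => (hK τ a b hτ).2.2.2.2.1)).nice hI hI1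

/-- `Lam` only sees the values of the second weight for `t ∈ (0, T)` -/
theorem E5_congr {zt T : ℝ} (D : TwoPt zt T) {F A A' B1 B2 : ℝ → ℝ → ℝ → ℝ}
    (hA : ∀ t ∈ Ioo 0 T, ∀ a b, A t a b = A' t a b) : D.Lam F A B1 B2 = D.Lam F A' B1 B2 := by
  unfold TwoPt.Lam
  congr 1
  apply integral_congr_ae
  have h1 : ∀ᵐ z ∂D.zm, z.1 ∈ Ioo 0 T := by
    unfold TwoPt.zm
    exact Measure.quasiMeasurePreserving_fst.ae (ae_restrict_mem measurableSet_Ioo)
  have h2 : ∀ᵐ q ∂(D.zm.prod vv), q.1.1 ∈ Ioo 0 T :=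
    Measure.quasiMeasurePreserving_fst.ae h1
  filter_upwards [h2] with q hq
  rw [hA q.1.1 hq]

/-- Proof: `Lam_P` for `P = PK zt r (s + R²)`, `η t = th T (t + s)` (`η T = 0` for `s ≥ 0`), then
`Lam_superpos` with `I = Ioo 0 T`, `ftc_PK` and `LPK = Er + pkt * (kp r a * kp r b)`; the values of
the weights for `t ∉ [0, T]` are irrelevant (`Lam` only sees `t ∈ [0, T]`). -/
theorem Lam_kernel {zt : ℝ} (h : Zt zt) {T R r : ℝ} (hT : 0 < T) (hR : 0 < R) (hr : 0 < r)
    (hr1 : r ≤ 1 / 32) (D : TwoPt zt T) :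
    D.Lam (FF zt T R r) (fun t a b => -(th T t * PK zt r (R ^ 2) a b) + FEr zt T R r t a b)
      (FF1 zt T R r) (FF2 zt T R r) = 0 := by
  have hth := (th_smooth T).continuous
  obtain ⟨m0, m1, m2, m3, m4⟩ := PK_meas zt r
  obtain ⟨K, hK⟩ := PK_bdd h hr (sq_pos_of_pos hR)
  have hI : MeasurableSet (Ioo (0 : ℝ) T) := measurableSet_Ioo
  have hI1 : volume (Ioo (0 : ℝ) T) < ∞ := measure_Ioo_lt_top
  obtain ⟨Cd, hCd⟩ := E5_dth_bdd hT
  have f0 := E5_fam (T := T) (R := R) hth (E5_th_bdd T) m0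
    (fun τ a b hτ => (hK τ a b hτ).1)
  have f1 := E5_fam (T := T) (R := R) hth (E5_th_bdd T) m1
    (fun τ a b hτ => (hK τ a b hτ).2.1)
  have f2 := E5_fam (T := T) (R := R) hth (E5_th_bdd T) m2
    (fun τ a b hτ => (hK τ a b hτ).2.2.1)
  have f3 := E5_fam (T := T) (R := R) hth (E5_th_bdd T) m3
    (fun τ a b hτ => (hK τ a b hτ).2.2.2.1)
  have f5 := E5_fam (T := T) (R := R) (E5_dth_cont T) hCd m0
    (fun τ a b hτ => (hK τ a b hτ).1)
  have fA : NiceFam T (Ioo 0 T) (fun s t a b => deriv (th T) (t + s) * PK zt r (s + R ^ 2) a b +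
      th T (t + s) * LPK zt r (s + R ^ 2) a b) := by
    refine ⟨f5.meas.add f3.meas, ?_⟩
    obtain ⟨c5, h5⟩ := f5.bdd
    obtain ⟨c3, h3⟩ := f3.bdd
    exact ⟨c5 + c3, fun s hs t ht a b => (abs_add_le _ _).trans
      (add_le_add (h5 s hs t ht a b) (h3 s hs t ht a b))⟩
  have hLam := Lam_superpos hT D hI hI1 f0 fA f1 f2 (by
    intro s hs
    have hs0 : 0 < s := hs.1
    have hτ : 0 < s + R ^ 2 := by positivity
    have hη : ContDiff ℝ 1 (fun t => th T (t + s)) := by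
      have h1 : ContDiff ℝ 1 (th T) := (th_smooth T).of_le (by
        exact_mod_cast le_top)
      exact h1.comp (contDiff_id.add contDiff_const)
    have hP := Lam_P hT D hr (by norm_num : (3 / 16 : ℝ) < 1 / 2) (PK_Sm h hr hτ) hη
      (th_zero hT (Or.inr (by linarith)))
    have hd : ∀ t, deriv (fun t => th T (t + s)) t = deriv (th T) (t + s) :=
      fun t => deriv_comp_add_const (th T) s t
    simp only [hd] at hP
    exact hP)
  have hc : D.Lam (FF zt T R r) (fun t a b => ∫ s in Ioo 0 T,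
      (deriv (th T) (t + s) * PK zt r (s + R ^ 2) a b +
      th T (t + s) * LPK zt r (s + R ^ 2) a b)) (FF1 zt T R r) (FF2 zt T R r) = 0 := hLam
  rw [← hc]
  apply E5_congr
  intro t ht a b
  rw [← ftc_PK h hT hR hr ht.1.le a b]
  unfold FEr
  have hbint : ∀ {f : ℝ → ℝ}, Measurable f → (∃ C, ∀ s ∈ Ioo 0 T, |f s| ≤ C) →
      Integrable f (volume.restrict (Ioo (0 : ℝ) T)) := by
    intro f hf ⟨C, hC⟩
    refine Measure.integrableOn_of_bounded (M := C) hI1.ne hf.aestronglyMeasurable ?_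
    filter_upwards [ae_restrict_mem hI] with s hs
    exact hC s hs
  have hslice : ∀ {Q : ℝ → ℝ → ℝ → ℝ}, Measurable (fun v : ℝ × ℝ × ℝ => Q v.1 v.2.1 v.2.2) →
      Measurable fun s => Q (s + R ^ 2) a b := by
    intro Q hQ
    exact hQ.comp (f := fun s : ℝ => (s + R ^ 2, a, b)) (by fun_prop)
  have hmth : Measurable fun s => th T (t + s) := hth.measurable.comp (by fun_prop)
  have hmdth : Measurable fun s => deriv (th T) (t + s) :=
    (E5_dth_cont T).measurable.comp (by fun_prop)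
  have mpkt : Measurable (fun v : ℝ × ℝ × ℝ =>
      pkt zt v.1 v.2.1 v.2.2 * (kp r v.2.1 * kp r v.2.2)) := by
    have e : (fun v : ℝ × ℝ × ℝ => pkt zt v.1 v.2.1 v.2.2 * (kp r v.2.1 * kp r v.2.2)) =
        fun v : ℝ × ℝ × ℝ => LPK zt r v.1 v.2.1 v.2.2 - Er zt r v.1 v.2.1 v.2.2 := by
      funext v
      unfold Er
      ring
    rw [e]
    exact m3.sub m4
  rw [← integral_add]
  · apply integral_congr_ae
    filter_upwards with s
    have e : LPK zt r (s + R ^ 2) a b = Er zt r (s + R ^ 2) a b +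
        pkt zt (s + R ^ 2) a b * (kp r a * kp r b) := by
      unfold Er
      ring
    rw [e]
    ring
  · apply Integrable.add
    · apply hbint (hmdth.mul (hslice m0))
      refine ⟨Cd * K, fun s hs => ?_⟩
      simp only [Pi.mul_apply]
      rw [abs_mul]
      exact mul_le_mul (hCd _) (hK (s + R ^ 2) a b (by linarith [hs.1])).1 (abs_nonneg _)
        ((abs_nonneg _).trans (hCd 0))
    · apply hbint (hmth.mul (hslice (Q := fun τ a b => pkt zt τ a b * (kp r a * kp r b)) mpkt))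
      refine ⟨1 * K, fun s hs => ?_⟩
      simp only [Pi.mul_apply]
      rw [abs_mul]
      exact mul_le_mul (E5_th_bdd T _) (hK (s + R ^ 2) a b (by linarith [hs.1])).2.2.2.2.2
        (abs_nonneg _) zero_le_one
  · apply hbint (hmth.mul (hslice m4))
    refine ⟨1 * K, fun s hs => ?_⟩
    simp only [Pi.mul_apply]
    rw [abs_mul]
    exact mul_le_mul (E5_th_bdd T _) (hK (s + R ^ 2) a b (by linarith [hs.1])).2.2.2.2.1
      (abs_nonneg _) zero_le_one

end Pool.Agent.W_332fe5.Six
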