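import Pool.Agent.W_332fe5_h24.E0
import Pool.Agent.W_332fe5.O.A11c

set_option autoImplicit false

/-! Block 6, I2: lower bounds of integrals over shells. -/

open MeasureTheory ProbabilityTheory Set Filter Topology
open scoped ENNReal NNReal

namespace Pool.Agent.W_332fe5.Six

private theorem I2_vol : ∃ c : ℝ, 0 < c ∧ ∀ a b : ℝ, 0 < a → a ≤ b → b ≤ 1 / 4 →
    ENNReal.ofReal (c * (b - a)) ≤ (volume : Measure E3) {x : E3 | yy x ∈ Ioo a b} := by
  obtain ⟨σ, hσ⟩ : ∃ σ : ℝ≥0∞, σ = (volume : Measure E3).toSphere univ := ⟨_, rfl⟩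
  have hσt : σ ≠ ∞ := by rw [hσ]; exact measure_ne_top _ _
  have hσ0 : σ ≠ 0 := by
    rw [hσ]
    intro h
    exact (volume : Measure E3).toSphere_ne_zero (Measure.measure_univ_eq_zero.1 h)
  have hσr : 0 < σ.toReal := ENNReal.toReal_pos hσ0 hσt
  refine ⟨σ.toReal / 2, by positivity, fun a b ha hab hb => ?_⟩
  have mq : Measurable fun r : ℝ => (1 - r ^ 2) / 2 := by fun_prop
  have mF : MeasurableSet {r : ℝ | (1 - r ^ 2) / 2 ∈ Ioo a b} := mq measurableSet_Ioo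
  have hf : Measurable ({r : ℝ | (1 - r ^ 2) / 2 ∈ Ioo a b}.indicator (1 : ℝ → ℝ≥0∞)) :=
    measurable_one.indicator mF
  have h1 := A11c_polar hf
  have e1 : ∫⁻ x : E3, {r : ℝ | (1 - r ^ 2) / 2 ∈ Ioo a b}.indicator (1 : ℝ → ℝ≥0∞) ‖x‖ =
      (volume : Measure E3) {x : E3 | yy x ∈ Ioo a b} := by
    have e2 : (fun x : E3 => {r : ℝ | (1 - r ^ 2) / 2 ∈ Ioo a b}.indicator (1 : ℝ → ℝ≥0∞) ‖x‖) =
        {x : E3 | yy x ∈ Ioo a b}.indicator 1 := by
      funext x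
      rfl
    rw [e2]
    have e5 : MeasurableSet {x : E3 | yy x ∈ Ioo a b} := yy_meas measurableSet_Ioo
    exact lintegral_indicator_one e5
  rw [← e1, h1, ← hσ]
  have h2 := A11c_sub ((Ioo a b).indicator (1 : ℝ → ℝ≥0∞))
  have e3 : ∫⁻ s in Ioo (0 : ℝ) (1 / 2), (Ioo a b).indicator (1 : ℝ → ℝ≥0∞) s =
      ENNReal.ofReal (b - a) := by
    rw [lintegral_indicator_one measurableSet_Ioo, Measure.restrict_apply measurableSet_Ioo,
      inter_eq_left.2, Real.volume_Ioo]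
    intro s hs
    exact ⟨ha.trans hs.1, by linarith [hs.2]⟩
  rw [e3] at h2
  have e4 : ENNReal.ofReal (σ.toReal / 2 * (b - a)) =
      σ * (ENNReal.ofReal (1 / 2) * ENNReal.ofReal (b - a)) := by
    rw [← ENNReal.ofReal_mul (by norm_num)]
    nth_rewrite 2 [← ENNReal.ofReal_toReal hσt]
    rw [← ENNReal.ofReal_mul hσr.le]
    congr 1
    ring
  rw [e4]
  refine mul_le_mul_right ?_ σ
  rw [h2, ← lintegral_const_mul' _ _ ENNReal.ofReal_ne_top]
  refine le_trans ?_ (lintegral_mono_set (fun r hr => hr.1 : Ioo (0 : ℝ) 1 ⊆ Ioi 0))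
  refine setLIntegral_mono' measurableSet_Ioo fun r hr => ?_
  by_cases h : (1 - r ^ 2) / 2 ∈ Ioo a b
  · rw [indicator_of_mem h, indicator_of_mem (show r ∈ {r : ℝ | (1 - r ^ 2) / 2 ∈ Ioo a b} from h)]
    simp only [Pi.one_apply, mul_one]
    rw [← ENNReal.ofReal_mul (by norm_num)]
    apply ENNReal.ofReal_le_ofReal
    have h3 := h.2
    have h4 : (1 / 2 : ℝ) < r := by nlinarith [hr.1, hr.2]
    nlinarith [hr.1]
  · rw [indicator_of_notMem h]
    simp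

private theorem I2_sw {a b : ℝ} :
    ∫⁻ x in {x : E3 | yy x ∈ Ioo a b}, ENNReal.ofReal (x 2 ^ 2) =
      ∫⁻ x in {x : E3 | yy x ∈ Ioo a b}, ENNReal.ofReal (x 0 ^ 2) := by
  obtain ⟨e, he⟩ : ∃ e : E3 ≃ₗᵢ[ℝ] E3, e =
    LinearIsometryEquiv.piLpCongrLeft 2 ℝ ℝ (Equiv.swap (0 : Fin 3) 2) := ⟨_, rfl⟩
  have h1 := e.measurePreserving.setLIntegral_comp_preimage_emb
    e.toHomeomorph.measurableEmbedding (fun x : E3 => ENNReal.ofReal (x 2 ^ 2))
    {x : E3 | yy x ∈ Ioo a b}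
  have h2 : e ⁻¹' {x : E3 | yy x ∈ Ioo a b} = {x : E3 | yy x ∈ Ioo a b} := by
    ext x
    show yy (e x) ∈ Ioo a b ↔ yy x ∈ Ioo a b
    unfold yy
    rw [e.norm_map]
  have h3 : ∀ x : E3, (e x) 2 = x 0 := by
    intro x
    rw [he]
    simp [LinearIsometryEquiv.piLpCongrLeft_apply, Equiv.piCongrLeft']
  rw [h2] at h1
  simp only [h3] at h1
  exact h1.symm

/-- Lower bound for shells: `∫_(a < y < b) (x₁² + x₂²) dx ≥ c (b - a)` for `b ≤ 1/4`.
Proof: polar coordinates; on the shell `|x|² ≥ 1/2` and by symmetry of the three coordinates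
`∫ ax2 = (2/3) ∫ |x|²`; `dx = 4π r² dr`, `dy = -r dr`, `r ≥ 1/2`. -/
theorem shell_lower : ∃ c : ℝ, 0 < c ∧ ∀ a b : ℝ, 0 < a → a ≤ b → b ≤ 1 / 4 →
    ENNReal.ofReal (c * (b - a)) ≤ ∫⁻ x in {x : E3 | yy x ∈ Ioo a b}, ENNReal.ofReal (ax2 x) := by
  obtain ⟨c, hc, h⟩ := I2_vol
  refine ⟨c / 4, by positivity, fun a b ha hab hb => ?_⟩
  have h1 := h a b ha hab hb
  have hm : MeasurableSet {x : E3 | yy x ∈ Ioo a b} := yy_meas measurableSet_Ioo
  obtain ⟨A, hA⟩ : ∃ A, A = ∫⁻ x in {x : E3 | yy x ∈ Ioo a b}, ENNReal.ofReal (ax2 x) := ⟨_, rfl⟩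
  have h2 : ∫⁻ x in {x : E3 | yy x ∈ Ioo a b}, ENNReal.ofReal (‖x‖ ^ 2) ≤ 2 * A := by
    have e1 : ∀ x : E3, ENNReal.ofReal (‖x‖ ^ 2) =
        ENNReal.ofReal (ax2 x) + ENNReal.ofReal (x 2 ^ 2) := by
      intro x
      rw [← ENNReal.ofReal_add (E0_ax2 x).1 (sq_nonneg _)]
      congr 1
      unfold ax2
      rw [EuclideanSpace.real_norm_sq_eq, Fin.sum_univ_three]
    simp only [e1]
    rw [lintegral_add_left E0_ax2_meas.ennreal_ofReal, I2_sw, two_mul, hA]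
    refine add_le_add le_rfl (lintegral_mono fun x => ENNReal.ofReal_le_ofReal ?_)
    unfold ax2
    nlinarith [sq_nonneg (x 1)]
  have h3 : ENNReal.ofReal (1 / 2) * (volume : Measure E3) {x : E3 | yy x ∈ Ioo a b} ≤
      ∫⁻ x in {x : E3 | yy x ∈ Ioo a b}, ENNReal.ofReal (‖x‖ ^ 2) := by
    rw [← setLIntegral_const]
    refine setLIntegral_mono' hm fun x hx => ENNReal.ofReal_le_ofReal ?_
    have h4 : yy x < b := hx.2
    unfold yy at h4
    linarith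
  rw [← hA]
  have h5 : ENNReal.ofReal (c * (b - a) / 2) ≤ 2 * A := by
    refine le_trans (le_of_eq ?_) ((mul_le_mul_right h1 _).trans (h3.trans h2))
    rw [← ENNReal.ofReal_mul (by norm_num)]
    congr 1
    ring
  have h6 : ENNReal.ofReal (c * (b - a) / 2) = 2 * ENNReal.ofReal (c / 4 * (b - a)) := by
    rw [show (2 : ℝ≥0∞) = ENNReal.ofReal 2 by simp, ← ENNReal.ofReal_mul (by norm_num)]
    congr 1
    ring
  rw [h6] at h5
  exact (ENNReal.mul_le_mul_iff_right (by norm_num) (by norm_num)).1 h5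

/-- `∫_(√T < y < 2√T) Γ₀ ≥ c T^((1 + μ)/2)`. -/
theorem init_lower : ∃ c : ℝ, 0 < c ∧ ∀ T : ℝ, 0 < T → 2 * Real.sqrt T ≤ 1 / 8 →
    c * T ^ ((1 + mu) / 2) ≤ ∫ x in {x : E3 | yy x ∈ Ioo (Real.sqrt T) (2 * Real.sqrt T)},
      Gam0 x := by
  obtain ⟨c, hc, h⟩ := shell_lower
  refine ⟨c, hc, fun T hT hT1 => ?_⟩
  have hs : 0 < Real.sqrt T := Real.sqrt_pos.2 hT
  obtain ⟨R, hR⟩ : ∃ R, R = Real.sqrt T := ⟨_, rfl⟩
  rw [← hR] at hs hT1 ⊢
  have hmu : (0 : ℝ) < mu := by unfold mu; norm_num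
  have hm : MeasurableSet {x : E3 | yy x ∈ Ioo R (2 * R)} := yy_meas measurableSet_Ioo
  have hsub : {x : E3 | yy x ∈ Ioo R (2 * R)} ⊆ Bl := by
    intro x hx
    have h1 : R < yy x := hx.1
    unfold Bl
    rw [mem_ball_zero_iff]
    unfold yy at h1
    nlinarith [norm_nonneg x]
  have hfin : (volume : Measure E3) {x : E3 | yy x ∈ Ioo R (2 * R)} ≠ ∞ :=
    ne_of_lt (lt_of_le_of_lt (measure_mono hsub) Metric.isBounded_ball.measure_lt_top)
  have hint : IntegrableOn Gam0 {x : E3 | yy x ∈ Ioo R (2 * R)} :=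
    Measure.integrableOn_of_bounded hfin Gam0_meas.aestronglyMeasurable (M := 1)
      (Eventually.of_forall fun x => by rw [Real.norm_eq_abs]; exact Gam0_bdd x)
  have h0 : 0 ≤ ∫ x in {x : E3 | yy x ∈ Ioo R (2 * R)}, Gam0 x :=
    integral_nonneg fun x => Gam0_nonneg x
  have hlow : ENNReal.ofReal (R ^ mu) *
      (∫⁻ x in {x : E3 | yy x ∈ Ioo R (2 * R)}, ENNReal.ofReal (ax2 x)) ≤
      ENNReal.ofReal (∫ x in {x : E3 | yy x ∈ Ioo R (2 * R)}, Gam0 x) := by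
    rw [ofReal_integral_eq_lintegral_ofReal hint (Eventually.of_forall fun x => Gam0_nonneg x),
      ← lintegral_const_mul' _ _ ENNReal.ofReal_ne_top]
    refine setLIntegral_mono' hm fun x hx => ?_
    rw [← ENNReal.ofReal_mul (Real.rpow_nonneg hs.le _)]
    apply ENNReal.ofReal_le_ofReal
    unfold Gam0
    rw [indicator_of_mem (hsub hx)]
    refine mul_le_mul_of_nonneg_right ?_ (E0_ax2 x).1
    have h2 : R < yy x := hx.1
    exact Real.rpow_le_rpow hs.le (by linarith) hmu.le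
  have h3 := h R (2 * R) hs (by linarith) (by linarith)
  have h4 := (mul_le_mul_right h3 (ENNReal.ofReal (R ^ mu))).trans hlow
  rw [← ENNReal.ofReal_mul (Real.rpow_nonneg hs.le _), ENNReal.ofReal_le_ofReal_iff h0] at h4
  refine le_trans (le_of_eq ?_) h4
  have e1 : T ^ ((1 + mu) / 2) = R * R ^ mu := by
    rw [hR, Real.sqrt_eq_rpow, ← Real.rpow_mul hT.le, ← Real.rpow_add hT]
    congr 1
    ring
  rw [e1]
  ring

end Pool.Agent.W_332fe5.Six
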