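import Pool.Agent.W_332fe5_h24.C4
import Pool.Agent.W_332fe5_h24.E5
import Pool.Agent.W_332fe5_h24.I2

set_option autoImplicit false

/-! Block 6, M1: the initial value. -/

open MeasureTheory ProbabilityTheory Set Filter Topology
open scoped ENNReal NNReal

namespace Pool.Agent.W_332fe5.Six

/-- The initial value: on `(√T, 2√T)²` by `FF_lower` and `init_lower`, elsewhere `≥ 0`. -/
theorem m_init {zt : ℝ} (h : Zt zt) : ∃ c : ℝ, 0 < c ∧ ∀ T R r : ℝ, 0 < T →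
    2 * Real.sqrt T ≤ 1 / 8 → 0 < R → R ^ 2 ≤ T → 0 < r → 2 * r ≤ Real.sqrt T →
    c * T ^ (1 - zt / 2 + mu) ≤
      ∫ x, Gam0 x.1 * Gam0 x.2 * FF zt T R r 0 (yy x.1) (yy x.2) ∂vv := by
  obtain ⟨c1, hc1, h1⟩ := FF_lower h
  obtain ⟨c2, hc2, h2⟩ := init_lower
  refine ⟨c1 * c2 ^ 2, by positivity, fun T R r hT hT2 hR hRT hr hrT => ?_⟩
  have hsT : 0 < Real.sqrt T := Real.sqrt_pos.2 hT
  set S : Set E3 := {x : E3 | yy x ∈ Ioo (Real.sqrt T) (2 * Real.sqrt T)} with hS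
  have hSm : MeasurableSet S := yy_meas measurableSet_Ioo
  have hSB : S ⊆ Bl := by
    intro x hx
    have h3 : Real.sqrt T < yy x := hx.1
    have h4 : 0 < yy x := hsT.trans h3
    have h5 : ‖x‖ ^ 2 < 1 := by
      unfold yy at h4
      linarith
    have h6 : ‖x‖ < 1 := by
      have := norm_nonneg x
      nlinarith
    simpa [Bl] using h6
  obtain ⟨hFm, C, hC⟩ := (FF_nice h hT hR hr).1
  have hFF0 : ∀ a b, 0 ≤ FF zt T R r 0 a b := fun a b => FF_nonneg h hT hR hr 0 a b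
  have mi1 : Measurable fun x : E3 × E3 => yy x.1 := yy_meas.comp measurable_fst
  have mi2 : Measurable fun x : E3 × E3 => yy x.2 := yy_meas.comp measurable_snd
  have mi : Measurable fun x : E3 × E3 => ((0 : ℝ), yy x.1, yy x.2) :=
    measurable_const.prodMk (mi1.prodMk mi2)
  have mF : Measurable fun x : E3 × E3 => FF zt T R r 0 (yy x.1) (yy x.2) := by
    have e := hFm.comp mi
    exact e
  have mG : Measurable fun x : E3 × E3 => Gam0 x.1 * Gam0 x.2 :=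
    (Gam0_meas.comp measurable_fst).mul (Gam0_meas.comp measurable_snd)
  have hGb : ∀ x : E3 × E3, |Gam0 x.1 * Gam0 x.2| ≤ 1 := fun x => by
    rw [abs_mul]
    exact mul_le_one₀ (Gam0_bdd _) (abs_nonneg _) (Gam0_bdd _)
  have iG : Integrable (fun x : E3 × E3 => Gam0 x.1 * Gam0 x.2) vv :=
    Integrable.of_bound mG.aestronglyMeasurable 1 (ae_of_all _ hGb)
  have iF : Integrable (fun x : E3 × E3 => Gam0 x.1 * Gam0 x.2 *
      FF zt T R r 0 (yy x.1) (yy x.2)) vv := by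
    have mGF : Measurable fun x : E3 × E3 => Gam0 x.1 * Gam0 x.2 *
      FF zt T R r 0 (yy x.1) (yy x.2) := mG.mul mF
    have hb : ∀ x : E3 × E3, ‖Gam0 x.1 * Gam0 x.2 * FF zt T R r 0 (yy x.1) (yy x.2)‖ ≤ C := by
      intro x
      rw [Real.norm_eq_abs, abs_mul]
      have h3 := hC 0 ⟨le_rfl, hT.le⟩ (yy x.1) (yy x.2)
      calc |Gam0 x.1 * Gam0 x.2| * |FF zt T R r 0 (yy x.1) (yy x.2)| ≤ 1 * C :=
            mul_le_mul (hGb x) h3 (abs_nonneg _) zero_le_one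
        _ = C := one_mul C
    exact Integrable.of_bound mGF.aestronglyMeasurable C (ae_of_all _ hb)
  have hG0 : ∀ x : E3 × E3, 0 ≤ Gam0 x.1 * Gam0 x.2 := fun x =>
    mul_nonneg (Gam0_nonneg _) (Gam0_nonneg _)
  have s1 : ∫ x in S ×ˢ S, Gam0 x.1 * Gam0 x.2 * FF zt T R r 0 (yy x.1) (yy x.2) ∂vv ≤
      ∫ x, Gam0 x.1 * Gam0 x.2 * FF zt T R r 0 (yy x.1) (yy x.2) ∂vv :=
    setIntegral_le_integral iF (ae_of_all _ fun x => mul_nonneg (hG0 x) (hFF0 _ _))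
  have s2 : ∫ x in S ×ˢ S, (Gam0 x.1 * Gam0 x.2) * (c1 * T ^ (-(zt / 2))) ∂vv ≤
      ∫ x in S ×ˢ S, Gam0 x.1 * Gam0 x.2 * FF zt T R r 0 (yy x.1) (yy x.2) ∂vv := by
    have i1 : IntegrableOn (fun x : E3 × E3 => (Gam0 x.1 * Gam0 x.2) *
        (c1 * T ^ (-(zt / 2)))) (S ×ˢ S) vv := (iG.mul_const _).integrableOn
    have hp : ∀ x ∈ S ×ˢ S, (Gam0 x.1 * Gam0 x.2) * (c1 * T ^ (-(zt / 2))) ≤
        Gam0 x.1 * Gam0 x.2 * FF zt T R r 0 (yy x.1) (yy x.2) := by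
      intro x hx
      have hx1 : yy x.1 ∈ Ioo (Real.sqrt T) (2 * Real.sqrt T) := hx.1
      have hx2 : yy x.2 ∈ Ioo (Real.sqrt T) (2 * Real.sqrt T) := hx.2
      have h5 := h1 T R r (yy x.1) (yy x.2) hT hT2 hR hRT hr hrT hx1.1.le hx1.2.le hx2.1.le hx2.2.le
      exact mul_le_mul_of_nonneg_left h5 (hG0 x)
    exact setIntegral_mono_on i1 iF.integrableOn (hSm.prod hSm) hp
  have s3 : ∫ x in S ×ˢ S, Gam0 x.1 * Gam0 x.2 ∂vv = (∫ x in S, Gam0 x) * ∫ x in S, Gam0 x := by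
    have e1 : ((volume : Measure E3).restrict Bl).restrict S = (volume : Measure E3).restrict S := by
      rw [Measure.restrict_restrict hSm, inter_eq_left.2 hSB]
    unfold vv
    rw [← Measure.prod_restrict, e1]
    exact integral_prod_mul Gam0 Gam0
  rw [integral_mul_const, s3] at s2
  have s4 := h2 T hT hT2
  have hT0 : 0 ≤ c2 * T ^ ((1 + mu) / 2) := mul_nonneg hc2.le (Real.rpow_nonneg hT.le _)
  have s5 : (c2 * T ^ ((1 + mu) / 2)) * (c2 * T ^ ((1 + mu) / 2)) ≤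
      (∫ x in S, Gam0 x) * ∫ x in S, Gam0 x := mul_self_le_mul_self hT0 s4
  have s6 : c1 * c2 ^ 2 * T ^ (1 - zt / 2 + mu) =
      (c2 * T ^ ((1 + mu) / 2)) * (c2 * T ^ ((1 + mu) / 2)) * (c1 * T ^ (-(zt / 2))) := by
    have e2 : T ^ (1 - zt / 2 + mu) =
        T ^ ((1 + mu) / 2) * T ^ ((1 + mu) / 2) * T ^ (-(zt / 2)) := by
      rw [← Real.rpow_add hT, ← Real.rpow_add hT]
      congr 1
      ring
    rw [e2]
    ring
  rw [s6]
  have hp : 0 ≤ c1 * T ^ (-(zt / 2)) := mul_nonneg hc1.le (Real.rpow_nonneg hT.le _)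
  exact ((mul_le_mul_of_nonneg_right s5 hp).trans s2).trans s1

end Pool.Agent.W_332fe5.Six
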