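import Pool.Agent.W_332fe5_h24.E0
import Pool.Agent.W_332fe5.O.A11c

set_option autoImplicit false

/-! Block 6, I1: integrals over the ball (`lint_yy` of O/A11c reduces functions of `y`). -/

open MeasureTheory ProbabilityTheory Set Filter Topology
open scoped ENNReal NNReal

namespace Pool.Agent.W_332fe5.Six

private theorem I1_sum {zt : ℝ} (h : 0 < zt) {a : ℝ} (ha : 0 < a) :
    ∫⁻ s in Ioo (0 : ℝ) (1 / 2), ENNReal.ofReal ((a + s) ^ (-1 - zt)) ≤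
      ENNReal.ofReal ((1 + 1 / zt) * a ^ (-zt)) := by
  have hp : 0 < a ^ (-zt) := Real.rpow_pos_of_pos ha _
  calc ∫⁻ s in Ioo (0 : ℝ) (1 / 2), ENNReal.ofReal ((a + s) ^ (-1 - zt))
      ≤ ∫⁻ s in Ioc (0 : ℝ) a ∪ Ioi a, ENNReal.ofReal ((a + s) ^ (-1 - zt)) := by
        refine lintegral_mono_set fun s hs => ?_
        rw [Ioc_union_Ioi_eq_Ioi ha.le]
        exact hs.1
    _ ≤ (∫⁻ s in Ioc (0 : ℝ) a, ENNReal.ofReal ((a + s) ^ (-1 - zt))) +
        ∫⁻ s in Ioi a, ENNReal.ofReal ((a + s) ^ (-1 - zt)) := lintegral_union_le _ _ _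
    _ ≤ (∫⁻ _ in Ioc (0 : ℝ) a, ENNReal.ofReal (a ^ (-1 - zt))) +
        ∫⁻ s in Ioi a, ENNReal.ofReal (s ^ (-zt - 1)) := by
        refine add_le_add (setLIntegral_mono' measurableSet_Ioc fun s hs => ?_)
          (setLIntegral_mono' measurableSet_Ioi fun s hs => ?_)
        · apply ENNReal.ofReal_le_ofReal
          exact Real.rpow_le_rpow_of_nonpos ha (by linarith [hs.1]) (by linarith)
        · have hs0 : a < s := hs
          apply ENNReal.ofReal_le_ofReal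
          rw [show -zt - 1 = -1 - zt by ring]
          exact Real.rpow_le_rpow_of_nonpos (ha.trans hs0) (by linarith) (by linarith)
    _ = ENNReal.ofReal (a ^ (-zt)) + ENNReal.ofReal (a ^ (-zt) / zt) := by
        rw [A11c_high h ha]
        congr 1
        rw [lintegral_const, Measure.restrict_apply_univ, Real.volume_Ioc, sub_zero,
          ← ENNReal.ofReal_mul (Real.rpow_nonneg ha.le _)]
        congr 1
        rw [show -zt = (-1 - zt) + 1 by ring, Real.rpow_add ha, Real.rpow_one]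
    _ = _ := by
        rw [← ENNReal.ofReal_add hp.le (by positivity)]
        congr 1
        ring

/-- `∫ (y₁ + y(x))^(-1-ζ) dx ≤ C y₁^(-ζ)`. -/
theorem int_sum {zt : ℝ} (h : Zt zt) : ∃ C : ℝ, 0 < C ∧ ∀ a : ℝ, 0 < a →
    ∫⁻ x in Bl, ENNReal.ofReal ((a + yy x) ^ (-1 - zt)) ≤ ENNReal.ofReal (C * a ^ (-zt)) := by
  obtain ⟨C, hC⟩ := lint_yy
  have hz : 0 < zt := h.pos
  refine ⟨(C + 1) * (1 + 1 / zt), by positivity, fun a ha => ?_⟩
  have hp : 0 < a ^ (-zt) := Real.rpow_pos_of_pos ha _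
  refine (hC (fun s => ENNReal.ofReal ((a + s) ^ (-1 - zt))) (by fun_prop)).trans ?_
  have h1 := mul_le_mul_right (I1_sum hz ha) (C : ℝ≥0∞)
  refine h1.trans ?_
  rw [← ENNReal.ofReal_coe_nnreal, ← ENNReal.ofReal_mul (NNReal.coe_nonneg C)]
  apply ENNReal.ofReal_le_ofReal
  have h2 : 0 ≤ (1 + 1 / zt) * a ^ (-zt) := by positivity
  nlinarith

private theorem I1_exp {b : ℝ} (hb : -1 < b) : ∃ C : ℝ, 0 < C ∧ ∀ R : ℝ, 0 < R →
    ∫⁻ s in Ioo (0 : ℝ) (1 / 2), ENNReal.ofReal (s ^ b * Real.exp (-s / R)) ≤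
      ENNReal.ofReal (C * R ^ (b + 1)) := by
  refine ⟨Real.Gamma (b + 1), Real.Gamma_pos_of_pos (by linarith), fun R hR => ?_⟩
  have hR' : 0 < 1 / R := by positivity
  have e1 : ∀ s : ℝ, s ^ b * Real.exp (-s / R) = s ^ b * Real.exp (-(1 / R) * s ^ (1 : ℝ)) := by
    intro s
    rw [Real.rpow_one]
    congr 2
    ring
  have hi : IntegrableOn (fun s : ℝ => s ^ b * Real.exp (-(1 / R) * s ^ (1 : ℝ))) (Ioi 0) :=
    integrableOn_rpow_mul_exp_neg_mul_rpow hb one_pos hR'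
  have hv := integral_rpow_mul_exp_neg_mul_rpow (p := 1) (q := b) (b := 1 / R) one_pos hb hR'
  calc ∫⁻ s in Ioo (0 : ℝ) (1 / 2), ENNReal.ofReal (s ^ b * Real.exp (-s / R))
      ≤ ∫⁻ s in Ioi (0 : ℝ), ENNReal.ofReal (s ^ b * Real.exp (-s / R)) :=
        lintegral_mono_set (fun s hs => hs.1 : Ioo (0 : ℝ) (1 / 2) ⊆ Ioi 0)
    _ = ENNReal.ofReal (∫ s in Ioi (0 : ℝ), s ^ b * Real.exp (-(1 / R) * s ^ (1 : ℝ))) := by
        simp only [e1]
        rw [ofReal_integral_eq_lintegral_ofReal hi]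
        filter_upwards [ae_restrict_mem measurableSet_Ioi] with s hs
        exact mul_nonneg (Real.rpow_nonneg (le_of_lt hs) _) (Real.exp_pos _).le
    _ ≤ _ := by
        rw [hv]
        apply ENNReal.ofReal_le_ofReal
        apply le_of_eq
        rw [div_one, div_one, div_one, one_div, Real.inv_rpow hR.le, ← Real.rpow_neg hR.le, neg_neg]
        ring

private theorem I1_int {b : ℝ} (hb : -1 < b) : ∃ C : ℝ, 0 < C ∧ ∀ R : ℝ, 0 < R →
    ∫⁻ x in Bl, ENNReal.ofReal (yy x ^ b * Real.exp (-yy x / R)) ≤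
      ENNReal.ofReal (C * R ^ (b + 1)) := by
  obtain ⟨C, hC⟩ := lint_yy
  obtain ⟨K, hK0, hK⟩ := I1_exp hb
  refine ⟨(C + 1) * K, by positivity, fun R hR => ?_⟩
  have hp : 0 < R ^ (b + 1) := Real.rpow_pos_of_pos hR _
  refine (hC (fun s => ENNReal.ofReal (s ^ b * Real.exp (-s / R))) (by fun_prop)).trans ?_
  refine (mul_le_mul_right (hK R hR) (C : ℝ≥0∞)).trans ?_
  rw [← ENNReal.ofReal_coe_nnreal, ← ENNReal.ofReal_mul (NNReal.coe_nonneg C)]
  apply ENNReal.ofReal_le_ofReal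
  have h2 : 0 ≤ K * R ^ (b + 1) := by positivity
  nlinarith

private theorem I1_sqrt {T : ℝ} (hT : 0 < T) (c : ℝ) : Real.sqrt T ^ c = T ^ (c / 2) := by
  rw [Real.sqrt_eq_rpow, ← Real.rpow_mul hT.le]
  congr 1
  ring

/-- `∫ y^(3/2 - 2ζ) e^(-2y/√T) dx ≤ C T^((5/2 - 2ζ)/2)` (`3/2 - 2ζ > -1`). -/
theorem int_drift {zt : ℝ} (h : Zt zt) : ∃ C : ℝ, 0 < C ∧ ∀ T : ℝ, 0 < T → T ≤ 1 →
    ∫⁻ x in Bl, ENNReal.ofReal (yy x ^ (3 / 2 - 2 * zt) * Real.exp (-2 * yy x / Real.sqrt T)) ≤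
      ENNReal.ofReal (C * T ^ (5 / 4 - zt)) := by
  have h1 := h.z1
  have h2 := h.z2
  obtain ⟨C, hC0, hC⟩ := I1_int (b := 3 / 2 - 2 * zt) (by linarith)
  refine ⟨C, hC0, fun T hT _ => ?_⟩
  have hs : 0 < Real.sqrt T := Real.sqrt_pos.2 hT
  have h3 := hC (Real.sqrt T / 2) (by positivity)
  have e1 : ∀ x : E3, -yy x / (Real.sqrt T / 2) = -2 * yy x / Real.sqrt T := by
    intro x
    field_simp
  simp only [e1] at h3
  refine h3.trans (ENNReal.ofReal_le_ofReal ?_)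
  refine mul_le_mul_of_nonneg_left ?_ hC0.le
  have h4 : (Real.sqrt T / 2) ^ (3 / 2 - 2 * zt + 1) ≤ Real.sqrt T ^ (3 / 2 - 2 * zt + 1) :=
    Real.rpow_le_rpow (by positivity) (by linarith) (by linarith)
  refine h4.trans (le_of_eq ?_)
  rw [I1_sqrt hT]
  congr 1
  ring

/-- `∫ y^(-2ζ/3) e^(-y/√T) dx ≤ C T^((1 - 2ζ/3)/2)` (`2ζ/3 < 1`). -/
theorem int_stopw {zt : ℝ} (h : Zt zt) : ∃ C : ℝ, 0 < C ∧ ∀ T : ℝ, 0 < T → T ≤ 1 →
    ∫⁻ x in Bl, ENNReal.ofReal (yy x ^ (-(2 * zt / 3)) * Real.exp (-yy x / Real.sqrt T)) ≤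
      ENNReal.ofReal (C * T ^ (1 / 2 - zt / 3)) := by
  have h1 := h.z1
  have h2 := h.z2
  obtain ⟨C, hC0, hC⟩ := I1_int (b := -(2 * zt / 3)) (by linarith)
  refine ⟨C, hC0, fun T hT _ => ?_⟩
  have hs : 0 < Real.sqrt T := Real.sqrt_pos.2 hT
  refine (hC (Real.sqrt T) hs).trans (ENNReal.ofReal_le_ofReal ?_)
  rw [I1_sqrt hT]
  apply le_of_eq
  congr 2
  ring

/-- Stopped value: `(∫ |g| y^(-ζ/2) e^(-y/√T))² ≤ C T^(3/4 - ζ/2) (∫ g⁴ e^(-y/√T))^(1/2)`.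
Hölder with exponents 4, 4/3 (`ENNReal.lintegral_mul_le_Lp_mul_Lq`):
`|g| y^(-ζ/2) e^(-y/√T) = (|g| e^(-y/(4√T))) (y^(-ζ/2) e^(-3y/(4√T)))`. -/
theorem stop_holder {zt : ℝ} (h : Zt zt) : ∃ C : ℝ, 0 < C ∧ ∀ T : ℝ, 0 < T → T ≤ 1 →
    ∀ g : E3 → ℝ, Measurable g →
    (∫⁻ x in Bl, ENNReal.ofReal (|g x| * yy x ^ (-(zt / 2)) * Real.exp (-yy x / Real.sqrt T))) ^ 2 ≤
      ENNReal.ofReal (C * T ^ (3 / 4 - zt / 2)) *
        (∫⁻ x in Bl, ENNReal.ofReal (g x ^ 4 * Real.exp (-yy x / Real.sqrt T))) ^ (1 / 2 : ℝ) := by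
  obtain ⟨C, hC0, hC⟩ := int_stopw h
  refine ⟨C ^ (3 / 2 : ℝ), Real.rpow_pos_of_pos hC0 _, fun T hT hT1 g hg => ?_⟩
  have hs : 0 < Real.sqrt T := Real.sqrt_pos.2 hT
  have hBl : MeasurableSet Bl := Metric.isOpen_ball.measurableSet
  obtain ⟨f₁, hf₁⟩ : ∃ f : E3 → ℝ≥0∞, f = fun x =>
      ENNReal.ofReal (|g x| * Real.exp (-yy x / (4 * Real.sqrt T))) := ⟨_, rfl⟩
  obtain ⟨f₂, hf₂⟩ : ∃ f : E3 → ℝ≥0∞, f = fun x =>
      ENNReal.ofReal (yy x ^ (-(zt / 2)) * Real.exp (-3 * yy x / (4 * Real.sqrt T))) := ⟨_, rfl⟩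
  have m1 : Measurable f₁ := by
    rw [hf₁]
    refine Measurable.ennreal_ofReal (Measurable.mul ?_ ?_)
    · simpa using hg.norm
    · exact Real.measurable_exp.comp ((yy_meas.neg).div_const _)
  have m2 : Measurable f₂ := by
    rw [hf₂]
    refine Measurable.ennreal_ofReal (Measurable.mul ?_ ?_)
    · exact yy_meas.pow_const _
    · exact Real.measurable_exp.comp ((yy_meas.const_mul _).div_const _)
  have hpq : (4 : ℝ).HolderConjugate (4 / 3) :=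
    Real.holderConjugate_iff.2 ⟨by norm_num, by norm_num⟩
  have hH := ENNReal.lintegral_mul_le_Lp_mul_Lq ((volume : Measure E3).restrict Bl) hpq
    m1.aemeasurable m2.aemeasurable
  have e0 : ∫⁻ x in Bl, ENNReal.ofReal (|g x| * yy x ^ (-(zt / 2)) *
      Real.exp (-yy x / Real.sqrt T)) = ∫⁻ x in Bl, (f₁ * f₂) x := by
    refine setLIntegral_congr_fun hBl fun x hx => ?_
    show ENNReal.ofReal _ = f₁ x * f₂ x
    rw [hf₁, hf₂]
    beta_reduce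
    rw [← ENNReal.ofReal_mul (by positivity)]
    congr 1
    have e : Real.exp (-yy x / Real.sqrt T) = Real.exp (-yy x / (4 * Real.sqrt T)) *
        Real.exp (-3 * yy x / (4 * Real.sqrt T)) := by
      rw [← Real.exp_add]
      congr 1
      field_simp
      ring
    rw [e]
    ring
  have e1 : ∫⁻ x in Bl, f₁ x ^ (4 : ℝ) =
      ∫⁻ x in Bl, ENNReal.ofReal (g x ^ 4 * Real.exp (-yy x / Real.sqrt T)) := by
    refine setLIntegral_congr_fun hBl fun x hx => ?_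
    rw [hf₁]
    beta_reduce
    rw [ENNReal.ofReal_rpow_of_nonneg (by positivity) (by norm_num),
      show (4 : ℝ) = ((4 : ℕ) : ℝ) by norm_num, Real.rpow_natCast, mul_pow, ← Real.exp_nat_mul]
    congr 1
    congr 1
    · rw [← abs_pow, abs_of_nonneg (by positivity)]
    · congr 1
      push_cast
      field_simp
  have e2 : ∫⁻ x in Bl, f₂ x ^ (4 / 3 : ℝ) =
      ∫⁻ x in Bl, ENNReal.ofReal (yy x ^ (-(2 * zt / 3)) * Real.exp (-yy x / Real.sqrt T)) := by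
    refine setLIntegral_congr_fun hBl fun x hx => ?_
    have hy : 0 < yy x := (E0_yy hx).1
    rw [hf₂]
    beta_reduce
    rw [ENNReal.ofReal_rpow_of_nonneg (by positivity) (by norm_num),
      Real.mul_rpow (by positivity) (by positivity), ← Real.rpow_mul hy.le, ← Real.exp_mul]
    congr 1
    congr 1
    · congr 1
      ring
    · congr 1
      field_simp
  rw [e0]
  rw [e1, e2] at hH
  obtain ⟨A, hA⟩ : ∃ A, A = ∫⁻ x in Bl, ENNReal.ofReal (g x ^ 4 *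
    Real.exp (-yy x / Real.sqrt T)) := ⟨_, rfl⟩
  rw [← hA] at hH ⊢
  have h3 : ∫⁻ x in Bl, (f₁ * f₂) x ≤
      A ^ (1 / 4 : ℝ) * (ENNReal.ofReal (C * T ^ (1 / 2 - zt / 3))) ^ (3 / 4 : ℝ) := by
    refine hH.trans ?_
    rw [show (1 / (4 / 3) : ℝ) = 3 / 4 by norm_num]
    exact mul_le_mul_right (ENNReal.rpow_le_rpow (hC T hT hT1) (by norm_num)) _
  have hT' : 0 < T ^ (1 / 2 - zt / 3) := Real.rpow_pos_of_pos hT _
  calc (∫⁻ x in Bl, (f₁ * f₂) x) ^ 2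
      ≤ (A ^ (1 / 4 : ℝ) * (ENNReal.ofReal (C * T ^ (1 / 2 - zt / 3))) ^ (3 / 4 : ℝ)) ^ 2 := by
        gcongr
    _ = A ^ (1 / 2 : ℝ) * (ENNReal.ofReal (C * T ^ (1 / 2 - zt / 3))) ^ (3 / 2 : ℝ) := by
        rw [mul_pow, ← ENNReal.rpow_natCast, ← ENNReal.rpow_natCast, ← ENNReal.rpow_mul,
          ← ENNReal.rpow_mul]
        norm_num
    _ = _ := by
        rw [mul_comm]
        congr 1
        rw [ENNReal.ofReal_rpow_of_nonneg (by positivity) (by norm_num),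
          Real.mul_rpow hC0.le hT'.le, ← Real.rpow_mul hT.le]
        congr 3
        ring

end Pool.Agent.W_332fe5.Six
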