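import Pool.Agent.W_332fe5_h24.C4
import Pool.Agent.W_332fe5_h24.I1

set_option autoImplicit false

/-! Block 6, M2: the stopped value. -/

open MeasureTheory ProbabilityTheory Set Filter Topology
open scoped ENNReal NNReal

namespace Pool.Agent.W_332fe5.Six

private theorem M2_kp {r y : ℝ} (hr : 0 < r) (hy : y ≤ 0 ∨ 1 / 2 ≤ y) : kp r y = 0 := by
  unfold kp
  rcases hy with hy | hy
  · rw [Real.smoothTransition.zero_of_nonpos, zero_mul]
    have : y / r ≤ 0 := div_nonpos_of_nonpos_of_nonneg hy hr.le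
    linarith
  · rw [Real.smoothTransition.zero_of_nonpos (x := 3 - 16 * y) (by linarith), mul_zero]

private theorem M2_left {zt T R r t a b : ℝ} (hr : 0 < r) (ha : a ≤ 0 ∨ 1 / 2 ≤ a) :
    FF zt T R r t a b = 0 := by
  unfold FF PK
  simp [M2_kp hr ha]

private theorem M2_right {zt T R r t a b : ℝ} (hr : 0 < r) (hb : b ≤ 0 ∨ 1 / 2 ≤ b) :
    FF zt T R r t a b = 0 := by
  unfold FF PK
  simp [M2_kp hr hb]

/-- Cauchy-Schwarz on an event. -/
private theorem M2_cs {Ω : Type} [MeasurableSpace Ω] {P : Measure Ω} {S : Ω → ℝ}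
    (hS : Measurable S) {T : ℝ} {I : Ω → ℝ≥0∞} (hI : Measurable I) :
    ∫⁻ ω, (if S ω ≤ T then I ω ^ (1 / 2 : ℝ) else 0) ∂P ≤
      P {ω | S ω ≤ T} ^ (1 / 2 : ℝ) * (∫⁻ ω, I ω ∂P) ^ (1 / 2 : ℝ) := by
  have hm : MeasurableSet {ω | S ω ≤ T} := measurableSet_le hS measurable_const
  have h1 := ENNReal.lintegral_mul_le_Lp_mul_Lq P Real.HolderConjugate.two_two
    (f := {ω | S ω ≤ T}.indicator fun _ => (1 : ℝ≥0∞)) (g := fun ω => I ω ^ (1 / 2 : ℝ))
    (measurable_const.indicator hm).aemeasurable (hI.pow_const _).aemeasurable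
  have e1 : ∀ ω, ((({ω | S ω ≤ T}.indicator fun _ => (1 : ℝ≥0∞)) *
      fun ω => I ω ^ (1 / 2 : ℝ)) ω) = if S ω ≤ T then I ω ^ (1 / 2 : ℝ) else 0 := by
    intro ω
    by_cases h : S ω ≤ T <;> simp [indicator, h]
  have e2 : ∀ ω, ({ω | S ω ≤ T}.indicator (fun _ => (1 : ℝ≥0∞)) ω) ^ (2 : ℝ) =
      {ω | S ω ≤ T}.indicator (fun _ => (1 : ℝ≥0∞)) ω := by
    intro ω
    by_cases h : S ω ≤ T <;> simp [indicator, h]
  have e3 : ∀ ω, (I ω ^ (1 / 2 : ℝ)) ^ (2 : ℝ) = I ω := by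
    intro ω
    rw [← ENNReal.rpow_mul]
    norm_num
  rw [lintegral_congr e1, lintegral_congr e2, lintegral_congr e3,
    lintegral_indicator hm, setLIntegral_one] at h1
  exact h1

/-- The stopped value: `FF_upper`, `stop_holder` for each `ω`, then Cauchy-Schwarz in `ω`. -/
theorem m_stop {zt : ℝ} (h : Zt zt) : ∃ C : ℝ, 0 < C ∧ ∀ T R r : ℝ, 0 < T → T ≤ 1 → 0 < R →
    R ^ 2 ≤ T → 0 < r → ∀ D : TwoPt zt T,
    ∫⁻ q : D.Ω × (E3 × E3), ENNReal.ofReal |if D.S q.1 ≤ T then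
      D.G q.1 q.2.1 * D.G q.1 q.2.2 * FF zt T R r (D.S q.1) (yy q.2.1) (yy q.2.2) else 0|
      ∂(D.P.prod vv) ≤
    ENNReal.ofReal (C * T ^ (3 / 4 - zt / 2)) * D.P {ω | D.S ω ≤ T} ^ (1 / 2 : ℝ) *
      D.fourInt ^ (1 / 2 : ℝ) := by
  obtain ⟨C1, hC1, hF⟩ := FF_upper h
  obtain ⟨C2, hC2, hH⟩ := stop_holder h
  refine ⟨C1 * C2, by positivity, ?_⟩
  intro T R r hT hT1 hR hRT hr D
  obtain ⟨g, hg⟩ : ∃ g : D.Ω → E3 → ℝ≥0∞, g = fun ω x =>
    ENNReal.ofReal (|D.G ω x| * yy x ^ (-(zt / 2)) * Real.exp (-yy x / Real.sqrt T)) := ⟨_, rfl⟩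
  have hyy : Measurable yy := by unfold yy; fun_prop
  have hgm : Measurable fun q : D.Ω × E3 => g q.1 q.2 := by
    rw [hg]
    have h1 : Measurable fun q : D.Ω × E3 => yy q.2 := hyy.comp measurable_snd
    exact (((D.G_meas.abs).mul (h1.pow_const _)).mul
      (Real.measurable_exp.comp (h1.neg.div_const _))).ennreal_ofReal
  have hgω : ∀ ω, Measurable (g ω) := fun ω => hgm.comp measurable_prodMk_left
  -- the pointwise bound
  have hpt : ∀ q : D.Ω × (E3 × E3), ENNReal.ofReal |if D.S q.1 ≤ T then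
      D.G q.1 q.2.1 * D.G q.1 q.2.2 * FF zt T R r (D.S q.1) (yy q.2.1) (yy q.2.2) else 0| ≤
      if D.S q.1 ≤ T then ENNReal.ofReal C1 * (g q.1 q.2.1 * g q.1 q.2.2) else 0 := by
    intro q
    by_cases hS : D.S q.1 ≤ T
    · rw [if_pos hS, if_pos hS]
      by_cases ha : 0 < yy q.2.1 ∧ yy q.2.1 < 1 / 2
      · by_cases hb : 0 < yy q.2.2 ∧ yy q.2.2 < 1 / 2
        · have h1 := hF T R r (D.S q.1) _ _ hT hR hRT hr ha.1 ha.2 hb.1 hb.2
          have h2 := FF_nonneg h hT hR hr (D.S q.1) (yy q.2.1) (yy q.2.2)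
          rw [hg, ← ENNReal.ofReal_mul (by have := ha.1; positivity),
            ← ENNReal.ofReal_mul hC1.le]
          apply ENNReal.ofReal_le_ofReal
          rw [abs_mul, abs_mul, abs_of_nonneg h2]
          have e1 : (yy q.2.1 * yy q.2.2) ^ (-(zt / 2)) =
              yy q.2.1 ^ (-(zt / 2)) * yy q.2.2 ^ (-(zt / 2)) :=
            Real.mul_rpow ha.1.le hb.1.le
          have e2 : Real.exp (-(yy q.2.1 + yy q.2.2) / Real.sqrt T) =
              Real.exp (-yy q.2.1 / Real.sqrt T) * Real.exp (-yy q.2.2 / Real.sqrt T) := by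
            rw [← Real.exp_add]
            congr 1
            ring
          rw [e1, e2] at h1
          refine (mul_le_mul_of_nonneg_left h1 (by positivity)).trans (le_of_eq ?_)
          ring
        · have hb' : yy q.2.2 ≤ 0 ∨ 1 / 2 ≤ yy q.2.2 := by
            by_contra hc
            push Not at hc
            exact hb hc
          rw [M2_right hr hb']
          simp
      · have ha' : yy q.2.1 ≤ 0 ∨ 1 / 2 ≤ yy q.2.1 := by
          by_contra hc
          push Not at hc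
          exact ha hc
        rw [M2_left hr ha']
        simp
    · rw [if_neg hS, if_neg hS]
      simp
  have hSm : MeasurableSet {ω | D.S ω ≤ T} := measurableSet_le D.S_meas measurable_const
  have hm2 : Measurable fun q : D.Ω × (E3 × E3) =>
      if D.S q.1 ≤ T then ENNReal.ofReal C1 * (g q.1 q.2.1 * g q.1 q.2.2) else 0 := by
    refine Measurable.ite (measurable_fst hSm) (measurable_const.mul ?_) measurable_const
    refine Measurable.mul ?_ ?_
    · exact hgm.comp (measurable_fst.prodMk (measurable_fst.comp measurable_snd))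
    · exact hgm.comp (measurable_fst.prodMk (measurable_snd.comp measurable_snd))
  obtain ⟨I, hI⟩ : ∃ I : D.Ω → ℝ≥0∞, I = fun ω => ∫⁻ x in Bl,
    ENNReal.ofReal (D.G ω x ^ 4 * Real.exp (-yy x / Real.sqrt T)) := ⟨_, rfl⟩
  have hIm : Measurable I := by
    rw [hI]
    have h1 : Measurable fun q : D.Ω × E3 => yy q.2 := hyy.comp measurable_snd
    have h2 : Measurable fun q : D.Ω × E3 =>
        ENNReal.ofReal (D.G q.1 q.2 ^ 4 * Real.exp (-yy q.2 / Real.sqrt T)) :=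
      ((D.G_meas.pow_const 4).mul
        (Real.measurable_exp.comp (h1.neg.div_const _))).ennreal_ofReal
    exact h2.lintegral_prod_right'
  have hin : ∀ ω, ∫⁻ p : E3 × E3, g ω p.1 * g ω p.2 ∂vv = (∫⁻ x in Bl, g ω x) ^ 2 := by
    intro ω
    unfold vv
    rw [lintegral_prod_mul (hgω ω).aemeasurable (hgω ω).aemeasurable, sq]
  calc ∫⁻ q : D.Ω × (E3 × E3), ENNReal.ofReal |if D.S q.1 ≤ T then
      D.G q.1 q.2.1 * D.G q.1 q.2.2 * FF zt T R r (D.S q.1) (yy q.2.1) (yy q.2.2) else 0|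
      ∂(D.P.prod vv)
      ≤ ∫⁻ q : D.Ω × (E3 × E3), (if D.S q.1 ≤ T then
          ENNReal.ofReal C1 * (g q.1 q.2.1 * g q.1 q.2.2) else 0) ∂(D.P.prod vv) :=
        lintegral_mono hpt
    _ = ∫⁻ ω, (∫⁻ p : E3 × E3, (if D.S ω ≤ T then
          ENNReal.ofReal C1 * (g ω p.1 * g ω p.2) else 0) ∂vv) ∂D.P := by
        have : SFinite vv := by unfold vv; infer_instance
        rw [lintegral_prod _ hm2.aemeasurable]
    _ ≤ ∫⁻ ω, ENNReal.ofReal (C1 * C2 * T ^ (3 / 4 - zt / 2)) *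
          (if D.S ω ≤ T then I ω ^ (1 / 2 : ℝ) else 0) ∂D.P := by
        refine lintegral_mono fun ω => ?_
        by_cases hS : D.S ω ≤ T
        · simp only [if_pos hS]
          rw [lintegral_const_mul' _ _ ENNReal.ofReal_ne_top, hin ω, mul_assoc C1 C2,
            ENNReal.ofReal_mul hC1.le, mul_assoc]
          refine mul_le_mul' le_rfl ?_
          have h3 := hH T hT hT1 (D.G ω) (D.G_meas.comp measurable_prodMk_left)
          rw [hg, hI]
          exact h3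
        · simp only [if_neg hS]
          simp
    _ = ENNReal.ofReal (C1 * C2 * T ^ (3 / 4 - zt / 2)) *
          ∫⁻ ω, (if D.S ω ≤ T then I ω ^ (1 / 2 : ℝ) else 0) ∂D.P :=
        lintegral_const_mul' _ _ ENNReal.ofReal_ne_top
    _ ≤ ENNReal.ofReal (C1 * C2 * T ^ (3 / 4 - zt / 2)) *
          (D.P {ω | D.S ω ≤ T} ^ (1 / 2 : ℝ) * (∫⁻ ω, I ω ∂D.P) ^ (1 / 2 : ℝ)) :=
        mul_le_mul' le_rfl (M2_cs D.S_meas hIm)
    _ = ENNReal.ofReal (C1 * C2 * T ^ (3 / 4 - zt / 2)) * D.P {ω | D.S ω ≤ T} ^ (1 / 2 : ℝ) *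
          D.fourInt ^ (1 / 2 : ℝ) := by
        rw [← mul_assoc, hI]
        rfl

end Pool.Agent.W_332fe5.Six
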