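import Pool.Agent.W_332fe5_h24.D0

set_option autoImplicit false

/-! Block 6, C1: the cutoffs. -/

open MeasureTheory ProbabilityTheory Set Filter Topology
open scoped ENNReal NNReal

namespace Pool.Agent.W_332fe5.Six

theorem C1_sm : ContDiff ℝ ((⊤ : ℕ∞) : WithTop ℕ∞) Real.smoothTransition :=
  Real.smoothTransition.contDiff

theorem C1_const {f : ℝ → ℝ} (hf : ContDiff ℝ ((⊤ : ℕ∞) : WithTop ℕ∞) f) {U : Set ℝ}
    (hU : IsOpen U) {c : ℝ} (h : ∀ y ∈ U, f y = c) {y : ℝ} (hy : y ∈ closure U) :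
    deriv f y = 0 := by
  have hc : IsClosed {y | deriv f y = 0} :=
    isClosed_eq (hf.continuous_deriv (by simp)) continuous_const
  have hs : U ⊆ {y | deriv f y = 0} := by
    intro z hz
    have e : f =ᶠ[𝓝 z] fun _ => c := by
      filter_upwards [hU.mem_nhds hz] with w hw
      exact h w hw
    rw [mem_ofPred_eq, e.deriv_eq]
    simp
  exact closure_minimal hs hc hy

theorem C1_deriv_sm {f : ℝ → ℝ} (hf : ContDiff ℝ ((⊤ : ℕ∞) : WithTop ℕ∞) f) :
    ContDiff ℝ ((⊤ : ℕ∞) : WithTop ℕ∞) (deriv f) := by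
  have := contDiff_infty_iff_deriv.1 hf
  exact this.2

/-- First and second derivatives vanish on the closure of an open set of constancy. -/
theorem C1_const2 {f : ℝ → ℝ} (hf : ContDiff ℝ ((⊤ : ℕ∞) : WithTop ℕ∞) f) {U : Set ℝ}
    (hU : IsOpen U) {c : ℝ} (h : ∀ y ∈ U, f y = c) {y : ℝ} (hy : y ∈ closure U) :
    deriv f y = 0 ∧ deriv (deriv f) y = 0 :=
  ⟨C1_const hf hU h hy, C1_const (C1_deriv_sm hf) hU
    (fun _ hz => C1_const hf hU h (subset_closure hz)) hy⟩

theorem C1_s_zero {t : ℝ} (h : t ≤ 0 ∨ 1 ≤ t) :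
    deriv Real.smoothTransition t = 0 ∧ deriv (deriv Real.smoothTransition) t = 0 := by
  rcases h with h | h
  · refine C1_const2 C1_sm (isOpen_Iio (a := (0 : ℝ)))
      (fun y hy => Real.smoothTransition.zero_of_nonpos (le_of_lt hy)) ?_
    rw [closure_Iio]
    exact h
  · refine C1_const2 C1_sm (isOpen_Ioi (a := (1 : ℝ)))
      (fun y hy => Real.smoothTransition.one_of_one_le (le_of_lt hy)) ?_
    rw [closure_Ioi]
    exact h

theorem C1_s_bound : ∃ M : ℝ, 0 < M ∧ ∀ t : ℝ, |deriv Real.smoothTransition t| ≤ M ∧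
    |deriv (deriv Real.smoothTransition) t| ≤ M := by
  obtain ⟨A, hA⟩ := (isCompact_Icc (a := (0 : ℝ)) (b := 1)).exists_bound_of_continuousOn
    (C1_sm.continuous_deriv (by simp)).continuousOn
  obtain ⟨B, hB⟩ := (isCompact_Icc (a := (0 : ℝ)) (b := 1)).exists_bound_of_continuousOn
    ((C1_deriv_sm C1_sm).continuous_deriv (by simp)).continuousOn
  refine ⟨|A| + |B| + 1, by positivity, fun t => ?_⟩
  by_cases ht : t ∈ Icc (0 : ℝ) 1
  · have h1 := hA t ht
    have h2 := hB t ht
    rw [Real.norm_eq_abs] at h1 h2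
    have h3 := le_abs_self A
    have h4 := le_abs_self B
    have h5 := abs_nonneg A
    have h6 := abs_nonneg B
    constructor <;> linarith
  · have h0 : t ≤ 0 ∨ 1 ≤ t := by
      by_contra hcon
      push Not at hcon
      exact ht ⟨hcon.1.le, hcon.2.le⟩
    obtain ⟨h1, h2⟩ := C1_s_zero h0
    rw [h1, h2, abs_zero]
    constructor <;> positivity

theorem kp_smooth (r : ℝ) : ContDiff ℝ ((⊤ : ℕ∞) : WithTop ℕ∞) (kp r) := by
  refine ContDiff.mul (C1_sm.comp ?_) (C1_sm.comp ?_)
  · exact (contDiff_id.div_const r).sub contDiff_const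
  · exact contDiff_const.sub (contDiff_const.mul contDiff_id)

theorem kp_nonneg (r y : ℝ) : 0 ≤ kp r y :=
  mul_nonneg (Real.smoothTransition.nonneg _) (Real.smoothTransition.nonneg _)

theorem kp_le_one (r y : ℝ) : kp r y ≤ 1 :=
  mul_le_one₀ (Real.smoothTransition.le_one _) (Real.smoothTransition.nonneg _)
    (Real.smoothTransition.le_one _)

theorem kp_zero {r y : ℝ} (hr : 0 < r) (h : y ≤ r ∨ 3 / 16 ≤ y) : kp r y = 0 := by
  unfold kp
  rcases h with h | h
  · rw [Real.smoothTransition.zero_of_nonpos (x := y / r - 1), zero_mul]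
    have : y / r ≤ 1 := (div_le_one hr).2 h
    linarith
  · rw [Real.smoothTransition.zero_of_nonpos (x := 3 - 16 * y), mul_zero]
    linarith

theorem kp_one {r y : ℝ} (hr : 0 < r) (h1 : 2 * r ≤ y) (h2 : y ≤ 1 / 8) : kp r y = 1 := by
  unfold kp
  rw [Real.smoothTransition.one_of_one_le, Real.smoothTransition.one_of_one_le, mul_one]
  · linarith
  · have : 2 ≤ y / r := (le_div_iff₀ hr).2 h1
    linarith

/-- Joint measurability in `(r, y)` is not needed; `r` is fixed. -/
theorem kp_deriv_zero {r y : ℝ} (hr : 0 < r) (h : y ≤ r ∨ 3 / 16 ≤ y) :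
    deriv (kp r) y = 0 ∧ deriv (deriv (kp r)) y = 0 := by
  rcases h with h | h
  · refine C1_const2 (kp_smooth r) (isOpen_Iio (a := r))
      (fun z hz => kp_zero hr (Or.inl (le_of_lt hz))) ?_
    rw [closure_Iio]
    exact h
  · refine C1_const2 (kp_smooth r) (isOpen_Ioi (a := (3 / 16 : ℝ)))
      (fun z hz => kp_zero hr (Or.inr (le_of_lt hz))) ?_
    rw [closure_Ioi]
    exact h

theorem C1_hasDeriv_lin {f : ℝ → ℝ} (hf : ContDiff ℝ ((⊤ : ℕ∞) : WithTop ℕ∞) f)
    (a b y : ℝ) : HasDerivAt (fun y => f (a * y + b)) (a * deriv f (a * y + b)) y := by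
  have h1 : HasDerivAt f (deriv f (a * y + b)) (a * y + b) :=
    ((hf.differentiable (by simp)) _).hasDerivAt
  have h2 : HasDerivAt (fun y : ℝ => a * y + b) a y := by
    simpa using ((hasDerivAt_id y).const_mul a).add_const b
  have h3 := h1.comp y h2
  rw [mul_comm] at h3
  exact h3

theorem C1_kp_deriv (r y : ℝ) : deriv (kp r) y =
    r⁻¹ * deriv Real.smoothTransition (r⁻¹ * y + -1) * Real.smoothTransition (-16 * y + 3) +
    Real.smoothTransition (r⁻¹ * y + -1) * (-16 * deriv Real.smoothTransition (-16 * y + 3)) := by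
  have e : kp r = fun y => Real.smoothTransition (r⁻¹ * y + -1) *
      Real.smoothTransition (-16 * y + 3) := by
    funext z
    unfold kp
    congr 2
    · ring
    · ring
  rw [e]
  exact ((C1_hasDeriv_lin C1_sm r⁻¹ (-1) y).mul (C1_hasDeriv_lin C1_sm (-16) 3 y)).deriv

theorem C1_kp_deriv2 (r y : ℝ) : deriv (deriv (kp r)) y =
    (r⁻¹ * (r⁻¹ * deriv (deriv Real.smoothTransition) (r⁻¹ * y + -1))) *
      Real.smoothTransition (-16 * y + 3) +
    (r⁻¹ * deriv Real.smoothTransition (r⁻¹ * y + -1)) *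
      (-16 * deriv Real.smoothTransition (-16 * y + 3)) +
    ((r⁻¹ * deriv Real.smoothTransition (r⁻¹ * y + -1)) *
      (-16 * deriv Real.smoothTransition (-16 * y + 3)) +
    Real.smoothTransition (r⁻¹ * y + -1) *
      (-16 * (-16 * deriv (deriv Real.smoothTransition) (-16 * y + 3)))) := by
  have e : deriv (kp r) = fun y =>
      (r⁻¹ * deriv Real.smoothTransition (r⁻¹ * y + -1)) * Real.smoothTransition (-16 * y + 3) +
      Real.smoothTransition (r⁻¹ * y + -1) *
        (-16 * deriv Real.smoothTransition (-16 * y + 3)) := funext (C1_kp_deriv r)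
  rw [e]
  have a0 := C1_hasDeriv_lin C1_sm r⁻¹ (-1) y
  have b0 := C1_hasDeriv_lin C1_sm (-16) 3 y
  have a1 := (C1_hasDeriv_lin (C1_deriv_sm C1_sm) r⁻¹ (-1) y).const_mul r⁻¹
  have b1 := (C1_hasDeriv_lin (C1_deriv_sm C1_sm) (-16) 3 y).const_mul (-16)
  exact ((a1.mul b0).add (a0.mul b1)).deriv

/-- Bounds of the derivatives of the cutoff; for `r ≤ 1/32` the two transition regions
`[r, 2r]` and `[1/8, 3/16]` are disjoint. -/
theorem kp_deriv_bound : ∃ C : ℝ, 0 < C ∧ ∀ r y : ℝ, 0 < r → r ≤ 1 / 32 →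
    |deriv (kp r) y| ≤ C * ((if 1 / 8 ≤ y ∧ y ≤ 3 / 16 then 1 else 0) +
      (if r ≤ y ∧ y ≤ 2 * r then 1 / r else 0)) ∧
    |deriv (deriv (kp r)) y| ≤ C * ((if 1 / 8 ≤ y ∧ y ≤ 3 / 16 then 1 else 0) +
      (if r ≤ y ∧ y ≤ 2 * r then 1 / r ^ 2 else 0)) := by
  obtain ⟨M, hM, hb⟩ := C1_s_bound
  refine ⟨256 * M, by positivity, fun r y hr hr2 => ?_⟩
  have hri : 0 < r⁻¹ := inv_pos.2 hr
  have s1 : ∀ t, |Real.smoothTransition t| ≤ 1 := fun t => by
    rw [abs_of_nonneg (Real.smoothTransition.nonneg t)]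
    exact Real.smoothTransition.le_one t
  -- outside the transition regions the derivatives of the factors vanish
  have zA : ¬(r ≤ y ∧ y ≤ 2 * r) → deriv Real.smoothTransition (r⁻¹ * y + -1) = 0 ∧
      deriv (deriv Real.smoothTransition) (r⁻¹ * y + -1) = 0 := by
    intro h
    apply C1_s_zero
    by_cases h1 : r ≤ y
    · right
      have h2 : 2 * r < y := by
        by_contra hcon
        exact h ⟨h1, not_lt.1 hcon⟩
      have h3 : 2 ≤ r⁻¹ * y := by
        rw [inv_mul_eq_div, le_div_iff₀ hr]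
        linarith
      linarith
    · left
      have h3 : r⁻¹ * y ≤ 1 := by
        rw [inv_mul_eq_div, div_le_one hr]
        linarith
      linarith
  have zB : ¬(1 / 8 ≤ y ∧ y ≤ 3 / 16) → deriv Real.smoothTransition (-16 * y + 3) = 0 ∧
      deriv (deriv Real.smoothTransition) (-16 * y + 3) = 0 := by
    intro h
    apply C1_s_zero
    by_cases h1 : 1 / 8 ≤ y
    · left
      have h2 : 3 / 16 < y := by
        by_contra hcon
        exact h ⟨h1, not_lt.1 hcon⟩
      linarith
    · right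
      linarith
  rw [C1_kp_deriv, C1_kp_deriv2]
  obtain ⟨bA1, bA2⟩ := hb (r⁻¹ * y + -1)
  obtain ⟨bB1, bB2⟩ := hb (-16 * y + 3)
  have sA := s1 (r⁻¹ * y + -1)
  have sB := s1 (-16 * y + 3)
  by_cases hA : r ≤ y ∧ y ≤ 2 * r
  · have hB : ¬(1 / 8 ≤ y ∧ y ≤ 3 / 16) := by
      intro h
      linarith [hA.2, h.1]
    obtain ⟨z1, z2⟩ := zB hB
    rw [z1, z2, if_neg hB, if_pos hA, if_pos hA]
    simp only [mul_zero, add_zero, zero_add]
    constructor
    · rw [abs_mul, abs_mul, abs_of_pos hri, one_div]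
      have h1 : |deriv Real.smoothTransition (r⁻¹ * y + -1)| *
          |Real.smoothTransition (-16 * y + 3)| ≤ M * 1 :=
        mul_le_mul bA1 sB (abs_nonneg _) hM.le
      calc r⁻¹ * |deriv Real.smoothTransition (r⁻¹ * y + -1)| *
            |Real.smoothTransition (-16 * y + 3)|
          = r⁻¹ * (|deriv Real.smoothTransition (r⁻¹ * y + -1)| *
            |Real.smoothTransition (-16 * y + 3)|) := by ring
        _ ≤ r⁻¹ * (M * 1) := mul_le_mul_of_nonneg_left h1 hri.le
        _ ≤ 256 * M * r⁻¹ := by nlinarith [mul_pos hM hri]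
    · rw [abs_mul, abs_mul, abs_mul, abs_of_pos hri, one_div]
      have h1 : |deriv (deriv Real.smoothTransition) (r⁻¹ * y + -1)| *
          |Real.smoothTransition (-16 * y + 3)| ≤ M * 1 :=
        mul_le_mul bA2 sB (abs_nonneg _) hM.le
      have hr3 : (r ^ 2)⁻¹ = r⁻¹ * r⁻¹ := by
        rw [sq, mul_inv]
      have hr4 : 0 < r⁻¹ * r⁻¹ := mul_pos hri hri
      rw [hr3]
      calc r⁻¹ * (r⁻¹ * |deriv (deriv Real.smoothTransition) (r⁻¹ * y + -1)|) *
            |Real.smoothTransition (-16 * y + 3)|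
          = (r⁻¹ * r⁻¹) * (|deriv (deriv Real.smoothTransition) (r⁻¹ * y + -1)| *
            |Real.smoothTransition (-16 * y + 3)|) := by ring
        _ ≤ (r⁻¹ * r⁻¹) * (M * 1) := mul_le_mul_of_nonneg_left h1 hr4.le
        _ ≤ 256 * M * (r⁻¹ * r⁻¹) := by nlinarith [mul_pos hM hr4]
  · obtain ⟨z1, z2⟩ := zA hA
    rw [z1, z2, if_neg hA, if_neg hA]
    simp only [mul_zero, zero_mul, add_zero, zero_add]
    by_cases hB : 1 / 8 ≤ y ∧ y ≤ 3 / 16
    · rw [if_pos hB, mul_one]
      constructor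
      · rw [abs_mul, abs_mul]
        norm_num
        have h1 : |Real.smoothTransition (r⁻¹ * y + -1)| *
            |deriv Real.smoothTransition (-16 * y + 3)| ≤ 1 * M :=
          mul_le_mul sA bB1 (abs_nonneg _) zero_le_one
        simp only [← neg_mul] at *
        nlinarith
      · rw [abs_mul, abs_mul, abs_mul]
        norm_num
        have h1 : |Real.smoothTransition (r⁻¹ * y + -1)| *
            |deriv (deriv Real.smoothTransition) (-16 * y + 3)| ≤ 1 * M :=
          mul_le_mul sA bB2 (abs_nonneg _) zero_le_one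
        simp only [← neg_mul] at *
        nlinarith
    · obtain ⟨z3, z4⟩ := zB hB
      rw [z3, z4, if_neg hB]
      simp

theorem th_smooth (T : ℝ) : ContDiff ℝ ((⊤ : ℕ∞) : WithTop ℕ∞) (th T) := by
  refine ContDiff.mul (C1_sm.comp ?_) (C1_sm.comp ?_)
  · exact ((contDiff_const.mul contDiff_id).div_const T).sub contDiff_const
  · exact contDiff_const.sub ((contDiff_const.mul contDiff_id).div_const T)

theorem th_nonneg (T t : ℝ) : 0 ≤ th T t :=
  mul_nonneg (Real.smoothTransition.nonneg _) (Real.smoothTransition.nonneg _)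

theorem th_le_one (T t : ℝ) : th T t ≤ 1 :=
  mul_le_one₀ (Real.smoothTransition.le_one _) (Real.smoothTransition.nonneg _)
    (Real.smoothTransition.le_one _)

theorem th_zero {T t : ℝ} (hT : 0 < T) (h : t ≤ T / 2 ∨ T ≤ t) : th T t = 0 := by
  unfold th
  rcases h with h | h
  · rw [Real.smoothTransition.zero_of_nonpos (x := 8 * t / T - 4), zero_mul]
    have : 8 * t / T ≤ 4 := by
      rw [div_le_iff₀ hT]
      linarith
    linarith
  · rw [Real.smoothTransition.zero_of_nonpos (x := 8 - 8 * t / T), mul_zero]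
    have : 8 ≤ 8 * t / T := by
      rw [le_div_iff₀ hT]
      linarith
    linarith

theorem th_one {T t : ℝ} (hT : 0 < T) (h1 : 5 * T / 8 ≤ t) (h2 : t ≤ 7 * T / 8) : th T t = 1 := by
  unfold th
  rw [Real.smoothTransition.one_of_one_le, Real.smoothTransition.one_of_one_le, mul_one]
  · have : 8 * t / T ≤ 7 := by
      rw [div_le_iff₀ hT]
      linarith
    linarith
  · have : 5 ≤ 8 * t / T := by
      rw [le_div_iff₀ hT]
      linarith
    linarith

end Pool.Agent.W_332fe5.Six
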