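import Pool.Agent.W_332fe5_h24.D0

set_option autoImplicit false

/-! Block 6, E0: integrability for the functional `Lam`. -/

open MeasureTheory ProbabilityTheory Set Filter Topology
open scoped ENNReal NNReal

namespace Pool.Agent.W_332fe5.Six

theorem E0_ball : IsFiniteMeasure ((volume : Measure E3).restrict Bl) :=
  ⟨by
    rw [Measure.restrict_apply_univ]
    exact Metric.isBounded_ball.measure_lt_top⟩

instance vv_fin : IsFiniteMeasure vv := by
  have := E0_ball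
  unfold vv
  infer_instance

instance vv_ball_fin : IsFiniteMeasure ((volume : Measure E3).restrict Bl) := E0_ball

instance zm_fin {zt T : ℝ} (D : TwoPt zt T) : IsFiniteMeasure D.zm := by
  have : IsFiniteMeasure ((volume : Measure ℝ).restrict (Ioo (0 : ℝ) T)) :=
    ⟨by
      rw [Measure.restrict_apply_univ, Real.volume_Ioo]
      exact ENNReal.ofReal_lt_top⟩
  unfold TwoPt.zm
  infer_instance

theorem yy_meas : Measurable yy := by
  unfold yy
  fun_prop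

theorem E0_ax2_meas : Measurable ax2 := by
  have : Continuous ax2 := by
    unfold ax2
    fun_prop
  exact this.measurable

theorem Gam0_meas : Measurable Gam0 := by
  unfold Gam0
  refine Measurable.indicator ?_ Metric.isOpen_ball.measurableSet
  exact ((yy_meas.const_mul 2).pow_const mu).mul E0_ax2_meas

theorem E0_yy {x : E3} (hx : x ∈ Bl) : 0 < yy x ∧ yy x ≤ 1 / 2 := by
  have h1 : ‖x‖ < 1 := by simpa [Bl] using hx
  have h2 : 0 ≤ ‖x‖ := norm_nonneg x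
  unfold yy
  constructor
  · nlinarith
  · nlinarith

theorem E0_ax2 (x : E3) : 0 ≤ ax2 x ∧ ax2 x ≤ ‖x‖ ^ 2 := by
  unfold ax2
  rw [EuclideanSpace.real_norm_sq_eq, Fin.sum_univ_three]
  constructor
  · positivity
  · have := sq_nonneg (x 2)
    linarith

/-- `|Γ₀| ≤ 1`: on the ball `0 < 2y ≤ 1` and `ax2 x ≤ ‖x‖² ≤ 1`. -/
theorem Gam0_bdd (x : E3) : |Gam0 x| ≤ 1 := by
  unfold Gam0
  by_cases hx : x ∈ Bl
  · rw [indicator_of_mem hx]
    obtain ⟨h1, h2⟩ := E0_yy hx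
    obtain ⟨h3, h4⟩ := E0_ax2 x
    have h5 : ‖x‖ < 1 := by simpa [Bl] using hx
    have h6 : 0 ≤ ‖x‖ := norm_nonneg x
    have h7 : ax2 x ≤ 1 := h4.trans (by nlinarith)
    have h8 : (2 * yy x) ^ mu ≤ 1 :=
      Real.rpow_le_one (by linarith) (by linarith) (by unfold mu; norm_num)
    have h9 : 0 ≤ (2 * yy x) ^ mu := Real.rpow_nonneg (by linarith) _
    rw [abs_of_nonneg (mul_nonneg h9 h3)]
    exact mul_le_one₀ h8 h3 h7
  · rw [indicator_of_notMem hx, abs_zero]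
    exact zero_le_one

theorem Gam0_nonneg (x : E3) : 0 ≤ Gam0 x := by
  unfold Gam0
  refine indicator_nonneg ?_ x
  intro y hy
  exact mul_nonneg (Real.rpow_nonneg (by linarith [(E0_yy hy).1]) _) (E0_ax2 y).1

/-- almost every point of the product lies over the ball -/
theorem E0_ae {α : Type*} [MeasurableSpace α] (μ : Measure α) :
    ∀ᵐ q ∂(μ.prod ((volume : Measure E3).restrict Bl)), q.2 ∈ Bl :=
  Measure.quasiMeasurePreserving_snd.ae (ae_restrict_mem Metric.isOpen_ball.measurableSet)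

/-- almost every time lies in the interval -/
theorem E0_aez {zt T : ℝ} (D : TwoPt zt T) : ∀ᵐ z ∂D.zm, z.1 ∈ Ioo (0 : ℝ) T :=
  Measure.quasiMeasurePreserving_fst.ae (ae_restrict_mem measurableSet_Ioo)

theorem E0_young {u y : ℝ} (hy : 0 < y) (hy1 : y ≤ 1 / 2) :
    |u| ≤ u ^ 2 * y ^ (-(3 / 2 : ℝ)) + 1 := by
  have h1 : 1 ≤ y ^ (-(3 / 2 : ℝ)) :=
    Real.one_le_rpow_of_pos_of_le_one_of_nonpos hy (by linarith) (by norm_num)
  have h2 : u ^ 2 * 1 ≤ u ^ 2 * y ^ (-(3 / 2 : ℝ)) := mul_le_mul_of_nonneg_left h1 (sq_nonneg u)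
  have h3 : |u| ≤ u ^ 2 + 1 := by
    rw [← sq_abs u]
    nlinarith [sq_nonneg (|u| - 1), abs_nonneg u]
  linarith

/-- `|U| ≤ U² y^(-3/2) + y^(3/2)` and `U_int`; on `Bl` `0 < yy x ≤ 1/2`. -/
theorem U_integrable {zt T : ℝ} (D : TwoPt zt T) :
    Integrable (fun q : (ℝ × D.Ω) × E3 => D.U q.1 q.2) (D.zm.prod (volume.restrict Bl)) := by
  refine ⟨D.U_meas.aestronglyMeasurable, ?_⟩
  have hm : Measurable fun q : (ℝ × D.Ω) × E3 =>
      ENNReal.ofReal (D.U q.1 q.2 ^ 2 * yy q.2 ^ (-(3 / 2 : ℝ))) :=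
    ((D.U_meas.pow_const 2).mul ((yy_meas.comp measurable_snd).pow_const _)).ennreal_ofReal
  have h1 : ∀ᵐ q ∂(D.zm.prod ((volume : Measure E3).restrict Bl)),
      ‖D.U q.1 q.2‖ₑ ≤ ENNReal.ofReal (D.U q.1 q.2 ^ 2 * yy q.2 ^ (-(3 / 2 : ℝ))) + 1 := by
    filter_upwards [E0_ae D.zm] with q hq
    obtain ⟨h2, h3⟩ := E0_yy hq
    have h4 := E0_young (u := D.U q.1 q.2) h2 h3
    have h5 : 0 ≤ D.U q.1 q.2 ^ 2 * yy q.2 ^ (-(3 / 2 : ℝ)) :=
      mul_nonneg (sq_nonneg _) (Real.rpow_nonneg h2.le _)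
    rw [Real.enorm_eq_ofReal_abs, ← ENNReal.ofReal_one, ← ENNReal.ofReal_add h5 zero_le_one]
    exact ENNReal.ofReal_le_ofReal h4
  refine lt_of_le_of_lt (lintegral_mono_ae h1) ?_
  rw [lintegral_add_left hm]
  refine ENNReal.add_lt_top.2 ⟨?_, ?_⟩
  · rw [lintegral_prod _ hm.aemeasurable]
    exact lt_of_le_of_lt D.U_int ENNReal.ofReal_lt_top
  · rw [lintegral_one]
    exact measure_lt_top _ _

/-- The same for the first point of a pair. -/
theorem U_integrable1 {zt T : ℝ} (D : TwoPt zt T) :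
    Integrable (fun q : (ℝ × D.Ω) × (E3 × E3) => D.U q.1 q.2.1) (D.zm.prod vv) := by
  have h1 := (U_integrable D).comp_fst ((volume : Measure E3).restrict Bl)
  unfold vv
  rw [← (measurePreserving_prodAssoc D.zm ((volume : Measure E3).restrict Bl)
    ((volume : Measure E3).restrict Bl)).integrable_comp_emb
    (MeasurableEquiv.measurableEmbedding _)]
  exact h1

theorem U_integrable2 {zt T : ℝ} (D : TwoPt zt T) :
    Integrable (fun q : (ℝ × D.Ω) × (E3 × E3) => D.U q.1 q.2.2) (D.zm.prod vv) := by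
  have h1 := U_integrable1 D
  have h2 : MeasurePreserving (Prod.map id Prod.swap :
      (ℝ × D.Ω) × (E3 × E3) → (ℝ × D.Ω) × (E3 × E3)) (D.zm.prod vv) (D.zm.prod vv) := by
    refine (MeasurePreserving.id D.zm).prod ?_
    unfold vv
    exact Measure.measurePreserving_swap
  exact (h2.integrable_comp h1.aestronglyMeasurable).2 h1

/-- For a.e. `(t, ω)` the function `U (t, ω)` is integrable over the ball. -/
theorem U_ae {zt T : ℝ} (D : TwoPt zt T) :
    ∀ᵐ z ∂D.zm, Integrable (fun x => D.U z x) (volume.restrict Bl) :=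
  (U_integrable D).prod_right_ae

theorem E0_mul_le {a b c C : ℝ} (ha : |a| ≤ 1) (hb : |b| ≤ 1) (hc : |c| ≤ C) :
    |a * b * c| ≤ C := by
  rw [abs_mul, abs_mul]
  have h1 : |a| * |b| ≤ 1 := mul_le_one₀ ha (abs_nonneg _) hb
  have h2 : |a| * |b| * |c| ≤ 1 * |c| := mul_le_mul_of_nonneg_right h1 (abs_nonneg _)
  linarith

theorem int_stop {zt T : ℝ} (hT : 0 < T) (D : TwoPt zt T) {F : ℝ → ℝ → ℝ → ℝ} (hF : Nice T F) :
    Integrable (fun q : D.Ω × (E3 × E3) => if D.S q.1 ≤ T then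
      D.G q.1 q.2.1 * D.G q.1 q.2.2 * F (D.S q.1) (yy q.2.1) (yy q.2.2) else 0)
      (D.P.prod vv) := by
  obtain ⟨hm, C, hC⟩ := hF
  have hFm : Measurable fun q : D.Ω × (E3 × E3) => F (D.S q.1) (yy q.2.1) (yy q.2.2) :=
    hm.comp ((D.S_meas.comp measurable_fst).prodMk
      ((yy_meas.comp (measurable_fst.comp measurable_snd)).prodMk
        (yy_meas.comp (measurable_snd.comp measurable_snd))))
  have hG1 : Measurable fun q : D.Ω × (E3 × E3) => D.G q.1 q.2.1 :=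
    D.G_meas.comp (measurable_fst.prodMk (measurable_fst.comp measurable_snd))
  have hG2 : Measurable fun q : D.Ω × (E3 × E3) => D.G q.1 q.2.2 :=
    D.G_meas.comp (measurable_fst.prodMk (measurable_snd.comp measurable_snd))
  have hC0 : 0 ≤ C := (abs_nonneg _).trans (hC 0 ⟨le_refl 0, hT.le⟩ 0 0)
  refine Integrable.of_bound (Measurable.aestronglyMeasurable ?_) C
    (Eventually.of_forall fun q => ?_)
  · exact Measurable.ite (measurableSet_le (D.S_meas.comp measurable_fst) measurable_const)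
      ((hG1.mul hG2).mul hFm) measurable_const
  · rw [Real.norm_eq_abs]
    split_ifs with h
    · exact E0_mul_le (D.G_bdd _ _) (D.G_bdd _ _) (hC _ ⟨D.S_nonneg _, h⟩ _ _)
    · rw [abs_zero]; exact hC0

theorem int_init {T : ℝ} (hT : 0 < T) {F : ℝ → ℝ → ℝ → ℝ} (hF : Nice T F) :
    Integrable (fun x : E3 × E3 => Gam0 x.1 * Gam0 x.2 * F 0 (yy x.1) (yy x.2)) vv := by
  obtain ⟨hm, C, hC⟩ := hF
  have hFm : Measurable fun x : E3 × E3 => F 0 (yy x.1) (yy x.2) :=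
    hm.comp (measurable_const.prodMk ((yy_meas.comp measurable_fst).prodMk
      (yy_meas.comp measurable_snd)))
  refine Integrable.of_bound (((Gam0_meas.comp measurable_fst).mul
    (Gam0_meas.comp measurable_snd)).mul hFm).aestronglyMeasurable C
    (Eventually.of_forall fun q => ?_)
  rw [Real.norm_eq_abs]
  exact E0_mul_le (Gam0_bdd _) (Gam0_bdd _) (hC _ ⟨le_refl 0, hT.le⟩ _ _)

theorem E0_run1 {zt T : ℝ} (D : TwoPt zt T) {A : ℝ → ℝ → ℝ → ℝ} (hA : Nice T A) :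
    AEStronglyMeasurable (fun q : (ℝ × D.Ω) × (E3 × E3) => D.Γ q.1 q.2.1 * D.Γ q.1 q.2.2 *
      A q.1.1 (yy q.2.1) (yy q.2.2)) (D.zm.prod vv) ∧
    ∃ C : ℝ, ∀ᵐ q ∂(D.zm.prod vv), ‖D.Γ q.1 q.2.1 * D.Γ q.1 q.2.2 *
      A q.1.1 (yy q.2.1) (yy q.2.2)‖ ≤ C := by
  obtain ⟨hm, C, hC⟩ := hA
  have hFm : Measurable fun q : (ℝ × D.Ω) × (E3 × E3) => A q.1.1 (yy q.2.1) (yy q.2.2) :=
    hm.comp ((measurable_fst.comp measurable_fst).prodMk
      ((yy_meas.comp (measurable_fst.comp measurable_snd)).prodMk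
        (yy_meas.comp (measurable_snd.comp measurable_snd))))
  have hG1 : Measurable fun q : (ℝ × D.Ω) × (E3 × E3) => D.Γ q.1 q.2.1 :=
    D.Γ_meas.comp (measurable_fst.prodMk (measurable_fst.comp measurable_snd))
  have hG2 : Measurable fun q : (ℝ × D.Ω) × (E3 × E3) => D.Γ q.1 q.2.2 :=
    D.Γ_meas.comp (measurable_fst.prodMk (measurable_snd.comp measurable_snd))
  refine ⟨((hG1.mul hG2).mul hFm).aestronglyMeasurable, C, ?_⟩
  have h1 : ∀ᵐ q ∂(D.zm.prod vv), q.1.1 ∈ Ioo (0 : ℝ) T :=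
    Measure.quasiMeasurePreserving_fst.ae (E0_aez D)
  filter_upwards [h1] with q hq
  rw [Real.norm_eq_abs]
  exact E0_mul_le (D.Γ_bdd _ _) (D.Γ_bdd _ _) (hC _ ⟨hq.1.le, hq.2.le⟩ _ _)

theorem int_run {zt T : ℝ} (D : TwoPt zt T) {A B1 B2 : ℝ → ℝ → ℝ → ℝ} (hA : Nice T A)
    (h1 : Nice T B1) (h2 : Nice T B2) :
    Integrable (fun q : (ℝ × D.Ω) × (E3 × E3) => D.Γ q.1 q.2.1 * D.Γ q.1 q.2.2 *
      (A q.1.1 (yy q.2.1) (yy q.2.2) - D.U q.1 q.2.1 * B1 q.1.1 (yy q.2.1) (yy q.2.2) -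
        D.U q.1 q.2.2 * B2 q.1.1 (yy q.2.1) (yy q.2.2))) (D.zm.prod vv) := by
  obtain ⟨mA, CA, bA⟩ := E0_run1 D hA
  obtain ⟨m1, C1, b1⟩ := E0_run1 D h1
  obtain ⟨m2, C2, b2⟩ := E0_run1 D h2
  have i0 := Integrable.of_bound mA CA bA
  have i1 := (U_integrable1 D).bdd_mul m1 b1
  have i2 := (U_integrable2 D).bdd_mul m2 b2
  refine ((i0.sub i1).sub i2).congr (Eventually.of_forall fun q => ?_)
  simp only [Pi.sub_apply]
  ring

end Pool.Agent.W_332fe5.Six
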