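import Pool.Agent.W_332fe5_h24.K3
import Pool.Agent.W_332fe5_h24.E0
import Pool.Agent.W_332fe5_h24.C1

set_option autoImplicit false

/-! Block 6, M3: the main term. -/

open MeasureTheory ProbabilityTheory Set Filter Topology
open scoped ENNReal NNReal

namespace Pool.Agent.W_332fe5.Six

theorem M3_yy_pos {x : E3} (hx : x ∈ Bl) : 0 < yy x := by
  rw [Bl, Metric.mem_ball, dist_zero_right] at hx
  rw [yy]
  have h0 := norm_nonneg x
  nlinarith

theorem M3_yy_le (x : E3) : yy x ≤ 1 / 2 := by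
  rw [yy]
  have h0 := sq_nonneg ‖x‖
  linarith

theorem M3_ae_mem {zt T : ℝ} (D : TwoPt zt T) :
    ∀ᵐ q : (ℝ × D.Ω) × (E3 × E3) ∂(D.zm.prod vv), q.2.1 ∈ Bl ∧ q.2.2 ∈ Bl := by
  have hB : MeasurableSet Bl := Metric.isOpen_ball.measurableSet
  have h1 : ∀ᵐ x ∂((volume : Measure E3).restrict Bl), x ∈ Bl := ae_restrict_mem hB
  have h2 : ∀ᵐ x : E3 × E3 ∂vv, x.1 ∈ Bl ∧ x.2 ∈ Bl := by
    have a1 : ∀ᵐ x : E3 × E3 ∂vv, x.1 ∈ Bl := Measure.quasiMeasurePreserving_fst.ae h1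
    have a2 : ∀ᵐ x : E3 × E3 ∂vv, x.2 ∈ Bl := Measure.quasiMeasurePreserving_snd.ae h1
    exact a1.and a2
  exact Measure.quasiMeasurePreserving_snd.ae h2

/-- The main term: `pk_top`, `th ≤ 1` and `th = 0` for `t ≤ T/2`. -/
theorem m_top {zt : ℝ} (h : Zt zt) : ∃ C : ℝ, 0 < C ∧ ∀ T R r : ℝ, 0 < T → 0 < R → 0 < r →
    ∀ D : TwoPt zt T,
    ∫⁻ q : (ℝ × D.Ω) × (E3 × E3), ENNReal.ofReal |D.Γ q.1 q.2.1 * D.Γ q.1 q.2.2 *
      (th T q.1.1 * PK zt r (R ^ 2) (yy q.2.1) (yy q.2.2))| ∂(D.zm.prod vv) ≤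
    ENNReal.ofReal (C * R ^ (-2 - zt)) * D.topInt R := by
  obtain ⟨C, hC, hpk⟩ := pk_top h
  refine ⟨C, hC, ?_⟩
  intro T R r hT hR hr D
  have hc0 : 0 ≤ C * R ^ (-2 - zt) := by positivity
  -- the majorant
  set g : ℝ × D.Ω → E3 → ℝ≥0∞ := fun z x =>
    ENNReal.ofReal (|D.Γ z x| * Real.exp (-yy x / R)) with hg
  have hgm : Measurable fun p : (ℝ × D.Ω) × E3 => g p.1 p.2 := by
    apply ENNReal.measurable_ofReal.comp
    refine Measurable.mul ?_ ?_
    · exact D.Γ_meas.abs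
    · exact Real.measurable_exp.comp (((yy_meas.comp measurable_snd).neg).div_const R)
  have hstep : ∫⁻ q : (ℝ × D.Ω) × (E3 × E3), ENNReal.ofReal |D.Γ q.1 q.2.1 * D.Γ q.1 q.2.2 *
      (th T q.1.1 * PK zt r (R ^ 2) (yy q.2.1) (yy q.2.2))| ∂(D.zm.prod vv) ≤
      ∫⁻ q : (ℝ × D.Ω) × (E3 × E3), ENNReal.ofReal (C * R ^ (-2 - zt)) *
        (if T / 2 < q.1.1 then g q.1 q.2.1 * g q.1 q.2.2 else 0) ∂(D.zm.prod vv) := by
    refine lintegral_mono_ae ?_
    filter_upwards [M3_ae_mem D] with q hq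
    by_cases ht : T / 2 < q.1.1
    · rw [if_pos ht]
      have hy1 := M3_yy_pos hq.1
      have hy2 := M3_yy_pos hq.2
      have p0 := pk_nonneg h (τ := R ^ 2) (by positivity) hy1.le hy2.le (by linarith)
      have p1 := hpk R _ _ hR hy1.le hy2.le (by linarith : 0 < yy q.2.1 + yy q.2.2)
      have hk1 := kp_nonneg r (yy q.2.1)
      have hk2 := kp_nonneg r (yy q.2.2)
      have hk3 := kp_le_one r (yy q.2.1)
      have hk4 := kp_le_one r (yy q.2.2)
      have ht0 := th_nonneg T q.1.1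
      have ht1 := th_le_one T q.1.1
      have hkk : kp r (yy q.2.1) * kp r (yy q.2.2) ≤ 1 := mul_le_one₀ hk3 hk2 hk4
      have hPK : |th T q.1.1 * PK zt r (R ^ 2) (yy q.2.1) (yy q.2.2)| ≤
          C * R ^ (-2 - zt) * Real.exp (-(yy q.2.1 + yy q.2.2) / R) := by
        rw [PK, abs_of_nonneg (by positivity)]
        calc th T q.1.1 * (pk zt (R ^ 2) (yy q.2.1) (yy q.2.2) *
              (kp r (yy q.2.1) * kp r (yy q.2.2))) ≤
            1 * (pk zt (R ^ 2) (yy q.2.1) (yy q.2.2) * 1) := by gcongr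
          _ ≤ _ := by rw [one_mul, mul_one]; exact p1
      have hexp : Real.exp (-(yy q.2.1 + yy q.2.2) / R) =
          Real.exp (-yy q.2.1 / R) * Real.exp (-yy q.2.2 / R) := by
        rw [← Real.exp_add]; congr 1; ring
      rw [hg]
      simp only
      rw [← ENNReal.ofReal_mul (by positivity), ← ENNReal.ofReal_mul hc0]
      refine ENNReal.ofReal_le_ofReal ?_
      rw [abs_mul, abs_mul]
      calc |D.Γ q.1 q.2.1| * |D.Γ q.1 q.2.2| *
            |th T q.1.1 * PK zt r (R ^ 2) (yy q.2.1) (yy q.2.2)| ≤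
          |D.Γ q.1 q.2.1| * |D.Γ q.1 q.2.2| *
            (C * R ^ (-2 - zt) * Real.exp (-(yy q.2.1 + yy q.2.2) / R)) := by gcongr
        _ = _ := by rw [hexp]; ring
    · rw [if_neg ht, th_zero hT (Or.inl (not_lt.1 ht))]
      simp
  refine hstep.trans ?_
  rw [lintegral_const_mul' _ _ ENNReal.ofReal_ne_top]
  refine mul_le_mul_right ?_ _
  -- Tonelli
  have hm : Measurable fun q : (ℝ × D.Ω) × (E3 × E3) =>
      (if T / 2 < q.1.1 then g q.1 q.2.1 * g q.1 q.2.2 else 0) := by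
    have m1 : Measurable fun q : (ℝ × D.Ω) × (E3 × E3) => g q.1 q.2.1 :=
      hgm.comp (measurable_fst.prodMk (measurable_fst.comp measurable_snd))
    have m2 : Measurable fun q : (ℝ × D.Ω) × (E3 × E3) => g q.1 q.2.2 :=
      hgm.comp (measurable_fst.prodMk (measurable_snd.comp measurable_snd))
    refine Measurable.ite ?_ (m1.mul m2) measurable_const
    exact measurableSet_lt measurable_const (measurable_fst.comp measurable_fst)
  rw [lintegral_prod _ hm.aemeasurable, TwoPt.topInt]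
  refine lintegral_mono fun z => ?_
  simp only
  by_cases ht : T / 2 < z.1
  · simp only [if_pos ht]
    have hgz : Measurable (g z) := hgm.comp measurable_prodMk_left
    rw [vv, lintegral_prod_mul hgz.aemeasurable hgz.aemeasurable, sq]
  · simp only [if_neg ht]
    simp

end Pool.Agent.W_332fe5.Six
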