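import Pool.Agent.W_332fe5_h24.C4
import Pool.Agent.W_332fe5_h24.I1
import Pool.Agent.W_332fe5_h24.M3

set_option autoImplicit false

/-! Block 6, M4: the error term. -/

open MeasureTheory ProbabilityTheory Set Filter Topology
open scoped ENNReal NNReal

namespace Pool.Agent.W_332fe5.Six

theorem M4_yy_lt {x : E3} (hx : x ≠ 0) : yy x < 1 / 2 := by
  rw [yy]
  have h0 : 0 < ‖x‖ := norm_pos_iff.2 hx
  have : 0 < ‖x‖ ^ 2 := by positivity
  linarith

theorem M4_ae {zt T : ℝ} (D : TwoPt zt T) :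
    ∀ᵐ q : (ℝ × D.Ω) × (E3 × E3) ∂(D.zm.prod vv),
      (0 < yy q.2.1 ∧ yy q.2.1 < 1 / 2) ∧ (0 < yy q.2.2 ∧ yy q.2.2 < 1 / 2) := by
  have h0 : ∀ᵐ x : E3 ∂volume, x ≠ 0 := by
    rw [ae_iff]
    have : {a : E3 | ¬ a ≠ 0} = {0} := by ext a; simp
    rw [this]
    exact measure_singleton 0
  have h1 : ∀ᵐ x ∂((volume : Measure E3).restrict Bl), x ≠ 0 := ae_restrict_of_ae h0
  have h2 : ∀ᵐ x : E3 × E3 ∂vv, x.1 ≠ 0 ∧ x.2 ≠ 0 := by
    have a1 : ∀ᵐ x : E3 × E3 ∂vv, x.1 ≠ 0 := Measure.quasiMeasurePreserving_fst.ae h1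
    have a2 : ∀ᵐ x : E3 × E3 ∂vv, x.2 ≠ 0 := Measure.quasiMeasurePreserving_snd.ae h1
    exact a1.and a2
  have h3 : ∀ᵐ q : (ℝ × D.Ω) × (E3 × E3) ∂(D.zm.prod vv), q.2.1 ≠ 0 ∧ q.2.2 ≠ 0 :=
    Measure.quasiMeasurePreserving_snd.ae h2
  filter_upwards [h3, M3_ae_mem D] with q hq hq'
  exact ⟨⟨M3_yy_pos hq'.1, M4_yy_lt hq.1⟩, ⟨M3_yy_pos hq'.2, M4_yy_lt hq.2⟩⟩

theorem M4_fst {zt T : ℝ} (D : TwoPt zt T) {g : ℝ × D.Ω → E3 → ℝ≥0∞}
    (hg : Measurable fun p : (ℝ × D.Ω) × E3 => g p.1 p.2) :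
    ∫⁻ q : (ℝ × D.Ω) × (E3 × E3), g q.1 q.2.1 ∂(D.zm.prod vv) =
      (∫⁻ z, (∫⁻ x in Bl, g z x) ∂D.zm) * volume Bl := by
  have hm : Measurable fun q : (ℝ × D.Ω) × (E3 × E3) => g q.1 q.2.1 :=
    hg.comp (measurable_fst.prodMk (measurable_fst.comp measurable_snd))
  rw [lintegral_prod _ hm.aemeasurable]
  have h2 : Measurable fun z : ℝ × D.Ω => ∫⁻ x in Bl, g z x := hg.lintegral_prod_right
  rw [← lintegral_mul_const _ h2]
  refine lintegral_congr fun z => ?_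
  simp only
  have hgz : Measurable (g z) := hg.comp measurable_prodMk_left
  have h3 : Measurable fun x : E3 × E3 => g z x.1 := hgz.comp measurable_fst
  rw [vv, lintegral_prod _ h3.aemeasurable]
  simp only [lintegral_const, Measure.restrict_apply_univ]
  rw [lintegral_mul_const _ hgz]

theorem M4_snd {zt T : ℝ} (D : TwoPt zt T) {g : ℝ × D.Ω → E3 → ℝ≥0∞}
    (hg : Measurable fun p : (ℝ × D.Ω) × E3 => g p.1 p.2) :
    ∫⁻ q : (ℝ × D.Ω) × (E3 × E3), g q.1 q.2.2 ∂(D.zm.prod vv) =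
      (∫⁻ z, (∫⁻ x in Bl, g z x) ∂D.zm) * volume Bl := by
  have hm : Measurable fun q : (ℝ × D.Ω) × (E3 × E3) => g q.1 q.2.2 :=
    hg.comp (measurable_fst.prodMk (measurable_snd.comp measurable_snd))
  rw [lintegral_prod _ hm.aemeasurable]
  have h2 : Measurable fun z : ℝ × D.Ω => ∫⁻ x in Bl, g z x := hg.lintegral_prod_right
  rw [← lintegral_mul_const _ h2]
  refine lintegral_congr fun z => ?_
  simp only
  have hgz : Measurable (g z) := hg.comp measurable_prodMk_left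
  have h3 : Measurable fun x : E3 × E3 => g z x.2 := hgz.comp measurable_snd
  rw [vv, lintegral_prod _ h3.aemeasurable]
  simp only [lintegral_const, Measure.restrict_apply_univ]

theorem M4_vol_ne : volume (Bl : Set E3) ≠ ⊤ := by
  rw [Bl]
  exact measure_ball_lt_top.ne

/-- The main part of the double integral: `∬ g(z, x₁) (y₁ + y₂)^(-1-ζ)`. -/
theorem M4_main {zt : ℝ} {C : ℝ} (hC : ∀ a : ℝ, 0 < a →
      ∫⁻ x in Bl, ENNReal.ofReal ((a + yy x) ^ (-1 - zt)) ≤ ENNReal.ofReal (C * a ^ (-zt)))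
    {T : ℝ} (D : TwoPt zt T) {g : ℝ × D.Ω → E3 → ℝ≥0∞}
    (hg : Measurable fun p : (ℝ × D.Ω) × E3 => g p.1 p.2) :
    ∫⁻ q : (ℝ × D.Ω) × (E3 × E3), g q.1 q.2.1 *
      ENNReal.ofReal ((yy q.2.1 + yy q.2.2) ^ (-1 - zt)) ∂(D.zm.prod vv) ≤
      ∫⁻ z, (∫⁻ x in Bl, g z x * ENNReal.ofReal (C * yy x ^ (-zt))) ∂D.zm := by
  have hk : Measurable fun x : E3 × E3 => ENNReal.ofReal ((yy x.1 + yy x.2) ^ (-1 - zt)) :=
    ENNReal.measurable_ofReal.comp
      (((yy_meas.comp measurable_fst).add (yy_meas.comp measurable_snd)).pow_const _)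
  have hm : Measurable fun q : (ℝ × D.Ω) × (E3 × E3) => g q.1 q.2.1 *
      ENNReal.ofReal ((yy q.2.1 + yy q.2.2) ^ (-1 - zt)) := by
    have m1 : Measurable fun q : (ℝ × D.Ω) × (E3 × E3) => g q.1 q.2.1 :=
      hg.comp (measurable_fst.prodMk (measurable_fst.comp measurable_snd))
    exact m1.mul (hk.comp measurable_snd)
  rw [lintegral_prod _ hm.aemeasurable]
  refine lintegral_mono fun z => ?_
  simp only
  have hgz : Measurable (g z) := hg.comp measurable_prodMk_left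
  have h3 : Measurable fun x : E3 × E3 => g z x.1 *
      ENNReal.ofReal ((yy x.1 + yy x.2) ^ (-1 - zt)) := (hgz.comp measurable_fst).mul hk
  rw [vv, lintegral_prod _ h3.aemeasurable]
  refine setLIntegral_mono' Metric.isOpen_ball.measurableSet fun x hx => ?_
  simp only
  have h4 : Measurable fun x2 : E3 => ENNReal.ofReal ((yy x + yy x2) ^ (-1 - zt)) :=
    ENNReal.measurable_ofReal.comp ((yy_meas.const_add _).pow_const _)
  rw [lintegral_const_mul _ h4]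
  exact mul_le_mul_right (hC _ (M3_yy_pos hx)) _

/-- The wall part. -/
theorem M4_wall {a r : ℝ} (hr : 0 < r) :
    (if a ≤ 2 * r then (1 : ℝ) else 0) ≤ Real.exp 2 * Real.exp (-a / r) := by
  split_ifs with h
  · rw [← Real.exp_add]
    apply Real.one_le_exp
    have : a / r ≤ 2 := by rw [div_le_iff₀ hr]; exact h
    rw [neg_div]
    linarith
  · positivity

/-- The error term: `FEr_upper`; main part `∬ |Γ₁| (y₁+y₂)^(-1-ζ) e^(-y₁/√T) ≤ C ∫ |Γ₁| y₁^(-ζ)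
e^(-y₁/√T)` (`int_sum`, `|Γ₂| ≤ 1`); the wall part is `≤ K r⁻¹ E ∫∫ |Γ₁| 1_(y₁ ≤ 2r) ≤ K' r` by
`Wall` (`1_(y ≤ 2r) ≤ e² e^(-y/r)`). -/
theorem m_err {zt : ℝ} (h : Zt zt) : ∃ C : ℝ, 0 < C ∧ ∀ T R : ℝ, 0 < T → T ≤ 1 → 0 < R →
    R ^ 2 ≤ T → ∀ D : TwoPt zt T, D.Wall → ∃ K r₀ : ℝ, 0 ≤ K ∧ 0 < r₀ ∧ ∀ r : ℝ, 0 < r → r ≤ r₀ →
    ∫⁻ q : (ℝ × D.Ω) × (E3 × E3), ENNReal.ofReal |D.Γ q.1 q.2.1 * D.Γ q.1 q.2.2 *
      FEr zt T R r q.1.1 (yy q.2.1) (yy q.2.2)| ∂(D.zm.prod vv) ≤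
    ENNReal.ofReal C * D.absInt + ENNReal.ofReal (K * r) := by
  obtain ⟨C1, hC1, hF⟩ := FEr_upper h
  obtain ⟨C2, hC2, hI⟩ := int_sum h
  refine ⟨C1 * C2, by positivity, ?_⟩
  intro T R hT hT1 hR hRT D hW
  obtain ⟨K1, hK1, hF1⟩ := hF T R hT hR hRT
  obtain ⟨K2, R2, hK2, hR2, hW2⟩ := hW
  set V : ℝ := (volume (Bl : Set E3)).toReal with hV
  have hV0 : 0 ≤ V := ENNReal.toReal_nonneg
  have hVe : volume (Bl : Set E3) = ENNReal.ofReal V := (ENNReal.ofReal_toReal M4_vol_ne).symm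
  refine ⟨2 * (K1 * Real.exp 2 * K2 * V), min (1 / 32) R2, by positivity, by positivity, ?_⟩
  intro r hr hr0
  have hr1 : r ≤ 1 / 32 := hr0.trans (min_le_left _ _)
  have hr2 : r ≤ R2 := hr0.trans (min_le_right _ _)
  have hsT : 0 < Real.sqrt T := Real.sqrt_pos.2 hT
  set g1 : ℝ × D.Ω → E3 → ℝ≥0∞ := fun z x =>
    ENNReal.ofReal (C1 * (|D.Γ z x| * Real.exp (-yy x / Real.sqrt T))) with hg1
  set g2 : ℝ × D.Ω → E3 → ℝ≥0∞ := fun z x =>
    ENNReal.ofReal (|D.Γ z x| * Real.exp (-yy x / r)) with hg2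
  have hmexp : ∀ c : ℝ, Measurable fun p : (ℝ × D.Ω) × E3 =>
      |D.Γ p.1 p.2| * Real.exp (-yy p.2 / c) := fun c =>
    D.Γ_meas.abs.mul (Real.measurable_exp.comp (((yy_meas.comp measurable_snd).neg).div_const c))
  have hg1m : Measurable fun p : (ℝ × D.Ω) × E3 => g1 p.1 p.2 :=
    ENNReal.measurable_ofReal.comp ((hmexp _).const_mul C1)
  have hg2m : Measurable fun p : (ℝ × D.Ω) × E3 => g2 p.1 p.2 :=
    ENNReal.measurable_ofReal.comp (hmexp _)
  set c : ℝ := K1 / r * Real.exp 2 with hc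
  have hc0 : 0 ≤ c := by positivity
  have m2 : Measurable fun q : (ℝ × D.Ω) × (E3 × E3) => g2 q.1 q.2.1 :=
    hg2m.comp (measurable_fst.prodMk (measurable_fst.comp measurable_snd))
  have m3 : Measurable fun q : (ℝ × D.Ω) × (E3 × E3) => g2 q.1 q.2.2 :=
    hg2m.comp (measurable_fst.prodMk (measurable_snd.comp measurable_snd))
  have hstep : ∫⁻ q : (ℝ × D.Ω) × (E3 × E3), ENNReal.ofReal |D.Γ q.1 q.2.1 * D.Γ q.1 q.2.2 *
      FEr zt T R r q.1.1 (yy q.2.1) (yy q.2.2)| ∂(D.zm.prod vv) ≤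
      ∫⁻ q : (ℝ × D.Ω) × (E3 × E3), (g1 q.1 q.2.1 *
        ENNReal.ofReal ((yy q.2.1 + yy q.2.2) ^ (-1 - zt)) +
        (ENNReal.ofReal c * g2 q.1 q.2.1 + ENNReal.ofReal c * g2 q.1 q.2.2)) ∂(D.zm.prod vv) := by
    refine lintegral_mono_ae ?_
    filter_upwards [M4_ae D] with q hq
    obtain ⟨⟨ha0, ha1⟩, hb0, hb1⟩ := hq
    have hb := hF1 r q.1.1 (yy q.2.1) (yy q.2.2) hr hr1 ha0 ha1 hb0 hb1
    set a := yy q.2.1 with ha
    set b := yy q.2.2 with hb'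
    have g1b := D.Γ_bdd q.1 q.2.1
    have g2b := D.Γ_bdd q.1 q.2.2
    have n1 := abs_nonneg (D.Γ q.1 q.2.1)
    have n2 := abs_nonneg (D.Γ q.1 q.2.2)
    have hp : 0 ≤ (a + b) ^ (-1 - zt) := by positivity
    have hexp : Real.exp (-(a + b) / Real.sqrt T) ≤ Real.exp (-a / Real.sqrt T) := by
      apply Real.exp_le_exp.2
      gcongr
      linarith
    have w1 := M4_wall (a := a) hr
    have w2 := M4_wall (a := b) hr
    rw [hg1, hg2]
    simp only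
    rw [← ENNReal.ofReal_mul (by positivity), ← ENNReal.ofReal_mul hc0, ← ENNReal.ofReal_mul hc0,
      ← ENNReal.ofReal_add (by positivity) (by positivity),
      ← ENNReal.ofReal_add (by positivity) (by positivity)]
    refine ENNReal.ofReal_le_ofReal ?_
    rw [abs_mul, abs_mul]
    set G1 := |D.Γ q.1 q.2.1|
    set G2 := |D.Γ q.1 q.2.2|
    have hG12 : G1 * G2 ≤ G1 := mul_le_of_le_one_right n1 g2b
    have hG21 : G1 * G2 ≤ G2 := mul_le_of_le_one_left n2 g1b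
    calc G1 * G2 * |FEr zt T R r q.1.1 a b| ≤
        G1 * G2 * (C1 * (a + b) ^ (-1 - zt) * Real.exp (-(a + b) / Real.sqrt T) +
          K1 / r * ((if a ≤ 2 * r then 1 else 0) + (if b ≤ 2 * r then 1 else 0))) := by gcongr
      _ = G1 * G2 * (C1 * (a + b) ^ (-1 - zt) * Real.exp (-(a + b) / Real.sqrt T)) +
          (G1 * G2 * (K1 / r * (if a ≤ 2 * r then 1 else 0)) +
            G1 * G2 * (K1 / r * (if b ≤ 2 * r then 1 else 0))) := by ring
      _ ≤ G1 * (C1 * (a + b) ^ (-1 - zt) * Real.exp (-a / Real.sqrt T)) +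
          (G1 * (K1 / r * (Real.exp 2 * Real.exp (-a / r))) +
            G2 * (K1 / r * (Real.exp 2 * Real.exp (-b / r)))) := by gcongr
      _ = _ := by rw [hc]; ring
  refine hstep.trans ?_
  have hk : Measurable fun q : (ℝ × D.Ω) × (E3 × E3) =>
      ENNReal.ofReal ((yy q.2.1 + yy q.2.2) ^ (-1 - zt)) :=
    ENNReal.measurable_ofReal.comp (((yy_meas.comp (measurable_fst.comp measurable_snd)).add
      (yy_meas.comp (measurable_snd.comp measurable_snd))).pow_const _)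
  have m1 : Measurable fun q : (ℝ × D.Ω) × (E3 × E3) => g1 q.1 q.2.1 :=
    hg1m.comp (measurable_fst.prodMk (measurable_fst.comp measurable_snd))
  have mA : Measurable fun q : (ℝ × D.Ω) × (E3 × E3) => g1 q.1 q.2.1 *
      ENNReal.ofReal ((yy q.2.1 + yy q.2.2) ^ (-1 - zt)) := m1.mul hk
  have mB : Measurable fun q : (ℝ × D.Ω) × (E3 × E3) => ENNReal.ofReal c * g2 q.1 q.2.1 :=
    m2.const_mul _
  rw [lintegral_add_left mA, lintegral_add_left mB,
    lintegral_const_mul _ m2, lintegral_const_mul _ m3, M4_fst D hg2m, M4_snd D hg2m]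
  refine add_le_add ?_ ?_
  · refine (M4_main hI D hg1m).trans ?_
    rw [TwoPt.absInt, ← lintegral_const_mul' _ _ ENNReal.ofReal_ne_top]
    refine lintegral_mono fun z => ?_
    simp only
    rw [← lintegral_const_mul' _ _ ENNReal.ofReal_ne_top]
    refine setLIntegral_mono' Metric.isOpen_ball.measurableSet fun x hx => ?_
    have hy := M3_yy_pos hx
    rw [hg1]
    simp only
    rw [← ENNReal.ofReal_mul (by positivity), ← ENNReal.ofReal_mul (by positivity)]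
    refine ENNReal.ofReal_le_ofReal (le_of_eq ?_)
    ring
  · have hw := hW2 r hr hr2
    have hw' : (∫⁻ z, (∫⁻ x in Bl, g2 z x) ∂D.zm) * volume (Bl : Set E3) ≤
        ENNReal.ofReal (K2 * r ^ 2 * V) := by
      rw [hVe, ENNReal.ofReal_mul (by positivity)]
      exact mul_le_mul_left hw _
    calc ENNReal.ofReal c * ((∫⁻ z, (∫⁻ x in Bl, g2 z x) ∂D.zm) * volume (Bl : Set E3)) +
          ENNReal.ofReal c * ((∫⁻ z, (∫⁻ x in Bl, g2 z x) ∂D.zm) * volume (Bl : Set E3)) ≤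
        ENNReal.ofReal c * ENNReal.ofReal (K2 * r ^ 2 * V) +
          ENNReal.ofReal c * ENNReal.ofReal (K2 * r ^ 2 * V) := by gcongr
      _ = ENNReal.ofReal (2 * (K1 * Real.exp 2 * K2 * V) * r) := by
        rw [← ENNReal.ofReal_mul hc0, ← ENNReal.ofReal_add (by positivity) (by positivity)]
        congr 1
        rw [hc]
        field_simp
        ring

end Pool.Agent.W_332fe5.Six
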