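import Pool.Agent.W_332fe5_h24.C4
import Pool.Agent.W_332fe5_h24.I1
import Pool.Agent.W_332fe5_h24.M4

set_option autoImplicit false

/-! Block 6, M5: the drift term. -/

open MeasureTheory ProbabilityTheory Set Filter Topology
open scoped ENNReal NNReal

namespace Pool.Agent.W_332fe5.Six

/-- The second version of `M4_main`. -/
theorem M5_main {zt : ℝ} {C : ℝ} (hC : ∀ a : ℝ, 0 < a →
      ∫⁻ x in Bl, ENNReal.ofReal ((a + yy x) ^ (-1 - zt)) ≤ ENNReal.ofReal (C * a ^ (-zt)))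
    {T : ℝ} (D : TwoPt zt T) {g : ℝ × D.Ω → E3 → ℝ≥0∞}
    (hg : Measurable fun p : (ℝ × D.Ω) × E3 => g p.1 p.2) :
    ∫⁻ q : (ℝ × D.Ω) × (E3 × E3), g q.1 q.2.2 *
      ENNReal.ofReal ((yy q.2.1 + yy q.2.2) ^ (-1 - zt)) ∂(D.zm.prod vv) ≤
      ∫⁻ z, (∫⁻ x in Bl, g z x * ENNReal.ofReal (C * yy x ^ (-zt))) ∂D.zm := by
  have hk : Measurable fun x : E3 × E3 => ENNReal.ofReal ((yy x.1 + yy x.2) ^ (-1 - zt)) :=
    ENNReal.measurable_ofReal.comp
      (((yy_meas.comp measurable_fst).add (yy_meas.comp measurable_snd)).pow_const _)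
  have hm : Measurable fun q : (ℝ × D.Ω) × (E3 × E3) => g q.1 q.2.2 *
      ENNReal.ofReal ((yy q.2.1 + yy q.2.2) ^ (-1 - zt)) := by
    have m1 : Measurable fun q : (ℝ × D.Ω) × (E3 × E3) => g q.1 q.2.2 :=
      hg.comp (measurable_fst.prodMk (measurable_snd.comp measurable_snd))
    exact m1.mul (hk.comp measurable_snd)
  rw [lintegral_prod _ hm.aemeasurable]
  refine lintegral_mono fun z => ?_
  simp only
  have hgz : Measurable (g z) := hg.comp measurable_prodMk_left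
  have h3 : Measurable fun x : E3 × E3 => g z x.2 *
      ENNReal.ofReal ((yy x.1 + yy x.2) ^ (-1 - zt)) := (hgz.comp measurable_snd).mul hk
  rw [vv, lintegral_prod_symm _ h3.aemeasurable]
  refine setLIntegral_mono' Metric.isOpen_ball.measurableSet fun x hx => ?_
  simp only
  have h4 : Measurable fun x2 : E3 => ENNReal.ofReal ((yy x2 + yy x) ^ (-1 - zt)) :=
    ENNReal.measurable_ofReal.comp ((yy_meas.add_const _).pow_const _)
  rw [lintegral_const_mul _ h4]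
  refine mul_le_mul_right ?_ _
  have h5 := hC _ (M3_yy_pos hx)
  refine le_trans (le_of_eq ?_) h5
  refine lintegral_congr fun x2 => ?_
  rw [add_comm]

theorem M5_zm {zt T : ℝ} (D : TwoPt zt T) : D.zm univ = ENNReal.ofReal T := by
  have h1 : D.P univ = 1 := measure_univ
  rw [TwoPt.zm, ← univ_prod_univ, Measure.prod_prod, h1, mul_one,
    Measure.restrict_apply_univ, Real.volume_Ioo, sub_zero]

/-- Cauchy-Schwarz for the drift. -/
theorem M5_CS {zt T : ℝ} (hT : 0 < T) (D : TwoPt zt T) {W : E3 → ℝ} (hW : Measurable W)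
    (hW0 : ∀ x, 0 ≤ W x) {m : ℝ} (hm : 0 ≤ m)
    (hI : ∫⁻ x in Bl, ENNReal.ofReal (yy x ^ (3 / 2 : ℝ) * W x ^ 2) ≤ ENNReal.ofReal m) :
    ∫⁻ z, (∫⁻ x in Bl, ENNReal.ofReal (|D.U z x| * W x)) ∂D.zm ≤
      ENNReal.ofReal (D.K ^ (1 / 2 : ℝ) * (T * m) ^ (1 / 2 : ℝ)) := by
  have hB : MeasurableSet Bl := Metric.isOpen_ball.measurableSet
  set μ : Measure ((ℝ × D.Ω) × E3) := D.zm.prod (volume.restrict Bl) with hμ
  have hmem : ∀ᵐ p ∂μ, p.2 ∈ Bl :=
    Measure.quasiMeasurePreserving_snd.ae (ae_restrict_mem hB)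
  have hyy : Measurable fun p : (ℝ × D.Ω) × E3 => yy p.2 := yy_meas.comp measurable_snd
  have mU : Measurable fun p : (ℝ × D.Ω) × E3 => |D.U p.1 p.2| := D.U_meas.abs
  have mW : Measurable fun p : (ℝ × D.Ω) × E3 => W p.2 := hW.comp measurable_snd
  set f : (ℝ × D.Ω) × E3 → ℝ≥0∞ := fun p =>
    ENNReal.ofReal (|D.U p.1 p.2| * yy p.2 ^ (-(3 / 4 : ℝ))) with hf
  set g : (ℝ × D.Ω) × E3 → ℝ≥0∞ := fun p =>
    ENNReal.ofReal (yy p.2 ^ (3 / 4 : ℝ) * W p.2) with hg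
  have mf : Measurable f := ENNReal.measurable_ofReal.comp (mU.mul (hyy.pow_const _))
  have mg : Measurable g := ENNReal.measurable_ofReal.comp ((hyy.pow_const _).mul mW)
  have m0 : Measurable fun p : (ℝ × D.Ω) × E3 => ENNReal.ofReal (|D.U p.1 p.2| * W p.2) :=
    ENNReal.measurable_ofReal.comp (mU.mul mW)
  have e1 : ∫⁻ z, (∫⁻ x in Bl, ENNReal.ofReal (|D.U z x| * W x)) ∂D.zm =
      ∫⁻ p, (f * g) p ∂μ := by
    rw [hμ, ← lintegral_prod (fun p : (ℝ × D.Ω) × E3 => ENNReal.ofReal (|D.U p.1 p.2| * W p.2))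
      m0.aemeasurable]
    refine lintegral_congr_ae ?_
    filter_upwards [hmem] with p hp
    have hy := M3_yy_pos hp
    rw [Pi.mul_apply, hf, hg]
    simp only
    rw [← ENNReal.ofReal_mul (by positivity)]
    congr 1
    have : yy p.2 ^ (-(3 / 4 : ℝ)) * yy p.2 ^ (3 / 4 : ℝ) = 1 := by
      rw [← Real.rpow_add hy]; norm_num
    calc |D.U p.1 p.2| * W p.2 =
        |D.U p.1 p.2| * (yy p.2 ^ (-(3 / 4 : ℝ)) * yy p.2 ^ (3 / 4 : ℝ)) * W p.2 := by
          rw [this, mul_one]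
      _ = _ := by ring
  have hf2 : ∫⁻ p, f p ^ (2 : ℝ) ∂μ ≤ ENNReal.ofReal D.K := by
    have m2 : Measurable fun p : (ℝ × D.Ω) × E3 =>
        ENNReal.ofReal (D.U p.1 p.2 ^ 2 * yy p.2 ^ (-(3 / 2 : ℝ))) :=
      ENNReal.measurable_ofReal.comp ((D.U_meas.pow_const 2).mul (hyy.pow_const _))
    have e2 : ∫⁻ p, f p ^ (2 : ℝ) ∂μ =
        ∫⁻ p, ENNReal.ofReal (D.U p.1 p.2 ^ 2 * yy p.2 ^ (-(3 / 2 : ℝ))) ∂μ := by
      refine lintegral_congr_ae ?_
      filter_upwards [hmem] with p hp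
      have hy := M3_yy_pos hp
      rw [hf]
      simp only
      rw [ENNReal.ofReal_rpow_of_nonneg (by positivity) (by norm_num)]
      congr 1
      rw [Real.mul_rpow (abs_nonneg _) (by positivity), ← Real.rpow_mul hy.le,
        Real.rpow_two, sq_abs]
      norm_num
    rw [e2, hμ, lintegral_prod _ m2.aemeasurable]
    exact D.U_int
  have hg2 : ∫⁻ p, g p ^ (2 : ℝ) ∂μ ≤ ENNReal.ofReal (T * m) := by
    have m2 : Measurable fun p : (ℝ × D.Ω) × E3 =>
        ENNReal.ofReal (yy p.2 ^ (3 / 2 : ℝ) * W p.2 ^ 2) :=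
      ENNReal.measurable_ofReal.comp ((hyy.pow_const _).mul (mW.pow_const 2))
    have e2 : ∫⁻ p, g p ^ (2 : ℝ) ∂μ =
        ∫⁻ p, ENNReal.ofReal (yy p.2 ^ (3 / 2 : ℝ) * W p.2 ^ 2) ∂μ := by
      refine lintegral_congr_ae ?_
      filter_upwards [hmem] with p hp
      have hy := M3_yy_pos hp
      have hw := hW0 p.2
      rw [hg]
      simp only
      rw [ENNReal.ofReal_rpow_of_nonneg (by positivity) (by norm_num)]
      congr 1
      rw [Real.mul_rpow (by positivity) hw, ← Real.rpow_mul hy.le, Real.rpow_two]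
      norm_num
    rw [e2, hμ, lintegral_prod _ m2.aemeasurable]
    simp only
    rw [lintegral_const, M5_zm, ENNReal.ofReal_mul hT.le, mul_comm]
    exact mul_le_mul_right hI _
  rw [e1]
  refine (ENNReal.lintegral_mul_le_Lp_mul_Lq μ Real.HolderConjugate.two_two mf.aemeasurable
    mg.aemeasurable).trans ?_
  rw [ENNReal.ofReal_mul (Real.rpow_nonneg D.K_nonneg _),
    ← ENNReal.ofReal_rpow_of_nonneg D.K_nonneg (by norm_num),
    ← ENNReal.ofReal_rpow_of_nonneg (by positivity) (by norm_num)]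
  gcongr

/-- The common part of the two drift estimates. -/
theorem M5_core {zt : ℝ} {C1 C2 C3 : ℝ} (hC1 : 0 < C1) (hC2 : 0 < C2) (hC3 : 0 < C3)
    (hD : ∀ T : ℝ, 0 < T → T ≤ 1 → ∫⁻ x in Bl, ENNReal.ofReal (yy x ^ (3 / 2 - 2 * zt) *
      Real.exp (-2 * yy x / Real.sqrt T)) ≤ ENNReal.ofReal (C3 * T ^ (5 / 4 - zt)))
    {T : ℝ} (hT : 0 < T) (hT1 : T ≤ 1) (D : TwoPt zt T) :
    ∫⁻ z, (∫⁻ x in Bl, ENNReal.ofReal (C1 * (|D.U z x| * Real.exp (-yy x / Real.sqrt T))) *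
      ENNReal.ofReal (C2 * yy x ^ (-zt))) ∂D.zm ≤
      ENNReal.ofReal (C1 * C2 * C3 ^ (1 / 2 : ℝ) * D.K ^ (1 / 2 : ℝ) * T ^ (9 / 8 - zt / 2)) := by
  have hyn : ∀ x : E3, 0 ≤ |yy x| ^ (-zt) := fun x => by positivity
  set W : E3 → ℝ := fun x => C1 * C2 * (|yy x| ^ (-zt) * Real.exp (-yy x / Real.sqrt T)) with hW
  have hWm : Measurable W :=
    ((yy_meas.abs.pow_const _).mul (Real.measurable_exp.comp (yy_meas.neg.div_const _))).const_mul _
  have hW0 : ∀ x, 0 ≤ W x := fun x => by rw [hW]; positivity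
  set m : ℝ := (C1 * C2) ^ 2 * (C3 * T ^ (5 / 4 - zt)) with hm
  have hm0 : 0 ≤ m := by positivity
  have hB : MeasurableSet Bl := Metric.isOpen_ball.measurableSet
  have hI : ∫⁻ x in Bl, ENNReal.ofReal (yy x ^ (3 / 2 : ℝ) * W x ^ 2) ≤ ENNReal.ofReal m := by
    have e1 : ∫⁻ x in Bl, ENNReal.ofReal (yy x ^ (3 / 2 : ℝ) * W x ^ 2) =
        ENNReal.ofReal ((C1 * C2) ^ 2) * ∫⁻ x in Bl, ENNReal.ofReal (yy x ^ (3 / 2 - 2 * zt) *
          Real.exp (-2 * yy x / Real.sqrt T)) := by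
      rw [← lintegral_const_mul' _ _ ENNReal.ofReal_ne_top]
      refine setLIntegral_congr_fun hB fun x hx => ?_
      have hy := M3_yy_pos hx
      rw [← ENNReal.ofReal_mul (by positivity)]
      congr 1
      rw [hW]
      simp only
      rw [abs_of_pos hy]
      have e2 : yy x ^ (3 / 2 - 2 * zt) = yy x ^ (3 / 2 : ℝ) * (yy x ^ (-zt)) ^ 2 := by
        rw [← Real.rpow_natCast (yy x ^ (-zt)) 2, ← Real.rpow_mul hy.le, ← Real.rpow_add hy]
        congr 1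
        push_cast
        ring
      have e3 : Real.exp (-2 * yy x / Real.sqrt T) = Real.exp (-yy x / Real.sqrt T) ^ 2 := by
        rw [← Real.exp_nat_mul]
        congr 1
        push_cast
        ring
      rw [e2, e3]
      ring
    rw [e1, hm, ENNReal.ofReal_mul (by positivity)]
    exact mul_le_mul_right (hD T hT hT1) _
  have h1 := M5_CS hT D hWm hW0 hm0 hI
  have e4 : ∫⁻ z, (∫⁻ x in Bl, ENNReal.ofReal (C1 * (|D.U z x| * Real.exp (-yy x / Real.sqrt T))) *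
      ENNReal.ofReal (C2 * yy x ^ (-zt))) ∂D.zm =
      ∫⁻ z, (∫⁻ x in Bl, ENNReal.ofReal (|D.U z x| * W x)) ∂D.zm := by
    refine lintegral_congr fun z => ?_
    refine setLIntegral_congr_fun hB fun x hx => ?_
    have hy := M3_yy_pos hx
    rw [← ENNReal.ofReal_mul (by positivity)]
    congr 1
    rw [hW]
    simp only
    rw [abs_of_pos hy]
    ring
  rw [e4]
  refine h1.trans (ENNReal.ofReal_le_ofReal (le_of_eq ?_))
  rw [hm]
  have e5 : T * ((C1 * C2) ^ 2 * (C3 * T ^ (5 / 4 - zt))) =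
      (C1 * C2) ^ 2 * (C3 * T ^ (9 / 4 - zt)) := by
    have : T ^ (9 / 4 - zt) = T * T ^ (5 / 4 - zt) := by
      rw [show 9 / 4 - zt = 1 + (5 / 4 - zt) by ring, Real.rpow_add hT, Real.rpow_one]
    rw [this]; ring
  rw [e5, Real.mul_rpow (by positivity) (by positivity), Real.mul_rpow hC3.le (by positivity),
    ← Real.rpow_natCast (C1 * C2) 2, ← Real.rpow_mul (by positivity), ← Real.rpow_mul hT.le]
  have e6 : (((2 : ℕ) : ℝ) * (1 / 2 : ℝ)) = 1 := by norm_num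
  have e7 : (9 / 4 - zt) * (1 / 2) = 9 / 8 - zt / 2 := by ring
  rw [e6, e7, Real.rpow_one]
  ring

/-- The drift terms: `FF1_upper`, `|Γ| ≤ 1`, `int_sum`, then Cauchy-Schwarz in `(t, ω, x)`:
`E ∫_0^T ∫ |U| y^(-ζ) e^(-y/√T) ≤ (E ∫∫ U² y^(-3/2))^(1/2) (T ∫ y^(3/2-2ζ) e^(-2y/√T))^(1/2)`
(`int_drift`); the wall part is `≤ K E ∫∫ |U₁| 1_(y₁ ≤ 2r) ≤ K' r^(1/2)` by Cauchy-Schwarz. -/
theorem m_drift {zt : ℝ} (h : Zt zt) : ∃ C : ℝ, 0 < C ∧ ∀ T R : ℝ, 0 < T → T ≤ 1 → 0 < R →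
    R ^ 2 ≤ T → ∀ D : TwoPt zt T, ∃ K r₀ : ℝ, 0 ≤ K ∧ 0 < r₀ ∧ ∀ r : ℝ, 0 < r → r ≤ r₀ →
    ∫⁻ q : (ℝ × D.Ω) × (E3 × E3), ENNReal.ofReal |D.Γ q.1 q.2.1 * D.Γ q.1 q.2.2 *
      (D.U q.1 q.2.1 * FF1 zt T R r q.1.1 (yy q.2.1) (yy q.2.2))| ∂(D.zm.prod vv) ≤
      ENNReal.ofReal (C * D.K ^ (1 / 2 : ℝ) * T ^ (9 / 8 - zt / 2)) +
        ENNReal.ofReal (K * r ^ (1 / 2 : ℝ)) ∧
    ∫⁻ q : (ℝ × D.Ω) × (E3 × E3), ENNReal.ofReal |D.Γ q.1 q.2.1 * D.Γ q.1 q.2.2 *
      (D.U q.1 q.2.2 * FF2 zt T R r q.1.1 (yy q.2.1) (yy q.2.2))| ∂(D.zm.prod vv) ≤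
      ENNReal.ofReal (C * D.K ^ (1 / 2 : ℝ) * T ^ (9 / 8 - zt / 2)) +
        ENNReal.ofReal (K * r ^ (1 / 2 : ℝ)) := by
  obtain ⟨C1, hC1, hF⟩ := FF1_upper h
  obtain ⟨C2, hC2, hI⟩ := int_sum h
  obtain ⟨C3, hC3, hD⟩ := int_drift h
  refine ⟨C1 * C2 * C3 ^ (1 / 2 : ℝ), by positivity, ?_⟩
  intro T R hT hT1 hR hRT D
  obtain ⟨K1, hK1, hF1⟩ := hF T R hT hR hRT
  set V : ℝ := (volume (Bl : Set E3)).toReal with hV
  have hV0 : 0 ≤ V := ENNReal.toReal_nonneg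
  have hVe : volume (Bl : Set E3) = ENNReal.ofReal V := (ENNReal.ofReal_toReal M4_vol_ne).symm
  have hK0 : 0 ≤ D.K := D.K_nonneg
  refine ⟨D.K ^ (1 / 2 : ℝ) * (T * (K1 ^ 2 * (2 * V))) ^ (1 / 2 : ℝ) * V, 1 / 32,
    by positivity, by norm_num, ?_⟩
  intro r hr hr1
  have hsT : 0 < Real.sqrt T := Real.sqrt_pos.2 hT
  have hB : MeasurableSet Bl := Metric.isOpen_ball.measurableSet
  set g1 : ℝ × D.Ω → E3 → ℝ≥0∞ := fun z x =>
    ENNReal.ofReal (C1 * (|D.U z x| * Real.exp (-yy x / Real.sqrt T))) with hg1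
  set W : E3 → ℝ := fun x => K1 * (if yy x ≤ 2 * r then 1 else 0) with hW
  have hWm : Measurable W :=
    (Measurable.ite (measurableSet_le yy_meas measurable_const) measurable_const
      measurable_const).const_mul _
  have hW0 : ∀ x, 0 ≤ W x := fun x => by rw [hW]; positivity
  set g2 : ℝ × D.Ω → E3 → ℝ≥0∞ := fun z x => ENNReal.ofReal (|D.U z x| * W x) with hg2
  have hg1m : Measurable fun p : (ℝ × D.Ω) × E3 => g1 p.1 p.2 :=
    ENNReal.measurable_ofReal.comp ((D.U_meas.abs.mul (Real.measurable_exp.comp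
      (((yy_meas.comp measurable_snd).neg).div_const _))).const_mul C1)
  have hg2m : Measurable fun p : (ℝ × D.Ω) × E3 => g2 p.1 p.2 :=
    ENNReal.measurable_ofReal.comp (D.U_meas.abs.mul (hWm.comp measurable_snd))
  -- the wall part
  have hwall : (∫⁻ z, (∫⁻ x in Bl, g2 z x) ∂D.zm) * volume (Bl : Set E3) ≤
      ENNReal.ofReal (D.K ^ (1 / 2 : ℝ) * (T * (K1 ^ 2 * (2 * V))) ^ (1 / 2 : ℝ) * V *
        r ^ (1 / 2 : ℝ)) := by
    have hI2 : ∫⁻ x in Bl, ENNReal.ofReal (yy x ^ (3 / 2 : ℝ) * W x ^ 2) ≤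
        ENNReal.ofReal (K1 ^ 2 * (2 * r) * V) := by
      calc ∫⁻ x in Bl, ENNReal.ofReal (yy x ^ (3 / 2 : ℝ) * W x ^ 2) ≤
          ∫⁻ x in Bl, ENNReal.ofReal (K1 ^ 2 * (2 * r)) := by
            refine setLIntegral_mono' hB fun x hx => ENNReal.ofReal_le_ofReal ?_
            have hy := M3_yy_pos hx
            have hy1 := M3_yy_le x
            rw [hW]
            simp only
            split_ifs with h5
            · have h6 : yy x ^ (3 / 2 : ℝ) ≤ yy x := by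
                have := Real.rpow_le_rpow_of_exponent_ge hy (by linarith : yy x ≤ 1)
                  (by norm_num : (1 : ℝ) ≤ 3 / 2)
                rwa [Real.rpow_one] at this
              rw [mul_one, mul_comm]
              gcongr
              exact h6.trans h5
            · simp only [mul_zero]
              rw [zero_pow two_ne_zero, mul_zero]
              positivity
        _ = ENNReal.ofReal (K1 ^ 2 * (2 * r) * V) := by
            rw [lintegral_const, Measure.restrict_apply_univ, hVe,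
              ← ENNReal.ofReal_mul (by positivity)]
    have h1 := M5_CS hT D hWm hW0 (by positivity) hI2
    rw [hVe]
    refine (mul_le_mul_left h1 _).trans (le_of_eq ?_)
    rw [← ENNReal.ofReal_mul (by positivity)]
    congr 1
    have e1 : T * (K1 ^ 2 * (2 * r) * V) = (T * (K1 ^ 2 * (2 * V))) * r := by ring
    rw [e1, Real.mul_rpow (by positivity) hr.le]
    ring
  have hk : Measurable fun q : (ℝ × D.Ω) × (E3 × E3) =>
      ENNReal.ofReal ((yy q.2.1 + yy q.2.2) ^ (-1 - zt)) :=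
    ENNReal.measurable_ofReal.comp (((yy_meas.comp (measurable_fst.comp measurable_snd)).add
      (yy_meas.comp (measurable_snd.comp measurable_snd))).pow_const _)
  -- pointwise inequality
  have key : ∀ (G U a b F y : ℝ), 0 < a → 0 < b → |G| ≤ 1 →
      |F| ≤ C1 * (a + b) ^ (-1 - zt) * Real.exp (-(a + b) / Real.sqrt T) +
        K1 * (if y ≤ 2 * r then 1 else 0) → (y = a ∨ y = b) →
      ENNReal.ofReal |G * (U * F)| ≤
        ENNReal.ofReal (C1 * (|U| * Real.exp (-y / Real.sqrt T))) *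
          ENNReal.ofReal ((a + b) ^ (-1 - zt)) +
        ENNReal.ofReal (|U| * (K1 * (if y ≤ 2 * r then 1 else 0))) := by
    intro G U a b F y ha hb hG hFb hy
    have hp : 0 ≤ (a + b) ^ (-1 - zt) := by positivity
    have hexp : Real.exp (-(a + b) / Real.sqrt T) ≤ Real.exp (-y / Real.sqrt T) := by
      apply Real.exp_le_exp.2
      gcongr
      rcases hy with rfl | rfl <;> linarith
    have hif : (0 : ℝ) ≤ (if y ≤ 2 * r then 1 else 0) := by positivity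
    rw [← ENNReal.ofReal_mul (by positivity), ← ENNReal.ofReal_add (by positivity) (by positivity)]
    refine ENNReal.ofReal_le_ofReal ?_
    rw [abs_mul, abs_mul]
    have nU := abs_nonneg U
    calc |G| * (|U| * |F|) ≤ 1 * (|U| * (C1 * (a + b) ^ (-1 - zt) *
          Real.exp (-y / Real.sqrt T) + K1 * (if y ≤ 2 * r then 1 else 0))) := by
          gcongr
          refine hFb.trans ?_
          gcongr
      _ = _ := by ring
  have hΓ : ∀ (z : ℝ × D.Ω) (x y : E3), |D.Γ z x * D.Γ z y| ≤ 1 := by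
    intro z x y
    rw [abs_mul]
    exact mul_le_one₀ (D.Γ_bdd z x) (abs_nonneg _) (D.Γ_bdd z y)
  constructor
  · have m1 : Measurable fun q : (ℝ × D.Ω) × (E3 × E3) => g1 q.1 q.2.1 :=
      hg1m.comp (measurable_fst.prodMk (measurable_fst.comp measurable_snd))
    have mA : Measurable fun q : (ℝ × D.Ω) × (E3 × E3) => g1 q.1 q.2.1 *
      ENNReal.ofReal ((yy q.2.1 + yy q.2.2) ^ (-1 - zt)) := m1.mul hk
    calc _ ≤ ∫⁻ q : (ℝ × D.Ω) × (E3 × E3), (g1 q.1 q.2.1 *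
        ENNReal.ofReal ((yy q.2.1 + yy q.2.2) ^ (-1 - zt)) + g2 q.1 q.2.1) ∂(D.zm.prod vv) := by
          refine lintegral_mono_ae ?_
          filter_upwards [M4_ae D] with q hq
          obtain ⟨⟨ha0, ha1⟩, hb0, hb1⟩ := hq
          exact key _ _ _ _ _ _ ha0 hb0 (hΓ _ _ _)
            (hF1 r q.1.1 (yy q.2.1) (yy q.2.2) hr hr1 ha0 ha1 hb0 hb1).1 (Or.inl rfl)
      _ ≤ _ := by
          rw [lintegral_add_left mA, M4_fst D hg2m]
          refine add_le_add ?_ hwall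
          exact (M4_main hI D hg1m).trans (M5_core hC1 hC2 hC3 hD hT hT1 D)
  · have m1 : Measurable fun q : (ℝ × D.Ω) × (E3 × E3) => g1 q.1 q.2.2 :=
      hg1m.comp (measurable_fst.prodMk (measurable_snd.comp measurable_snd))
    have mA : Measurable fun q : (ℝ × D.Ω) × (E3 × E3) => g1 q.1 q.2.2 *
      ENNReal.ofReal ((yy q.2.1 + yy q.2.2) ^ (-1 - zt)) := m1.mul hk
    calc _ ≤ ∫⁻ q : (ℝ × D.Ω) × (E3 × E3), (g1 q.1 q.2.2 *
        ENNReal.ofReal ((yy q.2.1 + yy q.2.2) ^ (-1 - zt)) + g2 q.1 q.2.2) ∂(D.zm.prod vv) := by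
          refine lintegral_mono_ae ?_
          filter_upwards [M4_ae D] with q hq
          obtain ⟨⟨ha0, ha1⟩, hb0, hb1⟩ := hq
          exact key _ _ _ _ _ _ ha0 hb0 (hΓ _ _ _)
            (hF1 r q.1.1 (yy q.2.1) (yy q.2.2) hr hr1 ha0 ha1 hb0 hb1).2 (Or.inr rfl)
      _ ≤ _ := by
          rw [lintegral_add_left mA, M4_snd D hg2m]
          refine add_le_add ?_ hwall
          exact (M5_main hI D hg1m).trans (M5_core hC1 hC2 hC3 hD hT hT1 D)

end Pool.Agent.W_332fe5.Six
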