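import Pool.Agent.W_332fe5_h24.E5
import Pool.Agent.W_332fe5_h24.M1
import Pool.Agent.W_332fe5_h24.M2
import Pool.Agent.W_332fe5_h24.M3
import Pool.Agent.W_332fe5_h24.M4
import Pool.Agent.W_332fe5_h24.M5

set_option autoImplicit false

/-! Block 6, M6: the main inequality. -/

open MeasureTheory ProbabilityTheory Set Filter Topology
open scoped ENNReal NNReal

namespace Pool.Agent.W_332fe5.Six

/-- The identity, in the form of an inequality, for fixed cutoff `r`. -/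
theorem M6_ineq {zt : ℝ} (h : Zt zt) {T R r : ℝ} (hT : 0 < T) (hR : 0 < R) (hr : 0 < r)
    (hr1 : r ≤ 1 / 32) (D : TwoPt zt T) :
    ENNReal.ofReal (∫ x, Gam0 x.1 * Gam0 x.2 * FF zt T R r 0 (yy x.1) (yy x.2) ∂vv) ≤
    (∫⁻ q : D.Ω × (E3 × E3), ENNReal.ofReal |if D.S q.1 ≤ T then
      D.G q.1 q.2.1 * D.G q.1 q.2.2 * FF zt T R r (D.S q.1) (yy q.2.1) (yy q.2.2) else 0|
      ∂(D.P.prod vv)) +
    ((∫⁻ q : (ℝ × D.Ω) × (E3 × E3), ENNReal.ofReal |D.Γ q.1 q.2.1 * D.Γ q.1 q.2.2 *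
      (th T q.1.1 * PK zt r (R ^ 2) (yy q.2.1) (yy q.2.2))| ∂(D.zm.prod vv)) +
    (∫⁻ q : (ℝ × D.Ω) × (E3 × E3), ENNReal.ofReal |D.Γ q.1 q.2.1 * D.Γ q.1 q.2.2 *
      FEr zt T R r q.1.1 (yy q.2.1) (yy q.2.2)| ∂(D.zm.prod vv)) +
    ((∫⁻ q : (ℝ × D.Ω) × (E3 × E3), ENNReal.ofReal |D.Γ q.1 q.2.1 * D.Γ q.1 q.2.2 *
      (D.U q.1 q.2.1 * FF1 zt T R r q.1.1 (yy q.2.1) (yy q.2.2))| ∂(D.zm.prod vv)) +
    (∫⁻ q : (ℝ × D.Ω) × (E3 × E3), ENNReal.ofReal |D.Γ q.1 q.2.1 * D.Γ q.1 q.2.2 *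
      (D.U q.1 q.2.2 * FF2 zt T R r q.1.1 (yy q.2.1) (yy q.2.2))| ∂(D.zm.prod vv)))) := by
  have hk := Lam_kernel h hT hR hr hr1 D
  obtain ⟨n0, n1, n2, n3⟩ := FF_nice (R := R) (r := r) h hT hR hr
  unfold TwoPt.Lam at hk
  set Is : ℝ := ∫ q : D.Ω × (E3 × E3), (if D.S q.1 ≤ T then
      D.G q.1 q.2.1 * D.G q.1 q.2.2 * FF zt T R r (D.S q.1) (yy q.2.1) (yy q.2.2) else 0)
      ∂(D.P.prod vv) with hIs
  set Ii : ℝ := ∫ x, Gam0 x.1 * Gam0 x.2 * FF zt T R r 0 (yy x.1) (yy x.2) ∂vv with hIi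
  set Ir : ℝ := ∫ q : (ℝ × D.Ω) × (E3 × E3), D.Γ q.1 q.2.1 * D.Γ q.1 q.2.2 *
    (-(th T q.1.1 * PK zt r (R ^ 2) (yy q.2.1) (yy q.2.2)) +
      FEr zt T R r q.1.1 (yy q.2.1) (yy q.2.2) - D.U q.1 q.2.1 *
      FF1 zt T R r q.1.1 (yy q.2.1) (yy q.2.2) -
      D.U q.1 q.2.2 * FF2 zt T R r q.1.1 (yy q.2.1) (yy q.2.2)) ∂(D.zm.prod vv) with hIr
  have e1 : Ii = Is - Ir := by linarith
  have e2 : ENNReal.ofReal Ii ≤ ‖Is‖ₑ + ‖Ir‖ₑ := by
    have e0 : ENNReal.ofReal Ii ≤ ‖Ii‖ₑ := by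
      rw [Real.enorm_eq_ofReal_abs]
      exact ENNReal.ofReal_le_ofReal (le_abs_self _)
    refine e0.trans ?_
    rw [e1]
    exact enorm_sub_le
  refine e2.trans (add_le_add ?_ ?_)
  · refine (enorm_integral_le_lintegral_enorm _).trans (le_of_eq ?_)
    refine lintegral_congr fun q => ?_
    rw [← Real.enorm_eq_ofReal_abs]
  · refine (enorm_integral_le_lintegral_enorm _).trans ?_
    -- measurability
    have my : Measurable yy := yy_meas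
    have mΓ1 : Measurable fun q : (ℝ × D.Ω) × (E3 × E3) => D.Γ q.1 q.2.1 :=
      D.Γ_meas.comp (measurable_fst.prodMk measurable_snd.fst)
    have mΓ2 : Measurable fun q : (ℝ × D.Ω) × (E3 × E3) => D.Γ q.1 q.2.2 :=
      D.Γ_meas.comp (measurable_fst.prodMk measurable_snd.snd)
    have mU1 : Measurable fun q : (ℝ × D.Ω) × (E3 × E3) => D.U q.1 q.2.1 :=
      D.U_meas.comp (measurable_fst.prodMk measurable_snd.fst)
    have mU2 : Measurable fun q : (ℝ × D.Ω) × (E3 × E3) => D.U q.1 q.2.2 :=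
      D.U_meas.comp (measurable_fst.prodMk measurable_snd.snd)
    have mv : Measurable fun q : (ℝ × D.Ω) × (E3 × E3) => ((q.1.1, yy q.2.1, yy q.2.2) : ℝ × ℝ × ℝ) :=
      measurable_fst.fst.prodMk ((my.comp measurable_snd.fst).prodMk (my.comp measurable_snd.snd))
    have mth : Measurable fun q : (ℝ × D.Ω) × (E3 × E3) => th T q.1.1 :=
      (th_smooth T).continuous.measurable.comp measurable_fst.fst
    have mPK : Measurable fun q : (ℝ × D.Ω) × (E3 × E3) => PK zt r (R ^ 2) (yy q.2.1) (yy q.2.2) :=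
      (PK_meas zt r).1.comp (measurable_const.prodMk
        ((my.comp measurable_snd.fst).prodMk (my.comp measurable_snd.snd)))
    have mA : Measurable fun q : (ℝ × D.Ω) × (E3 × E3) => ENNReal.ofReal
        |D.Γ q.1 q.2.1 * D.Γ q.1 q.2.2 * (th T q.1.1 * PK zt r (R ^ 2) (yy q.2.1) (yy q.2.2))| :=
      ((mΓ1.mul mΓ2).mul (mth.mul mPK)).norm.ennreal_ofReal
    have mB : Measurable fun q : (ℝ × D.Ω) × (E3 × E3) => ENNReal.ofReal
        |D.Γ q.1 q.2.1 * D.Γ q.1 q.2.2 * FEr zt T R r q.1.1 (yy q.2.1) (yy q.2.2)| :=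
      ((mΓ1.mul mΓ2).mul (n3.1.comp mv)).norm.ennreal_ofReal
    have mC : Measurable fun q : (ℝ × D.Ω) × (E3 × E3) => ENNReal.ofReal
        |D.Γ q.1 q.2.1 * D.Γ q.1 q.2.2 *
          (D.U q.1 q.2.1 * FF1 zt T R r q.1.1 (yy q.2.1) (yy q.2.2))| :=
      ((mΓ1.mul mΓ2).mul (mU1.mul (n1.1.comp mv))).norm.ennreal_ofReal
    have mAB : Measurable fun q : (ℝ × D.Ω) × (E3 × E3) => ENNReal.ofReal
        |D.Γ q.1 q.2.1 * D.Γ q.1 q.2.2 * (th T q.1.1 * PK zt r (R ^ 2) (yy q.2.1) (yy q.2.2))| +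
        ENNReal.ofReal |D.Γ q.1 q.2.1 * D.Γ q.1 q.2.2 *
          FEr zt T R r q.1.1 (yy q.2.1) (yy q.2.2)| := mA.add mB
    rw [← lintegral_add_left mA, ← lintegral_add_left mC, ← lintegral_add_left mAB]
    refine lintegral_mono fun q => ?_
    simp only [Real.enorm_eq_ofReal_abs]
    set g : ℝ := D.Γ q.1 q.2.1 * D.Γ q.1 q.2.2 with hg
    set x1 : ℝ := th T q.1.1 * PK zt r (R ^ 2) (yy q.2.1) (yy q.2.2) with hx1
    set x2 : ℝ := FEr zt T R r q.1.1 (yy q.2.1) (yy q.2.2) with hx2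
    set x3 : ℝ := D.U q.1 q.2.1 * FF1 zt T R r q.1.1 (yy q.2.1) (yy q.2.2) with hx3
    set x4 : ℝ := D.U q.1 q.2.2 * FF2 zt T R r q.1.1 (yy q.2.1) (yy q.2.2) with hx4
    rw [← ENNReal.ofReal_add (abs_nonneg _) (abs_nonneg _),
      ← ENNReal.ofReal_add (abs_nonneg _) (abs_nonneg _),
      ← ENNReal.ofReal_add (by positivity) (by positivity)]
    apply ENNReal.ofReal_le_ofReal
    have e3 : g * (-x1 + x2 - x3 - x4) = -(g * x1) + g * x2 - g * x3 - g * x4 := by ring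
    rw [e3]
    calc |-(g * x1) + g * x2 - g * x3 - g * x4| ≤ |-(g * x1) + g * x2 - g * x3| + |g * x4| :=
          abs_sub _ _
      _ ≤ (|-(g * x1) + g * x2| + |g * x3|) + |g * x4| := by gcongr; exact abs_sub _ _
      _ ≤ ((|-(g * x1)| + |g * x2|) + |g * x3|) + |g * x4| := by gcongr; exact abs_add_le _ _
      _ = |g * x1| + |g * x2| + (|g * x3| + |g * x4|) := by rw [abs_neg]; ring

/-- (6.5), the main inequality of section 6.  Proof: `Lam_kernel`, the bounds `m_*`, `r → 0`. -/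
theorem main_ineq {zt : ℝ} (h : Zt zt) : ∃ c C T₀ : ℝ, 0 < c ∧ 0 < C ∧ 0 < T₀ ∧ T₀ ≤ 1 ∧
    ∀ T : ℝ, 0 < T → T ≤ T₀ → ∀ D : TwoPt zt T, D.Wall → ∀ R : ℝ, 0 < R → R ^ 2 ≤ T →
    ENNReal.ofReal (c * T ^ (1 - zt / 2 + mu)) ≤
      ENNReal.ofReal (C * R ^ (-2 - zt)) * D.topInt R + ENNReal.ofReal C * D.absInt +
      ENNReal.ofReal (C * D.K ^ (1 / 2 : ℝ) * T ^ (9 / 8 - zt / 2)) +
      ENNReal.ofReal (C * T ^ (3 / 4 - zt / 2)) * D.P {ω | D.S ω ≤ T} ^ (1 / 2 : ℝ) *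
        D.fourInt ^ (1 / 2 : ℝ) := by
  obtain ⟨c, hc, hi⟩ := m_init h
  obtain ⟨C2, hC2, hs⟩ := m_stop h
  obtain ⟨C3, hC3, ht⟩ := m_top h
  obtain ⟨C4, hC4, he⟩ := m_err h
  obtain ⟨C5, hC5, hd⟩ := m_drift h
  refine ⟨c, C2 + C3 + C4 + 2 * C5, 1 / 256, hc, by positivity, by norm_num, by norm_num, ?_⟩
  intro T hT hT0 D hW R hR hRT
  have hT1 : T ≤ 1 := by linarith
  have hsq : Real.sqrt T ≤ 1 / 16 := by
    rw [Real.sqrt_le_left (by norm_num)]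
    norm_num
    exact hT0
  have hsT : 0 < Real.sqrt T := Real.sqrt_pos.2 hT
  obtain ⟨K1, r1, hK1, hr1, he1⟩ := he T R hT hT1 hR hRT D hW
  obtain ⟨K2, r2, hK2, hr2, hd2⟩ := hd T R hT hT1 hR hRT D
  set C := C2 + C3 + C4 + 2 * C5 with hC
  set Y : ℝ≥0∞ := ENNReal.ofReal (C * R ^ (-2 - zt)) * D.topInt R + ENNReal.ofReal C * D.absInt +
      ENNReal.ofReal (C * D.K ^ (1 / 2 : ℝ) * T ^ (9 / 8 - zt / 2)) +
      ENNReal.ofReal (C * T ^ (3 / 4 - zt / 2)) * D.P {ω | D.S ω ≤ T} ^ (1 / 2 : ℝ) *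
        D.fourInt ^ (1 / 2 : ℝ) with hY
  have hDK := D.K_nonneg
  have key : ∀ r : ℝ, 0 < r → r ≤ min (min r1 r2) (min (1 / 32) (Real.sqrt T / 2)) →
      ENNReal.ofReal (c * T ^ (1 - zt / 2 + mu)) ≤
        Y + (ENNReal.ofReal (K1 * r) + ENNReal.ofReal (2 * (K2 * r ^ (1 / 2 : ℝ)))) := by
    intro r hr hrm
    have q1 : r ≤ r1 := hrm.trans ((min_le_left _ _).trans (min_le_left _ _))
    have q2 : r ≤ r2 := hrm.trans ((min_le_left _ _).trans (min_le_right _ _))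
    have q3 : r ≤ 1 / 32 := hrm.trans ((min_le_right _ _).trans (min_le_left _ _))
    have q4 : r ≤ Real.sqrt T / 2 := hrm.trans ((min_le_right _ _).trans (min_le_right _ _))
    have a1 := hi T R r hT (by linarith) hR hRT hr (by linarith)
    have a2 := M6_ineq h hT hR hr q3 D
    have a3 := hs T R r hT hT1 hR hRT hr D
    have a4 := ht T R r hT hR hr D
    have a5 := he1 r hr q1
    obtain ⟨a6, a7⟩ := hd2 r hr q2
    refine (ENNReal.ofReal_le_ofReal a1).trans (a2.trans ?_)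
    refine (add_le_add a3 (add_le_add (add_le_add a4 a5) (add_le_add a6 a7))).trans ?_
    have b2 : ENNReal.ofReal (C2 * T ^ (3 / 4 - zt / 2)) ≤
        ENNReal.ofReal (C * T ^ (3 / 4 - zt / 2)) := by
      apply ENNReal.ofReal_le_ofReal
      gcongr
      rw [hC]; linarith
    have b3 : ENNReal.ofReal (C3 * R ^ (-2 - zt)) ≤ ENNReal.ofReal (C * R ^ (-2 - zt)) := by
      apply ENNReal.ofReal_le_ofReal
      gcongr
      rw [hC]; linarith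
    have b4 : ENNReal.ofReal C4 ≤ ENNReal.ofReal C := by
      apply ENNReal.ofReal_le_ofReal
      rw [hC]; linarith
    have hX : 0 ≤ D.K ^ (1 / 2 : ℝ) * T ^ (9 / 8 - zt / 2) := by positivity
    have b5 : ENNReal.ofReal (C5 * D.K ^ (1 / 2 : ℝ) * T ^ (9 / 8 - zt / 2)) +
        ENNReal.ofReal (C5 * D.K ^ (1 / 2 : ℝ) * T ^ (9 / 8 - zt / 2)) ≤
        ENNReal.ofReal (C * D.K ^ (1 / 2 : ℝ) * T ^ (9 / 8 - zt / 2)) := by
      rw [← ENNReal.ofReal_add (by positivity) (by positivity)]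
      apply ENNReal.ofReal_le_ofReal
      rw [mul_assoc, mul_assoc, ← add_mul]
      gcongr
      rw [hC]; linarith
    have b6 : ENNReal.ofReal (K2 * r ^ (1 / 2 : ℝ)) + ENNReal.ofReal (K2 * r ^ (1 / 2 : ℝ)) =
        ENNReal.ofReal (2 * (K2 * r ^ (1 / 2 : ℝ))) := by
      rw [← ENNReal.ofReal_add (by positivity) (by positivity)]
      congr 1
      ring
    calc ENNReal.ofReal (C2 * T ^ (3 / 4 - zt / 2)) * D.P {ω | D.S ω ≤ T} ^ (1 / 2 : ℝ) *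
          D.fourInt ^ (1 / 2 : ℝ) +
        (ENNReal.ofReal (C3 * R ^ (-2 - zt)) * D.topInt R +
          (ENNReal.ofReal C4 * D.absInt + ENNReal.ofReal (K1 * r)) +
          (ENNReal.ofReal (C5 * D.K ^ (1 / 2 : ℝ) * T ^ (9 / 8 - zt / 2)) +
              ENNReal.ofReal (K2 * r ^ (1 / 2 : ℝ)) +
            (ENNReal.ofReal (C5 * D.K ^ (1 / 2 : ℝ) * T ^ (9 / 8 - zt / 2)) +
              ENNReal.ofReal (K2 * r ^ (1 / 2 : ℝ))))) =
        ENNReal.ofReal (C3 * R ^ (-2 - zt)) * D.topInt R + ENNReal.ofReal C4 * D.absInt +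
          (ENNReal.ofReal (C5 * D.K ^ (1 / 2 : ℝ) * T ^ (9 / 8 - zt / 2)) +
            ENNReal.ofReal (C5 * D.K ^ (1 / 2 : ℝ) * T ^ (9 / 8 - zt / 2))) +
          ENNReal.ofReal (C2 * T ^ (3 / 4 - zt / 2)) * D.P {ω | D.S ω ≤ T} ^ (1 / 2 : ℝ) *
          D.fourInt ^ (1 / 2 : ℝ) +
          (ENNReal.ofReal (K1 * r) + (ENNReal.ofReal (K2 * r ^ (1 / 2 : ℝ)) +
            ENNReal.ofReal (K2 * r ^ (1 / 2 : ℝ)))) := by ring
      _ ≤ Y + (ENNReal.ofReal (K1 * r) + ENNReal.ofReal (2 * (K2 * r ^ (1 / 2 : ℝ)))) := by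
        rw [b6, hY]
        gcongr
  have lim : Tendsto (fun r : ℝ => Y + (ENNReal.ofReal (K1 * r) +
      ENNReal.ofReal (2 * (K2 * r ^ (1 / 2 : ℝ))))) (𝓝[>] 0) (𝓝 (Y + (0 + 0))) := by
    refine Tendsto.const_add _ (Tendsto.add ?_ ?_)
    · have l1 : Tendsto (fun r : ℝ => K1 * r) (𝓝[>] 0) (𝓝 (K1 * 0)) :=
        (tendsto_id.mono_left nhdsWithin_le_nhds).const_mul K1
      rw [mul_zero] at l1
      have l2 := ENNReal.tendsto_ofReal l1
      rwa [ENNReal.ofReal_zero] at l2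
    · have l3 : Tendsto (fun r : ℝ => r ^ (1 / 2 : ℝ)) (𝓝[>] 0) (𝓝 (0 ^ (1 / 2 : ℝ))) :=
        ((Real.continuous_rpow_const (by norm_num)).tendsto 0).mono_left nhdsWithin_le_nhds
      have l4 := (l3.const_mul K2).const_mul 2
      rw [Real.zero_rpow (by norm_num), mul_zero, mul_zero] at l4
      have l5 := ENNReal.tendsto_ofReal l4
      rwa [ENNReal.ofReal_zero] at l5
  have hpos : 0 < min (min r1 r2) (min (1 / 32) (Real.sqrt T / 2)) := by positivity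
  have ev : ∀ᶠ r : ℝ in 𝓝[>] 0, ENNReal.ofReal (c * T ^ (1 - zt / 2 + mu)) ≤
      Y + (ENNReal.ofReal (K1 * r) + ENNReal.ofReal (2 * (K2 * r ^ (1 / 2 : ℝ)))) := by
    filter_upwards [Ioo_mem_nhdsGT hpos] with r hr
    exact key r hr.1 hr.2.le
  have fin := ge_of_tendsto lim ev
  simpa using fin

end Pool.Agent.W_332fe5.Six
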