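import Pool.Agent.W_332fe5_h24.S3
import Pool.Agent.W_332fe5_h24.M6
import Pool.Agent.W_332fe5_h24.G3
import Pool.Agent.W_332fe5_h24.G5

set_option autoImplicit false

/-! Block 7, S4: the main theorem of blocks 6 and 7. -/

open MeasureTheory ProbabilityTheory Set Filter Topology
open scoped ENNReal NNReal

namespace Pool.Agent.W_332fe5.Six

theorem S4_zt {zt p κ δ q : ℝ} (hp : Par zt p κ δ q) : Zt zt := ⟨hp.z1, hp.z2⟩

/-- The inequality for a stopped solution after `R → 0`. -/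
theorem S4_core {zt p κ δ q : ℝ} (hp : Par zt p κ δ q) (hLin : Need1Lin δ)
    (hReg : Need1Reg δ) (hGam : Need1Gam δ q) (hB : Need5Bdd zt p κ δ q)
    (hAbs : Need5Abs zt p κ δ q) (hG : Need5G zt p κ δ q) (hW : Need5Wall zt p κ δ q) :
    ∃ c K T₀ : ℝ, 0 < c ∧ 0 < K ∧ 0 < T₀ ∧ T₀ ≤ 1 ∧ ∀ (C : Core zt p κ δ q) (T : ℝ), 0 < T → T ≤ T₀ →
      ENNReal.ofReal (c * T ^ (1 - zt / 2 + mu)) ≤
        ENNReal.ofReal (K * T ^ ((3 - zt) / 2)) + ENNReal.ofReal (K * T ^ (9 / 8 - zt / 2)) +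
        ENNReal.ofReal (K * T ^ (1 - zt / 2 + mu)) * C.P {ω | C.S ω ≤ T} ^ (1 / 2 : ℝ) := by
  have hz := S4_zt hp
  obtain ⟨c, C1, T1, hc, hC1, hT1, hT11, hm⟩ := main_ineq hz
  obtain ⟨K2, hK2, hu⟩ := uC_int hp hLin hReg
  obtain ⟨K3, hK3, T3, hT3, hT31, ha⟩ := hAbs
  obtain ⟨K4, hK4, T4, hT4, hT41, hg⟩ := hG
  have hW' := hW
  obtain ⟨K5, hK5, R5, hR5, hw⟩ := hW
  set K : ℝ := C1 * K3 + C1 * K2 ^ (1 / 2 : ℝ) + C1 * K4 ^ (1 / 2 : ℝ) + 1 with hK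
  have hK2' : 0 ≤ K2 ^ (1 / 2 : ℝ) := by positivity
  have hK4' : 0 ≤ K4 ^ (1 / 2 : ℝ) := by positivity
  have k1 : 0 ≤ C1 * K3 := by positivity
  have k2 : 0 ≤ C1 * K2 ^ (1 / 2 : ℝ) := by positivity
  have k3 : 0 ≤ C1 * K4 ^ (1 / 2 : ℝ) := by positivity
  refine ⟨c, K, min T1 (min T3 T4), hc, by positivity, by positivity,
    (min_le_left _ _).trans hT11, ?_⟩
  intro C T hT hTm
  have t1 : T ≤ T1 := hTm.trans (min_le_left _ _)
  have t3 : T ≤ T3 := hTm.trans ((min_le_right _ _).trans (min_le_left _ _))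
  have t4 : T ≤ T4 := hTm.trans ((min_le_right _ _).trans (min_le_right _ _))
  have hT1' : T ≤ 1 := t1.trans hT11
  obtain ⟨G, mG, bG, eG, iG⟩ := hg C T hT t4
  set D : TwoPt zt T := mkTwoPt hLin hB C hT hT1' G mG bG eG K2 hK2 (hu C) with hD
  -- the wall estimate
  have hwall : D.Wall := by
    refine ⟨K5, R5, hK5, hR5, fun R hR hR1 => ?_⟩
    have e1 := absC hLin hB C hT hT1' (fun x => ENNReal.ofReal (Real.exp (-yy x / R)))
    have e2 : ∫⁻ z, (∫⁻ x in Bl, ENNReal.ofReal (|D.Γ z x| * Real.exp (-yy x / R))) ∂D.zm =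
        ∫⁻ z, (∫⁻ x in Bl, ENNReal.ofReal |gamC C z x| * ENNReal.ofReal (Real.exp (-yy x / R)))
          ∂((volume.restrict (Ioo (0 : ℝ) T)).prod C.P) := by
      refine lintegral_congr fun z => lintegral_congr fun x => ?_
      rw [ENNReal.ofReal_mul (abs_nonneg _)]
      rfl
    rw [e2, e1]
    have e3 := hw C R hR hR1
    have e4 : ∫⁻ z in Ioo (0 : ℝ) T ×ˢ univ, (∫⁻ x in Bl, ENNReal.ofReal |Gam δ (C.w z.1 z.2) x| *
        ENNReal.ofReal (Real.exp (-yy x / R))) ∂((volume : Measure ℝ).prod C.P) ≤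
        ∫⁻ z in Ioo (0 : ℝ) 1 ×ˢ univ, (∫⁻ x in Bl, ENNReal.ofReal
          (|Gam δ (C.w z.1 z.2) x| * Real.exp (-yy x / R))) ∂((volume : Measure ℝ).prod C.P) := by
      refine (lintegral_mono_set (prod_mono (Ioo_subset_Ioo_right hT1') Subset.rfl)).trans
        (le_of_eq ?_)
      refine lintegral_congr fun z => lintegral_congr fun x => ?_
      rw [ENNReal.ofReal_mul (abs_nonneg _)]
    exact e4.trans e3
  -- `absInt`
  have habs : D.absInt ≤ ENNReal.ofReal (K3 * T ^ ((3 - zt) / 2)) := by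
    refine le_trans (le_of_eq ?_) (ha C T hT t3)
    have e1 := absC hLin hB C hT hT1'
      (fun x => ENNReal.ofReal (yy x ^ (-zt) * Real.exp (-yy x / Real.sqrt T)))
    have e2 : D.absInt = ∫⁻ z, (∫⁻ x in Bl, ENNReal.ofReal |gamC C z x| *
        ENNReal.ofReal (yy x ^ (-zt) * Real.exp (-yy x / Real.sqrt T)))
          ∂((volume.restrict (Ioo (0 : ℝ) T)).prod C.P) := by
      refine lintegral_congr fun z => lintegral_congr fun x => ?_
      rw [mul_assoc, ENNReal.ofReal_mul (abs_nonneg _)]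
      rfl
    rw [e2, e1]
    refine lintegral_congr fun z => lintegral_congr fun x => ?_
    rw [mul_assoc, ENNReal.ofReal_mul (abs_nonneg _)]
  have hfour : D.fourInt ≤ ENNReal.ofReal (K4 * T ^ ((1 + 4 * mu) / 2)) := iG
  -- the top term
  have htop := top_small hp hLin hB hGam hW' C hT hT1'
  have htop' : Tendsto (fun R : ℝ => ENNReal.ofReal (C1 * R ^ (-2 - zt)) * D.topInt R +
      (ENNReal.ofReal C1 * D.absInt +
      ENNReal.ofReal (C1 * D.K ^ (1 / 2 : ℝ) * T ^ (9 / 8 - zt / 2)) +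
      ENNReal.ofReal (C1 * T ^ (3 / 4 - zt / 2)) * D.P {ω | D.S ω ≤ T} ^ (1 / 2 : ℝ) *
        D.fourInt ^ (1 / 2 : ℝ))) (𝓝[>] 0) (𝓝 (0 + (ENNReal.ofReal C1 * D.absInt +
      ENNReal.ofReal (C1 * D.K ^ (1 / 2 : ℝ) * T ^ (9 / 8 - zt / 2)) +
      ENNReal.ofReal (C1 * T ^ (3 / 4 - zt / 2)) * D.P {ω | D.S ω ≤ T} ^ (1 / 2 : ℝ) *
        D.fourInt ^ (1 / 2 : ℝ)))) := by
    refine Tendsto.add_const _ ?_
    have l1 := ENNReal.Tendsto.const_mul (a := ENNReal.ofReal C1) htop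
      (Or.inr ENNReal.ofReal_ne_top)
    rw [mul_zero] at l1
    refine l1.congr fun R => ?_
    rw [ENNReal.ofReal_mul hC1.le, mul_assoc]
    rfl
  have ev : ∀ᶠ R : ℝ in 𝓝[>] 0, ENNReal.ofReal (c * T ^ (1 - zt / 2 + mu)) ≤
      ENNReal.ofReal (C1 * R ^ (-2 - zt)) * D.topInt R +
      (ENNReal.ofReal C1 * D.absInt +
      ENNReal.ofReal (C1 * D.K ^ (1 / 2 : ℝ) * T ^ (9 / 8 - zt / 2)) +
      ENNReal.ofReal (C1 * T ^ (3 / 4 - zt / 2)) * D.P {ω | D.S ω ≤ T} ^ (1 / 2 : ℝ) *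
        D.fourInt ^ (1 / 2 : ℝ)) := by
    have hsT : 0 < Real.sqrt T := Real.sqrt_pos.2 hT
    filter_upwards [Ioo_mem_nhdsGT hsT] with R hR
    have hR2 : R ^ 2 ≤ T := by
      rw [← Real.sq_sqrt hT.le]
      have := hR.1
      have := hR.2
      gcongr
    have e1 := hm T hT t1 D hwall R hR.1 hR2
    refine e1.trans (le_of_eq ?_)
    ring
  have fin := ge_of_tendsto htop' ev
  rw [zero_add] at fin
  refine fin.trans ?_
  refine add_le_add (add_le_add ?_ ?_) ?_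
  · calc ENNReal.ofReal C1 * D.absInt ≤ ENNReal.ofReal C1 * ENNReal.ofReal (K3 * T ^ ((3 - zt) / 2)) := by
          gcongr
      _ = ENNReal.ofReal (C1 * K3 * T ^ ((3 - zt) / 2)) := by
          rw [← ENNReal.ofReal_mul hC1.le, mul_assoc]
      _ ≤ ENNReal.ofReal (K * T ^ ((3 - zt) / 2)) := by
          apply ENNReal.ofReal_le_ofReal
          gcongr
          rw [hK]; linarith
  · apply ENNReal.ofReal_le_ofReal
    have e1 : D.K = K2 := rfl
    rw [e1]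
    gcongr
    rw [hK]; linarith
  · have hP : D.P {ω | D.S ω ≤ T} = C.P {ω | C.S ω ≤ T} := rfl
    rw [hP]
    have e1 : D.fourInt ^ (1 / 2 : ℝ) ≤ ENNReal.ofReal (K4 ^ (1 / 2 : ℝ) * T ^ ((1 + 4 * mu) / 4)) := by
      calc D.fourInt ^ (1 / 2 : ℝ) ≤ (ENNReal.ofReal (K4 * T ^ ((1 + 4 * mu) / 2))) ^ (1 / 2 : ℝ) := by
            gcongr
        _ = ENNReal.ofReal (K4 ^ (1 / 2 : ℝ) * T ^ ((1 + 4 * mu) / 4)) := by
            rw [ENNReal.ofReal_rpow_of_nonneg (by positivity) (by norm_num),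
              Real.mul_rpow hK4 (by positivity), ← Real.rpow_mul hT.le]
            congr 3
            ring
    calc ENNReal.ofReal (C1 * T ^ (3 / 4 - zt / 2)) * C.P {ω | C.S ω ≤ T} ^ (1 / 2 : ℝ) *
          D.fourInt ^ (1 / 2 : ℝ) ≤
          ENNReal.ofReal (C1 * T ^ (3 / 4 - zt / 2)) * C.P {ω | C.S ω ≤ T} ^ (1 / 2 : ℝ) *
          ENNReal.ofReal (K4 ^ (1 / 2 : ℝ) * T ^ ((1 + 4 * mu) / 4)) := by gcongr
      _ = ENNReal.ofReal (C1 * K4 ^ (1 / 2 : ℝ) * T ^ (1 - zt / 2 + mu)) *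
          C.P {ω | C.S ω ≤ T} ^ (1 / 2 : ℝ) := by
          rw [mul_right_comm, ← ENNReal.ofReal_mul (by positivity)]
          congr 2
          have e2 : T ^ (1 - zt / 2 + mu) = T ^ (3 / 4 - zt / 2) * T ^ ((1 + 4 * mu) / 4) := by
            rw [← Real.rpow_add hT]
            congr 1
            ring
          rw [e2]
          ring
      _ ≤ ENNReal.ofReal (K * T ^ (1 - zt / 2 + mu)) * C.P {ω | C.S ω ≤ T} ^ (1 / 2 : ℝ) := by
          gcongr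
          rw [hK]; linarith

/-- The main theorem of blocks 6 and 7.  Proof: `mkTwoPt` (with `Need5G`), `main_ineq`, `R → 0` with
`top_small`; `absInt ≤ K T^((3-ζ)/2)`, `fourInt ≤ K T^((1+4μ)/2)`; divide by `T^(1-ζ/2+μ)`:
`c ≤ C T^(1/2-μ) + C T^(1/8-μ) + C P(S ≤ T)^(1/2)`. -/
theorem coreMain_of {zt p κ δ q : ℝ} (hp : Par zt p κ δ q) (hLin : Need1Lin δ)
    (hReg : Need1Reg δ) (hGam : Need1Gam δ q) (hB : Need5Bdd zt p κ δ q)
    (hAbs : Need5Abs zt p κ δ q) (hG : Need5G zt p κ δ q) (hW : Need5Wall zt p κ δ q) :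
    CoreMain zt p κ δ q := by
  obtain ⟨c, K, T₀, hc, hK, hT₀, hT₀1, hm⟩ := S4_core hp hLin hReg hGam hB hAbs hG hW
  set e : ℝ := c / (4 * K) with he
  have he0 : 0 < e := by positivity
  refine ⟨(2 * e) ^ 2, by positivity, min T₀ (e ^ (16 : ℝ)), by positivity,
    (min_le_left _ _).trans hT₀1, ?_⟩
  intro C T hT hTm
  have t0 : T ≤ T₀ := hTm.trans (min_le_left _ _)
  have t1 : T ≤ e ^ (16 : ℝ) := hTm.trans (min_le_right _ _)
  have hT1 : T ≤ 1 := t0.trans hT₀1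
  have h1 := hm C T hT t0
  set P' : ℝ := (C.P {ω | C.S ω ≤ T}).toReal with hP'
  have hPf : C.P {ω | C.S ω ≤ T} ≠ ∞ := measure_ne_top _ _
  have hPe : C.P {ω | C.S ω ≤ T} = ENNReal.ofReal P' := (ENNReal.ofReal_toReal hPf).symm
  have hP0 : 0 ≤ P' := ENNReal.toReal_nonneg
  rw [hPe, ENNReal.ofReal_rpow_of_nonneg hP0 (by norm_num), ← ENNReal.ofReal_mul (by positivity),
    ← ENNReal.ofReal_add (by positivity) (by positivity),
    ← ENNReal.ofReal_add (by positivity) (by positivity),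
    ENNReal.ofReal_le_ofReal_iff (by positivity)] at h1
  rw [hPe]
  apply ENNReal.ofReal_le_ofReal
  have ea : 0 < T ^ (1 - zt / 2 + mu) := by positivity
  have e1 : T ^ ((3 - zt) / 2) ≤ T ^ (1 - zt / 2 + mu) * T ^ (1 / 16 : ℝ) := by
    rw [← Real.rpow_add hT]
    apply Real.rpow_le_rpow_of_exponent_ge hT hT1
    rw [mu]
    linarith
  have e2 : T ^ (9 / 8 - zt / 2) ≤ T ^ (1 - zt / 2 + mu) * T ^ (1 / 16 : ℝ) := by
    rw [← Real.rpow_add hT]
    apply Real.rpow_le_rpow_of_exponent_ge hT hT1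
    rw [mu]
    linarith
  have e3 : T ^ (1 / 16 : ℝ) ≤ e := by
    calc T ^ (1 / 16 : ℝ) ≤ (e ^ (16 : ℝ)) ^ (1 / 16 : ℝ) := by gcongr
      _ = e := by
        rw [← Real.rpow_mul he0.le]
        norm_num
  have e4 : c * T ^ (1 - zt / 2 + mu) ≤ (K * e + K * e + K * P' ^ (1 / 2 : ℝ)) *
      T ^ (1 - zt / 2 + mu) := by
    calc c * T ^ (1 - zt / 2 + mu) ≤ K * T ^ ((3 - zt) / 2) + K * T ^ (9 / 8 - zt / 2) +
          K * T ^ (1 - zt / 2 + mu) * P' ^ (1 / 2 : ℝ) := h1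
      _ ≤ K * (T ^ (1 - zt / 2 + mu) * e) + K * (T ^ (1 - zt / 2 + mu) * e) +
          K * T ^ (1 - zt / 2 + mu) * P' ^ (1 / 2 : ℝ) := by
          gcongr
          · exact e1.trans (by gcongr)
          · exact e2.trans (by gcongr)
      _ = _ := by ring
  have e5 : c ≤ K * e + K * e + K * P' ^ (1 / 2 : ℝ) := le_of_mul_le_mul_right e4 ea
  have e6 : K * e = c / 4 := by
    rw [he]
    field_simp
  have e7 : 2 * e ≤ P' ^ (1 / 2 : ℝ) := by
    have e8 : c / 2 ≤ K * P' ^ (1 / 2 : ℝ) := by linarith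
    have e9 : K * (2 * e) ≤ K * P' ^ (1 / 2 : ℝ) := by linarith
    exact le_of_mul_le_mul_left e9 hK
  calc (2 * e) ^ 2 ≤ (P' ^ (1 / 2 : ℝ)) ^ 2 := by gcongr
    _ = P' := by
      rw [← Real.sqrt_eq_rpow, Real.sq_sqrt hP0]

end Pool.Agent.W_332fe5.Six
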