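import Pool.Agent.W_332fe5_h24.E0

set_option autoImplicit false

/-! Block 6, E2: `Lam` and superposition; limits. -/

open MeasureTheory ProbabilityTheory Set Filter Topology
open scoped ENNReal NNReal

namespace Pool.Agent.W_332fe5.Six

/-- A family of weights depending on a parameter `s ∈ I`, jointly measurable and bounded. -/
structure NiceFam (T : ℝ) (I : Set ℝ) (F : ℝ → ℝ → ℝ → ℝ → ℝ) : Prop where
  meas : Measurable fun v : ℝ × ℝ × ℝ × ℝ => F v.1 v.2.1 v.2.2.1 v.2.2.2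
  bdd : ∃ C : ℝ, ∀ s ∈ I, ∀ t ∈ Icc 0 T, ∀ a b : ℝ, |F s t a b| ≤ C

theorem NiceFam.nice {T : ℝ} {I : Set ℝ} (hI : MeasurableSet I) (hI1 : volume I < ∞)
    {F : ℝ → ℝ → ℝ → ℝ → ℝ} (hF : NiceFam T I F) : Nice T fun t a b => ∫ s in I, F s t a b := by
  obtain ⟨C, hC⟩ := hF.bdd
  refine ⟨?_, C * (volume : Measure ℝ).real I, fun t ht a b => ?_⟩
  · exact (hF.meas.stronglyMeasurable.integral_prod_left' (μ := volume.restrict I)).measurable
  · exact norm_setIntegral_le_of_norm_le_const (f := fun s => F s t a b) hI1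
      fun s hs => hC s hs t ht a b

theorem E2_three {α : Type*} [MeasurableSpace α] {μ : Measure α} {f g k : α → ℝ}
    (hf : Integrable f μ) (hg : Integrable g μ) (hk : Integrable k μ) :
    (∫ s, f s ∂μ) - (∫ s, g s ∂μ) - (∫ s, k s ∂μ) = ∫ s, (f s - g s - k s) ∂μ := by
  have h1 : Integrable (fun s => f s - g s) μ := hf.sub hg
  rw [integral_sub h1 hk, integral_sub hf hg]

theorem E2_stop_int {zt T : ℝ} (_hT : 0 < T) (D : TwoPt zt T) {I : Set ℝ} (hI : MeasurableSet I)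
    (hI1 : volume I < ∞) {F : ℝ → ℝ → ℝ → ℝ → ℝ} (hF : NiceFam T I F) :
    Integrable (fun w : (D.Ω × (E3 × E3)) × ℝ => if D.S w.1.1 ≤ T then
      D.G w.1.1 w.1.2.1 * D.G w.1.1 w.1.2.2 *
        F w.2 (D.S w.1.1) (yy w.1.2.1) (yy w.1.2.2) else 0)
      ((D.P.prod vv).prod (volume.restrict I)) := by
  obtain ⟨C, hC⟩ := hF.bdd
  have : IsFiniteMeasure ((volume : Measure ℝ).restrict I) :=
    ⟨by rw [Measure.restrict_apply_univ]; exact hI1⟩
  have hFm : Measurable fun w : (D.Ω × (E3 × E3)) × ℝ =>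
      F w.2 (D.S w.1.1) (yy w.1.2.1) (yy w.1.2.2) :=
    hF.meas.comp (measurable_snd.prodMk ((D.S_meas.comp (measurable_fst.comp
      measurable_fst)).prodMk ((yy_meas.comp (measurable_fst.comp (measurable_snd.comp
        measurable_fst))).prodMk (yy_meas.comp (measurable_snd.comp (measurable_snd.comp
          measurable_fst))))))
  have hG1 : Measurable fun w : (D.Ω × (E3 × E3)) × ℝ => D.G w.1.1 w.1.2.1 :=
    D.G_meas.comp ((measurable_fst.comp measurable_fst).prodMk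
      (measurable_fst.comp (measurable_snd.comp measurable_fst)))
  have hG2 : Measurable fun w : (D.Ω × (E3 × E3)) × ℝ => D.G w.1.1 w.1.2.2 :=
    D.G_meas.comp ((measurable_fst.comp measurable_fst).prodMk
      (measurable_snd.comp (measurable_snd.comp measurable_fst)))
  have hs : ∀ᵐ w ∂((D.P.prod vv).prod ((volume : Measure ℝ).restrict I)), w.2 ∈ I :=
    Measure.quasiMeasurePreserving_snd.ae (ae_restrict_mem hI)
  refine Integrable.of_bound (Measurable.aestronglyMeasurable ?_) |C| ?_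
  · exact Measurable.ite (measurableSet_le (D.S_meas.comp (measurable_fst.comp measurable_fst))
      measurable_const) ((hG1.mul hG2).mul hFm) measurable_const
  · filter_upwards [hs] with w hw
    rw [Real.norm_eq_abs]
    split_ifs with h
    · exact E0_mul_le (D.G_bdd _ _) (D.G_bdd _ _)
        ((hC _ hw _ ⟨D.S_nonneg _, h⟩ _ _).trans (le_abs_self C))
    · rw [abs_zero]; exact abs_nonneg C

theorem E2_init_int {T : ℝ} (hT : 0 < T) {I : Set ℝ} (hI : MeasurableSet I)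
    (hI1 : volume I < ∞) {F : ℝ → ℝ → ℝ → ℝ → ℝ} (hF : NiceFam T I F) :
    Integrable (fun w : (E3 × E3) × ℝ => Gam0 w.1.1 * Gam0 w.1.2 *
        F w.2 0 (yy w.1.1) (yy w.1.2)) (vv.prod (volume.restrict I)) := by
  obtain ⟨C, hC⟩ := hF.bdd
  have : IsFiniteMeasure ((volume : Measure ℝ).restrict I) :=
    ⟨by rw [Measure.restrict_apply_univ]; exact hI1⟩
  have hFm : Measurable fun w : (E3 × E3) × ℝ => F w.2 0 (yy w.1.1) (yy w.1.2) :=
    hF.meas.comp (measurable_snd.prodMk (measurable_const.prodMk ((yy_meas.comp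
      (measurable_fst.comp measurable_fst)).prodMk (yy_meas.comp (measurable_snd.comp
        measurable_fst)))))
  have hs : ∀ᵐ w ∂(vv.prod ((volume : Measure ℝ).restrict I)), w.2 ∈ I :=
    Measure.quasiMeasurePreserving_snd.ae (ae_restrict_mem hI)
  refine Integrable.of_bound (((Gam0_meas.comp (measurable_fst.comp measurable_fst)).mul
    (Gam0_meas.comp (measurable_snd.comp measurable_fst))).mul hFm).aestronglyMeasurable C ?_
  filter_upwards [hs] with w hw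
  rw [Real.norm_eq_abs]
  exact E0_mul_le (Gam0_bdd _) (Gam0_bdd _) (hC _ hw _ ⟨le_refl 0, hT.le⟩ _ _)

theorem E2_run1 {zt T : ℝ} (D : TwoPt zt T) {I : Set ℝ} (hI : MeasurableSet I)
    {A : ℝ → ℝ → ℝ → ℝ → ℝ} (hA : NiceFam T I A) :
    AEStronglyMeasurable (fun w : ((ℝ × D.Ω) × (E3 × E3)) × ℝ =>
      D.Γ w.1.1 w.1.2.1 * D.Γ w.1.1 w.1.2.2 *
      A w.2 w.1.1.1 (yy w.1.2.1) (yy w.1.2.2)) ((D.zm.prod vv).prod (volume.restrict I)) ∧
    ∃ C : ℝ, ∀ᵐ w ∂((D.zm.prod vv).prod ((volume : Measure ℝ).restrict I)),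
      ‖D.Γ w.1.1 w.1.2.1 * D.Γ w.1.1 w.1.2.2 *
      A w.2 w.1.1.1 (yy w.1.2.1) (yy w.1.2.2)‖ ≤ C := by
  obtain ⟨C, hC⟩ := hA.bdd
  have hFm : Measurable fun w : ((ℝ × D.Ω) × (E3 × E3)) × ℝ =>
      A w.2 w.1.1.1 (yy w.1.2.1) (yy w.1.2.2) :=
    hA.meas.comp (measurable_snd.prodMk ((measurable_fst.comp (measurable_fst.comp
      measurable_fst)).prodMk ((yy_meas.comp (measurable_fst.comp (measurable_snd.comp
        measurable_fst))).prodMk (yy_meas.comp (measurable_snd.comp (measurable_snd.comp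
          measurable_fst))))))
  have hG1 : Measurable fun w : ((ℝ × D.Ω) × (E3 × E3)) × ℝ => D.Γ w.1.1 w.1.2.1 :=
    D.Γ_meas.comp ((measurable_fst.comp measurable_fst).prodMk
      (measurable_fst.comp (measurable_snd.comp measurable_fst)))
  have hG2 : Measurable fun w : ((ℝ × D.Ω) × (E3 × E3)) × ℝ => D.Γ w.1.1 w.1.2.2 :=
    D.Γ_meas.comp ((measurable_fst.comp measurable_fst).prodMk
      (measurable_snd.comp (measurable_snd.comp measurable_fst)))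
  have hs : ∀ᵐ w ∂((D.zm.prod vv).prod ((volume : Measure ℝ).restrict I)), w.2 ∈ I :=
    Measure.quasiMeasurePreserving_snd.ae (ae_restrict_mem hI)
  have ht : ∀ᵐ w ∂((D.zm.prod vv).prod ((volume : Measure ℝ).restrict I)),
      w.1.1.1 ∈ Ioo (0 : ℝ) T :=
    Measure.quasiMeasurePreserving_fst.ae (Measure.quasiMeasurePreserving_fst.ae (E0_aez D))
  refine ⟨((hG1.mul hG2).mul hFm).aestronglyMeasurable, C, ?_⟩
  filter_upwards [hs, ht] with w hw hw'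
  rw [Real.norm_eq_abs]
  exact E0_mul_le (D.Γ_bdd _ _) (D.Γ_bdd _ _) (hC _ hw _ ⟨hw'.1.le, hw'.2.le⟩ _ _)

theorem E2_run_int {zt T : ℝ} (D : TwoPt zt T) {I : Set ℝ} (hI : MeasurableSet I)
    (hI1 : volume I < ∞) {A B1 B2 : ℝ → ℝ → ℝ → ℝ → ℝ} (hA : NiceFam T I A)
    (h1 : NiceFam T I B1) (h2 : NiceFam T I B2) :
    Integrable (fun w : ((ℝ × D.Ω) × (E3 × E3)) × ℝ =>
      D.Γ w.1.1 w.1.2.1 * D.Γ w.1.1 w.1.2.2 *
      (A w.2 w.1.1.1 (yy w.1.2.1) (yy w.1.2.2) -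
        D.U w.1.1 w.1.2.1 * B1 w.2 w.1.1.1 (yy w.1.2.1) (yy w.1.2.2) -
        D.U w.1.1 w.1.2.2 * B2 w.2 w.1.1.1 (yy w.1.2.1) (yy w.1.2.2)))
      ((D.zm.prod vv).prod (volume.restrict I)) := by
  have : IsFiniteMeasure ((volume : Measure ℝ).restrict I) :=
    ⟨by rw [Measure.restrict_apply_univ]; exact hI1⟩
  obtain ⟨mA, CA, bA⟩ := E2_run1 D hI hA
  obtain ⟨m1, C1, b1⟩ := E2_run1 D hI h1
  obtain ⟨m2, C2, b2⟩ := E2_run1 D hI h2
  have i0 := Integrable.of_bound mA CA bA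
  have i1 := ((U_integrable1 D).comp_fst (volume.restrict I)).bdd_mul m1 b1
  have i2 := ((U_integrable2 D).comp_fst (volume.restrict I)).bdd_mul m2 b2
  refine ((i0.sub i1).sub i2).congr (Eventually.of_forall fun q => ?_)
  simp only [Pi.sub_apply]
  ring

/-- a family at a fixed time is integrable in the parameter -/
theorem E2_par {T : ℝ} {I : Set ℝ} (hI : MeasurableSet I) (hI1 : volume I < ∞)
    {F : ℝ → ℝ → ℝ → ℝ → ℝ} (hF : NiceFam T I F) {t : ℝ} (ht : t ∈ Icc 0 T) (a b : ℝ) :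
    Integrable (fun s => F s t a b) (volume.restrict I) := by
  obtain ⟨C, hC⟩ := hF.bdd
  have : IsFiniteMeasure ((volume : Measure ℝ).restrict I) :=
    ⟨by rw [Measure.restrict_apply_univ]; exact hI1⟩
  have hm : Measurable fun s => F s t a b :=
    hF.meas.comp (measurable_id.prodMk (measurable_const.prodMk
      (measurable_const.prodMk measurable_const)))
  refine Integrable.of_bound hm.aestronglyMeasurable C ?_
  filter_upwards [ae_restrict_mem hI] with s hs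
  exact hC s hs t ht a b

/-- Proof: Fubini (`integral_integral_swap` or `integral_prod` twice) for each of the three
integrals; integrability on the product with `volume.restrict I` from `U_integrable1`,
`U_integrable2` and boundedness. -/
theorem Lam_superpos {zt T : ℝ} (hT : 0 < T) (D : TwoPt zt T) {I : Set ℝ} (hI : MeasurableSet I)
    (hI1 : volume I < ∞) {F A B1 B2 : ℝ → ℝ → ℝ → ℝ → ℝ} (hF : NiceFam T I F) (hA : NiceFam T I A)
    (h1 : NiceFam T I B1) (h2 : NiceFam T I B2)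
    (h : ∀ s ∈ I, D.Lam (F s) (A s) (B1 s) (B2 s) = 0) :
    D.Lam (fun t a b => ∫ s in I, F s t a b) (fun t a b => ∫ s in I, A s t a b)
      (fun t a b => ∫ s in I, B1 s t a b) (fun t a b => ∫ s in I, B2 s t a b) = 0 := by
  have : IsFiniteMeasure ((volume : Measure ℝ).restrict I) :=
    ⟨by rw [Measure.restrict_apply_univ]; exact hI1⟩
  have i1 := E2_stop_int hT D hI hI1 hF
  have i2 := E2_init_int hT hI hI1 hF
  have i3 := E2_run_int D hI hI1 hA h1 h2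
  unfold TwoPt.Lam
  have e1 : (∫ q : D.Ω × (E3 × E3), (if D.S q.1 ≤ T then
      D.G q.1 q.2.1 * D.G q.1 q.2.2 * (∫ s in I, F s (D.S q.1) (yy q.2.1) (yy q.2.2)) else 0)
        ∂(D.P.prod vv)) =
      ∫ s in I, ∫ q : D.Ω × (E3 × E3), (if D.S q.1 ≤ T then
      D.G q.1 q.2.1 * D.G q.1 q.2.2 * F s (D.S q.1) (yy q.2.1) (yy q.2.2) else 0)
        ∂(D.P.prod vv) := by
    rw [← integral_integral_swap (f := fun (q : D.Ω × (E3 × E3)) (s : ℝ) =>
      if D.S q.1 ≤ T then D.G q.1 q.2.1 * D.G q.1 q.2.2 *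
        F s (D.S q.1) (yy q.2.1) (yy q.2.2) else 0) i1]
    refine integral_congr_ae (Eventually.of_forall fun q => ?_)
    by_cases hq : D.S q.1 ≤ T
    · simp only [if_pos hq]
      rw [integral_const_mul]
    · simp only [if_neg hq]
      rw [integral_zero]
  have e2 : (∫ x : E3 × E3, Gam0 x.1 * Gam0 x.2 * (∫ s in I, F s 0 (yy x.1) (yy x.2)) ∂vv) =
      ∫ s in I, ∫ x : E3 × E3, Gam0 x.1 * Gam0 x.2 * F s 0 (yy x.1) (yy x.2) ∂vv := by
    rw [← integral_integral_swap (f := fun (x : E3 × E3) (s : ℝ) =>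
      Gam0 x.1 * Gam0 x.2 * F s 0 (yy x.1) (yy x.2)) i2]
    refine integral_congr_ae (Eventually.of_forall fun q => ?_)
    simp only
    rw [integral_const_mul]
  have e3 : (∫ q : (ℝ × D.Ω) × (E3 × E3), D.Γ q.1 q.2.1 * D.Γ q.1 q.2.2 *
      ((∫ s in I, A s q.1.1 (yy q.2.1) (yy q.2.2)) -
        D.U q.1 q.2.1 * (∫ s in I, B1 s q.1.1 (yy q.2.1) (yy q.2.2)) -
        D.U q.1 q.2.2 * (∫ s in I, B2 s q.1.1 (yy q.2.1) (yy q.2.2))) ∂(D.zm.prod vv)) =
      ∫ s in I, ∫ q : (ℝ × D.Ω) × (E3 × E3), D.Γ q.1 q.2.1 * D.Γ q.1 q.2.2 *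
      (A s q.1.1 (yy q.2.1) (yy q.2.2) -
        D.U q.1 q.2.1 * B1 s q.1.1 (yy q.2.1) (yy q.2.2) -
        D.U q.1 q.2.2 * B2 s q.1.1 (yy q.2.1) (yy q.2.2)) ∂(D.zm.prod vv) := by
    rw [← integral_integral_swap (f := fun (q : (ℝ × D.Ω) × (E3 × E3)) (s : ℝ) =>
      D.Γ q.1 q.2.1 * D.Γ q.1 q.2.2 * (A s q.1.1 (yy q.2.1) (yy q.2.2) -
        D.U q.1 q.2.1 * B1 s q.1.1 (yy q.2.1) (yy q.2.2) -
        D.U q.1 q.2.2 * B2 s q.1.1 (yy q.2.1) (yy q.2.2))) i3]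
    refine integral_congr_ae ?_
    have ht : ∀ᵐ q ∂(D.zm.prod vv), q.1.1 ∈ Ioo (0 : ℝ) T :=
      Measure.quasiMeasurePreserving_fst.ae (E0_aez D)
    filter_upwards [ht] with q hq
    have hq' : q.1.1 ∈ Icc 0 T := ⟨hq.1.le, hq.2.le⟩
    have p0 := E2_par hI hI1 hA hq' (yy q.2.1) (yy q.2.2)
    have p1 := (E2_par hI hI1 h1 hq' (yy q.2.1) (yy q.2.2)).const_mul (D.U q.1 q.2.1)
    have p2 := (E2_par hI hI1 h2 hq' (yy q.2.1) (yy q.2.2)).const_mul (D.U q.1 q.2.2)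
    rw [integral_const_mul, ← E2_three p0 p1 p2, integral_const_mul, integral_const_mul]
  rw [e1, e2, e3]
  have j1 : Integrable (fun s => ∫ q : D.Ω × (E3 × E3), (if D.S q.1 ≤ T then
      D.G q.1 q.2.1 * D.G q.1 q.2.2 * F s (D.S q.1) (yy q.2.1) (yy q.2.2) else 0)
        ∂(D.P.prod vv)) (volume.restrict I) := i1.integral_prod_right
  have j2 : Integrable (fun s => ∫ x : E3 × E3, Gam0 x.1 * Gam0 x.2 *
      F s 0 (yy x.1) (yy x.2) ∂vv) (volume.restrict I) := i2.integral_prod_right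
  have j3 : Integrable (fun s => ∫ q : (ℝ × D.Ω) × (E3 × E3), D.Γ q.1 q.2.1 * D.Γ q.1 q.2.2 *
      (A s q.1.1 (yy q.2.1) (yy q.2.2) -
        D.U q.1 q.2.1 * B1 s q.1.1 (yy q.2.1) (yy q.2.2) -
        D.U q.1 q.2.2 * B2 s q.1.1 (yy q.2.1) (yy q.2.2)) ∂(D.zm.prod vv))
      (volume.restrict I) := i3.integral_prod_right
  rw [E2_three j1 j2 j3]
  refine (setIntegral_congr_fun hI fun s hs => ?_).trans (integral_zero _ _)
  have := h s hs
  unfold TwoPt.Lam at this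
  exact this

theorem E2_dom {zt T : ℝ} (D : TwoPt zt T) (C : ℝ) :
    Integrable (fun q : (ℝ × D.Ω) × (E3 × E3) =>
      C + |D.U q.1 q.2.1| * C + |D.U q.1 q.2.2| * C) (D.zm.prod vv) :=
  ((integrable_const C).add ((U_integrable1 D).abs.mul_const C)).add
    ((U_integrable2 D).abs.mul_const C)

/-- Proof: dominated convergence in each of the three integrals. -/
theorem Lam_limit {zt T : ℝ} (hT : 0 < T) (D : TwoPt zt T) {F A B1 B2 : ℕ → ℝ → ℝ → ℝ → ℝ}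
    {F' A' B1' B2' : ℝ → ℝ → ℝ → ℝ}
    (mF : ∀ n, Measurable fun v : ℝ × ℝ × ℝ => F n v.1 v.2.1 v.2.2)
    (mA : ∀ n, Measurable fun v : ℝ × ℝ × ℝ => A n v.1 v.2.1 v.2.2)
    (m1 : ∀ n, Measurable fun v : ℝ × ℝ × ℝ => B1 n v.1 v.2.1 v.2.2)
    (m2 : ∀ n, Measurable fun v : ℝ × ℝ × ℝ => B2 n v.1 v.2.1 v.2.2)
    {C : ℝ} (bF : ∀ n, ∀ t ∈ Icc 0 T, ∀ a b : ℝ, |F n t a b| ≤ C)
    (bA : ∀ n, ∀ t ∈ Icc 0 T, ∀ a b : ℝ, |A n t a b| ≤ C)
    (b1 : ∀ n, ∀ t ∈ Icc 0 T, ∀ a b : ℝ, |B1 n t a b| ≤ C)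
    (b2 : ∀ n, ∀ t ∈ Icc 0 T, ∀ a b : ℝ, |B2 n t a b| ≤ C)
    (lF : ∀ t ∈ Icc 0 T, ∀ a b : ℝ, Tendsto (fun n => F n t a b) atTop (𝓝 (F' t a b)))
    (lA : ∀ t ∈ Icc 0 T, ∀ a b : ℝ, Tendsto (fun n => A n t a b) atTop (𝓝 (A' t a b)))
    (l1 : ∀ t ∈ Icc 0 T, ∀ a b : ℝ, Tendsto (fun n => B1 n t a b) atTop (𝓝 (B1' t a b)))
    (l2 : ∀ t ∈ Icc 0 T, ∀ a b : ℝ, Tendsto (fun n => B2 n t a b) atTop (𝓝 (B2' t a b)))
    (h : ∀ n, D.Lam (F n) (A n) (B1 n) (B2 n) = 0) : D.Lam F' A' B1' B2' = 0 := by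
  have nF : ∀ n, Nice T (F n) := fun n => ⟨mF n, C, bF n⟩
  have nA : ∀ n, Nice T (A n) := fun n => ⟨mA n, C, bA n⟩
  have n1 : ∀ n, Nice T (B1 n) := fun n => ⟨m1 n, C, b1 n⟩
  have n2 : ∀ n, Nice T (B2 n) := fun n => ⟨m2 n, C, b2 n⟩
  have hC0 : 0 ≤ C := (abs_nonneg _).trans (bF 0 0 ⟨le_refl 0, hT.le⟩ 0 0)
  have t1 : Tendsto (fun n => ∫ q : D.Ω × (E3 × E3), (if D.S q.1 ≤ T then
      D.G q.1 q.2.1 * D.G q.1 q.2.2 * F n (D.S q.1) (yy q.2.1) (yy q.2.2) else 0)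
        ∂(D.P.prod vv)) atTop (𝓝 (∫ q : D.Ω × (E3 × E3), (if D.S q.1 ≤ T then
      D.G q.1 q.2.1 * D.G q.1 q.2.2 * F' (D.S q.1) (yy q.2.1) (yy q.2.2) else 0)
        ∂(D.P.prod vv))) := by
    refine tendsto_integral_of_dominated_convergence (fun _ => C)
      (fun n => (int_stop hT D (nF n)).aestronglyMeasurable) (integrable_const C)
      (fun n => Eventually.of_forall fun q => ?_) (Eventually.of_forall fun q => ?_)
    · rw [Real.norm_eq_abs]
      split_ifs with hq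
      · exact E0_mul_le (D.G_bdd _ _) (D.G_bdd _ _) (bF n _ ⟨D.S_nonneg _, hq⟩ _ _)
      · rw [abs_zero]; exact hC0
    · by_cases hq : D.S q.1 ≤ T
      · simp only [if_pos hq]
        exact (lF _ ⟨D.S_nonneg _, hq⟩ _ _).const_mul _
      · simp only [if_neg hq]
        exact tendsto_const_nhds
  have t2 : Tendsto (fun n => ∫ x : E3 × E3, Gam0 x.1 * Gam0 x.2 *
      F n 0 (yy x.1) (yy x.2) ∂vv) atTop (𝓝 (∫ x : E3 × E3, Gam0 x.1 * Gam0 x.2 *
      F' 0 (yy x.1) (yy x.2) ∂vv)) := by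
    refine tendsto_integral_of_dominated_convergence (fun _ => C)
      (fun n => (int_init hT (nF n)).aestronglyMeasurable) (integrable_const C)
      (fun n => Eventually.of_forall fun q => ?_) (Eventually.of_forall fun q => ?_)
    · rw [Real.norm_eq_abs]
      exact E0_mul_le (Gam0_bdd _) (Gam0_bdd _) (bF n _ ⟨le_refl 0, hT.le⟩ _ _)
    · exact (lF _ ⟨le_refl 0, hT.le⟩ _ _).const_mul _
  have t3 : Tendsto (fun n => ∫ q : (ℝ × D.Ω) × (E3 × E3), D.Γ q.1 q.2.1 * D.Γ q.1 q.2.2 *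
      (A n q.1.1 (yy q.2.1) (yy q.2.2) -
        D.U q.1 q.2.1 * B1 n q.1.1 (yy q.2.1) (yy q.2.2) -
        D.U q.1 q.2.2 * B2 n q.1.1 (yy q.2.1) (yy q.2.2)) ∂(D.zm.prod vv)) atTop
      (𝓝 (∫ q : (ℝ × D.Ω) × (E3 × E3), D.Γ q.1 q.2.1 * D.Γ q.1 q.2.2 *
      (A' q.1.1 (yy q.2.1) (yy q.2.2) -
        D.U q.1 q.2.1 * B1' q.1.1 (yy q.2.1) (yy q.2.2) -
        D.U q.1 q.2.2 * B2' q.1.1 (yy q.2.1) (yy q.2.2)) ∂(D.zm.prod vv))) := by
    have ht : ∀ᵐ q ∂(D.zm.prod vv), q.1.1 ∈ Ioo (0 : ℝ) T :=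
      Measure.quasiMeasurePreserving_fst.ae (E0_aez D)
    refine tendsto_integral_of_dominated_convergence _
      (fun n => (int_run D (nA n) (n1 n) (n2 n)).aestronglyMeasurable) (E2_dom D C)
      (fun n => ?_) ?_
    · filter_upwards [ht] with q hq
      have hq' : q.1.1 ∈ Icc 0 T := ⟨hq.1.le, hq.2.le⟩
      rw [Real.norm_eq_abs]
      refine E0_mul_le (D.Γ_bdd _ _) (D.Γ_bdd _ _) ?_
      have s1 := bA n _ hq' (yy q.2.1) (yy q.2.2)
      have s2 : |D.U q.1 q.2.1 * B1 n q.1.1 (yy q.2.1) (yy q.2.2)| ≤ |D.U q.1 q.2.1| * C := by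
        rw [abs_mul]
        exact mul_le_mul_of_nonneg_left (b1 n _ hq' _ _) (abs_nonneg _)
      have s3 : |D.U q.1 q.2.2 * B2 n q.1.1 (yy q.2.1) (yy q.2.2)| ≤ |D.U q.1 q.2.2| * C := by
        rw [abs_mul]
        exact mul_le_mul_of_nonneg_left (b2 n _ hq' _ _) (abs_nonneg _)
      refine (abs_sub _ _).trans (add_le_add ?_ s3)
      exact (abs_sub _ _).trans (add_le_add s1 s2)
    · filter_upwards [ht] with q hq
      have hq' : q.1.1 ∈ Icc 0 T := ⟨hq.1.le, hq.2.le⟩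
      exact ((((lA _ hq' _ _).sub ((l1 _ hq' _ _).const_mul _)).sub
        ((l2 _ hq' _ _).const_mul _)).const_mul _)
  have t4 := (t1.sub t2).sub t3
  have t5 : Tendsto (fun _ : ℕ => (0 : ℝ)) atTop (𝓝 (D.Lam F' A' B1' B2')) := by
    refine t4.congr fun n => ?_
    have := h n
    unfold TwoPt.Lam at this
    exact this
  exact tendsto_nhds_unique t5 tendsto_const_nhds

end Pool.Agent.W_332fe5.Six
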