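import Pool.Agent.W_332fe5_h24.E1
import Pool.Agent.W_332fe5_h24.E2

set_option autoImplicit false

/-! Block 6, E4: `Lam` vanishes on weights `η(t) P(y₁, y₂)`. -/

open MeasureTheory ProbabilityTheory Set Filter Topology
open scoped ENNReal NNReal

namespace Pool.Agent.W_332fe5.Six

/-- A smooth compactly supported function of two variables with its derivatives. -/
structure Sm (a b : ℝ) (P P1 P2 P11 P12 P22 : ℝ → ℝ → ℝ) : Prop where
  supp : ∀ x y, P x y ≠ 0 → x ∈ Icc a b ∧ y ∈ Icc a b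
  smooth : ∀ y, ContDiff ℝ ((⊤ : ℕ∞) : WithTop ℕ∞) fun x => P x y
  h1 : ∀ x y, HasDerivAt (fun t => P t y) (P1 x y) x
  h2 : ∀ x y, HasDerivAt (fun t => P x t) (P2 x y) y
  h11 : ∀ x y, HasDerivAt (fun t => P1 t y) (P11 x y) x
  h12 : ∀ x y, HasDerivAt (fun t => P1 x t) (P12 x y) y
  h22 : ∀ x y, HasDerivAt (fun t => P2 x t) (P22 x y) y
  c0 : Continuous fun v : ℝ × ℝ => P v.1 v.2
  c1 : Continuous fun v : ℝ × ℝ => P1 v.1 v.2
  c2 : Continuous fun v : ℝ × ℝ => P2 v.1 v.2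
  c11 : Continuous fun v : ℝ × ℝ => P11 v.1 v.2
  c12 : Continuous fun v : ℝ × ℝ => P12 v.1 v.2
  c22 : Continuous fun v : ℝ × ℝ => P22 v.1 v.2

/-- A derivative vanishes off a closed set off which the function vanishes. -/
theorem deriv_off {f : ℝ → ℝ} {f' x : ℝ} {S : Set ℝ} (hS : IsClosed S) (h0 : ∀ y, y ∉ S → f y = 0)
    (hf : HasDerivAt f f' x) (hx : x ∉ S) : f' = 0 := by
  have h1 : f =ᶠ[𝓝 x] fun _ => 0 := by
    filter_upwards [hS.isOpen_compl.mem_nhds hx] with y hy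
    exact h0 y hy
  exact (hf.congr_of_eventuallyEq h1.symm).unique (hasDerivAt_const x 0)

theorem Sm.off {a b : ℝ} {P P1 P2 P11 P12 P22 : ℝ → ℝ → ℝ} (hP : Sm a b P P1 P2 P11 P12 P22)
    {x y : ℝ} (h : ¬ (x ∈ Icc a b ∧ y ∈ Icc a b)) : P x y = 0 := by
  by_contra hne
  exact h (hP.supp x y hne)

/-- The support of the derivatives. -/
theorem off_x {a b : ℝ} {P P1 : ℝ → ℝ → ℝ} (h0 : ∀ x y, ¬ (x ∈ Icc a b ∧ y ∈ Icc a b) → P x y = 0)
    (h1 : ∀ x y, HasDerivAt (fun t => P t y) (P1 x y) x) :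
    ∀ x y, ¬ (x ∈ Icc a b ∧ y ∈ Icc a b) → P1 x y = 0 := by
  intro x y hxy
  by_cases hy : y ∈ Icc a b
  · have hx : x ∉ Icc a b := fun hx => hxy ⟨hx, hy⟩
    exact deriv_off isClosed_Icc (fun t ht => h0 t y fun h => ht h.1) (h1 x y) hx
  · refine deriv_off isClosed_empty (fun t _ => h0 t y fun h => hy h.2) (h1 x y) (by simp)

theorem off_y {a b : ℝ} {P P2 : ℝ → ℝ → ℝ} (h0 : ∀ x y, ¬ (x ∈ Icc a b ∧ y ∈ Icc a b) → P x y = 0)
    (h1 : ∀ x y, HasDerivAt (fun t => P x t) (P2 x y) y) :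
    ∀ x y, ¬ (x ∈ Icc a b ∧ y ∈ Icc a b) → P2 x y = 0 := by
  intro x y hxy
  by_cases hx : x ∈ Icc a b
  · have hy : y ∉ Icc a b := fun hy => hxy ⟨hx, hy⟩
    exact deriv_off isClosed_Icc (fun t ht => h0 x t fun h => ht h.2) (h1 x y) hy
  · refine deriv_off isClosed_empty (fun t _ => h0 x t fun h => hx h.1) (h1 x y) (by simp)

theorem exists_bdd {a b : ℝ} {P : ℝ → ℝ → ℝ} (hc : Continuous fun v : ℝ × ℝ => P v.1 v.2)
    (h0 : ∀ x y, ¬ (x ∈ Icc a b ∧ y ∈ Icc a b) → P x y = 0) :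
    ∃ C : ℝ, 0 ≤ C ∧ ∀ x y, |P x y| ≤ C := by
  obtain ⟨C, hC⟩ := (isCompact_Icc (a := a) (b := b)).prod (isCompact_Icc (a := a) (b := b))
    |>.exists_bound_of_continuousOn hc.continuousOn
  refine ⟨max C 0, le_max_right _ _, fun x y => ?_⟩
  by_cases h : x ∈ Icc a b ∧ y ∈ Icc a b
  · exact (hC (x, y) ⟨h.1, h.2⟩).trans (le_max_left _ _)
  · rw [h0 x y h, abs_zero]
    exact le_max_right _ _

/-- Continuous families with compact support are nice. -/
theorem niceFam_of_cont {T a b A B : ℝ} {F : ℝ → ℝ → ℝ → ℝ → ℝ}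
    (hc : Continuous fun v : ℝ × ℝ × ℝ × ℝ => F v.1 v.2.1 v.2.2.1 v.2.2.2)
    (hs : ∀ s ∈ Icc a b, ∀ t x y, ¬ (x ∈ Icc a b ∧ y ∈ Icc A B) → F s t x y = 0) :
    NiceFam T (Icc a b) F := by
  refine ⟨hc.measurable, ?_⟩
  obtain ⟨C, hC⟩ := ((isCompact_Icc (a := a) (b := b)).prod ((isCompact_Icc (a := (0 : ℝ)) (b := T)).prod
    ((isCompact_Icc (a := a) (b := b)).prod (isCompact_Icc (a := A) (b := B)))))
    |>.exists_bound_of_continuousOn hc.continuousOn
  refine ⟨max C 0, fun s hs1 t ht x y => ?_⟩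
  by_cases h : x ∈ Icc a b ∧ y ∈ Icc A B
  · exact (hC (s, t, x, y) ⟨hs1, ht, h.1, h.2⟩).trans (le_max_left _ _)
  · rw [hs s hs1 t x y h, abs_zero]
    exact le_max_right _ _

/-- Mollification in the second variable. -/
noncomputable def Mo (ρ : ℝ → ℝ) (Q : ℝ → ℝ → ℝ) (x y : ℝ) : ℝ := ∫ r, Q x r * ρ (r - y)

section mollify

variable {a b ε : ℝ} {ρ : ℝ → ℝ}

theorem integrable_Mo (hρ : Continuous ρ) {Q : ℝ → ℝ → ℝ}
    (hQ : Continuous fun v : ℝ × ℝ => Q v.1 v.2)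
    (h0 : ∀ x y, ¬ (x ∈ Icc a b ∧ y ∈ Icc a b) → Q x y = 0) (x y : ℝ) :
    Integrable fun r => Q x r * ρ (r - y) := by
  have hcont : Continuous fun r => Q x r * ρ (r - y) := by
    have h1 : Continuous fun r => Q x r := hQ.comp (by fun_prop : Continuous fun r : ℝ => (x, r))
    fun_prop
  refine hcont.integrable_of_hasCompactSupport ?_
  refine HasCompactSupport.intro (isCompact_Icc (a := a) (b := b)) fun r hr => ?_
  rw [h0 x r fun h => hr h.2, zero_mul]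

theorem Mo_eq_set (ρ : ℝ → ℝ) {Q : ℝ → ℝ → ℝ}
    (h0 : ∀ x y, ¬ (x ∈ Icc a b ∧ y ∈ Icc a b) → Q x y = 0) (x y : ℝ) :
    ∫ r in Icc a b, Q x r * ρ (r - y) = Mo ρ Q x y := by
  rw [Mo, setIntegral_eq_integral_of_forall_compl_eq_zero]
  intro r hr
  rw [h0 x r fun h => hr h.2, zero_mul]

/-- Integration by parts. -/
theorem Mo_parts {ρ' : ℝ → ℝ} (hρ : Continuous ρ) (hρ' : Continuous ρ')
    (hd : ∀ u, HasDerivAt ρ (ρ' u) u) {Q Q2 : ℝ → ℝ → ℝ}
    (hQ : Continuous fun v : ℝ × ℝ => Q v.1 v.2) (hQ2 : Continuous fun v : ℝ × ℝ => Q2 v.1 v.2)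
    (h0 : ∀ x y, ¬ (x ∈ Icc a b ∧ y ∈ Icc a b) → Q x y = 0)
    (h2 : ∀ x y, HasDerivAt (fun t => Q x t) (Q2 x y) y) (x y : ℝ) :
    Mo ρ' Q x y = - Mo ρ Q2 x y := by
  have h02 := off_y h0 h2
  have e1 := integral_mul_deriv_eq_deriv_mul_of_integrable (u := fun r => Q x r)
    (v := fun r => ρ (r - y)) (u' := fun r => Q2 x r) (v' := fun r => ρ' (r - y))
    (fun r _ => h2 x r)
    (fun r _ => by
      have := (hd (r - y)).comp r ((hasDerivAt_id r).sub_const y)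
      rw [mul_one] at this
      exact this)
    (integrable_Mo hρ' hQ h0 x y) (integrable_Mo hρ hQ2 h02 x y) (integrable_Mo hρ hQ h0 x y)
  exact e1

theorem Mo_off {Q : ℝ → ℝ → ℝ} (hε : ∀ u, ε < |u| → ρ u = 0)
    (h0 : ∀ x y, ¬ (x ∈ Icc a b ∧ y ∈ Icc a b) → Q x y = 0) {x y : ℝ}
    (h : ¬ (x ∈ Icc a b ∧ y ∈ Icc (a - ε) (b + ε))) : Mo ρ Q x y = 0 := by
  rw [Mo]
  refine integral_eq_zero_of_ae (Eventually.of_forall fun r => ?_)
  show Q x r * ρ (r - y) = 0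
  by_cases h1 : x ∈ Icc a b ∧ r ∈ Icc a b
  · have h2 : y ∉ Icc (a - ε) (b + ε) := fun h2 => h ⟨h1.1, h2⟩
    rw [hε, mul_zero]
    by_contra h3
    rw [not_lt, abs_le] at h3
    exact h2 ⟨by linarith [h1.2.1, h3.2], by linarith [h1.2.2, h3.1]⟩
  · rw [h0 x r h1, zero_mul]

theorem Mo_bdd {Q : ℝ → ℝ → ℝ} {C : ℝ} (hC : ∀ x y, |Q x y| ≤ C) (hρ0 : ∀ u, 0 ≤ ρ u)
    (hρ1 : ∫ u, ρ u = 1) (hρi : Integrable ρ) (x y : ℝ) : |Mo ρ Q x y| ≤ C := by
  rw [Mo]
  have h1 : Integrable fun r => C * ρ (r - y) := (hρi.comp_sub_right y).const_mul C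
  calc |∫ r, Q x r * ρ (r - y)| = ‖∫ r, Q x r * ρ (r - y)‖ := (Real.norm_eq_abs _).symm
    _ ≤ ∫ r, C * ρ (r - y) := by
        refine norm_integral_le_of_norm_le h1 (Eventually.of_forall fun r => ?_)
        rw [norm_mul, Real.norm_eq_abs, Real.norm_of_nonneg (hρ0 _)]
        exact mul_le_mul_of_nonneg_right (hC x r) (hρ0 _)
    _ = C := by
        rw [integral_const_mul, integral_sub_right_eq_self (fun r => ρ r) y, hρ1, mul_one]

theorem Mo_meas (hρ : Continuous ρ) {Q : ℝ → ℝ → ℝ}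
    (hQ : Continuous fun v : ℝ × ℝ => Q v.1 v.2) : Measurable fun v : ℝ × ℝ => Mo ρ Q v.1 v.2 := by
  have h1 : Continuous fun w : (ℝ × ℝ) × ℝ => Q w.1.1 w.2 * ρ (w.2 - w.1.2) := by
    have h2 : Continuous fun w : (ℝ × ℝ) × ℝ => Q w.1.1 w.2 :=
      hQ.comp (by fun_prop : Continuous fun w : (ℝ × ℝ) × ℝ => (w.1.1, w.2))
    fun_prop
  exact (h1.stronglyMeasurable.integral_prod_right (ν := (volume : Measure ℝ))).measurable

end mollify

theorem int6 {μ : Measure ℝ} {f1 f2 f3 f4 f5 f6 : ℝ → ℝ} (h1 : Integrable f1 μ)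
    (h2 : Integrable f2 μ) (h3 : Integrable f3 μ) (h4 : Integrable f4 μ) (h5 : Integrable f5 μ)
    (h6 : Integrable f6 μ) (c1 c2 c3 c4 c5 c6 : ℝ) :
    ∫ s, (c1 * f1 s + c2 * f2 s + c3 * f3 s + c4 * f4 s + c5 * f5 s + c6 * f6 s) ∂μ =
      c1 * ∫ s, f1 s ∂μ + c2 * ∫ s, f2 s ∂μ + c3 * ∫ s, f3 s ∂μ + c4 * ∫ s, f4 s ∂μ +
        c5 * ∫ s, f5 s ∂μ + c6 * ∫ s, f6 s ∂μ := by
  have g1 := h1.const_mul c1
  have g2 := h2.const_mul c2
  have g3 := h3.const_mul c3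
  have g4 := h4.const_mul c4
  have g5 := h5.const_mul c5
  have g6 := h6.const_mul c6
  have s2 := g1.add g2
  have s3 := s2.add g3
  have s4 := s3.add g4
  have s5 := s4.add g5
  have e5 : ∫ s, (c1 * f1 s + c2 * f2 s + c3 * f3 s + c4 * f4 s + c5 * f5 s + c6 * f6 s) ∂μ =
      ∫ s, (c1 * f1 s + c2 * f2 s + c3 * f3 s + c4 * f4 s + c5 * f5 s) ∂μ +
        ∫ s, c6 * f6 s ∂μ := integral_add s5 g6
  have e4 : ∫ s, (c1 * f1 s + c2 * f2 s + c3 * f3 s + c4 * f4 s + c5 * f5 s) ∂μ =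
      ∫ s, (c1 * f1 s + c2 * f2 s + c3 * f3 s + c4 * f4 s) ∂μ + ∫ s, c5 * f5 s ∂μ :=
    integral_add s4 g5
  have e3 : ∫ s, (c1 * f1 s + c2 * f2 s + c3 * f3 s + c4 * f4 s) ∂μ =
      ∫ s, (c1 * f1 s + c2 * f2 s + c3 * f3 s) ∂μ + ∫ s, c4 * f4 s ∂μ := integral_add s3 g4
  have e2 : ∫ s, (c1 * f1 s + c2 * f2 s + c3 * f3 s) ∂μ =
      ∫ s, (c1 * f1 s + c2 * f2 s) ∂μ + ∫ s, c3 * f3 s ∂μ := integral_add s2 g3
  have e1 : ∫ s, (c1 * f1 s + c2 * f2 s) ∂μ = ∫ s, c1 * f1 s ∂μ + ∫ s, c2 * f2 s ∂μ :=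
    integral_add g1 g2
  rw [e5, e4, e3, e2, e1, integral_const_mul, integral_const_mul, integral_const_mul,
    integral_const_mul, integral_const_mul, integral_const_mul]

/-- The identity for mollified functions. -/
theorem Lam_mol {zt T : ℝ} (hT : 0 < T) (D : TwoPt zt T) {a b ε : ℝ} (ha : 0 < a) (hb : b < 1 / 2)
    (hεa : ε < a) (hεb : b + ε < 1 / 2) {P P1 P2 P11 P12 P22 : ℝ → ℝ → ℝ}
    (hP : Sm a b P P1 P2 P11 P12 P22) {ρ : ℝ → ℝ}
    (hρ : ContDiff ℝ ((⊤ : ℕ∞) : WithTop ℕ∞) ρ) (hε : ∀ u, ε < |u| → ρ u = 0) {η : ℝ → ℝ}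
    (hη : ContDiff ℝ 1 η) (hηT : η T = 0) :
    D.Lam (fun t x y => η t * Mo ρ P x y)
      (fun t x y => deriv η t * Mo ρ P x y + η t * LL zt (Mo ρ P) (Mo ρ P1) (Mo ρ P2) (Mo ρ P11)
        (Mo ρ P12) (Mo ρ P22) x y)
      (fun t x y => η t * Mo ρ P1 x y) (fun t x y => η t * Mo ρ P2 x y) = 0 := by
  set ρ' : ℝ → ℝ := deriv ρ with hρ'
  set ρ'' : ℝ → ℝ := deriv ρ' with hρ''
  have hρd : ContDiff ℝ ((⊤ : ℕ∞) : WithTop ℕ∞) ρ' := (contDiff_infty_iff_deriv.1 hρ).2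
  have hρdd : ContDiff ℝ ((⊤ : ℕ∞) : WithTop ℕ∞) ρ'' := (contDiff_infty_iff_deriv.1 hρd).2
  have d1 : ∀ u, HasDerivAt ρ (ρ' u) u := fun u =>
    (hρ.differentiable (by simp)).differentiableAt.hasDerivAt
  have d2 : ∀ u, HasDerivAt ρ' (ρ'' u) u := fun u =>
    (hρd.differentiable (by simp)).differentiableAt.hasDerivAt
  have hcl : IsClosed {u : ℝ | |u| ≤ ε} := isClosed_le continuous_abs continuous_const
  have hε' : ∀ u, ε < |u| → ρ' u = 0 := fun u hu =>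
    deriv_off hcl (fun y hy => hε y (not_le.1 hy)) (d1 u) (not_le.2 hu)
  have hε'' : ∀ u, ε < |u| → ρ'' u = 0 := fun u hu =>
    deriv_off hcl (fun y hy => hε' y (not_le.1 hy)) (d2 u) (not_le.2 hu)
  have o0 : ∀ x y, ¬ (x ∈ Icc a b ∧ y ∈ Icc a b) → P x y = 0 := fun x y h => hP.off h
  have o1 := off_x o0 hP.h1
  have o2 := off_y o0 hP.h2
  have o11 := off_x o1 hP.h11
  have o12 := off_y o1 hP.h12
  have o22 := off_y o2 hP.h22
  -- the functions of one variable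
  have hH : ∀ r, (fun x => P x r) ∈ CR := by
    intro r
    have hz : ∀ x, x ∉ Icc a b → P x r = 0 := fun x hx => o0 x r fun h => hx h.1
    refine ⟨hP.smooth r, HasCompactSupport.intro isCompact_Icc hz, ?_⟩
    have h1 : tsupport (fun x => P x r) ⊆ Icc a b := by
      refine closure_minimal (fun x hx => ?_) isClosed_Icc
      by_contra h
      exact hx (hz x h)
    exact h1.trans fun x hx => ⟨ha.trans_le hx.1, hx.2.trans_lt hb⟩
  have hH' : ∀ r ∈ Icc a b, (fun y => ρ (r - y)) ∈ CR := by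
    intro r hr
    have hz : ∀ y, y ∉ Icc (r - ε) (r + ε) → ρ (r - y) = 0 := by
      intro y hy
      apply hε
      by_contra h
      rw [not_lt, abs_le] at h
      exact hy ⟨by linarith [h.2], by linarith [h.1]⟩
    refine ⟨hρ.comp (by fun_prop), HasCompactSupport.intro isCompact_Icc hz, ?_⟩
    have h1 : tsupport (fun y => ρ (r - y)) ⊆ Icc (r - ε) (r + ε) := by
      refine closure_minimal (fun x hx => ?_) isClosed_Icc
      by_contra h
      exact hx (hz x h)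
    refine h1.trans fun x hx => ⟨?_, ?_⟩
    · linarith [hx.1, hr.1]
    · linarith [hx.2, hr.2]
  have e1 : ∀ r, deriv (fun x => P x r) = fun x => P1 x r := fun r =>
    funext fun x => (hP.h1 x r).deriv
  have e2 : ∀ r, iteratedDeriv 2 (fun x => P x r) = fun x => P11 x r := by
    intro r
    rw [iteratedDeriv_succ, iteratedDeriv_one, e1]
    exact funext fun x => (hP.h11 x r).deriv
  have e3 : ∀ r, deriv (fun y => ρ (r - y)) = fun y => -ρ' (r - y) := fun r =>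
    funext fun y => deriv_comp_const_sub _ _ _
  have e4 : ∀ r, iteratedDeriv 2 (fun y => ρ (r - y)) = fun y => ρ'' (r - y) := by
    intro r
    rw [iteratedDeriv_succ, iteratedDeriv_one, e3]
    funext y
    rw [deriv.fun_neg, deriv_comp_const_sub, neg_neg]
  -- the families
  have hηc : Continuous η := hη.continuous
  have hηd : Continuous (deriv η) := hη.continuous_deriv le_rfl
  have cP : ∀ {Q : ℝ → ℝ → ℝ}, (Continuous fun v : ℝ × ℝ => Q v.1 v.2) →
      Continuous fun v : ℝ × ℝ × ℝ × ℝ => Q v.2.2.1 v.1 := fun hQ =>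
    hQ.comp (by fun_prop : Continuous fun v : ℝ × ℝ × ℝ × ℝ => (v.2.2.1, v.1))
  have c0 := cP hP.c0
  have c1 := cP hP.c1
  have c11 := cP hP.c11
  have r0 : Continuous ρ := hρ.continuous
  have r1 : Continuous ρ' := hρd.continuous
  have r2 : Continuous ρ'' := hρdd.continuous
  have qη : Continuous fun v : ℝ × ℝ × ℝ × ℝ => η v.2.1 := hηc.comp (by fun_prop)
  have qηd : Continuous fun v : ℝ × ℝ × ℝ × ℝ => deriv η v.2.1 := hηd.comp (by fun_prop)
  have q0 : Continuous fun v : ℝ × ℝ × ℝ × ℝ => ρ (v.1 - v.2.2.2) := r0.comp (by fun_prop)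
  have q1 : Continuous fun v : ℝ × ℝ × ℝ × ℝ => ρ' (v.1 - v.2.2.2) := r1.comp (by fun_prop)
  have q2 : Continuous fun v : ℝ × ℝ × ℝ × ℝ => ρ'' (v.1 - v.2.2.2) := r2.comp (by fun_prop)
  have qx : Continuous fun v : ℝ × ℝ × ℝ × ℝ => 1 - 2 * v.2.2.1 := by fun_prop
  have qy : Continuous fun v : ℝ × ℝ × ℝ × ℝ => 1 - 2 * v.2.2.2 := by fun_prop
  have qA : Continuous fun v : ℝ × ℝ × ℝ × ℝ =>
      (deriv η v.2.1 + 9 * cc zt ^ 2 * η v.2.1) * (P v.2.2.1 v.1 * ρ (v.1 - v.2.2.2)) +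
      (η v.2.1 * (1 - 2 * v.2.2.1)) * (P11 v.2.2.1 v.1 * ρ (v.1 - v.2.2.2)) +
      (η v.2.1 * (-5 - 3 * cc zt ^ 2 * (1 - 2 * v.2.2.1))) *
        (P1 v.2.2.1 v.1 * ρ (v.1 - v.2.2.2)) +
      (η v.2.1 * (1 - 2 * v.2.2.2)) * (P v.2.2.1 v.1 * ρ'' (v.1 - v.2.2.2)) +
      (η v.2.1 * (5 + 3 * cc zt ^ 2 * (1 - 2 * v.2.2.2))) *
        (P v.2.2.1 v.1 * ρ' (v.1 - v.2.2.2)) +
      (η v.2.1 * (-(cc zt ^ 2 * (1 - 2 * v.2.2.1) * (1 - 2 * v.2.2.2)))) *
        (P1 v.2.2.1 v.1 * ρ' (v.1 - v.2.2.2)) := by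
    refine (((((?_ : Continuous _).add ?_).add ?_).add ?_).add ?_).add ?_
    · exact (qηd.add (continuous_const.mul qη)).mul (c0.mul q0)
    · exact (qη.mul qx).mul (c11.mul q0)
    · exact (qη.mul (continuous_const.sub (continuous_const.mul qx))).mul (c1.mul q0)
    · exact (qη.mul qy).mul (c0.mul q2)
    · exact (qη.mul (continuous_const.add (continuous_const.mul qy))).mul (c0.mul q1)
    · exact (qη.mul ((continuous_const.mul qx).mul qy).neg).mul (c1.mul q1)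
  have hoff : ∀ s ∈ Icc a b, ∀ x y, ¬ (x ∈ Icc a b ∧ y ∈ Icc (a - ε) (b + ε)) →
      x ∉ Icc a b ∨ ε < |s - y| := by
    intro s hs x y h
    by_cases hx : x ∈ Icc a b
    · right
      by_contra h1
      rw [not_lt, abs_le] at h1
      exact h ⟨hx, by linarith [hs.1, h1.2], by linarith [hs.2, h1.1]⟩
    · exact Or.inl hx
  have key := Lam_superpos hT D (I := Icc a b) measurableSet_Icc
    (by rw [Real.volume_Icc]; exact ENNReal.ofReal_lt_top)
    (F := fun s t x y => η t * (P x s * ρ (s - y)))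
    (A := fun s t x y => (deriv η t + 9 * cc zt ^ 2 * η t) * (P x s * ρ (s - y)) +
      (η t * (1 - 2 * x)) * (P11 x s * ρ (s - y)) +
      (η t * (-5 - 3 * cc zt ^ 2 * (1 - 2 * x))) * (P1 x s * ρ (s - y)) +
      (η t * (1 - 2 * y)) * (P x s * ρ'' (s - y)) +
      (η t * (5 + 3 * cc zt ^ 2 * (1 - 2 * y))) * (P x s * ρ' (s - y)) +
      (η t * (-(cc zt ^ 2 * (1 - 2 * x) * (1 - 2 * y)))) * (P1 x s * ρ' (s - y)))
    (B1 := fun s t x y => η t * (P1 x s * ρ (s - y)))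
    (B2 := fun s t x y => η t * (P x s * -ρ' (s - y)))
    (niceFam_of_cont (A := a - ε) (B := b + ε) (qη.mul (c0.mul q0)) (by
      intro s hs t x y h
      rcases hoff s hs x y h with h1 | h1
      · rw [o0 x s fun h => h1 h.1]; ring
      · rw [hε _ h1]; ring))
    (niceFam_of_cont (A := a - ε) (B := b + ε) qA (by
      intro s hs t x y h
      rcases hoff s hs x y h with h1 | h1
      · rw [o0 x s fun h => h1 h.1, o1 x s fun h => h1 h.1, o11 x s fun h => h1 h.1]; ring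
      · rw [hε _ h1, hε' _ h1, hε'' _ h1]; ring))
    (niceFam_of_cont (A := a - ε) (B := b + ε) (qη.mul (c1.mul q0)) (by
      intro s hs t x y h
      rcases hoff s hs x y h with h1 | h1
      · rw [o1 x s fun h => h1 h.1]; ring
      · rw [hε _ h1]; ring))
    (niceFam_of_cont (A := a - ε) (B := b + ε) (qη.mul (c0.mul q1.neg)) (by
      intro s hs t x y h
      rcases hoff s hs x y h with h1 | h1
      · rw [o0 x s fun h => h1 h.1]; ring
      · rw [hε' _ h1]; ring))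
    (by
      intro s hs
      have h1 := Lam_tensor hT D (hH s) (hH' s hs) hη hηT
      have f1 : (fun t a b => deriv η t * (P a s * ρ (s - b)) +
          η t * (dop (fun x => P x s) a * ρ (s - b) + P a s * dop (fun y => ρ (s - y)) b +
            cc zt ^ 2 * (nop (fun x => P x s) a * nop (fun y => ρ (s - y)) b))) =
          fun t x y => (deriv η t + 9 * cc zt ^ 2 * η t) * (P x s * ρ (s - y)) +
      (η t * (1 - 2 * x)) * (P11 x s * ρ (s - y)) +
      (η t * (-5 - 3 * cc zt ^ 2 * (1 - 2 * x))) * (P1 x s * ρ (s - y)) +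
      (η t * (1 - 2 * y)) * (P x s * ρ'' (s - y)) +
      (η t * (5 + 3 * cc zt ^ 2 * (1 - 2 * y))) * (P x s * ρ' (s - y)) +
      (η t * (-(cc zt ^ 2 * (1 - 2 * x) * (1 - 2 * y)))) * (P1 x s * ρ' (s - y)) := by
        funext t x y
        simp only [dop, nop, e1, e2, e3, e4]
        ring
      rw [f1] at h1
      simp only [e1, e3] at h1
      exact h1)
  have m2 : ∀ x y, Mo ρ' P x y = -Mo ρ P2 x y := fun x y =>
    Mo_parts r0 r1 d1 hP.c0 hP.c2 o0 hP.h2 x y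
  have m12 : ∀ x y, Mo ρ' P1 x y = -Mo ρ P12 x y := fun x y =>
    Mo_parts r0 r1 d1 hP.c1 hP.c12 o1 hP.h12 x y
  have m22 : ∀ x y, Mo ρ'' P x y = Mo ρ P22 x y := by
    intro x y
    rw [Mo_parts r1 r2 d2 hP.c0 hP.c2 o0 hP.h2 x y, Mo_parts r0 r1 d1 hP.c2 hP.c22 o2 hP.h22 x y,
      neg_neg]
  have k1 : (fun t x y => ∫ s in Icc a b, η t * (P x s * ρ (s - y))) =
      fun t x y => η t * Mo ρ P x y := by
    funext t x y
    rw [integral_const_mul, Mo_eq_set ρ o0]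
  have k2 : (fun t x y => ∫ s in Icc a b, η t * (P1 x s * ρ (s - y))) =
      fun t x y => η t * Mo ρ P1 x y := by
    funext t x y
    rw [integral_const_mul, Mo_eq_set ρ o1]
  have k3 : (fun t x y => ∫ s in Icc a b, η t * (P x s * -ρ' (s - y))) =
      fun t x y => η t * Mo ρ P2 x y := by
    funext t x y
    have h1 : ∀ s, P x s * -ρ' (s - y) = -(P x s * ρ' (s - y)) := fun s => by ring
    simp only [h1]
    rw [integral_const_mul, integral_neg, Mo_eq_set ρ' o0, m2, neg_neg]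
  have k4 : (fun t x y => ∫ s in Icc a b,
      ((deriv η t + 9 * cc zt ^ 2 * η t) * (P x s * ρ (s - y)) +
      (η t * (1 - 2 * x)) * (P11 x s * ρ (s - y)) +
      (η t * (-5 - 3 * cc zt ^ 2 * (1 - 2 * x))) * (P1 x s * ρ (s - y)) +
      (η t * (1 - 2 * y)) * (P x s * ρ'' (s - y)) +
      (η t * (5 + 3 * cc zt ^ 2 * (1 - 2 * y))) * (P x s * ρ' (s - y)) +
      (η t * (-(cc zt ^ 2 * (1 - 2 * x) * (1 - 2 * y)))) * (P1 x s * ρ' (s - y)))) =
      fun t x y => deriv η t * Mo ρ P x y + η t * LL zt (Mo ρ P) (Mo ρ P1) (Mo ρ P2) (Mo ρ P11)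
        (Mo ρ P12) (Mo ρ P22) x y := by
    funext t x y
    rw [int6 (integrable_Mo r0 hP.c0 o0 x y).integrableOn (integrable_Mo r0 hP.c11 o11 x y).integrableOn
      (integrable_Mo r0 hP.c1 o1 x y).integrableOn (integrable_Mo r2 hP.c0 o0 x y).integrableOn
      (integrable_Mo r1 hP.c0 o0 x y).integrableOn (integrable_Mo r1 hP.c1 o1 x y).integrableOn,
      Mo_eq_set ρ o0, Mo_eq_set ρ o11, Mo_eq_set ρ o1, Mo_eq_set ρ'' o0, Mo_eq_set ρ' o0,
      Mo_eq_set ρ' o1, m2, m12, m22, LL]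
    ring
  rw [k1, k2, k3, k4] at key
  exact key

theorem Mo_conv {φ : ContDiffBump (0 : ℝ)} (Q : ℝ → ℝ → ℝ) (x y : ℝ) :
    Mo (φ.normed volume) Q x y =
      MeasureTheory.convolution (φ.normed volume) (fun r => Q x r) (ContinuousLinearMap.lsmul ℝ ℝ)
        volume y := by
  rw [Mo, MeasureTheory.convolution,
    ← integral_sub_left_eq_self (fun t => (ContinuousLinearMap.lsmul ℝ ℝ) (φ.normed volume t)
      (Q x (y - t))) volume y]
  refine integral_congr_ae (Eventually.of_forall fun r => ?_)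
  show Q x r * φ.normed volume (r - y) = φ.normed volume (y - r) * Q x (y - (y - r))
  rw [sub_sub_cancel, ← neg_sub r y, φ.normed_neg, mul_comm]

/-- The mollified functions `∫ P(x, r) ρ(r - y) dr` converge (standard bump functions
`ρ_n = (φ_n).normed volume`, `φ_n : ContDiffBump (0 : ℝ)`, `rOut = 1/(n+N)`), uniformly bounded, and
integration by parts moves the derivatives from `ρ` to `P`:
`∫ P(x, r) (-ρ'(r - y)) dr = ∫ P2(x, r) ρ(r - y) dr`.

Proof of the theorem.  Choose `N` with `1/N < min a (1/2 - b)`.  For `r ∈ [a, b]` the functions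
`H = P(·, r)` and `H' = ρ_n(r - ·)` are in `CR` and `Lam_tensor` applies; `deriv H' y = -ρ_n'(r - y)`,
`iteratedDeriv 2 H' y = ρ_n''(r - y)`.  `Lam_superpos` with `I = Icc a b` gives `Lam = 0` for the
weights `∫_a^b (...) dr`; as `P(·, r) = 0` for `r ∉ [a, b]` these are integrals over `ℝ` and
by parts they equal `η P_n`, `η' P_n + η LL(P_n ..)`, `η (P1)_n`, `η (P2)_n` with
`(Q)_n (x, y) = ∫ Q(x, r) ρ_n(r - y) dr`.  Then `Lam_limit`. -/
theorem Lam_P {zt T : ℝ} (hT : 0 < T) (D : TwoPt zt T) {a b : ℝ} (ha : 0 < a) (hb : b < 1 / 2)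
    {P P1 P2 P11 P12 P22 : ℝ → ℝ → ℝ} (hP : Sm a b P P1 P2 P11 P12 P22) {η : ℝ → ℝ}
    (hη : ContDiff ℝ 1 η) (hηT : η T = 0) :
    D.Lam (fun t x y => η t * P x y)
      (fun t x y => deriv η t * P x y + η t * LL zt P P1 P2 P11 P12 P22 x y)
      (fun t x y => η t * P1 x y) (fun t x y => η t * P2 x y) = 0 := by
  have o0 : ∀ x y, ¬ (x ∈ Icc a b ∧ y ∈ Icc a b) → P x y = 0 := fun x y h => hP.off h
  have o1 := off_x o0 hP.h1
  have o2 := off_y o0 hP.h2
  have o11 := off_x o1 hP.h11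
  have o12 := off_y o1 hP.h12
  have o22 := off_y o2 hP.h22
  obtain ⟨C0, hC0, b0⟩ := exists_bdd hP.c0 o0
  obtain ⟨C1, hC1, b1⟩ := exists_bdd hP.c1 o1
  obtain ⟨C2, hC2, b2⟩ := exists_bdd hP.c2 o2
  obtain ⟨C11, hC11, b11⟩ := exists_bdd hP.c11 o11
  obtain ⟨C12, hC12, b12⟩ := exists_bdd hP.c12 o12
  obtain ⟨C22, hC22, b22⟩ := exists_bdd hP.c22 o22
  have hηc : Continuous η := hη.continuous
  have hηd : Continuous (deriv η) := hη.continuous_deriv le_rfl
  obtain ⟨E, hE⟩ := (isCompact_Icc (a := (0 : ℝ)) (b := T)).exists_bound_of_continuousOn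
    hηc.continuousOn
  obtain ⟨E', hE'⟩ := (isCompact_Icc (a := (0 : ℝ)) (b := T)).exists_bound_of_continuousOn
    hηd.continuousOn
  have hE0 : 0 ≤ E := (norm_nonneg _).trans (hE 0 ⟨le_rfl, hT.le⟩)
  have hE0' : 0 ≤ E' := (norm_nonneg _).trans (hE' 0 ⟨le_rfl, hT.le⟩)
  -- the bumps
  set e0 : ℝ := min a (1 / 2 - b) with he0
  have he0p : 0 < e0 := lt_min ha (by linarith)
  have hn : ∀ n : ℕ, (0 : ℝ) < (n : ℝ) + 2 := fun n => by positivity
  let φ : ℕ → ContDiffBump (0 : ℝ) := fun n =>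
    ⟨e0 / ((n : ℝ) + 2) / 2, e0 / ((n : ℝ) + 2), by have := hn n; positivity,
      half_lt_self (div_pos he0p (hn n))⟩
  have hφr : ∀ n, (φ n).rOut = e0 / ((n : ℝ) + 2) := fun n => rfl
  have hφlt : ∀ n, (φ n).rOut < e0 := by
    intro n
    rw [hφr, div_lt_iff₀ (hn n)]
    have : (0 : ℝ) ≤ n := Nat.cast_nonneg n
    nlinarith
  have hφ0 : Tendsto (fun n => (φ n).rOut) atTop (𝓝 0) := by
    have h1 : Tendsto (fun n : ℕ => (n : ℝ) + 2) atTop atTop :=
      tendsto_atTop_add_const_right _ _ tendsto_natCast_atTop_atTop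
    exact h1.const_div_atTop e0
  set ρ : ℕ → ℝ → ℝ := fun n => (φ n).normed volume with hρ
  have ρc : ∀ n, Continuous (ρ n) := fun n => (φ n).continuous_normed
  have ρs : ∀ n u, (φ n).rOut < |u| → ρ n u = 0 := by
    intro n u hu
    have h1 : u ∉ Function.support ((φ n).normed (volume : Measure ℝ)) := by
      rw [(φ n).support_normed_eq, Metric.mem_ball, dist_zero_right, Real.norm_eq_abs]
      exact not_lt.2 hu.le
    exact Function.notMem_support.1 h1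
  have ρ0 : ∀ n u, 0 ≤ ρ n u := fun n u => (φ n).nonneg_normed u
  have ρ1 : ∀ n, ∫ u, ρ n u = 1 := fun n => (φ n).integral_normed
  have ρi : ∀ n, Integrable (ρ n) := fun n =>
    (ρc n).integrable_of_hasCompactSupport (φ n).hasCompactSupport_normed
  have hlim : ∀ {Q : ℝ → ℝ → ℝ}, (Continuous fun v : ℝ × ℝ => Q v.1 v.2) → ∀ x y,
      Tendsto (fun n => Mo (ρ n) Q x y) atTop (𝓝 (Q x y)) := by
    intro Q hQ x y
    have h1 : Continuous fun r => Q x r := hQ.comp (by fun_prop : Continuous fun r : ℝ => (x, r))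
    have h2 := ContDiffBump.convolution_tendsto_right_of_continuous (μ := (volume : Measure ℝ))
      hφ0 h1 y
    refine h2.congr fun n => ?_
    exact (Mo_conv Q x y).symm
  have hea : ∀ n, (φ n).rOut < a := fun n => (hφlt n).trans_le (min_le_left _ _)
  have heb : ∀ n, b + (φ n).rOut < 1 / 2 := fun n => by
    have := (hφlt n).trans_le (min_le_right a (1 / 2 - b))
    linarith
  -- the bounds
  have hMo : ∀ {Q : ℝ → ℝ → ℝ} {C : ℝ}, (∀ x y, |Q x y| ≤ C) → ∀ n x y, |Mo (ρ n) Q x y| ≤ C :=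
    fun hC n x y => Mo_bdd hC (ρ0 n) (ρ1 n) (ρi n) x y
  have hfac : ∀ {Q : ℝ → ℝ → ℝ} {C : ℝ}, 0 ≤ C → (∀ x y, |Q x y| ≤ C) →
      (∀ x y, ¬ (x ∈ Icc a b ∧ y ∈ Icc a b) → Q x y = 0) → ∀ n x y,
      |(1 - 2 * x) * Mo (ρ n) Q x y| ≤ C ∧ |(1 - 2 * y) * Mo (ρ n) Q x y| ≤ C ∧
        |(1 - 2 * x) * (1 - 2 * y) * Mo (ρ n) Q x y| ≤ C := by
    intro Q C hC0 hC ho n x y
    by_cases h : x ∈ Icc a b ∧ y ∈ Icc (a - (φ n).rOut) (b + (φ n).rOut)
    · have hx : |1 - 2 * x| ≤ 1 := by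
        rw [abs_le]
        constructor <;> linarith [h.1.1, h.1.2]
      have hy : |1 - 2 * y| ≤ 1 := by
        rw [abs_le]
        constructor <;> linarith [h.2.1, h.2.2, hea n, heb n]
      have hm := hMo hC n x y
      refine ⟨?_, ?_, ?_⟩
      · rw [abs_mul]
        calc |1 - 2 * x| * |Mo (ρ n) Q x y| ≤ 1 * C :=
              mul_le_mul hx hm (abs_nonneg _) zero_le_one
          _ = C := one_mul C
      · rw [abs_mul]
        calc |1 - 2 * y| * |Mo (ρ n) Q x y| ≤ 1 * C :=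
              mul_le_mul hy hm (abs_nonneg _) zero_le_one
          _ = C := one_mul C
      · rw [abs_mul, abs_mul]
        calc |1 - 2 * x| * |1 - 2 * y| * |Mo (ρ n) Q x y| ≤ 1 * 1 * C :=
              mul_le_mul (mul_le_mul hx hy (abs_nonneg _) zero_le_one) hm (abs_nonneg _)
                (by norm_num)
          _ = C := by ring
    · rw [Mo_off (ρs n) ho h, mul_zero, mul_zero, mul_zero, abs_zero]
      exact ⟨hC0, hC0, hC0⟩
  have hc2 : 0 ≤ cc zt ^ 2 := sq_nonneg _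
  set CL : ℝ := C11 + 5 * C1 + C22 + 5 * C2 + cc zt ^ 2 * (C12 + 3 * C1 + 3 * C2 + 9 * C0) with hCL
  have hCL0 : 0 ≤ CL := by positivity
  have hLL : ∀ n x y, |LL zt (Mo (ρ n) P) (Mo (ρ n) P1) (Mo (ρ n) P2) (Mo (ρ n) P11)
      (Mo (ρ n) P12) (Mo (ρ n) P22) x y| ≤ CL := by
    intro n x y
    obtain ⟨f11, _, _⟩ := hfac hC11 b11 o11 n x y
    obtain ⟨_, f22, _⟩ := hfac hC22 b22 o22 n x y
    obtain ⟨_, _, f12⟩ := hfac hC12 b12 o12 n x y
    obtain ⟨f1, _, _⟩ := hfac hC1 b1 o1 n x y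
    obtain ⟨_, f2, _⟩ := hfac hC2 b2 o2 n x y
    have g0 := hMo b0 n x y
    have g1 := hMo b1 n x y
    have g2 := hMo b2 n x y
    rw [abs_le] at f11 f22 f12 f1 f2 g0 g1 g2
    have hcc : |cc zt ^ 2 * ((1 - 2 * x) * (1 - 2 * y) * Mo (ρ n) P12 x y -
        3 * (1 - 2 * x) * Mo (ρ n) P1 x y - 3 * (1 - 2 * y) * Mo (ρ n) P2 x y +
        9 * Mo (ρ n) P x y)| ≤ cc zt ^ 2 * (C12 + 3 * C1 + 3 * C2 + 9 * C0) := by
      rw [abs_mul, abs_of_nonneg hc2]
      refine mul_le_mul_of_nonneg_left ?_ hc2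
      rw [abs_le]
      constructor <;> nlinarith
    rw [abs_le] at hcc
    rw [LL, abs_le, hCL]
    constructor <;> linarith
  have key := Lam_limit hT D
    (F := fun n t x y => η t * Mo (ρ n) P x y)
    (A := fun n t x y => deriv η t * Mo (ρ n) P x y + η t * LL zt (Mo (ρ n) P) (Mo (ρ n) P1)
      (Mo (ρ n) P2) (Mo (ρ n) P11) (Mo (ρ n) P12) (Mo (ρ n) P22) x y)
    (B1 := fun n t x y => η t * Mo (ρ n) P1 x y) (B2 := fun n t x y => η t * Mo (ρ n) P2 x y)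
    (F' := fun t x y => η t * P x y)
    (A' := fun t x y => deriv η t * P x y + η t * LL zt P P1 P2 P11 P12 P22 x y)
    (B1' := fun t x y => η t * P1 x y) (B2' := fun t x y => η t * P2 x y)
    (C := E * C0 + (E' * C0 + E * CL) + E * C1 + E * C2)
  have mm : ∀ n {Q : ℝ → ℝ → ℝ}, (Continuous fun v : ℝ × ℝ => Q v.1 v.2) →
      Measurable fun v : ℝ × ℝ × ℝ => Mo (ρ n) Q v.2.1 v.2.2 := fun n Q hQ =>
    (Mo_meas (ρc n) hQ).comp measurable_snd
  have mη : Measurable fun v : ℝ × ℝ × ℝ => η v.1 := hηc.measurable.comp measurable_fst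
  have mηd : Measurable fun v : ℝ × ℝ × ℝ => deriv η v.1 := hηd.measurable.comp measurable_fst
  have hmulb : ∀ {u v U V : ℝ}, |u| ≤ U → |v| ≤ V → 0 ≤ U → |u * v| ≤ U * V := by
    intro u v U V h1 h2 h3
    rw [abs_mul]
    exact mul_le_mul h1 h2 (abs_nonneg _) h3
  refine key (fun n => mη.mul (mm n hP.c0)) (fun n => ?_) (fun n => mη.mul (mm n hP.c1))
    (fun n => mη.mul (mm n hP.c2)) (fun n t ht x y => ?_) (fun n t ht x y => ?_)
    (fun n t ht x y => ?_) (fun n t ht x y => ?_) (fun t _ x y => ?_) (fun t _ x y => ?_)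
    (fun t _ x y => ?_) (fun t _ x y => ?_) (fun n => ?_)
  · have hx : Measurable fun v : ℝ × ℝ × ℝ => v.2.1 := measurable_fst.comp measurable_snd
    have hy : Measurable fun v : ℝ × ℝ × ℝ => v.2.2 := measurable_snd.comp measurable_snd
    refine (mηd.mul (mm n hP.c0)).add (mη.mul ?_)
    have M0 := mm n hP.c0
    have M1 := mm n hP.c1
    have M2 := mm n hP.c2
    have M11 := mm n hP.c11
    have M12 := mm n hP.c12
    have M22 := mm n hP.c22
    simp only [LL]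
    fun_prop
  · have h1 := hmulb (hE t ht) (hMo b0 n x y) hE0
    refine h1.trans ?_
    have : 0 ≤ E' * C0 := by positivity
    have : 0 ≤ E * CL := by positivity
    have : 0 ≤ E * C1 := by positivity
    have : 0 ≤ E * C2 := by positivity
    linarith
  · have h1 := hmulb (hE' t ht) (hMo b0 n x y) hE0'
    have h2 := hmulb (hE t ht) (hLL n x y) hE0
    refine (abs_add_le _ _).trans ((add_le_add h1 h2).trans ?_)
    have : 0 ≤ E * C0 := by positivity
    have : 0 ≤ E * C1 := by positivity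
    have : 0 ≤ E * C2 := by positivity
    linarith
  · have h1 := hmulb (hE t ht) (hMo b1 n x y) hE0
    refine h1.trans ?_
    have : 0 ≤ E' * C0 := by positivity
    have : 0 ≤ E * CL := by positivity
    have : 0 ≤ E * C0 := by positivity
    have : 0 ≤ E * C2 := by positivity
    linarith
  · have h1 := hmulb (hE t ht) (hMo b2 n x y) hE0
    refine h1.trans ?_
    have : 0 ≤ E' * C0 := by positivity
    have : 0 ≤ E * CL := by positivity
    have : 0 ≤ E * C1 := by positivity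
    have : 0 ≤ E * C0 := by positivity
    linarith
  · exact (hlim hP.c0 x y).const_mul _
  · refine ((hlim hP.c0 x y).const_mul _).add (Tendsto.const_mul _ ?_)
    have l0 := hlim hP.c0 x y
    have l1 := hlim hP.c1 x y
    have l2 := hlim hP.c2 x y
    have l11 := hlim hP.c11 x y
    have l12 := hlim hP.c12 x y
    have l22 := hlim hP.c22 x y
    simp only [LL]
    exact ((((l11.const_mul _).sub (l1.const_mul _)).add (l22.const_mul _)).sub
      (l2.const_mul _)).add (((((l12.const_mul _).sub (l1.const_mul _)).sub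
        (l2.const_mul _)).add (l0.const_mul _)).const_mul _)
  · exact (hlim hP.c1 x y).const_mul _
  · exact (hlim hP.c2 x y).const_mul _
  · exact Lam_mol hT D ha hb (hea n) (heb n) hP (φ n).contDiff_normed (ρs n) hη hηT

end Pool.Agent.W_332fe5.Six
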