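import Pool.Agent.W_332fe5_h24.C2a
import Pool.Agent.W_332fe5_h24.C1
import Pool.Agent.W_332fe5_h24.E4

set_option autoImplicit false

/-! Block 6, C2: the kernel with cutoffs. -/

open MeasureTheory ProbabilityTheory Set Filter Topology
open scoped ENNReal NNReal

namespace Pool.Agent.W_332fe5.Six

section
variable {r : ℝ} (hr : 0 < r) {p p1 : ℝ → ℝ → ℝ} {u u' v v' : ℝ → ℝ}
  (hu0 : ∀ a ≤ r, u a = 0) (hv0 : ∀ a ≤ r, v a = 0)

include hr hu0 hv0

theorem C2_hd1 (hp : ∀ a b, 0 < a + b → HasDerivAt (fun t => p t b) (p1 a b) a)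
    (hu : ∀ a, HasDerivAt u (u' a) a) (hu'0 : ∀ a ≤ r, u' a = 0) (a b : ℝ) :
    HasDerivAt (fun t => p t b * (u t * v b))
      (p1 a b * (u a * v b) + p a b * (u' a * v b)) a := by
  rcases lt_or_ge a r with ha | ha
  · have h1 : (fun t => p t b * (u t * v b)) =ᶠ[𝓝 a] fun _ => 0 := by
      filter_upwards [gt_mem_nhds ha] with t ht
      rw [hu0 t (le_of_lt ht)]
      ring
    rw [hu0 a ha.le, hu'0 a ha.le]
    have := (hasDerivAt_const a (0 : ℝ)).congr_of_eventuallyEq h1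
    simpa using this
  · rcases lt_or_ge b r with hb | hb
    · rw [hv0 b hb.le]
      simpa using hasDerivAt_const a (0 : ℝ)
    · have := (hp a b (by linarith)).mul ((hu a).mul_const (v b))
      exact this

theorem C2_hd2 (hp : ∀ a b, 0 < a + b → HasDerivAt (fun t => p a t) (p1 a b) b)
    (hv : ∀ a, HasDerivAt v (v' a) a) (hv'0 : ∀ a ≤ r, v' a = 0) (a b : ℝ) :
    HasDerivAt (fun t => p a t * (u a * v t))
      (p1 a b * (u a * v b) + p a b * (u a * v' b)) b := by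
  rcases lt_or_ge b r with hb | hb
  · have h1 : (fun t => p a t * (u a * v t)) =ᶠ[𝓝 b] fun _ => 0 := by
      filter_upwards [gt_mem_nhds hb] with t ht
      rw [hv0 t (le_of_lt ht)]
      ring
    rw [hv0 b hb.le, hv'0 b hb.le]
    have := (hasDerivAt_const b (0 : ℝ)).congr_of_eventuallyEq h1
    simpa using this
  · rcases lt_or_ge a r with ha | ha
    · rw [hu0 a ha.le]
      simpa using hasDerivAt_const b (0 : ℝ)
    · have := (hp a b (by linarith)).mul ((hv b).const_mul (u a))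
      exact this

theorem C2_cont (hp : ContinuousOn (fun w : ℝ × ℝ => p w.1 w.2) {w | 0 < w.1 + w.2})
    (hu : Continuous u) (hv : Continuous v) :
    Continuous fun w : ℝ × ℝ => p w.1 w.2 * (u w.1 * v w.2) := by
  rw [continuous_iff_continuousAt]
  rintro ⟨a, b⟩
  rcases lt_or_ge a r with ha | ha
  · have h1 : (fun w : ℝ × ℝ => p w.1 w.2 * (u w.1 * v w.2)) =ᶠ[𝓝 (a, b)] fun _ => 0 := by
      have : ∀ᶠ w : ℝ × ℝ in 𝓝 (a, b), w.1 < r :=
        continuous_fst.continuousAt.eventually (gt_mem_nhds ha)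
      filter_upwards [this] with w hw
      rw [hu0 w.1 hw.le]
      ring
    exact (continuousAt_const).congr h1.symm
  · rcases lt_or_ge b r with hb | hb
    · have h1 : (fun w : ℝ × ℝ => p w.1 w.2 * (u w.1 * v w.2)) =ᶠ[𝓝 (a, b)] fun _ => 0 := by
        have : ∀ᶠ w : ℝ × ℝ in 𝓝 (a, b), w.2 < r :=
          continuous_snd.continuousAt.eventually (gt_mem_nhds hb)
        filter_upwards [this] with w hw
        rw [hv0 w.2 hw.le]
        ring
      exact (continuousAt_const).congr h1.symm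
    · have ho : IsOpen {w : ℝ × ℝ | 0 < w.1 + w.2} :=
        isOpen_lt continuous_const (continuous_fst.add continuous_snd)
      have hm : (a, b) ∈ {w : ℝ × ℝ | 0 < w.1 + w.2} := by
        show 0 < a + b
        linarith
      have h1 := hp.continuousAt (ho.mem_nhds hm)
      exact h1.mul ((hu.comp continuous_fst).mul (hv.comp continuous_snd)).continuousAt

end

section
variable {r : ℝ}

theorem C2_k0 (hr : 0 < r) : ∀ a ≤ r, kp r a = 0 := fun _ ha => kp_zero hr (Or.inl ha)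
theorem C2_k1 (hr : 0 < r) : ∀ a ≤ r, deriv (kp r) a = 0 :=
  fun _ ha => (kp_deriv_zero hr (Or.inl ha)).1
theorem C2_k2 (hr : 0 < r) : ∀ a ≤ r, deriv (deriv (kp r)) a = 0 :=
  fun _ ha => (kp_deriv_zero hr (Or.inl ha)).2

theorem C2_s0 (r : ℝ) : Continuous (kp r) := (kp_smooth r).continuous
theorem C2_s1' (r : ℝ) : ContDiff ℝ ((⊤ : ℕ∞) : WithTop ℕ∞) (deriv (kp r)) :=
  (contDiff_infty_iff_deriv.mp (kp_smooth r)).2
theorem C2_s2' (r : ℝ) : ContDiff ℝ ((⊤ : ℕ∞) : WithTop ℕ∞) (deriv (deriv (kp r))) :=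
  (contDiff_infty_iff_deriv.mp (C2_s1' r)).2
theorem C2_s1 (r : ℝ) : Continuous (deriv (kp r)) := (C2_s1' r).continuous
theorem C2_s2 (r : ℝ) : Continuous (deriv (deriv (kp r))) := (C2_s2' r).continuous

theorem C2_d0 (r a : ℝ) : HasDerivAt (kp r) (deriv (kp r) a) a :=
  ((contDiff_infty_iff_deriv.mp (kp_smooth r)).1 a).hasDerivAt
theorem C2_d1 (r a : ℝ) : HasDerivAt (deriv (kp r)) (deriv (deriv (kp r)) a) a :=
  ((contDiff_infty_iff_deriv.mp (C2_s1' r)).1 a).hasDerivAt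

end

theorem C2_pc {p : ℝ → ℝ → ℝ → ℝ}
    (hp : ContinuousOn (fun v : ℝ × ℝ × ℝ => p v.1 v.2.1 v.2.2) {v | 0 < v.1 ∧ 0 < v.2.1 + v.2.2})
    {τ : ℝ} (hτ : 0 < τ) :
    ContinuousOn (fun w : ℝ × ℝ => p τ w.1 w.2) {w | 0 < w.1 + w.2} := by
  have h1 : ContinuousOn (fun w : ℝ × ℝ => ((τ, w) : ℝ × ℝ × ℝ)) {w | 0 < w.1 + w.2} :=
    (continuous_const.prodMk continuous_id).continuousOn
  exact hp.comp h1 fun w hw => ⟨hτ, hw⟩

/-- The kernel with cutoffs is an admissible function of `(y₁, y₂)`. -/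
theorem PK_Sm {zt : ℝ} (h : Zt zt) {r τ : ℝ} (hr : 0 < r) (hτ : 0 < τ) :
    Sm r (3 / 16) (PK zt r τ) (PK1 zt r τ) (PK2 zt r τ) (PK11 zt r τ) (PK12 zt r τ)
      (PK22 zt r τ) := by
  obtain ⟨c0, c1, c2, c11, c12, c22, -⟩ := pk_contOn h
  have c0 := C2_pc c0 hτ
  have c1 := C2_pc c1 hτ
  have c2 := C2_pc c2 hτ
  have c11 := C2_pc c11 hτ
  have c12 := C2_pc c12 hτ
  have c22 := C2_pc c22 hτ
  have k0 := C2_k0 hr
  have k1 := C2_k1 hr
  have k2 := C2_k2 hr
  have p1 : ∀ a b, 0 < a + b → HasDerivAt (fun t => pk zt τ t b) (pk1 zt τ a b) a :=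
    fun a b hab => pk_hd1 h hab τ
  have p2 : ∀ a b, 0 < a + b → HasDerivAt (fun t => pk zt τ a t) (pk2 zt τ a b) b :=
    fun a b hab => pk_hd2 h hab τ
  have p11 : ∀ a b, 0 < a + b → HasDerivAt (fun t => pk1 zt τ t b) (pk11 zt τ a b) a :=
    fun a b hab => pk1_hd1 h hab τ
  have p12 : ∀ a b, 0 < a + b → HasDerivAt (fun t => pk1 zt τ a t) (pk12 zt τ a b) b :=
    fun a b hab => pk1_hd2 h hab τ
  have p22 : ∀ a b, 0 < a + b → HasDerivAt (fun t => pk2 zt τ a t) (pk22 zt τ a b) b :=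
    fun a b hab => pk2_hd2 h hab τ
  refine ⟨?_, ?_, ?_, ?_, ?_, ?_, ?_, ?_, ?_, ?_, ?_, ?_, ?_⟩
  · intro x y hxy
    have hx : kp r x ≠ 0 := fun e => hxy (by simp [PK, e])
    have hy : kp r y ≠ 0 := fun e => hxy (by simp [PK, e])
    have hh : ∀ z, kp r z ≠ 0 → z ∈ Icc r (3 / 16) := by
      intro z hz
      constructor
      · by_contra hc
        exact hz (kp_zero hr (Or.inl (not_le.mp hc).le))
      · by_contra hc
        exact hz (kp_zero hr (Or.inr (not_le.mp hc).le))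
    exact ⟨hh x hx, hh y hy⟩
  · intro y
    rcases lt_or_ge y r with hy | hy
    · have : (fun x => PK zt r τ x y) = fun _ => 0 := by
        funext x
        simp [PK, k0 y hy.le]
      rw [this]
      exact contDiff_const
    · rw [contDiff_iff_contDiffAt]
      intro x
      rcases lt_or_ge x r with hx | hx
      · have h1 : (fun x => PK zt r τ x y) =ᶠ[𝓝 x] fun _ => 0 := by
          filter_upwards [gt_mem_nhds hx] with t ht
          simp [PK, k0 t (le_of_lt ht)]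
        exact contDiffAt_const.congr_of_eventuallyEq h1
      · have ho : IsOpen {a : ℝ | 0 < a + y} :=
          isOpen_lt continuous_const (continuous_id.add continuous_const)
        have hm : x ∈ {a : ℝ | 0 < a + y} := by
          show 0 < x + y
          linarith
        have h1 := (pk_smooth h hτ y).contDiffAt (ho.mem_nhds hm)
        exact h1.mul ((kp_smooth r).contDiffAt.mul contDiffAt_const)
  · intro x y
    exact C2_hd1 hr k0 k0 p1 (C2_d0 r) k1 x y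
  · intro x y
    exact C2_hd2 hr k0 k0 p2 (C2_d0 r) k1 x y
  · intro x y
    have h1 := (C2_hd1 hr k0 k0 p11 (C2_d0 r) k1 x y).add
      (C2_hd1 hr k1 k0 p1 (C2_d1 r) k2 x y)
    refine h1.congr_deriv ?_
    simp only [PK11]
    ring
  · intro x y
    have h1 := (C2_hd2 hr k0 k0 p12 (C2_d0 r) k1 x y).add
      (C2_hd2 hr k1 k0 p2 (C2_d0 r) k1 x y)
    refine h1.congr_deriv ?_
    simp only [PK12]
    ring
  · intro x y
    have h1 := (C2_hd2 hr k0 k0 p22 (C2_d0 r) k1 x y).add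
      (C2_hd2 hr k0 k1 p2 (C2_d1 r) k2 x y)
    refine h1.congr_deriv ?_
    simp only [PK22]
    ring
  · exact C2_cont hr k0 k0 c0 (C2_s0 r) (C2_s0 r)
  · exact (C2_cont hr k0 k0 c1 (C2_s0 r) (C2_s0 r)).add (C2_cont hr k1 k0 c0 (C2_s1 r) (C2_s0 r))
  · exact (C2_cont hr k0 k0 c2 (C2_s0 r) (C2_s0 r)).add (C2_cont hr k0 k1 c0 (C2_s0 r) (C2_s1 r))
  · exact ((C2_cont hr k0 k0 c11 (C2_s0 r) (C2_s0 r)).add
      (continuous_const.mul (C2_cont hr k1 k0 c1 (C2_s1 r) (C2_s0 r)))).add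
      (C2_cont hr k2 k0 c0 (C2_s2 r) (C2_s0 r))
  · exact (((C2_cont hr k0 k0 c12 (C2_s0 r) (C2_s0 r)).add
      (C2_cont hr k0 k1 c1 (C2_s0 r) (C2_s1 r))).add
      (C2_cont hr k1 k0 c2 (C2_s1 r) (C2_s0 r))).add
      (C2_cont hr k1 k1 c0 (C2_s1 r) (C2_s1 r))
  · exact ((C2_cont hr k0 k0 c22 (C2_s0 r) (C2_s0 r)).add
      (continuous_const.mul (C2_cont hr k0 k1 c2 (C2_s0 r) (C2_s1 r)))).add
      (C2_cont hr k0 k2 c0 (C2_s0 r) (C2_s2 r))

theorem PK_meas (zt r : ℝ) :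
    Measurable (fun v : ℝ × ℝ × ℝ => PK zt r v.1 v.2.1 v.2.2) ∧
    Measurable (fun v : ℝ × ℝ × ℝ => PK1 zt r v.1 v.2.1 v.2.2) ∧
    Measurable (fun v : ℝ × ℝ × ℝ => PK2 zt r v.1 v.2.1 v.2.2) ∧
    Measurable (fun v : ℝ × ℝ × ℝ => LPK zt r v.1 v.2.1 v.2.2) ∧
    Measurable (fun v : ℝ × ℝ × ℝ => Er zt r v.1 v.2.1 v.2.2) := by
  obtain ⟨m0, m1, m2, m11, m12, m22, mt⟩ := pk_meas zt
  have hm : ∀ u v : ℝ → ℝ, Continuous u → Continuous v →
      Measurable (fun w : ℝ × ℝ × ℝ => u w.2.1 * v w.2.2) := by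
    intro u v hu hv
    exact ((hu.comp (continuous_fst.comp continuous_snd)).mul
      (hv.comp (continuous_snd.comp continuous_snd))).measurable
  have s0 := C2_s0 r
  have s1 := C2_s1 r
  have s2 := C2_s2 r
  have M0 : Measurable (fun v : ℝ × ℝ × ℝ => PK zt r v.1 v.2.1 v.2.2) := m0.mul (hm _ _ s0 s0)
  have M1 : Measurable (fun v : ℝ × ℝ × ℝ => PK1 zt r v.1 v.2.1 v.2.2) :=
    (m1.mul (hm _ _ s0 s0)).add (m0.mul (hm _ _ s1 s0))
  have M2 : Measurable (fun v : ℝ × ℝ × ℝ => PK2 zt r v.1 v.2.1 v.2.2) :=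
    (m2.mul (hm _ _ s0 s0)).add (m0.mul (hm _ _ s0 s1))
  have M11 : Measurable (fun v : ℝ × ℝ × ℝ => PK11 zt r v.1 v.2.1 v.2.2) :=
    ((m11.mul (hm _ _ s0 s0)).add ((m1.mul (hm _ _ s1 s0)).const_mul 2)).add
      (m0.mul (hm _ _ s2 s0))
  have M12 : Measurable (fun v : ℝ × ℝ × ℝ => PK12 zt r v.1 v.2.1 v.2.2) :=
    (((m12.mul (hm _ _ s0 s0)).add (m1.mul (hm _ _ s0 s1))).add (m2.mul (hm _ _ s1 s0))).add
      (m0.mul (hm _ _ s1 s1))
  have M22 : Measurable (fun v : ℝ × ℝ × ℝ => PK22 zt r v.1 v.2.1 v.2.2) :=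
    ((m22.mul (hm _ _ s0 s0)).add ((m2.mul (hm _ _ s0 s1)).const_mul 2)).add
      (m0.mul (hm _ _ s0 s2))
  have ma : Measurable (fun v : ℝ × ℝ × ℝ => 1 - 2 * v.2.1) := by fun_prop
  have mb : Measurable (fun v : ℝ × ℝ × ℝ => 1 - 2 * v.2.2) := by fun_prop
  have ML : Measurable (fun v : ℝ × ℝ × ℝ => LPK zt r v.1 v.2.1 v.2.2) := by
    unfold LPK LL
    exact ((((ma.mul M11).sub (M1.const_mul 5)).add (mb.mul M22)).sub (M2.const_mul 5)).add
      (((((ma.mul mb).mul M12).sub ((ma.const_mul 3).mul M1)).sub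
        ((mb.const_mul 3).mul M2)).add (M0.const_mul 9) |>.const_mul _)
  exact ⟨M0, M1, M2, ML, ML.sub (mt.mul (hm _ _ s0 s0))⟩

/-- A common bound of the cutoff and its derivatives. -/
theorem C2_kb {r : ℝ} (hr : 0 < r) : ∃ D : ℝ, 1 ≤ D ∧ ∀ y, |kp r y| ≤ D ∧ |deriv (kp r) y| ≤ D ∧
    |deriv (deriv (kp r)) y| ≤ D := by
  have key : ∀ f : ℝ → ℝ, Continuous f → (∀ y, y ≤ r ∨ 3 / 16 ≤ y → f y = 0) →
      ∃ D : ℝ, 0 ≤ D ∧ ∀ y, |f y| ≤ D := by
    intro f hf hz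
    obtain ⟨D, hD⟩ := (isCompact_Icc (a := r) (b := 3 / 16)).exists_bound_of_continuousOn
      hf.continuousOn
    refine ⟨max D 0, le_max_right _ _, fun y => ?_⟩
    by_cases hy : y ∈ Icc r (3 / 16)
    · exact (hD y hy).trans (le_max_left _ _)
    · rw [hz y, abs_zero]
      · exact le_max_right _ _
      · by_contra hc
        push Not at hc
        exact hy ⟨hc.1.le, hc.2.le⟩
  obtain ⟨D0, h0, H0⟩ := key (kp r) (C2_s0 r) fun y hy => kp_zero hr hy
  obtain ⟨D1, h1, H1⟩ := key _ (C2_s1 r) fun y hy => (kp_deriv_zero hr hy).1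
  obtain ⟨D2, h2, H2⟩ := key _ (C2_s2 r) fun y hy => (kp_deriv_zero hr hy).2
  refine ⟨1 + D0 + D1 + D2, by linarith, fun y => ⟨?_, ?_, ?_⟩⟩
  · linarith [H0 y]
  · linarith [H1 y]
  · linarith [H2 y]

theorem C2_km {zt a j ρ τ s M : ℝ} (hz : 0 < zt) (ha : 0 < a) (hρ : 0 < ρ) (hτ : ρ ≤ τ)
    (hs : 0 < s) (hM : s ^ (zt - j) ≤ M) : km a zt j τ s ≤ ρ ^ (-1 - zt) * M := by
  have hτ0 : 0 < τ := hρ.trans_le hτ
  have h1 : τ ^ (-1 - zt) ≤ ρ ^ (-1 - zt) :=
    Real.rpow_le_rpow_of_nonpos hρ hτ (by linarith)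
  have h2 : Real.exp (-a * s ^ 2 / τ) ≤ 1 := by
    rw [Real.exp_le_one_iff]
    have : 0 ≤ a * s ^ 2 / τ := by positivity
    have e : -a * s ^ 2 / τ = -(a * s ^ 2 / τ) := by ring
    linarith
  have h3 : 0 ≤ s ^ (zt - j) := Real.rpow_nonneg hs.le _
  have h4 : 0 ≤ ρ ^ (-1 - zt) := Real.rpow_nonneg hρ.le _
  unfold km
  calc τ ^ (-1 - zt) * s ^ (zt - j) * Real.exp (-a * s ^ 2 / τ)
      ≤ τ ^ (-1 - zt) * s ^ (zt - j) * 1 :=
        mul_le_mul_of_nonneg_left h2 (mul_nonneg (Real.rpow_nonneg hτ0.le _) h3)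
    _ = τ ^ (-1 - zt) * s ^ (zt - j) := mul_one _
    _ ≤ ρ ^ (-1 - zt) * M := mul_le_mul h1 hM h3 h4

/-- Crude bounds of the kernel away from the corner. -/
theorem C2_pb {zt : ℝ} (h : Zt zt) {r ρ : ℝ} (hr : 0 < r) (hρ : 0 < ρ) :
    ∃ M : ℝ, 0 ≤ M ∧ ∀ τ a b : ℝ, ρ ≤ τ → a ∈ Icc r (3 / 16) → b ∈ Icc r (3 / 16) →
      |pk zt τ a b| ≤ M ∧ |pk1 zt τ a b| ≤ M ∧ |pk2 zt τ a b| ≤ M ∧ |pk11 zt τ a b| ≤ M ∧
      |pk12 zt τ a b| ≤ M ∧ |pk22 zt τ a b| ≤ M := by
  obtain ⟨C, α, hC, hα, H⟩ := pk_bounds h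
  set L : ℝ := 1 + (2 * r) ^ (zt - 2) with hL
  have hL0 : 0 ≤ (2 * r) ^ (zt - 2) := Real.rpow_nonneg (by linarith) _
  have hz1 := h.z1
  have hz2 := h.z2
  refine ⟨C * (ρ ^ (-1 - zt) * L), by positivity, ?_⟩
  intro τ a b hτ ha hb
  have hs : 2 * r ≤ a + b := by linarith [ha.1, hb.1]
  have hs1 : a + b ≤ 1 := by linarith [ha.2, hb.2]
  have hs0 : 0 < a + b := by linarith
  obtain ⟨e0, e1, e2, e11, e12, e22⟩ := H τ a b (hρ.trans_le hτ) (by linarith [ha.1])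
    (by linarith [hb.1]) hs0
  have q0 : (a + b) ^ (zt - 0) ≤ L := by
    have : (a + b) ^ (zt - 0) ≤ 1 := Real.rpow_le_one hs0.le hs1 (by linarith)
    linarith
  have q1 : (a + b) ^ (zt - 1) ≤ L := by
    have : (a + b) ^ (zt - 1) ≤ 1 := Real.rpow_le_one hs0.le hs1 (by linarith)
    linarith
  have q2 : (a + b) ^ (zt - 2) ≤ L := by
    have : (a + b) ^ (zt - 2) ≤ (2 * r) ^ (zt - 2) :=
      Real.rpow_le_rpow_of_nonpos (by linarith) hs (by linarith)
    linarith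
  have k0 := C2_km h.pos hα hρ hτ hs0 q0
  have k1 := C2_km h.pos hα hρ hτ hs0 q1
  have k2 := C2_km h.pos hα hρ hτ hs0 q2
  exact ⟨e0.trans (mul_le_mul_of_nonneg_left k0 hC.le),
    e1.trans (mul_le_mul_of_nonneg_left k1 hC.le),
    e2.trans (mul_le_mul_of_nonneg_left k1 hC.le),
    e11.trans (mul_le_mul_of_nonneg_left k2 hC.le),
    e12.trans (mul_le_mul_of_nonneg_left k2 hC.le),
    e22.trans (mul_le_mul_of_nonneg_left k2 hC.le)⟩

theorem C2_tri {p u v M D : ℝ} (hM : 0 ≤ M) (hD : 0 ≤ D) (hp : |p| ≤ M) (hu : |u| ≤ D)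
    (hv : |v| ≤ D) : |p * (u * v)| ≤ M * (D * D) := by
  rw [abs_mul, abs_mul]
  exact mul_le_mul hp (mul_le_mul hu hv (abs_nonneg _) hD) (by positivity) hM

/-- Crude bounds (constants may depend on `R` and `r`), from compactness or from `pk_bounds`. -/
theorem PK_bdd {zt : ℝ} (h : Zt zt) {r ρ : ℝ} (hr : 0 < r) (hρ : 0 < ρ) :
    ∃ C : ℝ, ∀ τ a b : ℝ, ρ ≤ τ → |PK zt r τ a b| ≤ C ∧ |PK1 zt r τ a b| ≤ C ∧
      |PK2 zt r τ a b| ≤ C ∧ |LPK zt r τ a b| ≤ C ∧ |Er zt r τ a b| ≤ C ∧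
      |pkt zt τ a b * (kp r a * kp r b)| ≤ C := by
  obtain ⟨D, hD1, hD⟩ := C2_kb hr
  obtain ⟨M, hM, hp⟩ := C2_pb h hr hρ
  have hD0 : 0 ≤ D := by linarith
  have hc : 0 ≤ cc zt ^ 2 := sq_nonneg _
  set N : ℝ := M * (D * D) with hN
  have hN0 : 0 ≤ N := by positivity
  refine ⟨100 * N * (1 + cc zt ^ 2), ?_⟩
  intro τ a b hτ
  have hNc : 0 ≤ N * cc zt ^ 2 := by positivity
  by_cases hab : a ∈ Icc r (3 / 16) ∧ b ∈ Icc r (3 / 16)
  · obtain ⟨e0, e1, e2, e11, e12, e22⟩ := hp τ a b hτ hab.1 hab.2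
    obtain ⟨a0, a1, a2⟩ := hD a
    obtain ⟨b0, b1, b2⟩ := hD b
    have hab0 : 0 < a + b := by linarith [hab.1.1, hab.2.1]
    have P0 : |PK zt r τ a b| ≤ N := C2_tri hM hD0 e0 a0 b0
    have P1 : |PK1 zt r τ a b| ≤ 2 * N := by
      have x1 := C2_tri hM hD0 e1 a0 b0
      have x2 := C2_tri hM hD0 e0 a1 b0
      refine (abs_add_le _ _).trans ?_
      linarith
    have P2 : |PK2 zt r τ a b| ≤ 2 * N := by
      have x1 := C2_tri hM hD0 e2 a0 b0
      have x2 := C2_tri hM hD0 e0 a0 b1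
      refine (abs_add_le _ _).trans ?_
      linarith
    have P11 : |PK11 zt r τ a b| ≤ 4 * N := by
      have x1 := C2_tri hM hD0 e11 a0 b0
      have x2 := C2_tri hM hD0 e1 a1 b0
      have x3 := C2_tri hM hD0 e0 a2 b0
      refine (abs_add_le _ _).trans ((add_le_add_left (abs_add_le _ _) _).trans ?_)
      rw [abs_mul 2, abs_two]
      linarith
    have P22 : |PK22 zt r τ a b| ≤ 4 * N := by
      have x1 := C2_tri hM hD0 e22 a0 b0
      have x2 := C2_tri hM hD0 e2 a0 b1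
      have x3 := C2_tri hM hD0 e0 a0 b2
      refine (abs_add_le _ _).trans ((add_le_add_left (abs_add_le _ _) _).trans ?_)
      rw [abs_mul 2, abs_two]
      linarith
    have P12 : |PK12 zt r τ a b| ≤ 4 * N := by
      have x1 := C2_tri hM hD0 e12 a0 b0
      have x2 := C2_tri hM hD0 e1 a0 b1
      have x3 := C2_tri hM hD0 e2 a1 b0
      have x4 := C2_tri hM hD0 e0 a1 b1
      refine (abs_add_le _ _).trans ((add_le_add_left (abs_add_le _ _) _).trans
        ((add_le_add_left (add_le_add_left (abs_add_le _ _) _) _).trans ?_))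
      linarith
    have Pt : |pkt zt τ a b * (kp r a * kp r b)| ≤ (2 + cc zt ^ 2) * N := by
      have e : |pkt zt τ a b| ≤ (2 + cc zt ^ 2) * M := by
        rw [pk_heat h hab0 (hρ.trans_le hτ)]
        refine (abs_add_le _ _).trans ((add_le_add_left (abs_add_le _ _) _).trans ?_)
        rw [abs_mul, abs_of_nonneg hc]
        have := mul_le_mul_of_nonneg_left e12 hc
        linarith
      have := C2_tri (by positivity) hD0 e a0 b0
      linarith
    have wa : |1 - 2 * a| ≤ 1 := by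
      rw [abs_le]
      constructor <;> linarith [hab.1.1, hab.1.2]
    have wb : |1 - 2 * b| ≤ 1 := by
      rw [abs_le]
      constructor <;> linarith [hab.2.1, hab.2.2]
    have hL : |LPK zt r τ a b| ≤ (28 + 28 * cc zt ^ 2) * N := by
      have y1 : |(1 - 2 * a) * PK11 zt r τ a b| ≤ 4 * N := by
        rw [abs_mul]
        calc |1 - 2 * a| * |PK11 zt r τ a b| ≤ 1 * |PK11 zt r τ a b| :=
              mul_le_mul_of_nonneg_right wa (abs_nonneg _)
          _ ≤ 4 * N := by linarith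
      have y2 : |(1 - 2 * b) * PK22 zt r τ a b| ≤ 4 * N := by
        rw [abs_mul]
        calc |1 - 2 * b| * |PK22 zt r τ a b| ≤ 1 * |PK22 zt r τ a b| :=
              mul_le_mul_of_nonneg_right wb (abs_nonneg _)
          _ ≤ 4 * N := by linarith
      have y3 : |(1 - 2 * a) * (1 - 2 * b) * PK12 zt r τ a b| ≤ 4 * N := by
        rw [abs_mul, abs_mul]
        calc |1 - 2 * a| * |1 - 2 * b| * |PK12 zt r τ a b| ≤ 1 * 1 * |PK12 zt r τ a b| :=
              mul_le_mul_of_nonneg_right (mul_le_mul wa wb (abs_nonneg _) zero_le_one)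
                (abs_nonneg _)
          _ ≤ 4 * N := by linarith
      have y4 : |3 * (1 - 2 * a) * PK1 zt r τ a b| ≤ 6 * N := by
        rw [abs_mul, abs_mul, abs_of_pos (show (0 : ℝ) < 3 by norm_num)]
        calc 3 * |1 - 2 * a| * |PK1 zt r τ a b| ≤ 3 * 1 * |PK1 zt r τ a b| :=
              mul_le_mul_of_nonneg_right (by linarith) (abs_nonneg _)
          _ ≤ 6 * N := by linarith
      have y5 : |3 * (1 - 2 * b) * PK2 zt r τ a b| ≤ 6 * N := by
        rw [abs_mul, abs_mul, abs_of_pos (show (0 : ℝ) < 3 by norm_num)]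
        calc 3 * |1 - 2 * b| * |PK2 zt r τ a b| ≤ 3 * 1 * |PK2 zt r τ a b| :=
              mul_le_mul_of_nonneg_right (by linarith) (abs_nonneg _)
          _ ≤ 6 * N := by linarith
      have y6 : |(1 - 2 * a) * (1 - 2 * b) * PK12 zt r τ a b - 3 * (1 - 2 * a) * PK1 zt r τ a b -
          3 * (1 - 2 * b) * PK2 zt r τ a b + 9 * PK zt r τ a b| ≤ 28 * N := by
        rw [abs_le] at *
        constructor <;> linarith [P0.1, P0.2, y3.1, y3.2, y4.1, y4.2, y5.1, y5.2]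
      have y7 : |cc zt ^ 2 * ((1 - 2 * a) * (1 - 2 * b) * PK12 zt r τ a b -
          3 * (1 - 2 * a) * PK1 zt r τ a b -
          3 * (1 - 2 * b) * PK2 zt r τ a b + 9 * PK zt r τ a b)| ≤ cc zt ^ 2 * (28 * N) := by
        rw [abs_mul, abs_of_nonneg hc]
        exact mul_le_mul_of_nonneg_left y6 hc
      unfold LPK LL
      rw [abs_le] at *
      constructor <;> linarith [y1.1, y1.2, y2.1, y2.2, y7.1, y7.2, P1.1, P1.2, P2.1, P2.2]
    refine ⟨?_, ?_, ?_, ?_, ?_, ?_⟩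
    · linarith
    · linarith
    · linarith
    · linarith
    · have := abs_sub (LPK zt r τ a b) (pkt zt τ a b * (kp r a * kp r b))
      unfold Er
      linarith
    · linarith
  · have hC : 0 ≤ 100 * N * (1 + cc zt ^ 2) := by positivity
    have hz : (kp r a = 0 ∧ deriv (kp r) a = 0 ∧ deriv (deriv (kp r)) a = 0) ∨
        (kp r b = 0 ∧ deriv (kp r) b = 0 ∧ deriv (deriv (kp r)) b = 0) := by
      have hh : ∀ z, z ∉ Icc r (3 / 16) →
          (kp r z = 0 ∧ deriv (kp r) z = 0 ∧ deriv (deriv (kp r)) z = 0) := by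
        intro z hz
        have : z ≤ r ∨ 3 / 16 ≤ z := by
          by_contra hc
          push Not at hc
          exact hz ⟨hc.1.le, hc.2.le⟩
        exact ⟨kp_zero hr this, kp_deriv_zero hr this⟩
      rcases not_and_or.mp hab with ha | hb
      · exact Or.inl (hh a ha)
      · exact Or.inr (hh b hb)
    rcases hz with ⟨z0, z1, z2⟩ | ⟨z0, z1, z2⟩
    · simp only [Er, LPK, LL, PK, PK1, PK2, PK11, PK12, PK22, z0, z1, z2]
      simp only [mul_zero, zero_mul, add_zero, sub_zero, abs_zero]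
      exact ⟨hC, hC, hC, hC, hC, hC⟩
    · simp only [Er, LPK, LL, PK, PK1, PK2, PK11, PK12, PK22, z0, z1, z2]
      simp only [mul_zero, add_zero, sub_zero, abs_zero]
      exact ⟨hC, hC, hC, hC, hC, hC⟩

/-- `∫_0^T (θ'(t + s) p(s + R²) + θ(t + s) p_τ(s + R²)) ds = - θ(t) p(R²)` for `t ≥ 0`
(with the cutoffs, so that no condition on `a`, `b` is needed). -/
theorem ftc_PK {zt : ℝ} (h : Zt zt) {T R r : ℝ} (hT : 0 < T) (hR : 0 < R) (hr : 0 < r) {t : ℝ}
    (ht : 0 ≤ t) (a b : ℝ) :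
    ∫ s in Ioo (0 : ℝ) T, (deriv (th T) (t + s) * PK zt r (s + R ^ 2) a b +
      th T (t + s) * (pkt zt (s + R ^ 2) a b * (kp r a * kp r b))) =
    -(th T t * PK zt r (R ^ 2) a b) := by
  by_cases hz : kp r a * kp r b = 0
  · simp [PK, hz]
  have ha : r < a := by
    by_contra hc
    exact hz (by rw [C2_k0 hr a (not_lt.mp hc), zero_mul])
  have hb : r < b := by
    by_contra hc
    exact hz (by rw [C2_k0 hr b (not_lt.mp hc), mul_zero])
  have hab : 0 < a + b := by linarith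
  rw [← integral_Ioc_eq_integral_Ioo, ← intervalIntegral.integral_of_le hT.le]
  have hpos : ∀ s : ℝ, s ∈ uIcc 0 T → 0 < s + R ^ 2 := by
    intro s hs
    rw [uIcc_of_le hT.le] at hs
    have : 0 < R ^ 2 := by positivity
    linarith [hs.1]
  have hth := contDiff_infty_iff_deriv.mp (th_smooth T)
  have hd : ∀ s ∈ uIcc 0 T, HasDerivAt (fun s => th T (t + s) * PK zt r (s + R ^ 2) a b)
      (deriv (th T) (t + s) * PK zt r (s + R ^ 2) a b +
      th T (t + s) * (pkt zt (s + R ^ 2) a b * (kp r a * kp r b))) s := by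
    intro s hs
    have h1 : HasDerivAt (fun s => th T (t + s)) (deriv (th T) (t + s)) s := by
      have := ((hth.1 (t + s)).hasDerivAt).comp_const_add t s
      exact this
    have h2 : HasDerivAt (fun s => pk zt (s + R ^ 2) a b) (pkt zt (s + R ^ 2) a b) s :=
      (pk_hdt zt (hpos s hs) a b).comp_add_const s (R ^ 2)
    exact h1.mul (h2.mul_const _)
  obtain ⟨c0, -, -, -, -, -, ct⟩ := pk_contOn h
  have hmap : ContinuousOn (fun s : ℝ => ((s + R ^ 2, a, b) : ℝ × ℝ × ℝ)) (uIcc 0 T) := by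
    fun_prop
  have hin : MapsTo (fun s : ℝ => ((s + R ^ 2, a, b) : ℝ × ℝ × ℝ)) (uIcc 0 T)
      {v | 0 < v.1 ∧ 0 < v.2.1 + v.2.2} := fun s hs => ⟨hpos s hs, hab⟩
  have c0' := c0.comp hmap hin
  have ct' := ct.comp hmap hin
  have hi : IntervalIntegrable (fun s => deriv (th T) (t + s) * PK zt r (s + R ^ 2) a b +
      th T (t + s) * (pkt zt (s + R ^ 2) a b * (kp r a * kp r b))) volume 0 T := by
    apply ContinuousOn.intervalIntegrable
    have d1 : ContinuousOn (fun s => deriv (th T) (t + s)) (uIcc 0 T) :=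
      (hth.2.continuous.comp (continuous_const.add continuous_id)).continuousOn
    have d0 : ContinuousOn (fun s => th T (t + s)) (uIcc 0 T) :=
      ((th_smooth T).continuous.comp (continuous_const.add continuous_id)).continuousOn
    exact (d1.mul (c0'.mul continuousOn_const)).add (d0.mul (ct'.mul continuousOn_const))
  rw [intervalIntegral.integral_eq_sub_of_hasDerivAt hd hi]
  have e1 : th T (t + T) = 0 := th_zero hT (Or.inr (by linarith))
  rw [e1, add_zero, zero_add]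
  ring

end Pool.Agent.W_332fe5.Six
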