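import Pool.Agent.W_332fe5_h24.K0

set_option autoImplicit false

/-! Block 6: definitions for the two-point functional. -/

open MeasureTheory ProbabilityTheory Set Filter Topology
open scoped ENNReal NNReal

namespace Pool.Agent.W_332fe5.Six

/-- Test functions of `y`: smooth with compact support in `(0, 1/2)`. -/
def CR : Set (ℝ → ℝ) :=
  {H | ContDiff ℝ ((⊤ : ℕ∞) : WithTop ℕ∞) H ∧ HasCompactSupport H ∧ tsupport H ⊆ Ioo 0 (1 / 2)}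

/-- Lebesgue measure on `B × B`. -/
noncomputable def vv : Measure (E3 × E3) :=
  ((volume : Measure E3).restrict Bl).prod ((volume : Measure E3).restrict Bl)

/-- `(1 - 2y) H'' - 5 H'`. -/
noncomputable def dop (H : ℝ → ℝ) (y : ℝ) : ℝ := (1 - 2 * y) * iteratedDeriv 2 H y - 5 * deriv H y

/-- `(1 - 2y) H' - 3 H`. -/
noncomputable def nop (H : ℝ → ℝ) (y : ℝ) : ℝ := (1 - 2 * y) * deriv H y - 3 * H y

/-- The data of the two-point functional up to the time `T`: `Γ` (zero after `S`), `U = u · x`,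
`G` = the value at the time `T ∧ S`. -/
structure TwoPt (zt T : ℝ) where
  Ω : Type
  mΩ : MeasurableSpace Ω
  P : Measure Ω
  prob : IsProbabilityMeasure P
  S : Ω → ℝ
  S_meas : Measurable S
  S_nonneg : ∀ ω, 0 ≤ S ω
  Γ : ℝ × Ω → E3 → ℝ
  Γ_meas : Measurable fun q : (ℝ × Ω) × E3 => Γ q.1 q.2
  Γ_bdd : ∀ z x, |Γ z x| ≤ 1
  U : ℝ × Ω → E3 → ℝ
  U_meas : Measurable fun q : (ℝ × Ω) × E3 => U q.1 q.2
  K : ℝ
  K_nonneg : 0 ≤ K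
  U_int : ∫⁻ z, (∫⁻ x in Bl, ENNReal.ofReal (U z x ^ 2 * yy x ^ (-(3 / 2 : ℝ))))
    ∂((volume.restrict (Ioo (0 : ℝ) T)).prod P) ≤ ENNReal.ofReal K
  G : Ω → E3 → ℝ
  G_meas : Measurable fun q : Ω × E3 => G q.1 q.2
  G_bdd : ∀ ω x, |G ω x| ≤ 1
  ident : ∀ H ∈ CR, ∀ H' ∈ CR, ∀ η : ℝ → ℝ, ContDiff ℝ 1 η → η T = 0 →
    ∫ ω, (if S ω ≤ T then η (S ω) * ((∫ x in Bl, G ω x * H (yy x)) *
      ∫ x in Bl, G ω x * H' (yy x)) else 0) ∂P =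
    η 0 * ((∫ x in Bl, Gam0 x * H (yy x)) * ∫ x in Bl, Gam0 x * H' (yy x)) +
    ∫ z, (deriv η z.1 * ((∫ x in Bl, Γ z x * H (yy x)) * ∫ x in Bl, Γ z x * H' (yy x)) +
      η z.1 * ((∫ x in Bl, Γ z x * (dop H (yy x) - U z x * deriv H (yy x))) *
          (∫ x in Bl, Γ z x * H' (yy x)) +
        (∫ x in Bl, Γ z x * (dop H' (yy x) - U z x * deriv H' (yy x))) *
          (∫ x in Bl, Γ z x * H (yy x)) +
        cc zt ^ 2 * ((∫ x in Bl, Γ z x * nop H (yy x)) * ∫ x in Bl, Γ z x * nop H' (yy x))))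
      ∂((volume.restrict (Ioo (0 : ℝ) T)).prod P)

attribute [instance] TwoPt.mΩ TwoPt.prob

/-- The measure on `(0, T) × Ω`. -/
noncomputable def TwoPt.zm {zt T : ℝ} (D : TwoPt zt T) : Measure (ℝ × D.Ω) :=
  (volume.restrict (Ioo (0 : ℝ) T)).prod D.P

/-- The linear functional which vanishes on
`(ζ, ζ_t + L ζ, ζ_1, ζ_2)` for all admissible weights `ζ(t, y₁, y₂)`. -/
noncomputable def TwoPt.Lam {zt T : ℝ} (D : TwoPt zt T) (F A B1 B2 : ℝ → ℝ → ℝ → ℝ) : ℝ :=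
  (∫ q : D.Ω × (E3 × E3), (if D.S q.1 ≤ T then
      D.G q.1 q.2.1 * D.G q.1 q.2.2 * F (D.S q.1) (yy q.2.1) (yy q.2.2) else 0) ∂(D.P.prod vv)) -
  (∫ x, Gam0 x.1 * Gam0 x.2 * F 0 (yy x.1) (yy x.2) ∂vv) -
  ∫ q : (ℝ × D.Ω) × (E3 × E3), D.Γ q.1 q.2.1 * D.Γ q.1 q.2.2 *
    (A q.1.1 (yy q.2.1) (yy q.2.2) - D.U q.1 q.2.1 * B1 q.1.1 (yy q.2.1) (yy q.2.2) -
      D.U q.1 q.2.2 * B2 q.1.1 (yy q.2.1) (yy q.2.2)) ∂(D.zm.prod vv)

/-- Measurable and bounded for `t ∈ [0, T]`. -/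
def Nice (T : ℝ) (F : ℝ → ℝ → ℝ → ℝ) : Prop :=
  (Measurable fun v : ℝ × ℝ × ℝ => F v.1 v.2.1 v.2.2) ∧
    ∃ C : ℝ, ∀ t ∈ Icc 0 T, ∀ a b : ℝ, |F t a b| ≤ C

/-- The spatial operator acting on a function `P` of `(y₁, y₂)` with the given derivatives. -/
noncomputable def LL (zt : ℝ) (P P1 P2 P11 P12 P22 : ℝ → ℝ → ℝ) (a b : ℝ) : ℝ :=
  (1 - 2 * a) * P11 a b - 5 * P1 a b + (1 - 2 * b) * P22 a b - 5 * P2 a b +
    cc zt ^ 2 * ((1 - 2 * a) * (1 - 2 * b) * P12 a b - 3 * (1 - 2 * a) * P1 a b -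
      3 * (1 - 2 * b) * P2 a b + 9 * P a b)

/-- The cutoff `χ(y) χ(y / r)`: `0` for `y ≤ r` and for `y ≥ 3/16`, `1` for `2r ≤ y ≤ 1/8`. -/
noncomputable def kp (r y : ℝ) : ℝ :=
  Real.smoothTransition (y / r - 1) * Real.smoothTransition (3 - 16 * y)

/-- The time weight: `0` outside `(T/2, T)`, `1` on `[5T/8, 7T/8]`. -/
noncomputable def th (T t : ℝ) : ℝ :=
  Real.smoothTransition (8 * t / T - 4) * Real.smoothTransition (8 - 8 * t / T)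

/-- The kernel with cutoffs and its derivatives. -/
noncomputable def PK (zt r τ a b : ℝ) : ℝ := pk zt τ a b * (kp r a * kp r b)
noncomputable def PK1 (zt r τ a b : ℝ) : ℝ :=
  pk1 zt τ a b * (kp r a * kp r b) + pk zt τ a b * (deriv (kp r) a * kp r b)
noncomputable def PK2 (zt r τ a b : ℝ) : ℝ :=
  pk2 zt τ a b * (kp r a * kp r b) + pk zt τ a b * (kp r a * deriv (kp r) b)
noncomputable def PK11 (zt r τ a b : ℝ) : ℝ :=
  pk11 zt τ a b * (kp r a * kp r b) + 2 * (pk1 zt τ a b * (deriv (kp r) a * kp r b)) +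
    pk zt τ a b * (deriv (deriv (kp r)) a * kp r b)
noncomputable def PK12 (zt r τ a b : ℝ) : ℝ :=
  pk12 zt τ a b * (kp r a * kp r b) + pk1 zt τ a b * (kp r a * deriv (kp r) b) +
    pk2 zt τ a b * (deriv (kp r) a * kp r b) + pk zt τ a b * (deriv (kp r) a * deriv (kp r) b)
noncomputable def PK22 (zt r τ a b : ℝ) : ℝ :=
  pk22 zt τ a b * (kp r a * kp r b) + 2 * (pk2 zt τ a b * (kp r a * deriv (kp r) b)) +
    pk zt τ a b * (kp r a * deriv (deriv (kp r)) b)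

/-- The operator applied to the kernel with cutoffs. -/
noncomputable def LPK (zt r τ a b : ℝ) : ℝ :=
  LL zt (PK zt r τ) (PK1 zt r τ) (PK2 zt r τ) (PK11 zt r τ) (PK12 zt r τ) (PK22 zt r τ) a b

/-- The error term (heat equation for the main part). -/
noncomputable def Er (zt r τ a b : ℝ) : ℝ := LPK zt r τ a b - pkt zt τ a b * (kp r a * kp r b)

/-- The integrated kernels. -/
noncomputable def FF (zt T R r t a b : ℝ) : ℝ :=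
  ∫ s in Ioo (0 : ℝ) T, th T (t + s) * PK zt r (s + R ^ 2) a b
noncomputable def FF1 (zt T R r t a b : ℝ) : ℝ :=
  ∫ s in Ioo (0 : ℝ) T, th T (t + s) * PK1 zt r (s + R ^ 2) a b
noncomputable def FF2 (zt T R r t a b : ℝ) : ℝ :=
  ∫ s in Ioo (0 : ℝ) T, th T (t + s) * PK2 zt r (s + R ^ 2) a b
noncomputable def FEr (zt T R r t a b : ℝ) : ℝ :=
  ∫ s in Ioo (0 : ℝ) T, th T (t + s) * Er zt r (s + R ^ 2) a b

/-- `E ∫_0^T ∫ |Γ| y^(-ζ) e^(-y/√T)`. -/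
noncomputable def TwoPt.absInt {zt T : ℝ} (D : TwoPt zt T) : ℝ≥0∞ :=
  ∫⁻ z, (∫⁻ x in Bl, ENNReal.ofReal
    (|D.Γ z x| * yy x ^ (-zt) * Real.exp (-yy x / Real.sqrt T))) ∂D.zm

/-- `E ∫_(T/2)^T N_R²`, `N_R = ∫ |Γ| e^(-y/R)`. -/
noncomputable def TwoPt.topInt {zt T : ℝ} (D : TwoPt zt T) (R : ℝ) : ℝ≥0∞ :=
  ∫⁻ z, (if T / 2 < z.1 then (∫⁻ x in Bl, ENNReal.ofReal
    (|D.Γ z x| * Real.exp (-yy x / R))) ^ 2 else 0) ∂D.zm

/-- `E ∫ G⁴ e^(-y/√T)`. -/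
noncomputable def TwoPt.fourInt {zt T : ℝ} (D : TwoPt zt T) : ℝ≥0∞ :=
  ∫⁻ ω, (∫⁻ x in Bl, ENNReal.ofReal (D.G ω x ^ 4 * Real.exp (-yy x / Real.sqrt T))) ∂D.P

/-- The near-wall estimate (5.7). -/
def TwoPt.Wall {zt T : ℝ} (D : TwoPt zt T) : Prop := ∃ K R₀ : ℝ, 0 ≤ K ∧ 0 < R₀ ∧ ∀ R : ℝ, 0 < R →
  R ≤ R₀ → ∫⁻ z, (∫⁻ x in Bl, ENNReal.ofReal (|D.Γ z x| * Real.exp (-yy x / R))) ∂D.zm ≤
    ENNReal.ofReal (K * R ^ 2)

end Pool.Agent.W_332fe5.Six
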