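import Pool.Agent.W_332fe5_h24.K2
import Pool.Agent.W_332fe5_h24.D0

set_option autoImplicit false

/-! Block 6, C2a: continuity, measurability, smoothness of the kernel. -/

open MeasureTheory ProbabilityTheory Set Filter Topology
open scoped ENNReal NNReal

namespace Pool.Agent.W_332fe5.Six

/-- The region of the kernel. -/
def C2a_V : Set (ℝ × ℝ × ℝ) := {v | 0 < v.1 ∧ 0 < v.2.1 + v.2.2}

theorem C2a_ZZc (zt : ℝ) : Continuous (fun v : ℝ × ℝ × ℝ => ZZ zt v.2.1 v.2.2) := by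
  unfold ZZ
  fun_prop

theorem C2a_pow {zt : ℝ} (h : Zt zt) (c : ℂ) :
    ContinuousOn (fun v : ℝ × ℝ × ℝ => ZZ zt v.2.1 v.2.2 ^ c) C2a_V :=
  (C2a_ZZc zt).continuousOn.cpow continuousOn_const fun _ hv => ZZ_slit h hv.2

theorem C2a_re {zt : ℝ} (h : Zt zt) (c d e : ℂ) :
    ContinuousOn (fun v : ℝ × ℝ × ℝ => (d * ZZ zt v.2.1 v.2.2 ^ c * e).re) C2a_V :=
  Complex.continuous_re.comp_continuousOn
    ((continuousOn_const.mul (C2a_pow h c)).mul continuousOn_const)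

theorem C2a_ff {zt : ℝ} (h : Zt zt) :
    ContinuousOn (fun v : ℝ × ℝ × ℝ => ff zt v.2.1 v.2.2) C2a_V := by
  have := C2a_re h (zt : ℂ) 1 1
  simpa [ff] using this

theorem C2a_ff1 {zt : ℝ} (h : Zt zt) :
    ContinuousOn (fun v : ℝ × ℝ × ℝ => ff1 zt v.2.1 v.2.2) C2a_V := C2a_re h _ _ _

theorem C2a_ff2 {zt : ℝ} (h : Zt zt) :
    ContinuousOn (fun v : ℝ × ℝ × ℝ => ff2 zt v.2.1 v.2.2) C2a_V := C2a_re h _ _ _

theorem C2a_ff11 {zt : ℝ} (h : Zt zt) :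
    ContinuousOn (fun v : ℝ × ℝ × ℝ => ff11 zt v.2.1 v.2.2) C2a_V := C2a_re h _ _ _

theorem C2a_ff12 {zt : ℝ} (h : Zt zt) :
    ContinuousOn (fun v : ℝ × ℝ × ℝ => ff12 zt v.2.1 v.2.2) C2a_V := C2a_re h _ _ _

theorem C2a_ff22 {zt : ℝ} (h : Zt zt) :
    ContinuousOn (fun v : ℝ × ℝ × ℝ => ff22 zt v.2.1 v.2.2) C2a_V := C2a_re h _ _ _

theorem C2a_QQ (zt : ℝ) : Continuous (fun v : ℝ × ℝ × ℝ => QQ zt v.2.1 v.2.2) := by
  unfold QQ
  fun_prop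

theorem C2a_QQ1 (zt : ℝ) : Continuous (fun v : ℝ × ℝ × ℝ => QQ1 zt v.2.1 v.2.2) := by
  unfold QQ1
  fun_prop

theorem C2a_QQ2 (zt : ℝ) : Continuous (fun v : ℝ × ℝ × ℝ => QQ2 zt v.2.1 v.2.2) := by
  unfold QQ2
  fun_prop

theorem C2a_fst : ContinuousOn (fun v : ℝ × ℝ × ℝ => v.1) C2a_V := continuous_fst.continuousOn

theorem C2a_gg (zt : ℝ) :
    ContinuousOn (fun v : ℝ × ℝ × ℝ => gg zt v.1 v.2.1 v.2.2) C2a_V := by
  unfold gg
  refine ContinuousOn.mul ?_ ?_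
  · exact C2a_fst.rpow_const fun v hv => Or.inl hv.1.ne'
  · refine Real.continuous_exp.comp_continuousOn ?_
    exact (C2a_QQ zt).continuousOn.neg.div (continuousOn_const.mul C2a_fst)
      fun v hv => by have := hv.1; positivity

/-- Continuity of `pk` and its derivatives in the region `0 < τ`, `0 < y1 + y2`. -/
theorem pk_contOn {zt : ℝ} (h : Zt zt) :
    ContinuousOn (fun v : ℝ × ℝ × ℝ => pk zt v.1 v.2.1 v.2.2) {v | 0 < v.1 ∧ 0 < v.2.1 + v.2.2} ∧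
    ContinuousOn (fun v : ℝ × ℝ × ℝ => pk1 zt v.1 v.2.1 v.2.2) {v | 0 < v.1 ∧ 0 < v.2.1 + v.2.2} ∧
    ContinuousOn (fun v : ℝ × ℝ × ℝ => pk2 zt v.1 v.2.1 v.2.2) {v | 0 < v.1 ∧ 0 < v.2.1 + v.2.2} ∧
    ContinuousOn (fun v : ℝ × ℝ × ℝ => pk11 zt v.1 v.2.1 v.2.2) {v | 0 < v.1 ∧ 0 < v.2.1 + v.2.2} ∧
    ContinuousOn (fun v : ℝ × ℝ × ℝ => pk12 zt v.1 v.2.1 v.2.2) {v | 0 < v.1 ∧ 0 < v.2.1 + v.2.2} ∧
    ContinuousOn (fun v : ℝ × ℝ × ℝ => pk22 zt v.1 v.2.1 v.2.2) {v | 0 < v.1 ∧ 0 < v.2.1 + v.2.2} ∧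
    ContinuousOn (fun v : ℝ × ℝ × ℝ => pkt zt v.1 v.2.1 v.2.2)
      {v | 0 < v.1 ∧ 0 < v.2.1 + v.2.2} := by
  have hg := C2a_gg zt
  have f0 := C2a_ff h
  have f1 := C2a_ff1 h
  have f2 := C2a_ff2 h
  have f11 := C2a_ff11 h
  have f12 := C2a_ff12 h
  have f22 := C2a_ff22 h
  have q0 := (C2a_QQ zt).continuousOn (s := C2a_V)
  have q1 := (C2a_QQ1 zt).continuousOn (s := C2a_V)
  have q2 := (C2a_QQ2 zt).continuousOn (s := C2a_V)
  have t4 : ContinuousOn (fun v : ℝ × ℝ × ℝ => 4 * v.1) C2a_V := continuousOn_const.mul C2a_fst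
  have t4' : ContinuousOn (fun v : ℝ × ℝ × ℝ => 4 * v.1 ^ 2) C2a_V :=
    continuousOn_const.mul (C2a_fst.pow 2)
  have t16 : ContinuousOn (fun v : ℝ × ℝ × ℝ => 16 * v.1 ^ 2) C2a_V :=
    continuousOn_const.mul (C2a_fst.pow 2)
  have n4 : ∀ v ∈ C2a_V, 4 * v.1 ≠ 0 := fun v hv => by have := hv.1; positivity
  have n4' : ∀ v ∈ C2a_V, 4 * v.1 ^ 2 ≠ 0 := fun v hv => by have := hv.1; positivity
  have n16 : ∀ v ∈ C2a_V, 16 * v.1 ^ 2 ≠ 0 := fun v hv => by have := hv.1; positivity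
  have n1 : ∀ v ∈ C2a_V, v.1 ≠ 0 := fun v hv => hv.1.ne'
  refine ⟨hg.mul f0, hg.mul (f1.sub ((f0.mul q1).div t4 n4)),
    hg.mul (f2.sub ((f0.mul q2).div t4 n4)), ?_, ?_, ?_, ?_⟩
  · exact hg.mul (((f11.sub (((continuousOn_const.mul f1).mul q1).div t4 n4)).sub
      ((f0.mul continuousOn_const).div t4 n4)).add ((f0.mul (q1.pow 2)).div t16 n16))
  · exact hg.mul (((f12.sub (((f1.mul q2).add (f2.mul q1)).div t4 n4)).sub
      ((f0.mul continuousOn_const).div t4 n4)).add ((f0.mul (q1.mul q2)).div t16 n16))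
  · exact hg.mul (((f22.sub (((continuousOn_const.mul f2).mul q2).div t4 n4)).sub
      ((f0.mul continuousOn_const).div t4 n4)).add ((f0.mul (q2.pow 2)).div t16 n16))
  · exact (hg.mul f0).mul ((continuousOn_const.div C2a_fst n1).add (q0.div t4' n4'))

theorem C2a_mre (zt : ℝ) (c d e : ℂ) :
    Measurable (fun v : ℝ × ℝ × ℝ => (d * ZZ zt v.2.1 v.2.2 ^ c * e).re) :=
  Complex.measurable_re.comp
    ((measurable_const.mul ((C2a_ZZc zt).measurable.pow_const c)).mul measurable_const)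

theorem C2a_mgg (zt : ℝ) : Measurable (fun v : ℝ × ℝ × ℝ => gg zt v.1 v.2.1 v.2.2) := by
  unfold gg
  exact (measurable_fst.pow_const _).mul
    (Real.measurable_exp.comp ((C2a_QQ zt).measurable.neg.div (measurable_const.mul measurable_fst)))

/-- Joint measurability (everywhere, from the explicit formulas in K0; complex powers are
measurable). -/
theorem pk_meas (zt : ℝ) :
    Measurable (fun v : ℝ × ℝ × ℝ => pk zt v.1 v.2.1 v.2.2) ∧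
    Measurable (fun v : ℝ × ℝ × ℝ => pk1 zt v.1 v.2.1 v.2.2) ∧
    Measurable (fun v : ℝ × ℝ × ℝ => pk2 zt v.1 v.2.1 v.2.2) ∧
    Measurable (fun v : ℝ × ℝ × ℝ => pk11 zt v.1 v.2.1 v.2.2) ∧
    Measurable (fun v : ℝ × ℝ × ℝ => pk12 zt v.1 v.2.1 v.2.2) ∧
    Measurable (fun v : ℝ × ℝ × ℝ => pk22 zt v.1 v.2.1 v.2.2) ∧
    Measurable (fun v : ℝ × ℝ × ℝ => pkt zt v.1 v.2.1 v.2.2) := by
  have hg := C2a_mgg zt
  have f0 : Measurable (fun v : ℝ × ℝ × ℝ => ff zt v.2.1 v.2.2) := by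
    have := C2a_mre zt (zt : ℂ) 1 1
    simpa [ff] using this
  have f1 : Measurable (fun v : ℝ × ℝ × ℝ => ff1 zt v.2.1 v.2.2) := C2a_mre zt _ _ _
  have f2 : Measurable (fun v : ℝ × ℝ × ℝ => ff2 zt v.2.1 v.2.2) := C2a_mre zt _ _ _
  have f11 : Measurable (fun v : ℝ × ℝ × ℝ => ff11 zt v.2.1 v.2.2) := C2a_mre zt _ _ _
  have f12 : Measurable (fun v : ℝ × ℝ × ℝ => ff12 zt v.2.1 v.2.2) := C2a_mre zt _ _ _
  have f22 : Measurable (fun v : ℝ × ℝ × ℝ => ff22 zt v.2.1 v.2.2) := C2a_mre zt _ _ _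
  have q0 := (C2a_QQ zt).measurable
  have q1 := (C2a_QQ1 zt).measurable
  have q2 := (C2a_QQ2 zt).measurable
  have t1 : Measurable (fun v : ℝ × ℝ × ℝ => v.1) := measurable_fst
  refine ⟨hg.mul f0, hg.mul (f1.sub ((f0.mul q1).div (t1.const_mul 4))),
    hg.mul (f2.sub ((f0.mul q2).div (t1.const_mul 4))), ?_, ?_, ?_, ?_⟩
  · exact hg.mul (((f11.sub (((f1.const_mul 2).mul q1).div (t1.const_mul 4))).sub
      ((f0.mul_const _).div (t1.const_mul 4))).add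
      ((f0.mul (q1.pow_const 2)).div ((t1.pow_const 2).const_mul 16)))
  · exact hg.mul (((f12.sub (((f1.mul q2).add (f2.mul q1)).div (t1.const_mul 4))).sub
      ((f0.mul_const _).div (t1.const_mul 4))).add
      ((f0.mul (q1.mul q2)).div ((t1.pow_const 2).const_mul 16)))
  · exact hg.mul (((f22.sub (((f2.const_mul 2).mul q2).div (t1.const_mul 4))).sub
      ((f0.mul_const _).div (t1.const_mul 4))).add
      ((f0.mul (q2.pow_const 2)).div ((t1.pow_const 2).const_mul 16)))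
  · exact (hg.mul f0).mul ((measurable_const.div t1).add (q0.div ((t1.pow_const 2).const_mul 4)))

/-- `pk` is smooth in the first variable. -/
theorem pk_smooth {zt : ℝ} (h : Zt zt) {τ : ℝ} (hτ : 0 < τ) (y2 : ℝ) :
    ContDiffOn ℝ ((⊤ : ℕ∞) : WithTop ℕ∞) (fun a => pk zt τ a y2) {a | 0 < a + y2} := by
  intro a ha
  have hs := ZZ_slit h (y1 := a) (y2 := y2) ha
  have h1 : ContDiffAt ℂ ((⊤ : ℕ∞) : WithTop ℕ∞) (fun z : ℂ => z ^ (zt : ℂ)) (ZZ zt a y2) :=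
    (analyticAt_id.cpow analyticAt_const hs).contDiffAt
  have h2 : ContDiffAt ℝ ((⊤ : ℕ∞) : WithTop ℕ∞) (fun z : ℂ => z ^ (zt : ℂ)) (ZZ zt a y2) :=
    h1.restrict_scalars ℝ
  have h3 : ContDiff ℝ ((⊤ : ℕ∞) : WithTop ℕ∞) (fun a : ℝ => ZZ zt a y2) := by
    unfold ZZ
    exact ((Complex.ofRealCLM.contDiff).mul contDiff_const).add contDiff_const
  have h4 := h2.comp a h3.contDiffAt
  have h5 : ContDiffAt ℝ ((⊤ : ℕ∞) : WithTop ℕ∞) (fun a : ℝ => ff zt a y2) a :=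
    (Complex.reCLM.contDiff.contDiffAt (x := (ZZ zt a y2 ^ (zt : ℂ)))).comp a h4
  have h6 : ContDiff ℝ ((⊤ : ℕ∞) : WithTop ℕ∞) (fun a : ℝ => gg zt τ a y2) := by
    unfold gg QQ
    fun_prop
  exact (h6.contDiffAt.mul h5).contDiffWithinAt

end Pool.Agent.W_332fe5.Six
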