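import Pool.Agent.W_332fe5_h24.K2
import Pool.Agent.W_332fe5_h24.C1

set_option autoImplicit false

/-! Block 6, C3: the error term. -/

open MeasureTheory ProbabilityTheory Set Filter Topology
open scoped ENNReal NNReal

namespace Pool.Agent.W_332fe5.Six

theorem C3_cpow_re {ρ φ zt : ℝ} (hρ : 0 < ρ) (h1 : -Real.pi < φ) (h2 : φ ≤ Real.pi) :
    (((ρ : ℂ) * Complex.exp ((φ : ℂ) * Complex.I)) ^ (zt : ℂ)).re =
      Real.exp (Real.log ρ * zt) * Real.cos (zt * φ) := by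
  have hne : (ρ : ℂ) * Complex.exp ((φ : ℂ) * Complex.I) ≠ 0 :=
    mul_ne_zero (by exact_mod_cast hρ.ne') (Complex.exp_ne_zero _)
  rw [Complex.cpow_def_of_ne_zero hne, Complex.log_ofReal_mul hρ (Complex.exp_ne_zero _),
    Complex.log_exp (by simpa using h1) (by simpa using h2), Complex.exp_re]
  congr 1
  · simp
  · simp
    ring_nf

theorem C3_ee1 {zt : ℝ} : ee1 zt = ((1 / Real.sin (om zt) : ℝ) : ℂ) *
    Complex.exp (((-(om zt / 2) : ℝ) : ℂ) * Complex.I) := by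
  apply Complex.ext
  · rw [Complex.re_ofReal_mul, Complex.exp_ofReal_mul_I_re, Real.cos_neg]
    simp [ee1]
    ring
  · rw [Complex.im_ofReal_mul, Complex.exp_ofReal_mul_I_im, Real.sin_neg]
    simp [ee1]
    ring

theorem C3_ee2 {zt : ℝ} : ee2 zt = ((1 / Real.sin (om zt) : ℝ) : ℂ) *
    Complex.exp (((om zt / 2 : ℝ) : ℂ) * Complex.I) := by
  apply Complex.ext
  · rw [Complex.re_ofReal_mul, Complex.exp_ofReal_mul_I_re]
    simp [ee2]
    ring
  · rw [Complex.im_ofReal_mul, Complex.exp_ofReal_mul_I_im]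
    simp [ee2]
    ring

theorem C3_angle {zt : ℝ} (h : Zt zt) : zt * (om zt / 2) = Real.pi / 2 := by
  have := h.pos
  unfold om
  field_simp

theorem C3_ff_zero2 {zt : ℝ} (h : Zt zt) {b : ℝ} (hb : 0 < b) : ff zt 0 b = 0 := by
  have hs := h.sin_pos
  have h1 := h.lt_om
  have h2 := h.om_lt
  have hpi := Real.pi_pos
  have e : ZZ zt 0 b = ((b * (1 / Real.sin (om zt)) : ℝ) : ℂ) *
      Complex.exp (((om zt / 2 : ℝ) : ℂ) * Complex.I) := by
    unfold ZZ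
    rw [C3_ee2]
    push_cast
    ring
  unfold ff
  rw [e, C3_cpow_re (by positivity) (by linarith) (by linarith), C3_angle h,
    Real.cos_pi_div_two, mul_zero]

theorem C3_ff_zero1 {zt : ℝ} (h : Zt zt) {a : ℝ} (ha : 0 < a) : ff zt a 0 = 0 := by
  have hs := h.sin_pos
  have h1 := h.lt_om
  have h2 := h.om_lt
  have hpi := Real.pi_pos
  have e : ZZ zt a 0 = ((a * (1 / Real.sin (om zt)) : ℝ) : ℂ) *
      Complex.exp (((-(om zt / 2) : ℝ) : ℂ) * Complex.I) := by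
    unfold ZZ
    rw [C3_ee1]
    push_cast
    ring
  unfold ff
  rw [e, C3_cpow_re (by positivity) (by linarith) (by linarith), mul_neg, C3_angle h,
    Real.cos_neg, Real.cos_pi_div_two, mul_zero]

theorem C3_ff_lin {zt : ℝ} (h : Zt zt) : ∃ C : ℝ, 0 < C ∧ ∀ a b : ℝ, 0 ≤ a → a ≤ 1 / 2 →
    0 ≤ b → b ≤ 1 / 2 → 0 < a + b → |ff zt a b| ≤ C * a ∧ |ff zt a b| ≤ C * b := by
  obtain ⟨C, hC, hf⟩ := ff_bounds h
  have hz := h.z1
  refine ⟨C, hC, ?_⟩
  intro a b ha ha2 hb hb2 hab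
  rcases ha.eq_or_lt with ha0 | ha0
  · subst ha0
    have hb0 : 0 < b := by linarith
    rw [C3_ff_zero2 h hb0, abs_zero]
    constructor <;> positivity
  rcases hb.eq_or_lt with hb0 | hb0
  · subst hb0
    rw [C3_ff_zero1 h ha0, abs_zero]
    constructor <;> positivity
  constructor
  · obtain ⟨c, hc, hc2⟩ := exists_hasDerivAt_eq_slope (fun x => ff zt x b)
      (fun x => ff1 zt x b) ha0
      (fun x hx => (ff_hd1 h (y1 := x) (y2 := b) (by linarith [hx.1])).continuousAt.continuousWithinAt)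
      (fun x hx => ff_hd1 h (by linarith [hx.1]))
    have h1 : ff zt a b = ff1 zt c b * a := by
      rw [C3_ff_zero2 h hb0] at hc2
      rw [hc2]
      field_simp
      ring
    rw [h1, abs_mul, abs_of_pos ha0]
    apply mul_le_mul_of_nonneg_right _ ha0.le
    refine ((hf c b hc.1.le hb (by linarith [hc.1])).2.1).trans ?_
    have h2 : (c + b) ^ (zt - 1) ≤ 1 :=
      Real.rpow_le_one (by linarith [hc.1]) (by linarith [hc.2]) (by linarith)
    nlinarith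
  · obtain ⟨c, hc, hc2⟩ := exists_hasDerivAt_eq_slope (fun x => ff zt a x)
      (fun x => ff2 zt a x) hb0
      (fun x hx => (ff_hd2 h (y1 := a) (y2 := x) (by linarith [hx.1])).continuousAt.continuousWithinAt)
      (fun x hx => ff_hd2 h (by linarith [hx.1]))
    have h1 : ff zt a b = ff2 zt a c * b := by
      rw [C3_ff_zero1 h ha0] at hc2
      rw [hc2]
      field_simp
      ring
    rw [h1, abs_mul, abs_of_pos hb0]
    apply mul_le_mul_of_nonneg_right _ hb0.le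
    refine ((hf a c ha0.le hc.1.le (by linarith [hc.1])).2.2.1).trans ?_
    have h2 : (a + c) ^ (zt - 1) ≤ 1 :=
      Real.rpow_le_one (by linarith [hc.1]) (by linarith [hc.2]) (by linarith)
    nlinarith

theorem C3_gg_le {zt τ a b : ℝ} (h : Zt zt) (hτ : 0 < τ) : gg zt τ a b ≤ τ ^ (-1 - zt) := by
  unfold gg
  have h1 : Real.exp (-QQ zt a b / (4 * τ)) ≤ 1 := by
    rw [Real.exp_le_one_iff, neg_div, neg_nonpos]
    have h2 := QQ_ge h (y1 := a) (y2 := b)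
    have h3 := ac_pos h
    have h4 : 0 ≤ QQ zt a b := le_trans (by positivity) h2
    positivity
  have h2 : 0 ≤ τ ^ (-1 - zt) := by positivity
  nlinarith

/-- Near the boundary: `|pk| ≤ C τ^(-1-ζ) min(a, b)` and first derivatives `≤ C τ^(-1-ζ)` for
`a, b ≤ 1/2`.  Proof: `ff zt 0 b = 0`, `ff zt a 0 = 0` (`Re (i b)^ζ...`: `cos (π/2) = 0`), the mean
value inequality with `ff_bounds` (`|ff1| ≤ C s^(ζ-1) ≤ C`), `gg ≤ τ^(-1-ζ)`; for the derivatives
`|pk1| ≤ C km a ζ 1 τ s ≤ C τ^(-1-ζ)` as `s ≤ 1`. -/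
theorem pk_near {zt : ℝ} (h : Zt zt) : ∃ C : ℝ, 0 < C ∧ ∀ τ a b : ℝ, 0 < τ → 0 ≤ a → a ≤ 1 / 2 →
    0 ≤ b → b ≤ 1 / 2 → 0 < a + b →
    |pk zt τ a b| ≤ C * τ ^ (-1 - zt) * a ∧ |pk zt τ a b| ≤ C * τ ^ (-1 - zt) * b ∧
    |pk1 zt τ a b| ≤ C * τ ^ (-1 - zt) ∧ |pk2 zt τ a b| ≤ C * τ ^ (-1 - zt) := by
  obtain ⟨C1, hC1, h1⟩ := C3_ff_lin h
  obtain ⟨C2, a0, hC2, ha0, h2⟩ := pk_bounds h
  have hz := h.z1
  refine ⟨C1 + C2, by positivity, ?_⟩
  intro τ a b hτ ha ha2 hb hb2 hab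
  obtain ⟨f1, f2⟩ := h1 a b ha ha2 hb hb2 hab
  obtain ⟨_, p1, p2, _⟩ := h2 τ a b hτ ha hb hab
  have hG : 0 < τ ^ (-1 - zt) := by positivity
  have hg := C3_gg_le (a := a) (b := b) h hτ
  have hg0 := gg_pos (zt := zt) (y1 := a) (y2 := b) hτ
  have hkm : km a0 zt 1 τ (a + b) ≤ τ ^ (-1 - zt) := by
    unfold km
    have e1 : (a + b) ^ (zt - 1) ≤ 1 := Real.rpow_le_one hab.le (by linarith) (by linarith)
    have e2 : Real.exp (-a0 * (a + b) ^ 2 / τ) ≤ 1 := by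
      rw [Real.exp_le_one_iff, neg_mul, neg_div, neg_nonpos]
      positivity
    have e3 : 0 ≤ (a + b) ^ (zt - 1) := by positivity
    have e4 : 0 ≤ Real.exp (-a0 * (a + b) ^ 2 / τ) := (Real.exp_pos _).le
    calc τ ^ (-1 - zt) * (a + b) ^ (zt - 1) * Real.exp (-a0 * (a + b) ^ 2 / τ) ≤
        τ ^ (-1 - zt) * 1 * 1 := by gcongr
      _ = _ := by ring
  have hgen : ∀ y : ℝ, 0 ≤ y → |ff zt a b| ≤ C1 * y →
      |pk zt τ a b| ≤ (C1 + C2) * τ ^ (-1 - zt) * y := by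
    intro y hy hfy
    unfold pk
    rw [abs_mul, abs_of_pos hg0]
    calc gg zt τ a b * |ff zt a b| ≤ τ ^ (-1 - zt) * (C1 * y) :=
          mul_le_mul hg hfy (abs_nonneg _) hG.le
      _ ≤ (C1 + C2) * τ ^ (-1 - zt) * y := by
          have : 0 ≤ C2 * (τ ^ (-1 - zt) * y) := by positivity
          nlinarith
  refine ⟨hgen a ha f1, hgen b hb f2, ?_, ?_⟩
  · refine p1.trans ?_
    have : C2 * km a0 zt 1 τ (a + b) ≤ C2 * τ ^ (-1 - zt) := mul_le_mul_of_nonneg_left hkm hC2.le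
    have : 0 ≤ C1 * τ ^ (-1 - zt) := by positivity
    linarith
  · refine p2.trans ?_
    have : C2 * km a0 zt 1 τ (a + b) ≤ C2 * τ ^ (-1 - zt) := mul_le_mul_of_nonneg_left hkm hC2.le
    have : 0 ≤ C1 * τ ^ (-1 - zt) := by positivity
    linarith

/-- comparison of the model kernels for `s ≤ 1` -/
theorem C3_km {a0 zt τ s : ℝ} (hτ : 0 < τ) (hs : 0 < s) (hs1 : s ≤ 1) :
    km a0 zt 0 τ s ≤ km a0 zt 1 τ s ∧ s * km a0 zt 2 τ s = km a0 zt 1 τ s := by
  constructor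
  · unfold km
    have e1 : s ^ (zt - 0) ≤ s ^ (zt - 1) :=
      Real.rpow_le_rpow_of_exponent_ge hs hs1 (by linarith)
    gcongr
  · unfold km
    have e1 : s * s ^ (zt - 2) = s ^ (zt - 1) := by
      rw [show zt - 1 = (zt - 2) + 1 by ring, Real.rpow_add_one hs.ne']
      ring
    calc s * (τ ^ (-1 - zt) * s ^ (zt - 2) * Real.exp (-a0 * s ^ 2 / τ)) =
        τ ^ (-1 - zt) * (s * s ^ (zt - 2)) * Real.exp (-a0 * s ^ 2 / τ) := by ring
      _ = _ := by rw [e1]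

/-- all basic bounds at one point, `U = km a₀ ζ 1 τ s`, `G = τ^(-1-ζ)` -/
theorem C3_basic {zt : ℝ} (h : Zt zt) : ∃ C a₀ : ℝ, 1 ≤ C ∧ 0 < a₀ ∧ ∀ r τ a b : ℝ, 0 < r →
    r ≤ 1 / 32 → 0 < τ → 0 < a → a < 1 / 2 → 0 < b → b < 1 / 2 →
    |pk zt τ a b| ≤ C * km a₀ zt 1 τ (a + b) ∧
    |pk1 zt τ a b| ≤ C * km a₀ zt 1 τ (a + b) ∧
    |pk2 zt τ a b| ≤ C * km a₀ zt 1 τ (a + b) ∧
    (a + b) * |pk11 zt τ a b| ≤ C * km a₀ zt 1 τ (a + b) ∧
    (a + b) * |pk12 zt τ a b| ≤ C * km a₀ zt 1 τ (a + b) ∧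
    (a + b) * |pk22 zt τ a b| ≤ C * km a₀ zt 1 τ (a + b) ∧
    |pk1 zt τ a b| ≤ C * τ ^ (-1 - zt) ∧
    |pk2 zt τ a b| ≤ C * τ ^ (-1 - zt) ∧
    |pk zt τ a b| ≤ C * τ ^ (-1 - zt) * a ∧
    |pk zt τ a b| ≤ C * τ ^ (-1 - zt) * b ∧
    |deriv (kp r) a| ≤ C * (1 + (if r ≤ a ∧ a ≤ 2 * r then 1 / r else 0)) ∧
    |deriv (kp r) b| ≤ C * (1 + (if r ≤ b ∧ b ≤ 2 * r then 1 / r else 0)) ∧
    |deriv (deriv (kp r)) a| ≤ C * (1 + (if r ≤ a ∧ a ≤ 2 * r then 1 / r ^ 2 else 0)) ∧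
    |deriv (deriv (kp r)) b| ≤ C * (1 + (if r ≤ b ∧ b ≤ 2 * r then 1 / r ^ 2 else 0)) := by
  obtain ⟨C1, hC1, h1⟩ := pk_near h
  obtain ⟨C2, a0, hC2, ha0, h2⟩ := pk_bounds h
  obtain ⟨C3, hC3, h3⟩ := kp_deriv_bound
  set C : ℝ := C1 + C2 + C3 + 1 with hC
  refine ⟨C, a0, by linarith, ha0, ?_⟩
  intro r τ a b hr hr1 hτ ha ha2 hb hb2
  have hab : 0 < a + b := by linarith
  obtain ⟨n1, n2, n3, n4⟩ := h1 τ a b hτ ha.le ha2.le hb.le hb2.le hab
  obtain ⟨p0, p1, p2, p11, p12, p22⟩ := h2 τ a b hτ ha.le hb.le hab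
  obtain ⟨k1, k2⟩ := C3_km (a0 := a0) (zt := zt) hτ hab (by linarith : a + b ≤ 1)
  obtain ⟨d1, d2⟩ := h3 r a hr hr1
  obtain ⟨d3, d4⟩ := h3 r b hr hr1
  have hG : 0 < τ ^ (-1 - zt) := by positivity
  have hU : 0 ≤ km a0 zt 1 τ (a + b) := km_nonneg hτ hab
  have hU2 : 0 ≤ km a0 zt 2 τ (a + b) := km_nonneg hτ hab
  have hUC : C2 * km a0 zt 1 τ (a + b) ≤ C * km a0 zt 1 τ (a + b) := by
    apply mul_le_mul_of_nonneg_right _ hU
    linarith
  have hs2 : ∀ x : ℝ, |x| ≤ C2 * km a0 zt 2 τ (a + b) →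
      (a + b) * |x| ≤ C * km a0 zt 1 τ (a + b) := by
    intro x hx
    calc (a + b) * |x| ≤ (a + b) * (C2 * km a0 zt 2 τ (a + b)) :=
          mul_le_mul_of_nonneg_left hx hab.le
      _ = C2 * ((a + b) * km a0 zt 2 τ (a + b)) := by ring
      _ = C2 * km a0 zt 1 τ (a + b) := by rw [k2]
      _ ≤ _ := hUC
  have hG1 : C1 * τ ^ (-1 - zt) ≤ C * τ ^ (-1 - zt) := by
    apply mul_le_mul_of_nonneg_right _ hG.le
    linarith
  have hd : ∀ (y R : ℝ), 0 ≤ R → ∀ x : ℝ, |x| ≤ C3 * ((if 1 / 8 ≤ y ∧ y ≤ 3 / 16 then 1 else 0) +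
      (if r ≤ y ∧ y ≤ 2 * r then R else 0)) →
      |x| ≤ C * (1 + (if r ≤ y ∧ y ≤ 2 * r then R else 0)) := by
    intro y R hR x hx
    refine hx.trans ?_
    have e1 : (if 1 / 8 ≤ y ∧ y ≤ 3 / 16 then (1 : ℝ) else 0) ≤ 1 := by split_ifs <;> norm_num
    have e0 : (0 : ℝ) ≤ (if 1 / 8 ≤ y ∧ y ≤ 3 / 16 then (1 : ℝ) else 0) := by
      split_ifs <;> norm_num
    have e2 : (0 : ℝ) ≤ (if r ≤ y ∧ y ≤ 2 * r then R else 0) := by split_ifs <;> linarith
    apply mul_le_mul _ _ (by positivity) (by linarith)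
    · linarith
    · linarith
  refine ⟨?_, p1.trans hUC, p2.trans hUC, hs2 _ p11, hs2 _ p12, hs2 _ p22, n3.trans hG1,
    n4.trans hG1, n1.trans (mul_le_mul_of_nonneg_right hG1 ha.le),
    n2.trans (mul_le_mul_of_nonneg_right hG1 hb.le), hd a (1 / r) (by positivity) _ d1,
    hd b (1 / r) (by positivity) _ d3, hd a (1 / r ^ 2) (by positivity) _ d2,
    hd b (1 / r ^ 2) (by positivity) _ d4⟩
  exact p0.trans ((mul_le_mul_of_nonneg_left k1 hC2.le).trans hUC)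

theorem C3_prod {x y C U V j : ℝ} (hC : 0 ≤ C) (hU : 0 ≤ U) (hx : |x| ≤ C * U)
    (hy : |y| ≤ C * (1 + j)) (hj : |x| * j ≤ 2 * C * V) : |x * y| ≤ 2 * C ^ 2 * (U + V) := by
  rw [abs_mul]
  have h1 : |x| * |y| ≤ |x| * (C * (1 + j)) := mul_le_mul_of_nonneg_left hy (abs_nonneg _)
  have h2 : |x| * (C * (1 + j)) = C * |x| + C * (|x| * j) := by ring
  have h3 : C * |x| ≤ C * (C * U) := mul_le_mul_of_nonneg_left hx hC
  have h4 : C * (|x| * j) ≤ C * (2 * C * V) := mul_le_mul_of_nonneg_left hj hC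
  have h5 : 0 ≤ C ^ 2 * U := by positivity
  nlinarith

theorem C3_mul_le {x y : ℝ} (hy : |y| ≤ 1) : |x * y| ≤ |x| := by
  rw [abs_mul]
  have := abs_nonneg x
  nlinarith

theorem C3_kp_abs (r y : ℝ) : |kp r y| ≤ 1 := by
  rw [abs_of_nonneg (kp_nonneg r y)]
  exact kp_le_one r y

/-- the products of the kernel with derivatives of the cutoff; `T = U + (G / r) (ia + ib)` -/
theorem C3_products {zt : ℝ} (h : Zt zt) : ∃ M a₀ : ℝ, 1 ≤ M ∧ 0 < a₀ ∧ ∀ r τ a b : ℝ, 0 < r →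
    r ≤ 1 / 32 → 0 < τ → 0 < a → a < 1 / 2 → 0 < b → b < 1 / 2 →
    ∀ ia ib U G : ℝ, ia = (if a ≤ 2 * r then 1 else 0) → ib = (if b ≤ 2 * r then 1 else 0) →
    U = km a₀ zt 1 τ (a + b) → G = τ ^ (-1 - zt) →
    |pk zt τ a b| ≤ M * U ∧ |pk1 zt τ a b| ≤ M * U ∧ |pk2 zt τ a b| ≤ M * U ∧
    (a + b) * |pk11 zt τ a b| ≤ M * U ∧
    (a + b) * |pk12 zt τ a b| ≤ M * U ∧
    (a + b) * |pk22 zt τ a b| ≤ M * U ∧
    |pk zt τ a b * deriv (kp r) a| ≤ M * (U + G * ia) ∧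
    |pk zt τ a b * deriv (kp r) b| ≤ M * (U + G * ib) ∧
    |pk1 zt τ a b * deriv (kp r) a| ≤ M * (U + G / r * (ia + ib)) ∧
    |pk1 zt τ a b * deriv (kp r) b| ≤ M * (U + G / r * (ia + ib)) ∧
    |pk2 zt τ a b * deriv (kp r) a| ≤ M * (U + G / r * (ia + ib)) ∧
    |pk2 zt τ a b * deriv (kp r) b| ≤ M * (U + G / r * (ia + ib)) ∧
    |pk zt τ a b * deriv (deriv (kp r)) a| ≤ M * (U + G / r * (ia + ib)) ∧
    |pk zt τ a b * deriv (deriv (kp r)) b| ≤ M * (U + G / r * (ia + ib)) ∧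
    |pk zt τ a b * deriv (kp r) a * deriv (kp r) b| ≤ M * (U + G / r * (ia + ib)) ∧
    0 ≤ U ∧ 0 < G ∧ 0 ≤ ia ∧ 0 ≤ ib := by
  obtain ⟨C, a0, hC, ha0, hb⟩ := C3_basic h
  refine ⟨8 * C ^ 3, a0, by nlinarith [pow_le_pow_left₀ zero_le_one hC 3], ha0, ?_⟩
  intro r τ a b hr hr1 hτ ha ha2 hb0 hb2 ia ib U G hia hib hU hG
  obtain ⟨q0, q1, q2, q11, q12, q22, g1, g2, n1, n2, d1, d2, d3, d4⟩ :=
    hb r τ a b hr hr1 hτ ha ha2 hb0 hb2
  rw [← hU] at q0 q1 q2 q11 q12 q22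
  rw [← hG] at g1 g2 n1 n2
  have hU0 : 0 ≤ U := by rw [hU]; exact km_nonneg hτ (by linarith)
  have hG0 : 0 < G := by rw [hG]; positivity
  have hia0 : 0 ≤ ia := by rw [hia]; split_ifs <;> norm_num
  have hib0 : 0 ≤ ib := by rw [hib]; split_ifs <;> norm_num
  have hC0 : 0 ≤ C := by linarith
  have hr' : 1 ≤ 1 / r := by rw [le_div_iff₀ hr]; linarith
  set ja : ℝ := (if r ≤ a ∧ a ≤ 2 * r then 1 / r else 0) with hja
  set jb : ℝ := (if r ≤ b ∧ b ≤ 2 * r then 1 / r else 0) with hjb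
  set la : ℝ := (if r ≤ a ∧ a ≤ 2 * r then 1 / r ^ 2 else 0) with hla
  set lb : ℝ := (if r ≤ b ∧ b ≤ 2 * r then 1 / r ^ 2 else 0) with hlb
  -- bounds for the indicator factors
  have hgen : ∀ (y i : ℝ), 0 < y → i = (if y ≤ 2 * r then (1 : ℝ) else 0) → ∀ x : ℝ,
      |x| ≤ C * G * y →
      |x| * (if r ≤ y ∧ y ≤ 2 * r then 1 / r else 0) ≤ 2 * C * (G * i) ∧
      |x| * (if r ≤ y ∧ y ≤ 2 * r then 1 / r ^ 2 else 0) ≤ 2 * C * (G / r * i) := by
    intro y i hy hi x hx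
    by_cases hy2 : r ≤ y ∧ y ≤ 2 * r
    · rw [if_pos hy2, if_pos hy2, hi, if_pos hy2.2]
      have h1 : |x| ≤ C * G * (2 * r) :=
        hx.trans (mul_le_mul_of_nonneg_left hy2.2 (by positivity))
      constructor
      · rw [mul_one_div, div_le_iff₀ hr]
        linarith
      · rw [mul_one_div, div_le_iff₀ (by positivity)]
        have e : 2 * C * (G / r * 1) * r ^ 2 = C * G * (2 * r) := by
          field_simp
        rw [e]
        exact h1
    · rw [if_neg hy2, if_neg hy2, mul_zero]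
      have hi0 : 0 ≤ i := by rw [hi]; split_ifs <;> norm_num
      constructor <;> positivity
  have hgen1 : ∀ (y i : ℝ), i = (if y ≤ 2 * r then (1 : ℝ) else 0) → ∀ x : ℝ,
      |x| ≤ C * G → |x| * (if r ≤ y ∧ y ≤ 2 * r then 1 / r else 0) ≤ 2 * C * (G / r * i) := by
    intro y i hi x hx
    by_cases hy2 : r ≤ y ∧ y ≤ 2 * r
    · rw [if_pos hy2, hi, if_pos hy2.2, mul_one_div, div_le_iff₀ hr]
      have e : 2 * C * (G / r * 1) * r = 2 * (C * G) := by field_simp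
      rw [e]
      have : 0 ≤ C * G := by positivity
      linarith
    · rw [if_neg hy2, mul_zero]
      have hi0 : 0 ≤ i := by rw [hi]; split_ifs <;> norm_num
      positivity
  have e1 := hgen a ia ha hia _ n1
  have e2 := hgen b ib hb0 hib _ n2
  have hV1 : G * ia ≤ G / r * (ia + ib) := by
    have : G * ia ≤ G * (1 / r) * ia := by
      apply mul_le_mul_of_nonneg_right _ hia0
      nlinarith
    have h2 : 0 ≤ G / r * ib := by positivity
    calc G * ia ≤ G * (1 / r) * ia := this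
      _ ≤ G * (1 / r) * ia + G / r * ib := by linarith
      _ = _ := by ring
  have hV2 : G * ib ≤ G / r * (ia + ib) := by
    have : G * ib ≤ G * (1 / r) * ib := by
      apply mul_le_mul_of_nonneg_right _ hib0
      nlinarith
    have h2 : 0 ≤ G / r * ia := by positivity
    calc G * ib ≤ G * (1 / r) * ib := this
      _ ≤ G * (1 / r) * ib + G / r * ia := by linarith
      _ = _ := by ring
  have hV3 : G / r * ia ≤ G / r * (ia + ib) := by
    have : 0 ≤ G / r := by positivity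
    nlinarith
  have hV4 : G / r * ib ≤ G / r * (ia + ib) := by
    have : 0 ≤ G / r := by positivity
    nlinarith
  have hC23 : 2 * C ^ 2 ≤ 8 * C ^ 3 := by nlinarith [pow_nonneg hC0 2, pow_nonneg hC0 3]
  have hC13 : C ≤ 8 * C ^ 3 := by
    have : C * 1 ≤ C * C ^ 2 := mul_le_mul_of_nonneg_left (one_le_pow₀ hC) hC0
    have : C * C ^ 2 = C ^ 3 := by ring
    nlinarith [pow_nonneg hC0 3]
  have hup : ∀ {x V W : ℝ}, 0 ≤ V → V ≤ W → x ≤ 2 * C ^ 2 * (U + V) →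
      x ≤ 8 * C ^ 3 * (U + W) := by
    intro x V W hV hVW hx
    refine hx.trans ?_
    apply mul_le_mul hC23 (by linarith) (by positivity) (by positivity)
  have hup1 : ∀ {x : ℝ}, x ≤ C * U → x ≤ 8 * C ^ 3 * U := fun hx =>
    hx.trans (mul_le_mul_of_nonneg_right hC13 hU0)
  have hGr : 0 ≤ G / r := by positivity
  refine ⟨hup1 q0, hup1 q1, hup1 q2, hup1 q11, hup1 q12, hup1 q22, ?_, ?_, ?_, ?_, ?_, ?_, ?_, ?_,
    ?_, hU0, hG0, hia0, hib0⟩
  · exact hup (by positivity) le_rfl (C3_prod hC0 hU0 q0 d1 e1.1)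
  · exact hup (by positivity) le_rfl (C3_prod hC0 hU0 q0 d2 e2.1)
  · exact hup (by positivity) hV3 (C3_prod hC0 hU0 q1 d1 (hgen1 a ia hia _ g1))
  · exact hup (by positivity) hV4 (C3_prod hC0 hU0 q1 d2 (hgen1 b ib hib _ g1))
  · exact hup (by positivity) hV3 (C3_prod hC0 hU0 q2 d1 (hgen1 a ia hia _ g2))
  · exact hup (by positivity) hV4 (C3_prod hC0 hU0 q2 d2 (hgen1 b ib hib _ g2))
  · exact hup (by positivity) hV3 (C3_prod hC0 hU0 q0 d3 e1.2)
  · exact hup (by positivity) hV4 (C3_prod hC0 hU0 q0 d4 e2.2)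
  · -- `|pk κa' κb'|`
    have hja0 : 0 ≤ ja := by rw [hja]; split_ifs <;> positivity
    have hjb0 : 0 ≤ jb := by rw [hjb]; split_ifs <;> positivity
    have hjb1 : jb ≤ 1 / r := by
      rw [hjb]
      split_ifs
      · exact le_rfl
      · positivity
    have k1 : |pk zt τ a b| * ja ≤ 2 * C * (G * ia) := e1.1
    have k2 : |pk zt τ a b| * jb ≤ 2 * C * (G * ib) := e2.1
    have k3 : |pk zt τ a b| * ja * jb ≤ 2 * C * (G / r * ia) := by
      calc |pk zt τ a b| * ja * jb ≤ (2 * C * (G * ia)) * (1 / r) :=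
            mul_le_mul k1 hjb1 hjb0 (by positivity)
        _ = _ := by ring
    rw [abs_mul, abs_mul]
    calc |pk zt τ a b| * |deriv (kp r) a| * |deriv (kp r) b| ≤
        |pk zt τ a b| * (C * (1 + ja)) * (C * (1 + jb)) := by
          apply mul_le_mul (mul_le_mul_of_nonneg_left d1 (abs_nonneg _)) d2 (abs_nonneg _)
          positivity
      _ = C ^ 2 * (|pk zt τ a b| + |pk zt τ a b| * ja + |pk zt τ a b| * jb +
          |pk zt τ a b| * ja * jb) := by ring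
      _ ≤ C ^ 2 * (C * U + 2 * C * (G * ia) + 2 * C * (G * ib) + 2 * C * (G / r * ia)) := by
          apply mul_le_mul_of_nonneg_left _ (by positivity)
          linarith
      _ = C ^ 3 * (U + 2 * (G * ia) + 2 * (G * ib) + 2 * (G / r * ia)) := by ring
      _ ≤ C ^ 3 * (8 * (U + G / r * (ia + ib))) := by
          apply mul_le_mul_of_nonneg_left _ (by positivity)
          have : 0 ≤ G / r * (ia + ib) := by positivity
          linarith
      _ = _ := by ring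

/-- The bound of `PK1`, `PK2`: main part by the model kernel `km a₀ ζ 1 τ (a + b)` (`pk_bounds`; where
`χ' ≠ 0`, that is `a ≥ 1/8`, use `km a₀ ζ 0 ≤ (a + b) km a₀ ζ 1`), near the wall
`|pk| |kp'(a)| ≤ C τ^(-1-ζ) a / r ≤ 2 C τ^(-1-ζ)` for `r ≤ a ≤ 2r`. -/
theorem PK1_bound {zt : ℝ} (h : Zt zt) : ∃ C a₀ : ℝ, 0 < C ∧ 0 < a₀ ∧ ∀ r τ a b : ℝ, 0 < r →
    r ≤ 1 / 32 → 0 < τ → 0 < a → a < 1 / 2 → 0 < b → b < 1 / 2 →
    |PK1 zt r τ a b| ≤ C * km a₀ zt 1 τ (a + b) + C * τ ^ (-1 - zt) * (if a ≤ 2 * r then 1 else 0) ∧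
    |PK2 zt r τ a b| ≤ C * km a₀ zt 1 τ (a + b) +
      C * τ ^ (-1 - zt) * (if b ≤ 2 * r then 1 else 0) := by
  obtain ⟨M, a0, hM, ha0, hp⟩ := C3_products h
  refine ⟨2 * M, a0, by linarith, ha0, ?_⟩
  intro r τ a b hr hr1 hτ ha ha2 hb0 hb2
  obtain ⟨p0, p1, p2, p11, p12, p22, pa, pb, -, -, -, -, -, -, -, hU0, hG0, hia0, hib0⟩ :=
    hp r τ a b hr hr1 hτ ha ha2 hb0 hb2 _ _ _ _ rfl rfl rfl rfl
  set U : ℝ := km a0 zt 1 τ (a + b) with hU
  set G : ℝ := τ ^ (-1 - zt) with hG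
  set ia : ℝ := (if a ≤ 2 * r then 1 else 0) with hia
  set ib : ℝ := (if b ≤ 2 * r then 1 else 0) with hib
  have ka := C3_kp_abs r a
  have kb := C3_kp_abs r b
  have kab : |kp r a * kp r b| ≤ 1 := by
    rw [abs_mul]
    have := abs_nonneg (kp r a)
    have := abs_nonneg (kp r b)
    nlinarith
  have hGa : 0 ≤ G * ia := by positivity
  have hGb : 0 ≤ G * ib := by positivity
  constructor
  · unfold PK1
    refine (abs_add_le _ _).trans ?_
    have t1 : |pk1 zt τ a b * (kp r a * kp r b)| ≤ M * U := (C3_mul_le kab).trans p1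
    have t2 : |pk zt τ a b * (deriv (kp r) a * kp r b)| ≤ M * (U + G * ia) := by
      rw [← mul_assoc]
      exact (C3_mul_le kb).trans pa
    nlinarith
  · unfold PK2
    refine (abs_add_le _ _).trans ?_
    have t1 : |pk2 zt τ a b * (kp r a * kp r b)| ≤ M * U := (C3_mul_le kab).trans p2
    have t2 : |pk zt τ a b * (kp r a * deriv (kp r) b)| ≤ M * (U + G * ib) := by
      have e : pk zt τ a b * (kp r a * deriv (kp r) b) =
          (pk zt τ a b * deriv (kp r) b) * kp r a := by ring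
      rw [e]
      exact (C3_mul_le ka).trans pb
    nlinarith

/-- The error term.  By `pk_heat`,
`Er = kp kp (-2a pk11 - 2b pk22 + c² ((1-2a)(1-2b) - 1) pk12) - 5 PK1 - 5 PK2
 + c² (-3(1-2a) PK1 - 3(1-2b) PK2 + 9 PK) + (1-2a)(2 pk1 kp' kp + pk kp'' kp)
 + (1-2b)(2 pk2 kp kp' + pk kp kp'') + c² (1-2a)(1-2b)(pk1 kp kp' + pk2 kp' kp + pk kp' kp')`
(on the support `a, b ∈ [r, 3/16]`; the formula for `pk_heat` needs `0 < a + b`).
`|a pk11|, |(a + b) pk12| ≤ C km a₀ ζ 1 τ (a + b)`; where `χ' ≠ 0` (so `a + b ≥ 1/8`) everything is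
`≤ C km a₀ ζ 1 τ (a + b)`; the terms with `r ≤ a ≤ 2r` or `r ≤ b ≤ 2r` are `≤ C τ^(-1-ζ) / r`
by `pk_near` (`|pk| kp'' ≤ C τ^(-1-ζ) a / r²`, `|pk kp'(a) kp'(b)| ≤ C τ^(-1-ζ) a / r²`). -/
theorem Er_bound {zt : ℝ} (h : Zt zt) : ∃ C a₀ : ℝ, 0 < C ∧ 0 < a₀ ∧ ∀ r τ a b : ℝ, 0 < r →
    r ≤ 1 / 32 → 0 < τ → 0 < a → a < 1 / 2 → 0 < b → b < 1 / 2 →
    |Er zt r τ a b| ≤ C * km a₀ zt 1 τ (a + b) + C * τ ^ (-1 - zt) / r *
      ((if a ≤ 2 * r then 1 else 0) + (if b ≤ 2 * r then 1 else 0)) := by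
  obtain ⟨M, a0, hM, ha0, hp⟩ := C3_products h
  set c : ℝ := cc zt ^ 2 with hc
  have hc0 : 0 ≤ c := by positivity
  refine ⟨(60 + 60 * c) * M, a0, by positivity, ha0, ?_⟩
  intro r τ a b hr hr1 hτ ha ha2 hb0 hb2
  obtain ⟨p0, p1, p2, p11, p12, p22, pa, pb, p1a, p1b, p2a, p2b, paa, pbb, pab, hU0, hG0, hia0,
    hib0⟩ := hp r τ a b hr hr1 hτ ha ha2 hb0 hb2 _ _ _ _ rfl rfl rfl rfl
  set U : ℝ := km a0 zt 1 τ (a + b) with hU
  set G : ℝ := τ ^ (-1 - zt) with hG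
  set ia : ℝ := (if a ≤ 2 * r then 1 else 0) with hia
  set ib : ℝ := (if b ≤ 2 * r then 1 else 0) with hib
  set T : ℝ := U + G / r * (ia + ib) with hT
  have ka := C3_kp_abs r a
  have kb := C3_kp_abs r b
  have kab : |kp r a * kp r b| ≤ 1 := by
    rw [abs_mul]
    have := abs_nonneg (kp r a)
    have := abs_nonneg (kp r b)
    nlinarith
  have hr' : 1 ≤ 1 / r := by rw [le_div_iff₀ hr]; linarith
  have hGr0 : 0 ≤ G / r := by positivity
  have hV0 : 0 ≤ G / r * (ia + ib) := by positivity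
  have hUT : U ≤ T := by linarith
  have hT0 : 0 ≤ T := by linarith
  have hGG : G ≤ G / r := by
    rw [div_eq_mul_one_div]
    nlinarith
  have hGia : G * ia ≤ G / r * (ia + ib) := by
    have h1 : G * ia ≤ G / r * ia := mul_le_mul_of_nonneg_right hGG hia0
    have h2 : 0 ≤ G / r * ib := by positivity
    rw [mul_add]; linarith
  have hGib : G * ib ≤ G / r * (ia + ib) := by
    have h1 : G * ib ≤ G / r * ib := mul_le_mul_of_nonneg_right hGG hib0
    have h2 : 0 ≤ G / r * ia := by positivity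
    rw [mul_add]; linarith
  have hM0 : 0 ≤ M := by linarith
  have hMU : M * U ≤ M * T := mul_le_mul_of_nonneg_left hUT hM0
  have hMa : M * (U + G * ia) ≤ M * T := mul_le_mul_of_nonneg_left (by linarith) hM0
  have hMb : M * (U + G * ib) ≤ M * T := mul_le_mul_of_nonneg_left (by linarith) hM0
  have h2a : |1 - 2 * a| ≤ 1 := by rw [abs_le]; constructor <;> linarith
  have h2b : |1 - 2 * b| ≤ 1 := by rw [abs_le]; constructor <;> linarith
  have h2ab : |(1 - 2 * a) * (1 - 2 * b)| ≤ 1 := by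
    rw [abs_mul]
    have := abs_nonneg (1 - 2 * a)
    have := abs_nonneg (1 - 2 * b)
    nlinarith
  -- the identity
  have hid : Er zt r τ a b =
      (-2) * ((a * pk11 zt τ a b) * (kp r a * kp r b)) +
      (-2) * ((b * pk22 zt τ a b) * (kp r a * kp r b)) +
      c * ((((1 - 2 * a) * (1 - 2 * b) - 1) * pk12 zt τ a b) * (kp r a * kp r b)) +
      (-5) * PK1 zt r τ a b + (-5) * PK2 zt r τ a b +
      (-3 * c) * (PK1 zt r τ a b * (1 - 2 * a)) + (-3 * c) * (PK2 zt r τ a b * (1 - 2 * b)) +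
      (9 * c) * (pk zt τ a b * (kp r a * kp r b)) +
      2 * ((pk1 zt τ a b * deriv (kp r) a) * kp r b * (1 - 2 * a)) +
      1 * ((pk zt τ a b * deriv (deriv (kp r)) a) * kp r b * (1 - 2 * a)) +
      2 * ((pk2 zt τ a b * deriv (kp r) b) * kp r a * (1 - 2 * b)) +
      1 * ((pk zt τ a b * deriv (deriv (kp r)) b) * kp r a * (1 - 2 * b)) +
      c * ((pk1 zt τ a b * deriv (kp r) b) * kp r a * ((1 - 2 * a) * (1 - 2 * b))) +
      c * ((pk2 zt τ a b * deriv (kp r) a) * kp r b * ((1 - 2 * a) * (1 - 2 * b))) +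
      c * ((pk zt τ a b * deriv (kp r) a * deriv (kp r) b) * ((1 - 2 * a) * (1 - 2 * b))) := by
    unfold Er LPK LL
    rw [pk_heat h (by linarith : 0 < a + b) hτ, ← hc]
    unfold PK PK1 PK2 PK11 PK12 PK22
    ring
  -- the bounds
  have b1 : |(a * pk11 zt τ a b) * (kp r a * kp r b)| ≤ M * T := by
    refine (C3_mul_le kab).trans ?_
    rw [abs_mul, abs_of_pos ha]
    have : a * |pk11 zt τ a b| ≤ (a + b) * |pk11 zt τ a b| :=
      mul_le_mul_of_nonneg_right (by linarith) (abs_nonneg _)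
    linarith
  have b2 : |(b * pk22 zt τ a b) * (kp r a * kp r b)| ≤ M * T := by
    refine (C3_mul_le kab).trans ?_
    rw [abs_mul, abs_of_pos hb0]
    have : b * |pk22 zt τ a b| ≤ (a + b) * |pk22 zt τ a b| :=
      mul_le_mul_of_nonneg_right (by linarith) (abs_nonneg _)
    linarith
  have b3 : |(((1 - 2 * a) * (1 - 2 * b) - 1) * pk12 zt τ a b) * (kp r a * kp r b)| ≤
      4 * (M * T) := by
    refine (C3_mul_le kab).trans ?_
    rw [abs_mul]
    have h1 : |(1 - 2 * a) * (1 - 2 * b) - 1| ≤ 4 * (a + b) := by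
      rw [abs_le]
      constructor <;> nlinarith
    calc |(1 - 2 * a) * (1 - 2 * b) - 1| * |pk12 zt τ a b| ≤ 4 * (a + b) * |pk12 zt τ a b| :=
          mul_le_mul_of_nonneg_right h1 (abs_nonneg _)
      _ = 4 * ((a + b) * |pk12 zt τ a b|) := by ring
      _ ≤ 4 * (M * T) := by linarith
  have bP1 : |PK1 zt r τ a b| ≤ 2 * (M * T) := by
    unfold PK1
    refine (abs_add_le _ _).trans ?_
    have t1 : |pk1 zt τ a b * (kp r a * kp r b)| ≤ M * U := (C3_mul_le kab).trans p1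
    have t2 : |pk zt τ a b * (deriv (kp r) a * kp r b)| ≤ M * (U + G * ia) := by
      rw [← mul_assoc]
      exact (C3_mul_le kb).trans pa
    linarith
  have bP2 : |PK2 zt r τ a b| ≤ 2 * (M * T) := by
    unfold PK2
    refine (abs_add_le _ _).trans ?_
    have t1 : |pk2 zt τ a b * (kp r a * kp r b)| ≤ M * U := (C3_mul_le kab).trans p2
    have t2 : |pk zt τ a b * (kp r a * deriv (kp r) b)| ≤ M * (U + G * ib) := by
      have e : pk zt τ a b * (kp r a * deriv (kp r) b) =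
          (pk zt τ a b * deriv (kp r) b) * kp r a := by ring
      rw [e]
      exact (C3_mul_le ka).trans pb
    linarith
  have b6 : |PK1 zt r τ a b * (1 - 2 * a)| ≤ 2 * (M * T) := (C3_mul_le h2a).trans bP1
  have b7 : |PK2 zt r τ a b * (1 - 2 * b)| ≤ 2 * (M * T) := (C3_mul_le h2b).trans bP2
  have b8 : |pk zt τ a b * (kp r a * kp r b)| ≤ M * T := (C3_mul_le kab).trans (p0.trans hMU)
  have b9 : |(pk1 zt τ a b * deriv (kp r) a) * kp r b * (1 - 2 * a)| ≤ M * T :=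
    (C3_mul_le h2a).trans ((C3_mul_le kb).trans p1a)
  have b10 : |(pk zt τ a b * deriv (deriv (kp r)) a) * kp r b * (1 - 2 * a)| ≤ M * T :=
    (C3_mul_le h2a).trans ((C3_mul_le kb).trans paa)
  have b11 : |(pk2 zt τ a b * deriv (kp r) b) * kp r a * (1 - 2 * b)| ≤ M * T :=
    (C3_mul_le h2b).trans ((C3_mul_le ka).trans p2b)
  have b12 : |(pk zt τ a b * deriv (deriv (kp r)) b) * kp r a * (1 - 2 * b)| ≤ M * T :=
    (C3_mul_le h2b).trans ((C3_mul_le ka).trans pbb)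
  have b13 : |(pk1 zt τ a b * deriv (kp r) b) * kp r a * ((1 - 2 * a) * (1 - 2 * b))| ≤ M * T :=
    (C3_mul_le h2ab).trans ((C3_mul_le ka).trans p1b)
  have b14 : |(pk2 zt τ a b * deriv (kp r) a) * kp r b * ((1 - 2 * a) * (1 - 2 * b))| ≤ M * T :=
    (C3_mul_le h2ab).trans ((C3_mul_le kb).trans p2a)
  have b15 : |(pk zt τ a b * deriv (kp r) a * deriv (kp r) b) * ((1 - 2 * a) * (1 - 2 * b))| ≤
      M * T := (C3_mul_le h2ab).trans pab
  have hfin : |Er zt r τ a b| ≤ (60 + 60 * c) * (M * T) := by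
    rw [hid]
    have hMT : 0 ≤ M * T := by positivity
    have hscale : ∀ {k x B : ℝ}, |x| ≤ B → k * x ≤ |k| * B ∧ -(|k| * B) ≤ k * x := by
      intro k x B hx
      have h1 : |k * x| ≤ |k| * B := by
        rw [abs_mul]
        exact mul_le_mul_of_nonneg_left hx (abs_nonneg _)
      exact ⟨(le_abs_self _).trans h1, neg_le_of_abs_le h1⟩
    have n2 : |(-2 : ℝ)| = 2 := by norm_num
    have n5 : |(-5 : ℝ)| = 5 := by norm_num
    have n3 : |(-3 * c : ℝ)| = 3 * c := by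
      rw [neg_mul, abs_neg, abs_of_nonneg (by positivity)]
    have n9 : |(9 * c : ℝ)| = 9 * c := abs_of_nonneg (by positivity)
    have nc : |c| = c := abs_of_nonneg hc0
    have nn2 : |(2 : ℝ)| = 2 := by norm_num
    have nn1 : |(1 : ℝ)| = 1 := by norm_num
    have s1 := hscale (k := -2) b1
    have s2 := hscale (k := -2) b2
    have s3 := hscale (k := c) b3
    have s4 := hscale (k := -5) bP1
    have s5 := hscale (k := -5) bP2
    have s6 := hscale (k := -3 * c) b6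
    have s7 := hscale (k := -3 * c) b7
    have s8 := hscale (k := 9 * c) b8
    have s9 := hscale (k := 2) b9
    have s10 := hscale (k := 1) b10
    have s11 := hscale (k := 2) b11
    have s12 := hscale (k := 1) b12
    have s13 := hscale (k := c) b13
    have s14 := hscale (k := c) b14
    have s15 := hscale (k := c) b15
    rw [n2] at s1 s2
    rw [nc] at s3 s13 s14 s15
    rw [n5] at s4 s5
    rw [n3] at s6 s7
    rw [n9] at s8
    rw [nn2] at s9 s11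
    rw [nn1] at s10 s12
    have hcMT : 0 ≤ c * (M * T) := by positivity
    rw [abs_le]
    constructor <;> linarith [s1.1, s1.2, s2.1, s2.2, s3.1, s3.2, s4.1, s4.2, s5.1, s5.2, s6.1,
      s6.2, s7.1, s7.2, s8.1, s8.2, s9.1, s9.2, s10.1, s10.2, s11.1, s11.2, s12.1, s12.2, s13.1,
      s13.2, s14.1, s14.2, s15.1, s15.2]
  refine hfin.trans (le_of_eq ?_)
  rw [hT]
  ring

end Pool.Agent.W_332fe5.Six
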