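import Pool.Agent.W_332fe5_h24.K2

set_option autoImplicit false

/-! Block 6, K3: sign, lower and upper bounds of the kernel, time integrals. -/

open MeasureTheory ProbabilityTheory Set Filter Topology
open scoped ENNReal NNReal

namespace Pool.Agent.W_332fe5.Six

theorem K3_exp1 {b : ℝ} (hb : 0 < b) (v : ℝ) : Real.exp (-b * v ^ 2 / 4) ≤
    Real.exp (1 / b) * Real.exp (-v) := by
  rw [← Real.exp_add, Real.exp_le_exp]
  have e : 1 / b + -v - -b * v ^ 2 / 4 = (b / 4) * (v - 2 / b) ^ 2 := by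
    field_simp
    ring
  nlinarith [sq_nonneg (v - 2 / b), mul_nonneg (by positivity : 0 ≤ b / 4) (sq_nonneg (v - 2 / b))]

theorem K3_exp2 {b c : ℝ} (hb : 0 < b) (hc : 0 < c) {u : ℝ} (hu : 0 ≤ u) :
    (1 + u) ^ c ≤ (c / b) ^ c * Real.exp b * Real.exp (b * u) := by
  have h1 : 1 + u ≤ (c / b) * Real.exp (b / c * (1 + u)) := by
    have h2 : b / c * (1 + u) ≤ Real.exp (b / c * (1 + u)) := by
      linarith [Real.add_one_le_exp (b / c * (1 + u))]
    calc 1 + u = (c / b) * (b / c * (1 + u)) := by field_simp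
      _ ≤ (c / b) * Real.exp (b / c * (1 + u)) := by gcongr
  calc (1 + u) ^ c ≤ ((c / b) * Real.exp (b / c * (1 + u))) ^ c :=
        Real.rpow_le_rpow (by positivity) h1 hc.le
    _ = (c / b) ^ c * Real.exp b * Real.exp (b * u) := by
        rw [Real.mul_rpow (by positivity) (Real.exp_pos _).le, ← Real.exp_mul,
          mul_assoc ((c / b) ^ c), ← Real.exp_add]
        congr 2
        field_simp

theorem K3_int {zt : ℝ} (hz : 0 < zt) {c T : ℝ} (hc : 0 < c) :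
    ∫⁻ s in Ioo (0 : ℝ) T, ENNReal.ofReal ((s + c) ^ (-1 - zt)) ≤ ENNReal.ofReal (c ^ (-zt) / zt) := by
  have h1 : ∫⁻ s in Ioo (0 : ℝ) T, ENNReal.ofReal ((s + c) ^ (-1 - zt)) ≤
      ∫⁻ s, (Ioi c).indicator (fun t => ENNReal.ofReal (t ^ (-1 - zt))) (s + c) := by
    rw [← lintegral_indicator measurableSet_Ioo]
    refine lintegral_mono fun s => ?_
    by_cases hs : s ∈ Ioo 0 T
    · rw [indicator_of_mem hs, indicator_of_mem]
      simp only [mem_Ioi]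
      linarith [hs.1]
    · rw [indicator_of_notMem hs]
      simp
  refine h1.trans ?_
  rw [lintegral_add_right_eq_self, lintegral_indicator measurableSet_Ioi,
    ← ofReal_integral_eq_lintegral_ofReal]
  · rw [integral_Ioi_rpow_of_lt (by linarith) hc]
    apply le_of_eq
    congr 1
    rw [show -1 - zt + 1 = -zt by ring, neg_div_neg_eq]
  · exact integrableOn_Ioi_rpow_of_lt (by linarith) hc
  · refine (ae_restrict_iff' measurableSet_Ioi).2 (ae_of_all _ fun t ht => ?_)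
    have : 0 < t := lt_trans hc ht
    positivity

/-- `∫_0^T km a₀ ζ j (s + R²) x ds ≤ C x^(-ζ-j) e^(-x/√T)`, `R² ≤ T`. -/
theorem int_km {zt a₀ : ℝ} (h : Zt zt) (ha : 0 < a₀) : ∃ C : ℝ, 0 < C ∧ ∀ j T R x : ℝ, 0 < T →
    0 < R → R ^ 2 ≤ T → 0 < x →
    ∫⁻ s in Ioo (0 : ℝ) T, ENNReal.ofReal (km a₀ zt j (s + R ^ 2) x) ≤
      ENNReal.ofReal (C * x ^ (-zt - j) * Real.exp (-x / Real.sqrt T)) := by
  have hz := h.pos
  set C1 : ℝ := ((1 + zt) / (a₀ / 2)) ^ (1 + zt) * Real.exp (a₀ / 2) with hC1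
  have hC1p : 0 < C1 := by positivity
  refine ⟨Real.exp (1 / a₀) * C1 / zt, by positivity, ?_⟩
  intro j T R x hT hR hRT hx
  have hsT : 0 < Real.sqrt T := Real.sqrt_pos.2 hT
  have key : ∀ s ∈ Ioo (0 : ℝ) T, km a₀ zt j (s + R ^ 2) x ≤
      (x ^ (zt - j) * (Real.exp (1 / a₀) * Real.exp (-x / Real.sqrt T)) * C1) *
        (s + x ^ 2) ^ (-1 - zt) := by
    intro s hs
    have hτ : 0 < s + R ^ 2 := by have := hs.1; positivity
    have hτ2 : s + R ^ 2 ≤ 2 * T := by linarith [hs.2]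
    set τ := s + R ^ 2 with hτd
    have e1 : Real.exp (-a₀ * x ^ 2 / τ) ≤ Real.exp (-(a₀ / 2) * (x ^ 2 / τ)) *
        (Real.exp (1 / a₀) * Real.exp (-x / Real.sqrt T)) := by
      have e2 := K3_exp1 ha (x / Real.sqrt T)
      have e3 : Real.exp (-a₀ * x ^ 2 / τ) ≤ Real.exp (-(a₀ / 2) * (x ^ 2 / τ)) *
          Real.exp (-a₀ * (x / Real.sqrt T) ^ 2 / 4) := by
        rw [← Real.exp_add, Real.exp_le_exp, div_pow, Real.sq_sqrt hT.le]
        have e4 : a₀ * (x ^ 2 / T) / 4 ≤ a₀ / 2 * (x ^ 2 / τ) := by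
          rw [show a₀ * (x ^ 2 / T) / 4 = a₀ / 2 * (x ^ 2 / (2 * T)) by field_simp; ring]
          gcongr
        have e5 : -a₀ * x ^ 2 / τ = -(a₀ / 2) * (x ^ 2 / τ) - a₀ / 2 * (x ^ 2 / τ) := by ring
        rw [e5]
        have e6 : -a₀ * (x ^ 2 / T) / 4 = -(a₀ * (x ^ 2 / T) / 4) := by ring
        rw [e6]
        linarith
      refine e3.trans ?_
      rw [show -x / Real.sqrt T = -(x / Real.sqrt T) by rw [neg_div]]
      gcongr
    have e7 : τ ^ (-1 - zt) * Real.exp (-(a₀ / 2) * (x ^ 2 / τ)) ≤ C1 * (τ + x ^ 2) ^ (-1 - zt) := by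
      have hu : 0 ≤ x ^ 2 / τ := by positivity
      have e8 := K3_exp2 (b := a₀ / 2) (c := 1 + zt) (by positivity) (by positivity) hu
      have e9 : τ + x ^ 2 = τ * (1 + x ^ 2 / τ) := by field_simp
      rw [e9, Real.mul_rpow hτ.le (by positivity)]
      have e10 : Real.exp (-(a₀ / 2) * (x ^ 2 / τ)) ≤ C1 * (1 + x ^ 2 / τ) ^ (-1 - zt) := by
        rw [show -1 - zt = -(1 + zt) by ring, Real.rpow_neg (by positivity),
          ← div_eq_mul_inv, le_div_iff₀ (by positivity)]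
        calc Real.exp (-(a₀ / 2) * (x ^ 2 / τ)) * (1 + x ^ 2 / τ) ^ (1 + zt) ≤
            Real.exp (-(a₀ / 2) * (x ^ 2 / τ)) * (((1 + zt) / (a₀ / 2)) ^ (1 + zt) *
              Real.exp (a₀ / 2) * Real.exp (a₀ / 2 * (x ^ 2 / τ))) := by gcongr
          _ = C1 * (Real.exp (-(a₀ / 2) * (x ^ 2 / τ)) * Real.exp (a₀ / 2 * (x ^ 2 / τ))) := by
            rw [hC1]; ring
          _ = C1 := by
            rw [← Real.exp_add]
            simp
      calc τ ^ (-1 - zt) * Real.exp (-(a₀ / 2) * (x ^ 2 / τ)) ≤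
          τ ^ (-1 - zt) * (C1 * (1 + x ^ 2 / τ) ^ (-1 - zt)) := by gcongr
        _ = C1 * (τ ^ (-1 - zt) * (1 + x ^ 2 / τ) ^ (-1 - zt)) := by ring
    have e11 : (τ + x ^ 2) ^ (-1 - zt) ≤ (s + x ^ 2) ^ (-1 - zt) := by
      apply Real.rpow_le_rpow_of_nonpos
      · have := hs.1; positivity
      · rw [hτd]; nlinarith [sq_nonneg R]
      · linarith
    unfold km
    calc τ ^ (-1 - zt) * x ^ (zt - j) * Real.exp (-a₀ * x ^ 2 / τ) ≤
        τ ^ (-1 - zt) * x ^ (zt - j) * (Real.exp (-(a₀ / 2) * (x ^ 2 / τ)) *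
          (Real.exp (1 / a₀) * Real.exp (-x / Real.sqrt T))) := by gcongr
      _ = x ^ (zt - j) * (Real.exp (1 / a₀) * Real.exp (-x / Real.sqrt T)) *
          (τ ^ (-1 - zt) * Real.exp (-(a₀ / 2) * (x ^ 2 / τ))) := by ring
      _ ≤ x ^ (zt - j) * (Real.exp (1 / a₀) * Real.exp (-x / Real.sqrt T)) *
          (C1 * (s + x ^ 2) ^ (-1 - zt)) := by
        apply mul_le_mul_of_nonneg_left _ (by positivity)
        exact e7.trans (mul_le_mul_of_nonneg_left e11 hC1p.le)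
      _ = _ := by ring
  set A : ℝ := x ^ (zt - j) * (Real.exp (1 / a₀) * Real.exp (-x / Real.sqrt T)) * C1 with hA
  have hA0 : 0 ≤ A := by positivity
  calc ∫⁻ s in Ioo (0 : ℝ) T, ENNReal.ofReal (km a₀ zt j (s + R ^ 2) x) ≤
      ∫⁻ s in Ioo (0 : ℝ) T, ENNReal.ofReal A * ENNReal.ofReal ((s + x ^ 2) ^ (-1 - zt)) := by
        refine setLIntegral_mono' measurableSet_Ioo fun s hs => ?_
        rw [← ENNReal.ofReal_mul hA0]
        exact ENNReal.ofReal_le_ofReal (key s hs)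
    _ = ENNReal.ofReal A * ∫⁻ s in Ioo (0 : ℝ) T, ENNReal.ofReal ((s + x ^ 2) ^ (-1 - zt)) := by
        rw [lintegral_const_mul' _ _ ENNReal.ofReal_ne_top]
    _ ≤ ENNReal.ofReal A * ENNReal.ofReal ((x ^ 2) ^ (-zt) / zt) := by
        gcongr
        exact K3_int hz (by positivity)
    _ = ENNReal.ofReal (Real.exp (1 / a₀) * C1 / zt * x ^ (-zt - j) *
        Real.exp (-x / Real.sqrt T)) := by
        rw [← ENNReal.ofReal_mul hA0]
        congr 1
        have e12 : (x ^ 2) ^ (-zt) = x ^ (-2 * zt) := by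
          rw [← Real.rpow_natCast x 2, ← Real.rpow_mul hx.le]
          congr 1
          push_cast
          ring
        have e13 : x ^ (-zt - j) = x ^ (zt - j) * x ^ (-2 * zt) := by
          rw [← Real.rpow_add hx]
          congr 1
          ring
        rw [e12, e13, hA]
        ring

/-- `Re Z^ζ = |Z|^ζ cos (ζ arg Z)`. -/
theorem ff_polar (zt a b : ℝ) :
    ff zt a b = ‖ZZ zt a b‖ ^ zt * Real.cos ((ZZ zt a b).arg * zt) := by
  rw [ff, Complex.cpow_ofReal_re]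

theorem ZZ_ratio {zt : ℝ} (h : Zt zt) {a b : ℝ} (ha : 0 ≤ a) (hb : 0 ≤ b) (hab : 0 < a + b) :
    |(ZZ zt a b).im / ‖ZZ zt a b‖| ≤ Real.sin (om zt / 2) ∧
    (0 < a → 0 < b → |(ZZ zt a b).im / ‖ZZ zt a b‖| < Real.sin (om zt / 2)) := by
  have hz := ZZ_ne h hab
  have hn : 0 < ‖ZZ zt a b‖ := norm_pos_iff.2 hz
  have hs := h.sin_pos
  have hs2 := h.sin2_pos
  have hc := cos_gt h
  have e1 : ‖ZZ zt a b‖ ^ 2 = (a ^ 2 + b ^ 2 + 2 * Real.cos (om zt) * a * b) /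
      Real.sin (om zt) ^ 2 := by
    rw [← QQ_eq' h, QQ]
  have e2 : (ZZ zt a b).im ^ 2 = (b - a) ^ 2 * Real.sin (om zt / 2) ^ 2 / Real.sin (om zt) ^ 2 := by
    rw [ZZ_im]
    field_simp
  rw [abs_div, abs_of_pos hn]
  constructor
  · rw [div_le_iff₀ hn]
    apply abs_le_of_sq_le_sq _ (by positivity)
    rw [mul_pow, e1, e2]
    rw [mul_div_assoc', div_le_div_iff_of_pos_right (by positivity)]
    have : (b - a) ^ 2 ≤ a ^ 2 + b ^ 2 + 2 * Real.cos (om zt) * a * b := by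
      nlinarith [mul_nonneg ha hb]
    nlinarith [sq_nonneg (Real.sin (om zt / 2))]
  · intro ha' hb'
    rw [div_lt_iff₀ hn]
    apply abs_lt_of_sq_lt_sq _ (by positivity)
    rw [mul_pow, e1, e2]
    rw [mul_div_assoc', div_lt_div_iff_of_pos_right (by positivity)]
    have : (b - a) ^ 2 < a ^ 2 + b ^ 2 + 2 * Real.cos (om zt) * a * b := by
      nlinarith [mul_pos ha' hb']
    have h3 : 0 < Real.sin (om zt / 2) ^ 2 := by positivity
    nlinarith

theorem ZZ_arg {zt : ℝ} (h : Zt zt) {a b : ℝ} (ha : 0 ≤ a) (hb : 0 ≤ b) (hab : 0 < a + b) :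
    |(ZZ zt a b).arg| ≤ om zt / 2 ∧ (0 < a → 0 < b → |(ZZ zt a b).arg| < om zt / 2) := by
  obtain ⟨r1, r2⟩ := ZZ_ratio h ha hb hab
  have hre : 0 ≤ (ZZ zt a b).re := by
    rw [ZZ_re]
    exact mul_nonneg hab.le (div_nonneg h.cos2_pos.le h.sin_pos.le)
  have ho1 := h.lt_om
  have ho2 := h.om_lt
  have hpi := Real.pi_pos
  have hom : om zt / 2 ∈ Icc (-(Real.pi / 2)) (Real.pi / 2) := ⟨by linarith, by linarith⟩
  have hom' : -(om zt / 2) ∈ Icc (-(Real.pi / 2)) (Real.pi / 2) := ⟨by linarith, by linarith⟩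
  have es : Real.arcsin (Real.sin (om zt / 2)) = om zt / 2 := Real.arcsin_sin hom.1 hom.2
  have es' : Real.arcsin (-Real.sin (om zt / 2)) = -(om zt / 2) := by
    rw [Real.arcsin_neg, es]
  rw [Complex.arg_of_re_nonneg hre]
  have m1 : Real.sin (om zt / 2) ∈ Icc (-1 : ℝ) 1 := ⟨Real.neg_one_le_sin _, Real.sin_le_one _⟩
  have m2 : -Real.sin (om zt / 2) ∈ Icc (-1 : ℝ) 1 := ⟨by linarith [m1.2], by linarith [m1.1]⟩
  have m3 : (ZZ zt a b).im / ‖ZZ zt a b‖ ∈ Icc (-1 : ℝ) 1 := by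
    rw [abs_le] at r1
    exact ⟨by linarith [r1.1, m1.2], by linarith [r1.2, m1.2]⟩
  constructor
  · rw [abs_le] at r1 ⊢
    constructor
    · rw [← es']
      exact Real.monotone_arcsin r1.1
    · rw [← es]
      exact Real.monotone_arcsin r1.2
  · intro ha' hb'
    have r3 := r2 ha' hb'
    rw [abs_lt] at r3 ⊢
    constructor
    · rw [← es']
      exact Real.strictMonoOn_arcsin m2 m3 r3.1
    · refine lt_of_lt_of_eq ?_ es
      exact Real.strictMonoOn_arcsin m3 m1 r3.2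

theorem zt_om {zt : ℝ} (h : Zt zt) : om zt / 2 * zt = Real.pi / 2 := by
  have := h.pos.ne'
  rw [om]
  field_simp

theorem ff_nonneg {zt : ℝ} (h : Zt zt) {a b : ℝ} (ha : 0 ≤ a) (hb : 0 ≤ b) (hab : 0 < a + b) :
    0 ≤ ff zt a b := by
  rw [ff_polar]
  have h1 := (ZZ_arg h ha hb hab).1
  have h2 := zt_om h
  have hz := h.pos
  apply mul_nonneg (by positivity)
  apply Real.cos_nonneg_of_mem_Icc
  rw [abs_le] at h1
  constructor <;> nlinarith

theorem ff_pos {zt : ℝ} (h : Zt zt) {a b : ℝ} (ha : 0 < a) (hb : 0 < b) : 0 < ff zt a b := by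
  have hab : 0 < a + b := by positivity
  rw [ff_polar]
  have h1 := (ZZ_arg h ha.le hb.le hab).2 ha hb
  have h2 := zt_om h
  have hz := h.pos
  have hn : 0 < ‖ZZ zt a b‖ := norm_pos_iff.2 (ZZ_ne h hab)
  apply mul_pos (by positivity)
  apply Real.cos_pos_of_mem_Ioo
  rw [abs_lt] at h1
  constructor <;> nlinarith

theorem ZZ_smul (zt l a b : ℝ) : ZZ zt (l * a) (l * b) = (l : ℂ) * ZZ zt a b := by
  simp only [ZZ]
  push_cast
  ring

theorem ff_hom (zt : ℝ) {l : ℝ} (hl : 0 < l) (a b : ℝ) : ff zt (l * a) (l * b) = l ^ zt * ff zt a b := by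
  rw [ff_polar, ff_polar, ZZ_smul, Complex.arg_real_mul _ hl, norm_mul, Complex.norm_real,
    Real.norm_of_nonneg hl.le, Real.mul_rpow hl.le (norm_nonneg _)]
  ring

/-- `f` vanishes on the boundary of the quadrant. -/
theorem ff_zero_left {zt : ℝ} (h : Zt zt) {b : ℝ} (hb : 0 < b) : ff zt 0 b = 0 := by
  have hs := h.sin_pos
  have hs2 := h.sin2_pos
  have hc2 := h.cos2_pos
  have ho1 := h.lt_om
  have ho2 := h.om_lt
  have hpi := Real.pi_pos
  have e1 : ZZ zt 0 b = ((b / Real.sin (om zt) : ℝ) : ℂ) *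
      (Complex.cos ((om zt / 2 : ℝ) : ℂ) + Complex.sin ((om zt / 2 : ℝ) : ℂ) * Complex.I) := by
    rw [← Complex.ofReal_cos, ← Complex.ofReal_sin, Complex.ext_iff]
    constructor
    · rw [ZZ_re, Complex.re_ofReal_mul, Complex.add_re, Complex.re_ofReal_mul, Complex.I_re,
        Complex.ofReal_re]
      ring
    · rw [ZZ_im, Complex.im_ofReal_mul, Complex.add_im, Complex.im_ofReal_mul, Complex.I_im,
        Complex.ofReal_im]
      ring
  rw [ff_polar, e1, Complex.arg_mul_cos_add_sin_mul_I (by positivity)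
    ⟨by linarith, by linarith⟩, zt_om h, Real.cos_pi_div_two, mul_zero]

theorem ff_symm {zt : ℝ} (h : Zt zt) {a b : ℝ} (ha : 0 ≤ a) (hb : 0 ≤ b) (hab : 0 < a + b) :
    ff zt a b = ff zt b a := by
  have e1 : ZZ zt b a = (starRingEnd ℂ) (ZZ zt a b) := by
    rw [Complex.ext_iff]
    constructor
    · rw [Complex.conj_re, ZZ_re, ZZ_re]
      ring
    · rw [Complex.conj_im, ZZ_im, ZZ_im]
      ring
  have h1 := (ZZ_arg h ha hb hab).1
  have ho2 := h.om_lt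
  have hpi := Real.pi_pos
  have e2 : (ZZ zt b a).arg = -(ZZ zt a b).arg := by
    rw [e1, Complex.arg_conj, if_neg]
    intro h2
    rw [h2, abs_of_pos hpi] at h1
    linarith
  rw [ff_polar, ff_polar, e2, e1, Complex.norm_conj, neg_mul, Real.cos_neg]

theorem ff_zero_right {zt : ℝ} (h : Zt zt) {a : ℝ} (ha : 0 < a) : ff zt a 0 = 0 := by
  rw [ff_symm h ha.le le_rfl (by linarith), ff_zero_left h ha]

/-- Nonnegativity of the kernel: `Re Z^ζ = |Z|^ζ cos (ζ arg Z)`, `|arg Z| ≤ ω/2`. -/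
theorem pk_nonneg {zt : ℝ} (h : Zt zt) {τ a b : ℝ} (hτ : 0 < τ) (ha : 0 ≤ a) (hb : 0 ≤ b)
    (hab : 0 < a + b) : 0 ≤ pk zt τ a b :=
  mul_nonneg (gg_pos hτ).le (ff_nonneg h ha hb hab)

theorem ff_lower {zt : ℝ} (h : Zt zt) : ∃ c : ℝ, 0 < c ∧ ∀ a b : ℝ, 1 ≤ a → a ≤ 2 → 1 ≤ b →
    b ≤ 2 → c ≤ ff zt a b := by
  have hcont : ContinuousOn (fun v : ℝ × ℝ => ff zt v.1 v.2) (Icc 1 2 ×ˢ Icc 1 2) := by
    intro v hv
    apply ContinuousAt.continuousWithinAt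
    have h1 : ContinuousAt (fun v : ℝ × ℝ => ZZ zt v.1 v.2) v := by
      unfold ZZ
      fun_prop
    have h2 : ZZ zt v.1 v.2 ∈ Complex.slitPlane :=
      ZZ_slit h (by have := hv.1.1; have := hv.2.1; linarith)
    unfold ff
    exact Complex.continuous_re.continuousAt.comp (h1.cpow continuousAt_const h2)
  obtain ⟨v, hv, hmin⟩ := (isCompact_Icc.prod isCompact_Icc).exists_isMinOn
    ⟨((1 : ℝ), (1 : ℝ)), by norm_num⟩ hcont
  refine ⟨ff zt v.1 v.2, ff_pos h (by linarith [hv.1.1]) (by linarith [hv.2.1]), ?_⟩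
  intro a b h1 h2 h3 h4
  exact hmin (show (a, b) ∈ Icc (1 : ℝ) 2 ×ˢ Icc (1 : ℝ) 2 from ⟨⟨h1, h2⟩, ⟨h3, h4⟩⟩)

/-- Lower bound: `pk τ a b ≥ c T^(-1-ζ/2)` for `τ ∈ [T/2, 2T]`, `a, b ∈ [√T, 2√T]`. -/
theorem pk_lower {zt : ℝ} (h : Zt zt) : ∃ c : ℝ, 0 < c ∧ ∀ T τ a b : ℝ, 0 < T → T / 2 ≤ τ →
    τ ≤ 2 * T → Real.sqrt T ≤ a → a ≤ 2 * Real.sqrt T → Real.sqrt T ≤ b → b ≤ 2 * Real.sqrt T →
    c * T ^ (-1 - zt / 2) ≤ pk zt τ a b := by
  obtain ⟨c, hc, hf⟩ := ff_lower h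
  have hz := h.pos
  have hk := kc_pos h
  refine ⟨2 ^ (-1 - zt) * Real.exp (-(8 * kc zt ^ 2)) * c, by positivity, ?_⟩
  intro T τ a b hT h1 h2 h3 h4 h5 h6
  have hs : 0 < Real.sqrt T := Real.sqrt_pos.2 hT
  have hτ : 0 < τ := by linarith
  have ha : 0 < a := by linarith
  have hb : 0 < b := by linarith
  have e1 : c * Real.sqrt T ^ zt ≤ ff zt a b := by
    have e2 := ff_hom zt hs (a / Real.sqrt T) (b / Real.sqrt T)
    rw [mul_div_cancel₀ _ hs.ne', mul_div_cancel₀ _ hs.ne'] at e2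
    rw [e2, mul_comm]
    gcongr
    apply hf
    · rwa [le_div_iff₀ hs, one_mul]
    · rwa [div_le_iff₀ hs]
    · rwa [le_div_iff₀ hs, one_mul]
    · rwa [div_le_iff₀ hs]
  have e3 : QQ zt a b ≤ kc zt ^ 2 * (16 * T) := by
    rw [QQ_eq' h]
    have e4 := norm_ZZ_le h ha.le hb.le
    have e5 : ‖ZZ zt a b‖ ≤ kc zt * (4 * Real.sqrt T) := e4.trans (by gcongr; linarith)
    calc ‖ZZ zt a b‖ ^ 2 ≤ (kc zt * (4 * Real.sqrt T)) ^ 2 := by gcongr
      _ = kc zt ^ 2 * (16 * T) := by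
        rw [mul_pow, mul_pow, Real.sq_sqrt hT.le]
        ring
  have e6 : 2 ^ (-1 - zt) * T ^ (-1 - zt) * Real.exp (-(8 * kc zt ^ 2)) ≤ gg zt τ a b := by
    unfold gg
    rw [← Real.mul_rpow (by norm_num) hT.le]
    gcongr ?_ * ?_
    · exact Real.rpow_le_rpow_of_nonpos hτ h2 (by linarith)
    · rw [Real.exp_le_exp, neg_div, neg_le_neg_iff, div_le_iff₀ (by positivity)]
      refine e3.trans ?_
      nlinarith [sq_nonneg (kc zt)]
  have e7 : T ^ (-1 - zt / 2) = T ^ (-1 - zt) * Real.sqrt T ^ zt := by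
    rw [Real.sqrt_eq_rpow, ← Real.rpow_mul hT.le, ← Real.rpow_add hT]
    congr 1
    ring
  calc 2 ^ (-1 - zt) * Real.exp (-(8 * kc zt ^ 2)) * c * T ^ (-1 - zt / 2) =
      (2 ^ (-1 - zt) * T ^ (-1 - zt) * Real.exp (-(8 * kc zt ^ 2))) * (c * Real.sqrt T ^ zt) := by
        rw [e7]; ring
    _ ≤ gg zt τ a b * ff zt a b := by
      have := gg_pos (zt := zt) (y1 := a) (y2 := b) hτ
      gcongr
    _ = pk zt τ a b := rfl

/-- (6.4) `p(R², y) ≤ C R^(-2-ζ) e^(-(y₁+y₂)/R)`. -/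
theorem pk_top {zt : ℝ} (h : Zt zt) : ∃ C : ℝ, 0 < C ∧ ∀ R a b : ℝ, 0 < R → 0 ≤ a → 0 ≤ b →
    0 < a + b → pk zt (R ^ 2) a b ≤ C * R ^ (-2 - zt) * Real.exp (-(a + b) / R) := by
  obtain ⟨C, a₀, hC, ha₀, hb⟩ := pk_bounds h
  have hz := h.pos
  refine ⟨C * ((1 + 1 / (a₀ / 2) + 2 / (a₀ / 2) ^ 2) * Real.exp (1 / (2 * a₀))), by positivity, ?_⟩
  intro R a b hR h1 h2 h3
  have e1 := (hb (R ^ 2) a b (by positivity) h1 h2 h3).1
  refine (le_abs_self _).trans (e1.trans ?_)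
  set s := a + b with hs
  set v := s / R with hv
  have hv0 : 0 < v := by positivity
  have e2 : km a₀ zt 0 (R ^ 2) s = R ^ (-2 - zt) * (v ^ zt * Real.exp (-a₀ * v ^ 2)) := by
    unfold km
    have e3 : (R ^ 2) ^ (-1 - zt) = R ^ (-2 - 2 * zt) := by
      rw [← Real.rpow_natCast R 2, ← Real.rpow_mul hR.le]
      congr 1
      push_cast
      ring
    have e4 : s ^ (zt - 0) = R ^ zt * v ^ zt := by
      rw [sub_zero, ← Real.mul_rpow hR.le hv0.le, hv, mul_div_cancel₀ _ hR.ne']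
    have e5 : R ^ (-2 - zt) = R ^ (-2 - 2 * zt) * R ^ zt := by
      rw [← Real.rpow_add hR]
      congr 1
      ring
    rw [e3, e4, e5, hv, div_pow]
    ring_nf
  have e6 : v ^ zt ≤ 1 + v ^ 2 + (v ^ 2) ^ 2 := by
    rcases le_total v 1 with h4 | h4
    · have : v ^ zt ≤ 1 := Real.rpow_le_one hv0.le h4 hz.le
      nlinarith [sq_nonneg v, sq_nonneg (v ^ 2)]
    · have e7 : v ^ zt ≤ v ^ (2 : ℝ) := Real.rpow_le_rpow_of_exponent_le h4 (by linarith [h.z2])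
      rw [Real.rpow_two] at e7
      nlinarith [sq_nonneg (v ^ 2)]
  have e8 := exp_absorb (b := a₀ / 2) (v := v ^ 2) (by positivity) (by positivity)
  have e9 : Real.exp (a₀ / 2 * v ^ 2) * Real.exp (-a₀ * v ^ 2) ≤
      Real.exp (1 / (2 * a₀)) * Real.exp (-v) := by
    rw [← Real.exp_add, ← Real.exp_add, Real.exp_le_exp]
    have e10 : 1 / (2 * a₀) + -v - (a₀ / 2 * v ^ 2 + -a₀ * v ^ 2) =
        (a₀ / 2) * (v - 1 / a₀) ^ 2 := by
      field_simp
      ring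
    have e11 : 0 ≤ (a₀ / 2) * (v - 1 / a₀) ^ 2 := by positivity
    linarith
  calc C * km a₀ zt 0 (R ^ 2) s = C * R ^ (-2 - zt) * (v ^ zt * Real.exp (-a₀ * v ^ 2)) := by
        rw [e2]; ring
    _ ≤ C * R ^ (-2 - zt) * ((1 + 1 / (a₀ / 2) + 2 / (a₀ / 2) ^ 2) *
        (Real.exp (a₀ / 2 * v ^ 2) * Real.exp (-a₀ * v ^ 2))) := by
        gcongr ?_ * ?_
        rw [← mul_assoc]
        gcongr
        exact e6.trans e8
    _ ≤ C * R ^ (-2 - zt) * ((1 + 1 / (a₀ / 2) + 2 / (a₀ / 2) ^ 2) *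
        (Real.exp (1 / (2 * a₀)) * Real.exp (-v))) := by gcongr
    _ = C * ((1 + 1 / (a₀ / 2) + 2 / (a₀ / 2) ^ 2) * Real.exp (1 / (2 * a₀))) *
        R ^ (-2 - zt) * Real.exp (-s / R) := by
        rw [neg_div]
        ring

end Pool.Agent.W_332fe5.Six
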