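import Pool.Agent.W_332fe5_h24.C2
import Pool.Agent.W_332fe5_h24.C3
import Pool.Agent.W_332fe5_h24.K3

set_option autoImplicit false

/-! Block 6, C4: bounds of the integrated kernel. -/

open MeasureTheory ProbabilityTheory Set Filter Topology
open scoped ENNReal NNReal

namespace Pool.Agent.W_332fe5.Six

theorem abs_int_le {f : ℝ → ℝ} {μ : Measure ℝ} {B : ℝ}
    (h : ∫⁻ s, ENNReal.ofReal |f s| ∂μ ≤ ENNReal.ofReal B) (hB : 0 ≤ B) : |∫ s, f s ∂μ| ≤ B := by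
  have h1 := norm_integral_le_lintegral_norm (μ := μ) f
  rw [Real.norm_eq_abs] at h1
  refine h1.trans (ENNReal.toReal_le_of_le_ofReal hB ?_)
  simpa only [Real.norm_eq_abs] using h

theorem PK_abs_le {zt : ℝ} (h : Zt zt) : ∃ C a₀ : ℝ, 0 < C ∧ 0 < a₀ ∧ ∀ r τ a b : ℝ, 0 < r →
    0 < τ → 0 < a → 0 < b → |PK zt r τ a b| ≤ C * km a₀ zt 0 τ (a + b) := by
  obtain ⟨C, a₀, hC, ha₀, hb⟩ := pk_bounds h
  refine ⟨C, a₀, hC, ha₀, fun r τ a b _ hτ ha hb' => ?_⟩
  have h1 := (hb τ a b hτ ha.le hb'.le (by linarith)).1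
  have h2 : |kp r a * kp r b| ≤ 1 := by
    rw [abs_of_nonneg (mul_nonneg (kp_nonneg _ _) (kp_nonneg _ _))]
    exact mul_le_one₀ (kp_le_one _ _) (kp_nonneg _ _) (kp_le_one _ _)
  rw [PK, abs_mul]
  calc |pk zt τ a b| * |kp r a * kp r b| ≤ (C * km a₀ zt 0 τ (a + b)) * 1 :=
        mul_le_mul h1 h2 (abs_nonneg _) ((abs_nonneg _).trans h1)
    _ = _ := mul_one _

theorem PK_nonneg {zt : ℝ} (h : Zt zt) {r τ : ℝ} (hr : 0 < r) (hτ : 0 < τ) (a b : ℝ) :
    0 ≤ PK zt r τ a b := by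
  rw [PK]
  by_cases ha : a ≤ r
  · rw [kp_zero hr (Or.inl ha), zero_mul, mul_zero]
  by_cases hb : b ≤ r
  · rw [kp_zero hr (Or.inl hb), mul_zero, mul_zero]
  have ha' : 0 < a := hr.trans (not_le.1 ha)
  have hb' : 0 < b := hr.trans (not_le.1 hb)
  exact mul_nonneg (pk_nonneg h hτ ha'.le hb'.le (by linarith))
    (mul_nonneg (kp_nonneg _ _) (kp_nonneg _ _))

theorem FF_nonneg {zt : ℝ} (h : Zt zt) {T R r : ℝ} (hT : 0 < T) (hR : 0 < R) (hr : 0 < r)
    (t a b : ℝ) : 0 ≤ FF zt T R r t a b := by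
  rw [FF]
  refine setIntegral_nonneg measurableSet_Ioo fun s hs => ?_
  refine mul_nonneg (th_nonneg _ _) (PK_nonneg h hr ?_ a b)
  have := hs.1
  positivity

/-- The general estimate of a time integral. -/
theorem int_le {zt a₀ C j T R x K B : ℝ} (hT : 0 < T) (hC : 0 ≤ C) (hK : 0 ≤ K) (hB : 0 ≤ B)
    (hR : 0 < R) (hx : 0 < x)
    (hkm : ∫⁻ s in Ioo (0 : ℝ) T, ENNReal.ofReal (km a₀ zt j (s + R ^ 2) x) ≤ ENNReal.ofReal B)
    {f : ℝ → ℝ → ℝ} (t : ℝ)
    (hf : ∀ s ∈ Ioo (0 : ℝ) T, |f (s + R ^ 2) x| ≤ C * km a₀ zt j (s + R ^ 2) x + K) :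
    |∫ s in Ioo (0 : ℝ) T, th T (t + s) * f (s + R ^ 2) x| ≤ C * B + K * T := by
  have hB' : 0 ≤ C * B + K * T := by positivity
  refine abs_int_le ?_ hB'
  have h1 : ∫⁻ s in Ioo (0 : ℝ) T, ENNReal.ofReal |th T (t + s) * f (s + R ^ 2) x| ≤
      ∫⁻ s in Ioo (0 : ℝ) T, (ENNReal.ofReal C * ENNReal.ofReal (km a₀ zt j (s + R ^ 2) x) +
        ENNReal.ofReal K) := by
    refine setLIntegral_mono' measurableSet_Ioo fun s hs => ?_
    have hs0 : 0 < s + R ^ 2 := by have := hs.1; positivity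
    have h2 : |th T (t + s) * f (s + R ^ 2) x| ≤ C * km a₀ zt j (s + R ^ 2) x + K := by
      rw [abs_mul, abs_of_nonneg (th_nonneg _ _)]
      calc th T (t + s) * |f (s + R ^ 2) x| ≤ 1 * |f (s + R ^ 2) x| :=
            mul_le_mul_of_nonneg_right (th_le_one _ _) (abs_nonneg _)
        _ = |f (s + R ^ 2) x| := one_mul _
        _ ≤ _ := hf s hs
    have hk : 0 ≤ km a₀ zt j (s + R ^ 2) x := km_nonneg hs0 hx
    rw [← ENNReal.ofReal_mul hC, ← ENNReal.ofReal_add (mul_nonneg hC hk) hK]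
    exact ENNReal.ofReal_le_ofReal h2
  refine h1.trans ?_
  rw [lintegral_add_right _ measurable_const, lintegral_const_mul' _ _ ENNReal.ofReal_ne_top,
    setLIntegral_const, Real.volume_Ioo, sub_zero, ENNReal.ofReal_add (mul_nonneg hC hB)
    (mul_nonneg hK hT.le), ENNReal.ofReal_mul hC, ENNReal.ofReal_mul hK]
  exact add_le_add (mul_le_mul_right hkm _) le_rfl

/-- `x^(-ζ) ≤ (a b)^(-ζ/2)` for `x = a + b`. -/
theorem FF_upper {zt : ℝ} (h : Zt zt) : ∃ C : ℝ, 0 < C ∧ ∀ T R r t a b : ℝ, 0 < T → 0 < R →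
    R ^ 2 ≤ T → 0 < r → 0 < a → a < 1 / 2 → 0 < b → b < 1 / 2 →
    FF zt T R r t a b ≤ C * (a * b) ^ (-(zt / 2)) * Real.exp (-(a + b) / Real.sqrt T) := by
  obtain ⟨C, a₀, hC, ha₀, hPK⟩ := PK_abs_le h
  obtain ⟨C', hC', hint⟩ := int_km (a₀ := a₀) h ha₀
  refine ⟨C * C', by positivity, fun T R r t a b hT hR hRT hr ha _ hb _ => ?_⟩
  have hab : 0 < a + b := by linarith
  have hz := h.pos
  set B : ℝ := C' * (a + b) ^ (-zt - 0) * Real.exp (-(a + b) / Real.sqrt T) with hB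
  have hB0 : 0 ≤ B := by positivity
  have h1 := int_le (zt := zt) (a₀ := a₀) (C := C) (j := 0) (K := 0) hT hC.le le_rfl hB0 hR hab
    (hint 0 T R (a + b) hT hR hRT hab) (f := fun τ _ => PK zt r τ a b) t (fun s hs => by
      have hs0 : 0 < s + R ^ 2 := by have := hs.1; positivity
      rw [add_zero]
      exact hPK r _ a b hr hs0 ha hb)
  have h2 : FF zt T R r t a b ≤ C * B + 0 * T := (le_abs_self _).trans h1
  rw [zero_mul, add_zero] at h2
  refine h2.trans ?_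
  have h3 : (a + b) ^ (-zt - 0) ≤ (a * b) ^ (-(zt / 2)) := by
    have h4 : (a + b) ^ (-zt - 0) = ((a + b) ^ 2) ^ (-(zt / 2)) := by
      rw [← Real.rpow_natCast (a + b) 2, ← Real.rpow_mul hab.le]
      congr 1
      push_cast
      ring
    rw [h4]
    refine Real.rpow_le_rpow_of_nonpos (by positivity) (by nlinarith) (by linarith)
  rw [hB]
  have h5 : 0 ≤ Real.exp (-(a + b) / Real.sqrt T) := (Real.exp_pos _).le
  calc C * (C' * (a + b) ^ (-zt - 0) * Real.exp (-(a + b) / Real.sqrt T))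
      = (C * C') * ((a + b) ^ (-zt - 0)) * Real.exp (-(a + b) / Real.sqrt T) := by ring
    _ ≤ (C * C') * ((a * b) ^ (-(zt / 2))) * Real.exp (-(a + b) / Real.sqrt T) :=
        mul_le_mul_of_nonneg_right (mul_le_mul_of_nonneg_left h3 (by positivity)) h5

theorem FF_lower {zt : ℝ} (h : Zt zt) : ∃ c : ℝ, 0 < c ∧ ∀ T R r a b : ℝ, 0 < T →
    2 * Real.sqrt T ≤ 1 / 8 → 0 < R → R ^ 2 ≤ T → 0 < r → 2 * r ≤ Real.sqrt T →
    Real.sqrt T ≤ a → a ≤ 2 * Real.sqrt T → Real.sqrt T ≤ b → b ≤ 2 * Real.sqrt T →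
    c * T ^ (-(zt / 2)) ≤ FF zt T R r 0 a b := by
  obtain ⟨c, hc, hlow⟩ := pk_lower h
  refine ⟨c / 4, by positivity, fun T R r a b hT hT8 hR hRT hr hrT ha1 ha2 hb1 hb2 => ?_⟩
  have hR2 : 0 < R ^ 2 := by positivity
  have hka : kp r a = 1 := kp_one hr (hrT.trans ha1) (ha2.trans hT8)
  have hkb : kp r b = 1 := kp_one hr (hrT.trans hb1) (hb2.trans hT8)
  have hPK : ∀ τ, PK zt r τ a b = pk zt τ a b := by
    intro τ
    rw [PK, hka, hkb, mul_one, mul_one]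
  obtain ⟨M, hM⟩ := PK_bdd h hr hR2
  have hmeas : Measurable fun s : ℝ => th T (0 + s) * PK zt r (s + R ^ 2) a b := by
    refine ((th_smooth T).continuous.measurable.comp (measurable_const.add measurable_id)).mul ?_
    exact (PK_meas zt r).1.comp (f := fun s : ℝ => (s + R ^ 2, a, b)) (by fun_prop)
  have hint : IntegrableOn (fun s : ℝ => th T (0 + s) * PK zt r (s + R ^ 2) a b) (Ioo 0 T) := by
    refine Measure.integrableOn_of_bounded (M := M) (by
      rw [Real.volume_Ioo]; exact ENNReal.ofReal_ne_top) hmeas.aestronglyMeasurable ?_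
    refine (ae_restrict_iff' measurableSet_Ioo).2 (Eventually.of_forall fun s hs => ?_)
    have h1 := (hM (s + R ^ 2) a b (by have := hs.1; linarith)).1
    rw [Real.norm_eq_abs, abs_mul, abs_of_nonneg (th_nonneg _ _)]
    calc th T (0 + s) * |PK zt r (s + R ^ 2) a b| ≤ 1 * |PK zt r (s + R ^ 2) a b| :=
          mul_le_mul_of_nonneg_right (th_le_one _ _) (abs_nonneg _)
      _ ≤ M := by rw [one_mul]; exact h1
  have hsub : Icc (5 * T / 8) (7 * T / 8) ⊆ Ioo 0 T := fun s hs =>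
    ⟨by linarith [hs.1], by linarith [hs.2]⟩
  have h1 : ∫ s in Icc (5 * T / 8) (7 * T / 8), th T (0 + s) * PK zt r (s + R ^ 2) a b ≤
      FF zt T R r 0 a b := by
    rw [FF]
    refine setIntegral_mono_set hint ?_ hsub.eventuallyLE
    refine (ae_restrict_iff' measurableSet_Ioo).2 (Eventually.of_forall fun s hs => ?_)
    refine mul_nonneg (th_nonneg _ _) (PK_nonneg h hr ?_ a b)
    have := hs.1
    positivity
  refine le_trans ?_ h1
  have h2 : ∫ _s in Icc (5 * T / 8) (7 * T / 8), c * T ^ (-1 - zt / 2) ≤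
      ∫ s in Icc (5 * T / 8) (7 * T / 8), th T (0 + s) * PK zt r (s + R ^ 2) a b := by
    refine setIntegral_mono_on (integrableOn_const (by
      rw [Real.volume_Icc]; exact ENNReal.ofReal_ne_top)) (hint.mono_set hsub) measurableSet_Icc
      fun s hs => ?_
    rw [zero_add, th_one hT hs.1 hs.2, one_mul, hPK]
    exact hlow T _ a b hT (by linarith [hs.1]) (by linarith [hs.2]) ha1 ha2 hb1 hb2
  refine le_trans ?_ h2
  rw [setIntegral_const, smul_eq_mul, Measure.real, Real.volume_Icc,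
    ENNReal.toReal_ofReal (by linarith)]
  have h3 : T ^ (-(zt / 2)) = T * T ^ (-1 - zt / 2) := by
    have h4 := Real.rpow_add hT 1 (-1 - zt / 2)
    rw [Real.rpow_one] at h4
    rw [← h4]
    congr 1
    ring
  rw [h3]
  apply le_of_eq
  ring

theorem FF1_upper {zt : ℝ} (h : Zt zt) : ∃ C : ℝ, 0 < C ∧ ∀ T R : ℝ, 0 < T → 0 < R →
    R ^ 2 ≤ T → ∃ K : ℝ, 0 ≤ K ∧ ∀ r t a b : ℝ, 0 < r → r ≤ 1 / 32 → 0 < a → a < 1 / 2 → 0 < b →
    b < 1 / 2 →
    |FF1 zt T R r t a b| ≤ C * (a + b) ^ (-1 - zt) * Real.exp (-(a + b) / Real.sqrt T) +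
      K * (if a ≤ 2 * r then 1 else 0) ∧
    |FF2 zt T R r t a b| ≤ C * (a + b) ^ (-1 - zt) * Real.exp (-(a + b) / Real.sqrt T) +
      K * (if b ≤ 2 * r then 1 else 0) := by
  obtain ⟨C, a₀, hC, ha₀, hPK⟩ := PK1_bound h
  obtain ⟨C', hC', hint⟩ := int_km (a₀ := a₀) h ha₀
  refine ⟨C * C', by positivity, fun T R hT hR hRT => ⟨C * (R ^ 2) ^ (-1 - zt) * T, by positivity,
    fun r t a b hr hr32 ha ha2 hb hb2 => ?_⟩⟩
  have hab : 0 < a + b := by linarith
  have hz := h.pos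
  set B : ℝ := C' * (a + b) ^ (-zt - 1) * Real.exp (-(a + b) / Real.sqrt T) with hB
  have hB0 : 0 ≤ B := by positivity
  have hτ : ∀ s ∈ Ioo (0 : ℝ) T, (s + R ^ 2) ^ (-1 - zt) ≤ (R ^ 2) ^ (-1 - zt) := fun s hs =>
    Real.rpow_le_rpow_of_nonpos (by positivity) (by linarith [hs.1]) (by linarith)
  have hBe : C * B = C * C' * (a + b) ^ (-1 - zt) * Real.exp (-(a + b) / Real.sqrt T) := by
    rw [hB, show -zt - 1 = -1 - zt by ring]
    ring
  have hi : ∀ p : Prop, [Decidable p] → (0 : ℝ) ≤ if p then 1 else 0 := by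
    intro p _
    split_ifs <;> norm_num
  constructor
  · have h1 := int_le (zt := zt) (a₀ := a₀) (C := C) (j := 1)
      (K := C * (R ^ 2) ^ (-1 - zt) * (if a ≤ 2 * r then 1 else 0)) hT hC.le
      (mul_nonneg (by positivity) (hi _)) hB0 hR hab
      (hint 1 T R (a + b) hT hR hRT hab) (f := fun τ _ => PK1 zt r τ a b) t (fun s hs => by
        have hs0 : 0 < s + R ^ 2 := by have := hs.1; positivity
        refine (hPK r _ a b hr hr32 hs0 ha ha2 hb hb2).1.trans (add_le_add le_rfl ?_)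
        exact mul_le_mul_of_nonneg_right (mul_le_mul_of_nonneg_left (hτ s hs) hC.le) (hi _))
    refine le_trans h1 (le_of_eq ?_)
    rw [hBe]
    ring
  · have h1 := int_le (zt := zt) (a₀ := a₀) (C := C) (j := 1)
      (K := C * (R ^ 2) ^ (-1 - zt) * (if b ≤ 2 * r then 1 else 0)) hT hC.le
      (mul_nonneg (by positivity) (hi _)) hB0 hR hab
      (hint 1 T R (a + b) hT hR hRT hab) (f := fun τ _ => PK2 zt r τ a b) t (fun s hs => by
        have hs0 : 0 < s + R ^ 2 := by have := hs.1; positivity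
        refine (hPK r _ a b hr hr32 hs0 ha ha2 hb hb2).2.trans (add_le_add le_rfl ?_)
        exact mul_le_mul_of_nonneg_right (mul_le_mul_of_nonneg_left (hτ s hs) hC.le) (hi _))
    refine le_trans h1 (le_of_eq ?_)
    rw [hBe]
    ring

theorem FEr_upper {zt : ℝ} (h : Zt zt) : ∃ C : ℝ, 0 < C ∧ ∀ T R : ℝ, 0 < T → 0 < R →
    R ^ 2 ≤ T → ∃ K : ℝ, 0 ≤ K ∧ ∀ r t a b : ℝ, 0 < r → r ≤ 1 / 32 → 0 < a → a < 1 / 2 → 0 < b →
    b < 1 / 2 →
    |FEr zt T R r t a b| ≤ C * (a + b) ^ (-1 - zt) * Real.exp (-(a + b) / Real.sqrt T) +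
      K / r * ((if a ≤ 2 * r then 1 else 0) + (if b ≤ 2 * r then 1 else 0)) := by
  obtain ⟨C, a₀, hC, ha₀, hEr⟩ := Er_bound h
  obtain ⟨C', hC', hint⟩ := int_km (a₀ := a₀) h ha₀
  refine ⟨C * C', by positivity, fun T R hT hR hRT => ⟨C * (R ^ 2) ^ (-1 - zt) * T, by positivity,
    fun r t a b hr hr32 ha ha2 hb hb2 => ?_⟩⟩
  have hab : 0 < a + b := by linarith
  have hz := h.pos
  set B : ℝ := C' * (a + b) ^ (-zt - 1) * Real.exp (-(a + b) / Real.sqrt T) with hB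
  have hB0 : 0 ≤ B := by positivity
  have hτ : ∀ s ∈ Ioo (0 : ℝ) T, (s + R ^ 2) ^ (-1 - zt) ≤ (R ^ 2) ^ (-1 - zt) := fun s hs =>
    Real.rpow_le_rpow_of_nonpos (by positivity) (by linarith [hs.1]) (by linarith)
  have hBe : C * B = C * C' * (a + b) ^ (-1 - zt) * Real.exp (-(a + b) / Real.sqrt T) := by
    rw [hB, show -zt - 1 = -1 - zt by ring]
    ring
  have hi : ∀ p : Prop, [Decidable p] → (0 : ℝ) ≤ if p then 1 else 0 := by
    intro p _
    split_ifs <;> norm_num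
  have hii : (0 : ℝ) ≤ (if a ≤ 2 * r then 1 else 0) + (if b ≤ 2 * r then 1 else 0) :=
    add_nonneg (hi _) (hi _)
  have h1 := int_le (zt := zt) (a₀ := a₀) (C := C) (j := 1)
    (K := C * (R ^ 2) ^ (-1 - zt) / r *
      ((if a ≤ 2 * r then 1 else 0) + (if b ≤ 2 * r then 1 else 0))) hT hC.le
    (mul_nonneg (by positivity) hii) hB0 hR hab
    (hint 1 T R (a + b) hT hR hRT hab) (f := fun τ _ => Er zt r τ a b) t (fun s hs => by
      have hs0 : 0 < s + R ^ 2 := by have := hs.1; positivity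
      refine (hEr r _ a b hr hr32 hs0 ha ha2 hb hb2).trans (add_le_add le_rfl ?_)
      refine mul_le_mul_of_nonneg_right ?_ hii
      exact div_le_div_of_nonneg_right (mul_le_mul_of_nonneg_left (hτ s hs) hC.le) hr.le)
  refine le_trans h1 (le_of_eq ?_)
  rw [hBe]
  ring

end Pool.Agent.W_332fe5.Six
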