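import Pool.Agent.W_332fe5_h24.E0

set_option autoImplicit false

/-! Block 6, E1: `Lam` vanishes on tensor products. -/

open MeasureTheory ProbabilityTheory Set Filter Topology
open scoped ENNReal NNReal

namespace Pool.Agent.W_332fe5.Six

/-- continuous and bounded -/
def E1_BC (f : ℝ → ℝ) : Prop := Continuous f ∧ ∃ C : ℝ, ∀ x, |f x| ≤ C

theorem E1_BC.of_compact {f : ℝ → ℝ} (hf : Continuous f) (hc : HasCompactSupport f) :
    E1_BC f := by
  obtain ⟨C, hC⟩ := hc.exists_bound_of_continuous hf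
  exact ⟨hf, C, fun x => hC x⟩

theorem E1_CR {H : ℝ → ℝ} (hH : H ∈ CR) :
    E1_BC H ∧ E1_BC (deriv H) ∧ E1_BC (dop H) ∧ E1_BC (nop H) := by
  obtain ⟨h1, h2, h3⟩ := hH
  have c0 : Continuous H := h1.continuous
  have c1 : Continuous (deriv H) := h1.continuous_deriv (by norm_cast)
  have c2 : Continuous (iteratedDeriv 2 H) := h1.continuous_iteratedDeriv 2 (by norm_cast)
  have s1 : HasCompactSupport (deriv H) := h2.deriv
  have s2 : HasCompactSupport (iteratedDeriv 2 H) := by
    have : iteratedDeriv 2 H = deriv (deriv H) := by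
      rw [iteratedDeriv_succ, iteratedDeriv_one]
    rw [this]
    exact s1.deriv
  refine ⟨E1_BC.of_compact c0 h2, E1_BC.of_compact c1 s1, ?_, ?_⟩
  · have e : dop H = ((fun y : ℝ => 1 - 2 * y) * iteratedDeriv 2 H) +
        ((fun _ : ℝ => (-5 : ℝ)) * deriv H) := by
      funext y
      simp only [dop, Pi.add_apply, Pi.mul_apply]
      ring
    rw [e]
    refine E1_BC.of_compact ?_ ((s2.mul_left).add (s1.mul_left))
    fun_prop
  · have e : nop H = ((fun y : ℝ => 1 - 2 * y) * deriv H) + ((fun _ : ℝ => (-3 : ℝ)) * H) := by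
      funext y
      simp only [nop, Pi.add_apply, Pi.mul_apply]
      ring
    rw [e]
    refine E1_BC.of_compact ?_ ((s1.mul_left).add (h2.mul_left))
    fun_prop

theorem E1_BC.const_mul {f : ℝ → ℝ} (hf : E1_BC f) (c : ℝ) : E1_BC fun y => c * f y := by
  obtain ⟨h1, C, hC⟩ := hf
  refine ⟨continuous_const.mul h1, |c| * C, fun x => ?_⟩
  rw [abs_mul]
  exact mul_le_mul_of_nonneg_left (hC x) (abs_nonneg _)

theorem E1_nice_tensor {T : ℝ} {η f g : ℝ → ℝ} (hη : Continuous η) (hf : E1_BC f)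
    (hg : E1_BC g) : Nice T fun t a b => η t * (f a * g b) := by
  obtain ⟨cf, Cf, bf⟩ := hf
  obtain ⟨cg, Cg, bg⟩ := hg
  obtain ⟨Ce, be⟩ := (isCompact_Icc (a := (0 : ℝ)) (b := T)).exists_bound_of_continuousOn
    hη.continuousOn
  refine ⟨?_, Ce * (Cf * Cg), fun t ht a b => ?_⟩
  · exact (hη.measurable.comp measurable_fst).mul
      ((cf.measurable.comp (measurable_fst.comp measurable_snd)).mul
        (cg.measurable.comp (measurable_snd.comp measurable_snd)))
  · rw [abs_mul, abs_mul]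
    have h1 : |η t| ≤ Ce := be t ht
    have h2 : |f a| * |g b| ≤ Cf * Cg :=
      mul_le_mul (bf a) (bg b) (abs_nonneg _) ((abs_nonneg _).trans (bf a))
    exact mul_le_mul h1 h2 (by positivity) ((abs_nonneg _).trans h1)

theorem E1_nice_add {T : ℝ} {F G : ℝ → ℝ → ℝ → ℝ} (hF : Nice T F) (hG : Nice T G) :
    Nice T fun t a b => F t a b + G t a b := by
  obtain ⟨mF, CF, bF⟩ := hF
  obtain ⟨mG, CG, bG⟩ := hG
  exact ⟨mF.add mG, CF + CG, fun t ht a b =>
    (abs_add_le _ _).trans (add_le_add (bF t ht a b) (bG t ht a b))⟩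

/-- the inner integral -/
theorem E1_int {μ : Measure E3} [IsFiniteMeasure μ] {a b da db na nb : E3 → ℝ} (p q r : ℝ)
    (ha : Integrable a μ) (hb : Integrable b μ) (hda : Integrable da μ) (hdb : Integrable db μ)
    (hna : Integrable na μ) (hnb : Integrable nb μ) :
    ∫ x : E3 × E3, (p * (a x.1 * b x.2) + q * (da x.1 * b x.2 + a x.1 * db x.2 +
      r * (na x.1 * nb x.2))) ∂(μ.prod μ) =
    p * ((∫ x, a x ∂μ) * ∫ x, b x ∂μ) + q * ((∫ x, da x ∂μ) * (∫ x, b x ∂μ) +
      (∫ x, a x ∂μ) * (∫ x, db x ∂μ) + r * ((∫ x, na x ∂μ) * ∫ x, nb x ∂μ)) := by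
  have i1 := ha.mul_prod hb
  have i2 := hda.mul_prod hb
  have i3 := ha.mul_prod hdb
  have i4 := hna.mul_prod hnb
  have j1 : Integrable (fun z : E3 × E3 => p * (a z.1 * b z.2)) (μ.prod μ) := i1.const_mul p
  have j2 : Integrable (fun z : E3 × E3 => da z.1 * b z.2 + a z.1 * db z.2) (μ.prod μ) :=
    i2.add i3
  have j3 : Integrable (fun z : E3 × E3 => r * (na z.1 * nb z.2)) (μ.prod μ) := i4.const_mul r
  have j4 : Integrable (fun z : E3 × E3 => da z.1 * b z.2 + a z.1 * db z.2 +
      r * (na z.1 * nb z.2)) (μ.prod μ) := j2.add j3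
  rw [integral_add j1 (j4.const_mul q), integral_const_mul, integral_const_mul,
    integral_add j2 j3, integral_add i2 i3, integral_const_mul, integral_prod_mul,
    integral_prod_mul, integral_prod_mul, integral_prod_mul]

/-- bounded measurable functions times a function of `yy` -/
theorem E1_bdd {μ : Measure E3} [IsFiniteMeasure μ] {γ : E3 → ℝ} (hm : Measurable γ)
    (hb : ∀ x, |γ x| ≤ 1) {f : ℝ → ℝ} (hf : E1_BC f) :
    Integrable (fun x => γ x * f (yy x)) μ := by
  obtain ⟨cf, C, hC⟩ := hf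
  refine Integrable.of_bound (hm.mul (cf.measurable.comp yy_meas)).aestronglyMeasurable C
    (Eventually.of_forall fun x => ?_)
  rw [Real.norm_eq_abs, abs_mul]
  have := mul_le_mul (hb x) (hC (yy x)) (abs_nonneg _) zero_le_one
  linarith

/-- Proof: `D.ident H H' η`; the three integrals of `Lam` are iterated integrals (`integral_prod`,
`int_stop`, `int_run` of E0), the inner integrals over `vv` of products `f x.1 * g x.2` are products
of integrals (`integral_prod_mul`), and for a.e. `z` the integral of the sum is the sum of the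
integrals (`U_ae`; everything else is bounded: functions in `CR` and their derivatives are bounded
and continuous). -/
theorem Lam_tensor {zt T : ℝ} (hT : 0 < T) (D : TwoPt zt T) {H H' : ℝ → ℝ} (hH : H ∈ CR)
    (hH' : H' ∈ CR) {η : ℝ → ℝ} (hη : ContDiff ℝ 1 η) (hηT : η T = 0) :
    D.Lam (fun t a b => η t * (H a * H' b))
      (fun t a b => deriv η t * (H a * H' b) +
        η t * (dop H a * H' b + H a * dop H' b + cc zt ^ 2 * (nop H a * nop H' b)))
      (fun t a b => η t * (deriv H a * H' b)) (fun t a b => η t * (H a * deriv H' b)) = 0 := by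
  obtain ⟨bH, bH1, bHd, bHn⟩ := E1_CR hH
  obtain ⟨bK, bK1, bKd, bKn⟩ := E1_CR hH'
  have cη : Continuous η := hη.continuous
  have cη' : Continuous (deriv η) := hη.continuous_deriv (le_refl _)
  have nF : Nice T fun t a b => η t * (H a * H' b) := E1_nice_tensor cη bH bK
  have nB1 : Nice T fun t a b => η t * (deriv H a * H' b) := E1_nice_tensor cη bH1 bK
  have nB2 : Nice T fun t a b => η t * (H a * deriv H' b) := E1_nice_tensor cη bH bK1
  have nA : Nice T fun t a b => deriv η t * (H a * H' b) +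
        η t * (dop H a * H' b + H a * dop H' b + cc zt ^ 2 * (nop H a * nop H' b)) := by
    have h1 := E1_nice_add (E1_nice_tensor (T := T) cη' bH bK)
      (E1_nice_add (E1_nice_tensor (T := T) cη bHd bK)
        (E1_nice_add (E1_nice_tensor (T := T) cη bH bKd)
          (E1_nice_tensor (T := T) cη (bHn.const_mul (cc zt ^ 2)) bKn)))
    convert h1 using 4
    ring
  set lam : Measure E3 := (volume : Measure E3).restrict Bl with hlam
  have hid := D.ident H hH H' hH' η hη hηT
  rw [← hlam] at hid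
  unfold TwoPt.Lam
  have e1 : (∫ q : D.Ω × (E3 × E3), (if D.S q.1 ≤ T then
      D.G q.1 q.2.1 * D.G q.1 q.2.2 * (η (D.S q.1) * (H (yy q.2.1) * H' (yy q.2.2))) else 0)
        ∂(D.P.prod vv)) =
      ∫ ω, (if D.S ω ≤ T then η (D.S ω) * ((∫ x, D.G ω x * H (yy x) ∂lam) *
        ∫ x, D.G ω x * H' (yy x) ∂lam) else 0) ∂D.P := by
    rw [integral_prod _ (int_stop hT D nF)]
    refine integral_congr_ae (Eventually.of_forall fun ω => ?_)
    by_cases h : D.S ω ≤ T
    · simp only [if_pos h]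
      rw [← integral_prod_mul, ← integral_const_mul]
      refine integral_congr_ae (Eventually.of_forall fun x => ?_)
      simp only
      ring
    · simp only [if_neg h]
      rw [integral_zero]
  have e2 : (∫ x, Gam0 x.1 * Gam0 x.2 * (η 0 * (H (yy x.1) * H' (yy x.2))) ∂vv) =
      η 0 * ((∫ x, Gam0 x * H (yy x) ∂lam) * ∫ x, Gam0 x * H' (yy x) ∂lam) := by
    rw [← integral_prod_mul, ← integral_const_mul]
    refine integral_congr_ae (Eventually.of_forall fun x => ?_)
    simp only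
    ring
  have e3 : (∫ q : (ℝ × D.Ω) × (E3 × E3), D.Γ q.1 q.2.1 * D.Γ q.1 q.2.2 *
      ((deriv η q.1.1 * (H (yy q.2.1) * H' (yy q.2.2)) + η q.1.1 *
        (dop H (yy q.2.1) * H' (yy q.2.2) + H (yy q.2.1) * dop H' (yy q.2.2) +
          cc zt ^ 2 * (nop H (yy q.2.1) * nop H' (yy q.2.2)))) -
        D.U q.1 q.2.1 * (η q.1.1 * (deriv H (yy q.2.1) * H' (yy q.2.2))) -
        D.U q.1 q.2.2 * (η q.1.1 * (H (yy q.2.1) * deriv H' (yy q.2.2)))) ∂(D.zm.prod vv)) =
      ∫ z, (deriv η z.1 * ((∫ x, D.Γ z x * H (yy x) ∂lam) * ∫ x, D.Γ z x * H' (yy x) ∂lam) +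
      η z.1 * ((∫ x, D.Γ z x * (dop H (yy x) - D.U z x * deriv H (yy x)) ∂lam) *
          (∫ x, D.Γ z x * H' (yy x) ∂lam) +
        (∫ x, D.Γ z x * (dop H' (yy x) - D.U z x * deriv H' (yy x)) ∂lam) *
          (∫ x, D.Γ z x * H (yy x) ∂lam) +
        cc zt ^ 2 * ((∫ x, D.Γ z x * nop H (yy x) ∂lam) * ∫ x, D.Γ z x * nop H' (yy x) ∂lam)))
      ∂D.zm := by
    rw [integral_prod _ (int_run D nA nB1 nB2)]
    refine integral_congr_ae ?_
    filter_upwards [U_ae D] with z hz
    have hΓ : Measurable fun x => D.Γ z x := D.Γ_meas.comp (measurable_const.prodMk measurable_id)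
    have hΓb : ∀ x, |D.Γ z x| ≤ 1 := D.Γ_bdd z
    have ia := E1_bdd (μ := lam) hΓ hΓb bH
    have ib := E1_bdd (μ := lam) hΓ hΓb bK
    have ina := E1_bdd (μ := lam) hΓ hΓb bHn
    have inb := E1_bdd (μ := lam) hΓ hΓb bKn
    have hU : ∀ f : ℝ → ℝ, E1_BC f → Integrable (fun x => D.Γ z x * f (yy x) * D.U z x) lam := by
      rintro f ⟨cf, C, hC⟩
      refine Integrable.bdd_mul (c := C) hz
        (hΓ.mul (cf.measurable.comp yy_meas)).aestronglyMeasurable
        (Eventually.of_forall fun x => ?_)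
      rw [Real.norm_eq_abs, abs_mul]
      have := mul_le_mul (hΓb x) (hC (yy x)) (abs_nonneg _) zero_le_one
      linarith
    have ida : Integrable (fun x => D.Γ z x * (dop H (yy x) - D.U z x * deriv H (yy x))) lam := by
      refine ((E1_bdd (μ := lam) hΓ hΓb bHd).sub (hU _ bH1)).congr
        (Eventually.of_forall fun x => ?_)
      simp only [Pi.sub_apply]
      ring
    have idb : Integrable (fun x => D.Γ z x * (dop H' (yy x) - D.U z x * deriv H' (yy x)))
        lam := by
      refine ((E1_bdd (μ := lam) hΓ hΓb bKd).sub (hU _ bK1)).congr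
        (Eventually.of_forall fun x => ?_)
      simp only [Pi.sub_apply]
      ring
    have key := E1_int (μ := lam) (deriv η z.1) (η z.1) (cc zt ^ 2) ia ib ida idb ina inb
    rw [mul_comm (∫ x, D.Γ z x * (dop H' (yy x) - D.U z x * deriv H' (yy x)) ∂lam)
      (∫ x, D.Γ z x * H (yy x) ∂lam), ← key]
    show (∫ x : E3 × E3, D.Γ z x.1 * D.Γ z x.2 *
      ((deriv η z.1 * (H (yy x.1) * H' (yy x.2)) + η z.1 *
        (dop H (yy x.1) * H' (yy x.2) + H (yy x.1) * dop H' (yy x.2) +
          cc zt ^ 2 * (nop H (yy x.1) * nop H' (yy x.2)))) -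
        D.U z x.1 * (η z.1 * (deriv H (yy x.1) * H' (yy x.2))) -
        D.U z x.2 * (η z.1 * (H (yy x.1) * deriv H' (yy x.2)))) ∂vv) = _
    refine integral_congr_ae (Eventually.of_forall fun x => ?_)
    simp only
    ring
  rw [e1, e2, e3]
  have hz : D.zm = ((volume.restrict (Ioo (0 : ℝ) T)).prod D.P) := rfl
  rw [hz, hid]
  ring

end Pool.Agent.W_332fe5.Six
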