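import Pool.Agent.W_332fe5_h24.E0
import Pool.Agent.W_332fe5.O.A11

set_option autoImplicit false

/-! Block 6, G1: radial test functions. -/

open MeasureTheory ProbabilityTheory Set Filter Topology
open scoped ENNReal NNReal

namespace Pool.Agent.W_332fe5.Six

private theorem G1_zero {H : ℝ → ℝ} (hH : H ∈ CR) {y : ℝ} (hy : y ≤ 0) :
    H y = 0 ∧ deriv H y = 0 ∧ iteratedDeriv 2 H y = 0 := by
  have h0 : y ∉ tsupport H := fun h => absurd (hH.2.2 h).1 (not_lt.2 hy)
  have h1 : y ∉ tsupport (deriv H) := fun h => h0 (tsupport_deriv_subset h)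
  have h2 : y ∉ tsupport (deriv (deriv H)) := fun h => h1 (tsupport_deriv_subset h)
  refine ⟨image_eq_zero_of_notMem_tsupport h0, image_eq_zero_of_notMem_tsupport h1, ?_⟩
  rw [iteratedDeriv_succ, iteratedDeriv_one]
  exact image_eq_zero_of_notMem_tsupport h2

private theorem G1_out {x : E3} (hx : x ∉ Bl) : yy x ≤ 0 := by
  by_contra h
  exact hx (yy_pos_iff.2 (not_le.1 h))

theorem CB_of_CR {H : ℝ → ℝ} (hH : H ∈ CR) : (fun x => H (yy x)) ∈ CB := by
  refine ⟨hH.1.comp yy_smooth, ?_, ?_⟩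
  · refine HasCompactSupport.intro (isCompact_closedBall (0 : E3) 1) fun x hx => ?_
    have h1 : x ∉ Bl := fun h => hx (Metric.ball_subset_closedBall h)
    exact (G1_zero hH (G1_out h1)).1
  · intro x hx
    have h1 : x ∈ yy ⁻¹' (tsupport H) :=
      tsupport_comp_subset_preimage H yy_smooth.continuous hx
    exact yy_pos_iff.2 (hH.2.2 h1).1

theorem int_radial {H : ℝ → ℝ} (hH : H ∈ CR) (g : E3 → ℝ) :
    ∫ x, g x * H (yy x) = ∫ x in Bl, g x * H (yy x) := by
  symm
  refine setIntegral_eq_integral_of_forall_compl_eq_zero fun x hx => ?_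
  rw [(G1_zero hH (G1_out hx)).1, mul_zero]

private theorem G1_axis : ∀ᵐ x ∂(volume : Measure E3), ax2 x ≠ 0 := by
  have h1 : (volume : Measure E3)
      (LinearMap.ker (EuclideanSpace.proj (0 : Fin 3) : E3 →L[ℝ] ℝ).toLinearMap : Submodule ℝ E3) = 0 := by
    refine Measure.addHaar_submodule _ _ fun h => ?_
    have h2 : (EuclideanSpace.single (0 : Fin 3) (1 : ℝ) : E3) ∈
        (LinearMap.ker (EuclideanSpace.proj (0 : Fin 3) : E3 →L[ℝ] ℝ).toLinearMap :
          Submodule ℝ E3) := by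
      rw [h]; trivial
    simp at h2
  have h2 : ∀ᵐ x ∂(volume : Measure E3), x ∉ ((LinearMap.ker
      (EuclideanSpace.proj (0 : Fin 3) : E3 →L[ℝ] ℝ).toLinearMap : Submodule ℝ E3) : Set E3) :=
    measure_eq_zero_iff_ae_notMem.1 h1
  filter_upwards [h2] with x hx h
  apply hx
  show x 0 = 0
  unfold ax2 at h
  nlinarith [sq_nonneg (x 0), sq_nonneg (x 1)]

private theorem G1_kk {x : E3} (hx : ax2 x ≠ 0) : inner ℝ x (kk x) = 2 := by
  unfold kk
  rw [inner_smul_right, PiLp.inner_apply, Fin.sum_univ_three]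
  simp
  unfold ax2 at hx ⊢
  field_simp

/-- `Δh + k·∇h + u·∇h = (1-2y) H'' - 5 H' - (u·x) H'` off the axis (`slap_comp`, `fderiv_yy`;
`x · k = 2` off the axis, the axis is a null set). -/
theorem aF_radial {H : ℝ → ℝ} (hH : H ∈ CR) (δ : ℝ) (w : L2) :
    aF δ w (fun x => H (yy x)) =
      ∫ x in Bl, Gam δ w x * (dop H (yy x) - inner ℝ (fld Bl δ w x) x * deriv H (yy x)) := by
  have hd : Differentiable ℝ H := hH.1.differentiable (by norm_num)
  have hc2 : ContDiff ℝ 2 H := by exact_mod_cast contDiff_infty.1 hH.1 2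
  rw [setIntegral_eq_integral_of_forall_compl_eq_zero]
  · unfold aF
    refine integral_congr_ae ?_
    filter_upwards [G1_axis] with x hx
    rw [slap_comp hc2, A11_fderiv_comp hd, A11_fderiv_comp hd, G1_kk hx, dop,
      real_inner_comm x (fld Bl δ w x)]
    ring
  · intro x hx
    obtain ⟨h1, h2, h3⟩ := G1_zero hH (G1_out hx)
    rw [dop, h2, h3]
    ring

theorem bF_radial {H : ℝ → ℝ} (hH : H ∈ CR) (zt δ : ℝ) (w : L2) :
    bF zt δ w (fun x => H (yy x)) = cc zt * ∫ x in Bl, Gam δ w x * nop H (yy x) := by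
  have hd : Differentiable ℝ H := hH.1.differentiable (by norm_num)
  rw [setIntegral_eq_integral_of_forall_compl_eq_zero]
  · unfold bF
    rw [neg_mul, ← mul_neg, ← integral_neg]
    congr 1
    refine integral_congr_ae (Eventually.of_forall fun x => ?_)
    show -(Gam δ w x * (fderiv ℝ (fun x => H (yy x)) x x + 3 * H (yy x))) =
      Gam δ w x * nop H (yy x)
    rw [A11_fderiv_comp hd, real_inner_self_eq_norm_sq, nop]
    have e1 : ‖x‖ ^ 2 = 1 - 2 * yy x := by unfold yy; ring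
    rw [e1]
    ring
  · intro x hx
    obtain ⟨h1, h2, h3⟩ := G1_zero hH (G1_out hx)
    rw [nop, h1, h2]
    ring

end Pool.Agent.W_332fe5.Six
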