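import Pool.Agent.W_332fe5_h24.G1
import Pool.Agent.W_332fe5.O.A0

set_option autoImplicit false

/-! Block 6, G2: the measurable versions of `Γ` and `U`. -/

open MeasureTheory ProbabilityTheory Set Filter Topology
open scoped ENNReal NNReal

namespace Pool.Agent.W_332fe5.Six

/-- `Γ`, cut at `±1` and killed at `S`. -/
noncomputable def gamC {zt p κ δ q : ℝ} (C : Core zt p κ δ q) (z : ℝ × C.Ω) (x : E3) : ℝ :=
  if z.1 < C.S z.2 then
    max (-1) (min 1 (inner ℝ (ev (fld Bl δ (C.w z.1 z.2)) x) (mm x))) else 0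

noncomputable def uC {zt p κ δ q : ℝ} (C : Core zt p κ δ q) (z : ℝ × C.Ω) (x : E3) : ℝ :=
  inner ℝ (ev (fld Bl δ (C.w z.1 z.2)) x) x

private theorem G2_mm : Measurable mm := by
  unfold mm
  refine (WithLp.measurable_toLp 2 _).comp (measurable_pi_lambda _ fun i => ?_)
  fin_cases i
  · show Measurable fun x : E3 => -x 1
    fun_prop
  · show Measurable fun x : E3 => x 0
    fun_prop
  · exact measurable_const

private theorem G2_ev {zt p κ δ q : ℝ} (hLin : Need1Lin δ) (C : Core zt p κ δ q) :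
    Measurable fun v : (ℝ × C.Ω) × E3 => ev (fld Bl δ (C.w v.1.1 v.1.2)) v.2 := by
  obtain ⟨L, hL⟩ := hLin
  have h1 : StronglyMeasurable fun z : ℝ × C.Ω => fld Bl δ (C.w z.1 z.2) := by
    have h2 : (fun z : ℝ × C.Ω => fld Bl δ (C.w z.1 z.2)) = fun z => L (C.w z.1 z.2) := by
      funext z
      rw [hL]
    rw [h2]
    exact L.continuous.comp_stronglyMeasurable C.w_meas
  exact ev_comp h1

/-- From `hLin`: `(t, ω) ↦ fld (w t ω)` is strongly measurable; `ev_comp`. -/
theorem gamC_meas {zt p κ δ q : ℝ} (hLin : Need1Lin δ) (C : Core zt p κ δ q) :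
    Measurable fun v : (ℝ × C.Ω) × E3 => gamC C v.1 v.2 := by
  unfold gamC
  refine Measurable.ite ?_ ?_ measurable_const
  · exact measurableSet_lt (measurable_fst.comp measurable_fst)
      (C.S_meas.comp (measurable_snd.comp measurable_fst))
  · exact measurable_const.max (measurable_const.min
      ((G2_ev hLin C).inner (G2_mm.comp measurable_snd)))

theorem uC_meas {zt p κ δ q : ℝ} (hLin : Need1Lin δ) (C : Core zt p κ δ q) :
    Measurable fun v : (ℝ × C.Ω) × E3 => uC C v.1 v.2 := by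
  unfold uC
  exact (G2_ev hLin C).inner measurable_snd

/-- For a.e. `(t, ω)`: `gamC = Gam` a.e. (for `t ≥ S`, `w = 0` and `fld 0 = 0`). -/
theorem gamC_ae {zt p κ δ q : ℝ} (hLin : Need1Lin δ) (hB : Need5Bdd zt p κ δ q)
    (C : Core zt p κ δ q) : ∀ᵐ z ∂((volume.restrict (Ioo (0 : ℝ) 1)).prod C.P),
      ∀ᵐ x ∂(volume : Measure E3), gamC C z x = Gam δ (C.w z.1 z.2) x := by
  filter_upwards [hB C] with z hz
  by_cases h : z.1 < C.S z.2
  · filter_upwards [hz, ev_ae (fld Bl δ (C.w z.1 z.2))] with x hx hx2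
    unfold gamC
    rw [if_pos h, hx2]
    unfold Gam at hx ⊢
    obtain ⟨h1, h2⟩ := abs_le.1 hx
    rw [min_eq_right h2, max_eq_right h1]
  · obtain ⟨L, hL⟩ := hLin
    have h1 : fld Bl δ (C.w z.1 z.2) = 0 := by
      rw [C.w_zero z.1 z.2 (Or.inr (not_lt.1 h)), ← hL, map_zero]
    filter_upwards [Lp.coeFn_zero E3 2 (volume : Measure E3)] with x hx
    unfold gamC Gam
    rw [if_neg h, h1, hx]
    simp

end Pool.Agent.W_332fe5.Six
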