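import Pool.Agent.W_332fe5_h24.G2

set_option autoImplicit false

/-! Block 6, G4: the identity `ident`. -/

open MeasureTheory ProbabilityTheory Set Filter Topology
open scoped ENNReal NNReal

namespace Pool.Agent.W_332fe5.Six

/-- The identity `ident` of `TwoPt`.  Proof: `C.product` with `h = H ∘ yy`, `h' = H' ∘ yy` at the
time `T`; left side: `η (min T S) = η T = 0` for `S > T`, and `X h T ω = ∫ G h`; right side:
`X_eq`, `gamC_ae`, `aF_radial`, `bF_radial`. -/
theorem ident_C {zt p κ δ q : ℝ} (hLin : Need1Lin δ) (hB : Need5Bdd zt p κ δ q)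
    (C : Core zt p κ δ q) {T : ℝ} (hT : 0 < T) (hT1 : T ≤ 1) {G : C.Ω → E3 → ℝ}
    (hG : ∀ᵐ ω ∂C.P, ∀ h ∈ CB, C.X h T ω = ∫ x, G ω x * h x) {H H' : ℝ → ℝ} (hH : H ∈ CR)
    (hH' : H' ∈ CR) {η : ℝ → ℝ} (hη : ContDiff ℝ 1 η) (hηT : η T = 0) :
    ∫ ω, (if C.S ω ≤ T then η (C.S ω) * ((∫ x in Bl, G ω x * H (yy x)) *
      ∫ x in Bl, G ω x * H' (yy x)) else 0) ∂C.P =
    η 0 * ((∫ x in Bl, Gam0 x * H (yy x)) * ∫ x in Bl, Gam0 x * H' (yy x)) +
    ∫ z, (deriv η z.1 * ((∫ x in Bl, gamC C z x * H (yy x)) *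
        ∫ x in Bl, gamC C z x * H' (yy x)) +
      η z.1 * ((∫ x in Bl, gamC C z x * (dop H (yy x) - uC C z x * deriv H (yy x))) *
          (∫ x in Bl, gamC C z x * H' (yy x)) +
        (∫ x in Bl, gamC C z x * (dop H' (yy x) - uC C z x * deriv H' (yy x))) *
          (∫ x in Bl, gamC C z x * H (yy x)) +
        cc zt ^ 2 * ((∫ x in Bl, gamC C z x * nop H (yy x)) *
          ∫ x in Bl, gamC C z x * nop H' (yy x))))
      ∂((volume.restrict (Ioo (0 : ℝ) T)).prod C.P) := by
  have hc := CB_of_CR hH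
  have hc' := CB_of_CR hH'
  have hp := (C.product _ hc _ hc' η hη T ⟨hT.le, hT1⟩).2
  -- the left side
  have hL : ∫ ω, (if C.S ω ≤ T then η (C.S ω) * ((∫ x in Bl, G ω x * H (yy x)) *
      ∫ x in Bl, G ω x * H' (yy x)) else 0) ∂C.P =
      ∫ ω, η (min T (C.S ω)) * (C.X (fun x => H (yy x)) T ω * C.X (fun x => H' (yy x)) T ω)
        ∂C.P := by
    refine integral_congr_ae ?_
    filter_upwards [hG] with ω hω
    rw [hω _ hc, hω _ hc', int_radial hH, int_radial hH']
    split_ifs with h1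
    · rw [min_eq_right h1]
    · rw [min_eq_left (not_le.1 h1).le, hηT, zero_mul]
  rw [hL, hp, int_radial hH Gam0, int_radial hH' Gam0]
  congr 1
  -- the measure
  have hm : (volume.restrict (Ioo (0 : ℝ) T)).prod C.P =
      ((volume : Measure ℝ).prod C.P).restrict (Ioo (0 : ℝ) T ×ˢ univ) := by
    rw [← Measure.prod_restrict, Measure.restrict_univ]
  have hm1 : (volume.restrict (Ioo (0 : ℝ) 1)).prod C.P =
      ((volume : Measure ℝ).prod C.P).restrict (Ioo (0 : ℝ) 1 ×ˢ univ) := by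
    rw [← Measure.prod_restrict, Measure.restrict_univ]
  have hle : (volume.restrict (Ioo (0 : ℝ) T)).prod C.P ≤
      (volume.restrict (Ioo (0 : ℝ) 1)).prod C.P := by
    rw [hm, hm1]
    exact Measure.restrict_mono (prod_mono (Ioo_subset_Ioo le_rfl hT1) subset_rfl) le_rfl
  rw [← hm]
  refine integral_congr_ae ?_
  filter_upwards [ae_mono hle (C.X_eq _ hc), ae_mono hle (C.X_eq _ hc'),
    ae_mono hle (gamC_ae hLin hB C)] with z h1 h2 h3
  by_cases hz : z.1 < C.S z.2
  · have hr : ∀ f g : E3 → ℝ, (∀ᵐ x ∂(volume : Measure E3), f x = g x) →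
        ∫ x in Bl, Gam δ (C.w z.1 z.2) x * f x = ∫ x in Bl, gamC C z x * g x := by
      intro f g hfg
      refine setIntegral_congr_ae Metric.isOpen_ball.measurableSet ?_
      filter_upwards [h3, hfg] with x hx hx' _
      rw [hx, hx']
    have hev : ∀ K : ℝ → ℝ, ∀ᵐ x ∂(volume : Measure E3),
        dop K (yy x) - inner ℝ (fld Bl δ (C.w z.1 z.2) x) x * deriv K (yy x) =
        dop K (yy x) - uC C z x * deriv K (yy x) := by
      intro K
      filter_upwards [ev_ae (fld Bl δ (C.w z.1 z.2))] with x hx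
      rw [uC, hx]
    rw [if_pos hz, one_mul, h1 hz, h2 hz, int_radial hH, int_radial hH', aF_radial hH,
      aF_radial hH', bF_radial hH, bF_radial hH', hr _ _ (hev H), hr _ _ (hev H'),
      hr (fun x => H (yy x)) _ (Eventually.of_forall fun _ => rfl),
      hr (fun x => H' (yy x)) _ (Eventually.of_forall fun _ => rfl),
      hr (fun x => nop H (yy x)) _ (Eventually.of_forall fun _ => rfl),
      hr (fun x => nop H' (yy x)) _ (Eventually.of_forall fun _ => rfl)]
    ring
  · have hg : ∀ x, gamC C z x = 0 := fun x => by rw [gamC, if_neg hz]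
    simp only [hg, zero_mul, integral_zero, if_neg hz, mul_zero, add_zero]

end Pool.Agent.W_332fe5.Six
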