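import Pool.Agent.W_332fe5.Need6

set_option autoImplicit false

/-! Block 6: the kernel `p(τ, y₁, y₂)` of the wedge of angle `π / ζ` and its derivatives. -/

open MeasureTheory ProbabilityTheory Set Filter Topology
open scoped ENNReal NNReal

namespace Pool.Agent.W_332fe5.Six

/-- The angle `ω = π / ζ`. -/
noncomputable def om (zt : ℝ) : ℝ := Real.pi / zt

/-- `e₁ = e^(-iω/2) / sin ω`. -/
noncomputable def ee1 (zt : ℝ) : ℂ :=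
  ⟨Real.cos (om zt / 2) / Real.sin (om zt), -(Real.sin (om zt / 2) / Real.sin (om zt))⟩

/-- `e₂ = e^(iω/2) / sin ω`. -/
noncomputable def ee2 (zt : ℝ) : ℂ :=
  ⟨Real.cos (om zt / 2) / Real.sin (om zt), Real.sin (om zt / 2) / Real.sin (om zt)⟩

/-- The affine map from the quadrant to the wedge. -/
noncomputable def ZZ (zt y1 y2 : ℝ) : ℂ := (y1 : ℂ) * ee1 zt + (y2 : ℂ) * ee2 zt

/-- `Q = |Z|²`. -/
noncomputable def QQ (zt y1 y2 : ℝ) : ℝ :=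
  (y1 ^ 2 + y2 ^ 2 + 2 * Real.cos (om zt) * y1 * y2) / Real.sin (om zt) ^ 2

noncomputable def QQ1 (zt y1 y2 : ℝ) : ℝ := 2 * (y1 + Real.cos (om zt) * y2) / Real.sin (om zt) ^ 2
noncomputable def QQ2 (zt y1 y2 : ℝ) : ℝ := 2 * (y2 + Real.cos (om zt) * y1) / Real.sin (om zt) ^ 2
noncomputable def QQ11 (zt : ℝ) : ℝ := 2 / Real.sin (om zt) ^ 2
noncomputable def QQ12 (zt : ℝ) : ℝ := 2 * Real.cos (om zt) / Real.sin (om zt) ^ 2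

/-- `f = Re Z^ζ` and its derivatives. -/
noncomputable def ff (zt y1 y2 : ℝ) : ℝ := (ZZ zt y1 y2 ^ (zt : ℂ)).re
noncomputable def ff1 (zt y1 y2 : ℝ) : ℝ :=
  ((zt : ℂ) * ZZ zt y1 y2 ^ ((zt : ℂ) - 1) * ee1 zt).re
noncomputable def ff2 (zt y1 y2 : ℝ) : ℝ :=
  ((zt : ℂ) * ZZ zt y1 y2 ^ ((zt : ℂ) - 1) * ee2 zt).re
noncomputable def ff11 (zt y1 y2 : ℝ) : ℝ :=
  ((zt : ℂ) * ((zt : ℂ) - 1) * ZZ zt y1 y2 ^ ((zt : ℂ) - 2) * ee1 zt ^ 2).re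
noncomputable def ff12 (zt y1 y2 : ℝ) : ℝ :=
  ((zt : ℂ) * ((zt : ℂ) - 1) * ZZ zt y1 y2 ^ ((zt : ℂ) - 2) * (ee1 zt * ee2 zt)).re
noncomputable def ff22 (zt y1 y2 : ℝ) : ℝ :=
  ((zt : ℂ) * ((zt : ℂ) - 1) * ZZ zt y1 y2 ^ ((zt : ℂ) - 2) * ee2 zt ^ 2).re

/-- The Gaussian factor with the time power. -/
noncomputable def gg (zt τ y1 y2 : ℝ) : ℝ := τ ^ (-1 - zt) * Real.exp (-QQ zt y1 y2 / (4 * τ))

/-- The kernel `p = τ^(-1-ζ) Re Z^ζ e^(-|Z|²/(4τ))`. -/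
noncomputable def pk (zt τ y1 y2 : ℝ) : ℝ := gg zt τ y1 y2 * ff zt y1 y2

noncomputable def pk1 (zt τ y1 y2 : ℝ) : ℝ :=
  gg zt τ y1 y2 * (ff1 zt y1 y2 - ff zt y1 y2 * QQ1 zt y1 y2 / (4 * τ))
noncomputable def pk2 (zt τ y1 y2 : ℝ) : ℝ :=
  gg zt τ y1 y2 * (ff2 zt y1 y2 - ff zt y1 y2 * QQ2 zt y1 y2 / (4 * τ))
noncomputable def pk11 (zt τ y1 y2 : ℝ) : ℝ :=
  gg zt τ y1 y2 * (ff11 zt y1 y2 - 2 * ff1 zt y1 y2 * QQ1 zt y1 y2 / (4 * τ) -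
    ff zt y1 y2 * QQ11 zt / (4 * τ) + ff zt y1 y2 * QQ1 zt y1 y2 ^ 2 / (16 * τ ^ 2))
noncomputable def pk12 (zt τ y1 y2 : ℝ) : ℝ :=
  gg zt τ y1 y2 * (ff12 zt y1 y2 - (ff1 zt y1 y2 * QQ2 zt y1 y2 + ff2 zt y1 y2 * QQ1 zt y1 y2) /
    (4 * τ) - ff zt y1 y2 * QQ12 zt / (4 * τ) +
    ff zt y1 y2 * (QQ1 zt y1 y2 * QQ2 zt y1 y2) / (16 * τ ^ 2))
noncomputable def pk22 (zt τ y1 y2 : ℝ) : ℝ :=
  gg zt τ y1 y2 * (ff22 zt y1 y2 - 2 * ff2 zt y1 y2 * QQ2 zt y1 y2 / (4 * τ) -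
    ff zt y1 y2 * QQ11 zt / (4 * τ) + ff zt y1 y2 * QQ2 zt y1 y2 ^ 2 / (16 * τ ^ 2))
noncomputable def pkt (zt τ y1 y2 : ℝ) : ℝ :=
  gg zt τ y1 y2 * ff zt y1 y2 * (-(1 + zt) / τ + QQ zt y1 y2 / (4 * τ ^ 2))

/-- `ζ ∈ (1, 6/5]`. -/
structure Zt (zt : ℝ) : Prop where
  z1 : 1 < zt
  z2 : zt ≤ 6 / 5

theorem Zt.pos {zt : ℝ} (h : Zt zt) : 0 < zt := by have := h.z1; linarith

theorem Zt.om_lt {zt : ℝ} (h : Zt zt) : om zt < Real.pi := by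
  have h1 := h.z1
  rw [om, div_lt_iff₀ h.pos]
  nlinarith [Real.pi_pos]

theorem Zt.lt_om {zt : ℝ} (h : Zt zt) : 5 / 6 * Real.pi ≤ om zt := by
  have h1 := h.z2
  rw [om, le_div_iff₀ h.pos]
  nlinarith [Real.pi_pos]

theorem Zt.sin_pos {zt : ℝ} (h : Zt zt) : 0 < Real.sin (om zt) := by
  apply Real.sin_pos_of_pos_of_lt_pi _ h.om_lt
  have := h.lt_om
  nlinarith [Real.pi_pos]

theorem Zt.sin2_pos {zt : ℝ} (h : Zt zt) : 0 < Real.sin (om zt / 2) := by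
  have := h.lt_om
  have h2 := h.om_lt
  apply Real.sin_pos_of_pos_of_lt_pi <;> nlinarith [Real.pi_pos]

theorem Zt.cos2_pos {zt : ℝ} (h : Zt zt) : 0 < Real.cos (om zt / 2) := by
  have := h.lt_om
  have h2 := h.om_lt
  apply Real.cos_pos_of_mem_Ioo
  constructor <;> nlinarith [Real.pi_pos]

theorem Zt.cos_neg {zt : ℝ} (h : Zt zt) : Real.cos (om zt) < 0 := by
  have := h.lt_om
  have h2 := h.om_lt
  apply Real.cos_neg_of_pi_div_two_lt_of_lt <;> nlinarith [Real.pi_pos]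

theorem Zt.cc_sq {zt : ℝ} (h : Zt zt) : cc zt ^ 2 = -2 * Real.cos (om zt) := by
  rw [cc, Real.sq_sqrt]
  · rfl
  · have := h.cos_neg
    rw [om] at this
    linarith

theorem Zt.sin_eq {zt : ℝ} (_h : Zt zt) :
    Real.sin (om zt) = 2 * Real.sin (om zt / 2) * Real.cos (om zt / 2) := by
  rw [← Real.sin_two_mul]
  ring_nf

theorem Zt.cos_eq {zt : ℝ} (_h : Zt zt) :
    Real.cos (om zt) = 2 * Real.cos (om zt / 2) ^ 2 - 1 := by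
  rw [← Real.cos_two_mul]
  ring_nf

theorem ZZ_re (zt y1 y2 : ℝ) :
    (ZZ zt y1 y2).re = (y1 + y2) * (Real.cos (om zt / 2) / Real.sin (om zt)) := by
  simp [ZZ, ee1, ee2]
  ring

theorem ZZ_im (zt y1 y2 : ℝ) :
    (ZZ zt y1 y2).im = (y2 - y1) * (Real.sin (om zt / 2) / Real.sin (om zt)) := by
  simp [ZZ, ee1, ee2]
  ring

theorem ZZ_slit {zt : ℝ} (h : Zt zt) {y1 y2 : ℝ} (hy : 0 < y1 + y2) :
    ZZ zt y1 y2 ∈ Complex.slitPlane := by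
  left
  rw [ZZ_re]
  exact mul_pos hy (div_pos h.cos2_pos h.sin_pos)

theorem ZZ_ne {zt : ℝ} (h : Zt zt) {y1 y2 : ℝ} (hy : 0 < y1 + y2) : ZZ zt y1 y2 ≠ 0 :=
  Complex.slitPlane_ne_zero (ZZ_slit h hy)

theorem QQ_eq {zt : ℝ} (h : Zt zt) (y1 y2 : ℝ) : QQ zt y1 y2 = Complex.normSq (ZZ zt y1 y2) := by
  have h1 := h.sin_pos.ne'
  have h2 := Real.sin_sq_add_cos_sq (om zt / 2)
  rw [Complex.normSq_apply, ZZ_re, ZZ_im, QQ, h.cos_eq]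
  field_simp
  have h3 : Real.sin (om zt / 2) ^ 2 = 1 - Real.cos (om zt / 2) ^ 2 := by linarith
  rw [h3]
  ring

theorem QQ_eq' {zt : ℝ} (h : Zt zt) (y1 y2 : ℝ) : QQ zt y1 y2 = ‖ZZ zt y1 y2‖ ^ 2 := by
  rw [QQ_eq h, Complex.normSq_eq_norm_sq]

end Pool.Agent.W_332fe5.Six
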