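import Pool.Agent.W_332fe5_h24.K0

set_option autoImplicit false

/-! Block 6: derivatives of the kernel and the heat equation. -/

open MeasureTheory ProbabilityTheory Set Filter Topology
open scoped ENNReal NNReal

namespace Pool.Agent.W_332fe5.Six

theorem ZZ_hd1 (zt y1 y2 : ℝ) : HasDerivAt (fun a : ℝ => ZZ zt a y2) (ee1 zt) y1 := by
  have h := ((Complex.ofRealCLM.hasDerivAt (x := y1)).mul_const (ee1 zt)).add_const
    ((y2 : ℂ) * ee2 zt)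
  simpa [ZZ] using h

theorem ZZ_hd2 (zt y1 y2 : ℝ) : HasDerivAt (fun b : ℝ => ZZ zt y1 b) (ee2 zt) y2 := by
  have h := ((Complex.ofRealCLM.hasDerivAt (x := y2)).mul_const (ee2 zt)).const_add
    ((y1 : ℂ) * ee1 zt)
  simpa [ZZ] using h

/-- Derivative of a real part of a power along a curve. -/
theorem cpow_re_hd {g : ℝ → ℂ} {g' : ℂ} {x : ℝ} (hg : HasDerivAt g g' x) (hs : g x ∈ Complex.slitPlane)
    (a c : ℂ) : HasDerivAt (fun t => (a * g t ^ c).re) (a * (c * g x ^ (c - 1)) * g').re x := by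
  have h1 : HasDerivAt (fun z : ℂ => z ^ c) (c * g x ^ (c - 1)) (g x) := by
    have := (hasDerivAt_id (g x)).cpow_const (c := c) hs
    simpa using this
  have h2 := h1.scomp x hg
  have h3 := h2.const_mul a
  have h4 := Complex.reCLM.hasFDerivAt.comp_hasDerivAt x h3
  have h5 : (a * (c * g x ^ (c - 1)) * g').re = Complex.reCLM (a * g' • (c * g x ^ (c - 1))) := by
    simp only [Complex.reCLM_apply, smul_eq_mul]
    congr 1
    ring
  rw [h5]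
  exact h4

section

variable {zt : ℝ} (h : Zt zt) {y1 y2 : ℝ} (hy : 0 < y1 + y2)

include h hy

theorem ff_hd1 : HasDerivAt (fun a => ff zt a y2) (ff1 zt y1 y2) y1 := by
  have := cpow_re_hd (ZZ_hd1 zt y1 y2) (ZZ_slit h hy) 1 (zt : ℂ)
  simpa [ff, ff1] using this

theorem ff_hd2 : HasDerivAt (fun b => ff zt y1 b) (ff2 zt y1 y2) y2 := by
  have := cpow_re_hd (ZZ_hd2 zt y1 y2) (ZZ_slit h hy) 1 (zt : ℂ)
  simpa [ff, ff2] using this

theorem ff1_hd1 : HasDerivAt (fun a => ff1 zt a y2) (ff11 zt y1 y2) y1 := by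
  have := cpow_re_hd (ZZ_hd1 zt y1 y2) (ZZ_slit h hy) ((zt : ℂ) * ee1 zt) ((zt : ℂ) - 1)
  have e : (fun a => ff1 zt a y2) = fun t => ((zt : ℂ) * ee1 zt * ZZ zt t y2 ^ ((zt : ℂ) - 1)).re := by
    funext a
    simp only [ff1]
    congr 1
    ring
  have e2 : ff11 zt y1 y2 = ((zt : ℂ) * ee1 zt * (((zt : ℂ) - 1) * ZZ zt y1 y2 ^ ((zt : ℂ) - 1 - 1)) *
      ee1 zt).re := by
    simp only [ff11]
    congr 1
    rw [show (zt : ℂ) - 1 - 1 = (zt : ℂ) - 2 by ring]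
    ring
  rw [e, e2]
  exact this

theorem ff1_hd2 : HasDerivAt (fun b => ff1 zt y1 b) (ff12 zt y1 y2) y2 := by
  have := cpow_re_hd (ZZ_hd2 zt y1 y2) (ZZ_slit h hy) ((zt : ℂ) * ee1 zt) ((zt : ℂ) - 1)
  have e : (fun b => ff1 zt y1 b) = fun t => ((zt : ℂ) * ee1 zt * ZZ zt y1 t ^ ((zt : ℂ) - 1)).re := by
    funext a
    simp only [ff1]
    congr 1
    ring
  have e2 : ff12 zt y1 y2 = ((zt : ℂ) * ee1 zt * (((zt : ℂ) - 1) * ZZ zt y1 y2 ^ ((zt : ℂ) - 1 - 1)) *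
      ee2 zt).re := by
    simp only [ff12]
    congr 1
    rw [show (zt : ℂ) - 1 - 1 = (zt : ℂ) - 2 by ring]
    ring
  rw [e, e2]
  exact this

theorem ff2_hd2 : HasDerivAt (fun b => ff2 zt y1 b) (ff22 zt y1 y2) y2 := by
  have := cpow_re_hd (ZZ_hd2 zt y1 y2) (ZZ_slit h hy) ((zt : ℂ) * ee2 zt) ((zt : ℂ) - 1)
  have e : (fun b => ff2 zt y1 b) = fun t => ((zt : ℂ) * ee2 zt * ZZ zt y1 t ^ ((zt : ℂ) - 1)).re := by
    funext a
    simp only [ff2]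
    congr 1
    ring
  have e2 : ff22 zt y1 y2 = ((zt : ℂ) * ee2 zt * (((zt : ℂ) - 1) * ZZ zt y1 y2 ^ ((zt : ℂ) - 1 - 1)) *
      ee2 zt).re := by
    simp only [ff22]
    congr 1
    rw [show (zt : ℂ) - 1 - 1 = (zt : ℂ) - 2 by ring]
    ring
  rw [e, e2]
  exact this

end

theorem QQ_hd1 (zt y1 y2 : ℝ) : HasDerivAt (fun a => QQ zt a y2) (QQ1 zt y1 y2) y1 := by
  have h := (((hasDerivAt_pow 2 y1).add_const (y2 ^ 2)).add
    (((hasDerivAt_id y1).const_mul (2 * Real.cos (om zt))).mul_const y2)).div_const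
    (Real.sin (om zt) ^ 2)
  refine h.congr_deriv ?_
  simp [QQ1]
  ring

theorem QQ_hd2 (zt y1 y2 : ℝ) : HasDerivAt (fun b => QQ zt y1 b) (QQ2 zt y1 y2) y2 := by
  have h := (((hasDerivAt_pow 2 y2).const_add (y1 ^ 2)).add
    ((hasDerivAt_id y2).const_mul (2 * Real.cos (om zt) * y1))).div_const
    (Real.sin (om zt) ^ 2)
  refine h.congr_deriv ?_
  simp [QQ2]
  ring

theorem QQ1_hd1 (zt y1 y2 : ℝ) : HasDerivAt (fun a => QQ1 zt a y2) (QQ11 zt) y1 := by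
  have h := ((((hasDerivAt_id y1).add_const (Real.cos (om zt) * y2)).const_mul 2)).div_const
    (Real.sin (om zt) ^ 2)
  refine h.congr_deriv ?_
  simp [QQ11]

theorem QQ1_hd2 (zt y1 y2 : ℝ) : HasDerivAt (fun b => QQ1 zt y1 b) (QQ12 zt) y2 := by
  have h := ((((hasDerivAt_id y2).const_mul (Real.cos (om zt))).const_add y1).const_mul 2).div_const
    (Real.sin (om zt) ^ 2)
  refine h.congr_deriv ?_
  simp [QQ12]

theorem QQ2_hd2 (zt y1 y2 : ℝ) : HasDerivAt (fun b => QQ2 zt y1 b) (QQ11 zt) y2 := by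
  have h := ((((hasDerivAt_id y2).add_const (Real.cos (om zt) * y1)).const_mul 2)).div_const
    (Real.sin (om zt) ^ 2)
  refine h.congr_deriv ?_
  simp [QQ11]

theorem gg_hd1 (zt τ y1 y2 : ℝ) :
    HasDerivAt (fun a => gg zt τ a y2) (-(gg zt τ y1 y2 * QQ1 zt y1 y2 / (4 * τ))) y1 := by
  have h := (((QQ_hd1 zt y1 y2).neg.div_const (4 * τ)).exp).const_mul (τ ^ (-1 - zt))
  refine h.congr_deriv ?_
  simp only [gg, Pi.neg_apply]
  ring

theorem gg_hd2 (zt τ y1 y2 : ℝ) :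
    HasDerivAt (fun b => gg zt τ y1 b) (-(gg zt τ y1 y2 * QQ2 zt y1 y2 / (4 * τ))) y2 := by
  have h := (((QQ_hd2 zt y1 y2).neg.div_const (4 * τ)).exp).const_mul (τ ^ (-1 - zt))
  refine h.congr_deriv ?_
  simp only [gg, Pi.neg_apply]
  ring

section

variable {zt : ℝ} (h : Zt zt) {y1 y2 : ℝ} (hy : 0 < y1 + y2)

include h hy

theorem pk_hd1 (τ : ℝ) : HasDerivAt (fun a => pk zt τ a y2) (pk1 zt τ y1 y2) y1 := by
  have h1 := (gg_hd1 zt τ y1 y2).mul (ff_hd1 h hy)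
  refine h1.congr_deriv ?_
  simp only [pk1]
  ring

theorem pk_hd2 (τ : ℝ) : HasDerivAt (fun b => pk zt τ y1 b) (pk2 zt τ y1 y2) y2 := by
  have h1 := (gg_hd2 zt τ y1 y2).mul (ff_hd2 h hy)
  refine h1.congr_deriv ?_
  simp only [pk2]
  ring

theorem pk1_hd1 (τ : ℝ) : HasDerivAt (fun a => pk1 zt τ a y2) (pk11 zt τ y1 y2) y1 := by
  have h1 := (gg_hd1 zt τ y1 y2).mul ((ff1_hd1 h hy).sub
    (((ff_hd1 h hy).mul (QQ1_hd1 zt y1 y2)).div_const (4 * τ)))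
  refine h1.congr_deriv ?_
  simp only [pk11, Pi.mul_apply, Pi.sub_apply]
  ring

theorem pk1_hd2 (τ : ℝ) : HasDerivAt (fun b => pk1 zt τ y1 b) (pk12 zt τ y1 y2) y2 := by
  have h1 := (gg_hd2 zt τ y1 y2).mul ((ff1_hd2 h hy).sub
    (((ff_hd2 h hy).mul (QQ1_hd2 zt y1 y2)).div_const (4 * τ)))
  refine h1.congr_deriv ?_
  simp only [pk12, Pi.mul_apply, Pi.sub_apply]
  ring

theorem pk2_hd2 (τ : ℝ) : HasDerivAt (fun b => pk2 zt τ y1 b) (pk22 zt τ y1 y2) y2 := by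
  have h1 := (gg_hd2 zt τ y1 y2).mul ((ff2_hd2 h hy).sub
    (((ff_hd2 h hy).mul (QQ2_hd2 zt y1 y2)).div_const (4 * τ)))
  refine h1.congr_deriv ?_
  simp only [pk22, Pi.mul_apply, Pi.sub_apply]
  ring

theorem ff_euler : y1 * ff1 zt y1 y2 + y2 * ff2 zt y1 y2 = zt * ff zt y1 y2 := by
  have hz := ZZ_ne h hy
  have e : (y1 : ℂ) * ((zt : ℂ) * ZZ zt y1 y2 ^ ((zt : ℂ) - 1) * ee1 zt) +
      (y2 : ℂ) * ((zt : ℂ) * ZZ zt y1 y2 ^ ((zt : ℂ) - 1) * ee2 zt) =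
      (zt : ℂ) * ZZ zt y1 y2 ^ (zt : ℂ) := by
    have e1 : ZZ zt y1 y2 ^ (zt : ℂ) = ZZ zt y1 y2 ^ ((zt : ℂ) - 1) * ZZ zt y1 y2 := by
      rw [Complex.cpow_sub _ _ hz, Complex.cpow_one]
      field_simp
    rw [e1]
    simp only [ZZ]
    ring
  have e2 := congrArg Complex.re e
  simp only [Complex.add_re, Complex.re_ofReal_mul] at e2
  simpa [ff, ff1, ff2] using e2

omit hy in
theorem ff_harm : ff11 zt y1 y2 + ff22 zt y1 y2 + cc zt ^ 2 * ff12 zt y1 y2 = 0 := by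
  have hs := h.sin_pos.ne'
  have e0 : ee1 zt ^ 2 + ee2 zt ^ 2 + ((cc zt ^ 2 : ℝ) : ℂ) * (ee1 zt * ee2 zt) = 0 := by
    rw [h.cc_sq, h.cos_eq, Complex.ext_iff]
    have h2 := Real.sin_sq_add_cos_sq (om zt / 2)
    have h3 : Real.sin (om zt / 2) ^ 2 = 1 - Real.cos (om zt / 2) ^ 2 := by linarith
    constructor
    · simp only [ee1, ee2, pow_two, Complex.add_re, Complex.mul_re, Complex.mul_im,
        Complex.ofReal_re, Complex.ofReal_im, Complex.zero_re]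
      field_simp
      rw [h3]
      ring
    · simp only [ee1, ee2, pow_two, Complex.add_im, Complex.mul_re, Complex.mul_im,
        Complex.ofReal_re, Complex.ofReal_im, Complex.zero_im]
      ring
  have e : ((zt : ℂ) * ((zt : ℂ) - 1) * ZZ zt y1 y2 ^ ((zt : ℂ) - 2) * ee1 zt ^ 2) +
      ((zt : ℂ) * ((zt : ℂ) - 1) * ZZ zt y1 y2 ^ ((zt : ℂ) - 2) * ee2 zt ^ 2) +
      ((cc zt ^ 2 : ℝ) : ℂ) * ((zt : ℂ) * ((zt : ℂ) - 1) * ZZ zt y1 y2 ^ ((zt : ℂ) - 2) *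
        (ee1 zt * ee2 zt)) = 0 := by
    linear_combination ((zt : ℂ) * ((zt : ℂ) - 1) * ZZ zt y1 y2 ^ ((zt : ℂ) - 2)) * e0
  have e2 := congrArg Complex.re e
  simp only [Complex.add_re, Complex.re_ofReal_mul] at e2
  simpa [ff11, ff12, ff22] using e2

/-- The heat equation. -/
theorem pk_heat {τ : ℝ} (hτ : 0 < τ) : pkt zt τ y1 y2 =
    pk11 zt τ y1 y2 + pk22 zt τ y1 y2 + cc zt ^ 2 * pk12 zt τ y1 y2 := by
  have h1 := ff_euler h hy
  have h2 := ff_harm (y1 := y1) (y2 := y2) h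
  have hs := h.sin_pos.ne'
  have h3 : Real.sin (om zt) ^ 2 = 1 - Real.cos (om zt) ^ 2 := by
    have := Real.sin_sq_add_cos_sq (om zt)
    linarith
  have hc := h.cc_sq
  have hq1 : 2 * QQ1 zt y1 y2 + cc zt ^ 2 * QQ2 zt y1 y2 = 4 * y1 := by
    rw [hc, QQ1, QQ2]
    field_simp
    rw [h3]
    ring
  have hq2 : 2 * QQ2 zt y1 y2 + cc zt ^ 2 * QQ1 zt y1 y2 = 4 * y2 := by
    rw [hc, QQ1, QQ2]
    field_simp
    rw [h3]
    ring
  have hq3 : y1 * QQ1 zt y1 y2 + y2 * QQ2 zt y1 y2 = 2 * QQ zt y1 y2 := by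
    rw [QQ, QQ1, QQ2]
    field_simp
    ring
  have hq4 : 2 * QQ11 zt + cc zt ^ 2 * QQ12 zt = 4 := by
    rw [hc, QQ11, QQ12]
    field_simp
    rw [h3]
    ring
  simp only [pkt, pk11, pk22, pk12]
  have hτ' := hτ.ne'
  generalize gg zt τ y1 y2 = g at *
  generalize ff zt y1 y2 = f at *
  generalize ff1 zt y1 y2 = f1 at *
  generalize ff2 zt y1 y2 = f2 at *
  generalize ff11 zt y1 y2 = f11 at *
  generalize ff12 zt y1 y2 = f12 at *
  generalize ff22 zt y1 y2 = f22 at *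
  generalize QQ1 zt y1 y2 = q1 at *
  generalize QQ2 zt y1 y2 = q2 at *
  generalize QQ zt y1 y2 = Q at *
  generalize QQ11 zt = q11 at *
  generalize QQ12 zt = q12 at *
  generalize cc zt ^ 2 = c at *
  have e1 : f1 * (2 * q1 + c * q2) + f2 * (2 * q2 + c * q1) = 4 * (zt * f) := by
    rw [hq1, hq2, ← h1]
    ring
  have e2 : q1 * (2 * q1 + c * q2) + q2 * (2 * q2 + c * q1) = 8 * Q := by
    rw [hq1, hq2]
    linear_combination 4 * hq3
 
  have e3 : g * (f11 + f22 + c * f12) = 0 := by rw [h2]; ring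
  have key : f11 - 2 * f1 * q1 / (4 * τ) - f * q11 / (4 * τ) + f * q1 ^ 2 / (16 * τ ^ 2) +
      (f22 - 2 * f2 * q2 / (4 * τ) - f * q11 / (4 * τ) + f * q2 ^ 2 / (16 * τ ^ 2)) +
      c * (f12 - (f1 * q2 + f2 * q1) / (4 * τ) - f * q12 / (4 * τ) + f * (q1 * q2) / (16 * τ ^ 2)) =
      (f11 + f22 + c * f12) - (f1 * (2 * q1 + c * q2) + f2 * (2 * q2 + c * q1)) / (4 * τ) -
      f * (2 * q11 + c * q12) / (4 * τ) +
      f * (q1 * (2 * q1 + c * q2) + q2 * (2 * q2 + c * q1)) / (32 * τ ^ 2) := by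
    ring
  rw [h2, e1, hq4, e2] at key
  linear_combination (-g) * key

end

theorem gg_hdt (zt : ℝ) {τ : ℝ} (hτ : 0 < τ) (y1 y2 : ℝ) :
    HasDerivAt (fun t => gg zt t y1 y2) (gg zt τ y1 y2 * (-(1 + zt) / τ + QQ zt y1 y2 / (4 * τ ^ 2)))
      τ := by
  have h1 : HasDerivAt (fun t : ℝ => t ^ (-1 - zt)) ((-1 - zt) * τ ^ (-1 - zt - 1)) τ :=
    Real.hasDerivAt_rpow_const (Or.inl hτ.ne')
  have h2 : HasDerivAt (fun t : ℝ => -QQ zt y1 y2 / (4 * t)) (QQ zt y1 y2 / (4 * τ ^ 2)) τ := by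
    have h3 := (((hasDerivAt_id τ).const_mul 4).inv (by simpa using hτ.ne')).const_mul
      (-QQ zt y1 y2)
    refine h3.congr_deriv ?_
    simp
    field_simp
  have h4 := h1.mul h2.exp
  refine h4.congr_deriv ?_
  simp only [gg]
  have e : τ ^ (-1 - zt - 1) = τ ^ (-1 - zt) / τ := by
    rw [Real.rpow_sub_one hτ.ne']
  rw [e]
  field_simp
  ring

theorem pk_hdt (zt : ℝ) {τ : ℝ} (hτ : 0 < τ) (y1 y2 : ℝ) :
    HasDerivAt (fun t => pk zt t y1 y2) (pkt zt τ y1 y2) τ := by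
  have h1 := (gg_hdt zt hτ y1 y2).mul_const (ff zt y1 y2)
  refine h1.congr_deriv ?_
  simp only [pkt]
  ring

end Pool.Agent.W_332fe5.Six
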