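import Pool.Agent.W_332fe5_h24.K1

set_option autoImplicit false

/-! Block 6: bounds of the kernel. -/

open MeasureTheory ProbabilityTheory Set Filter Topology
open scoped ENNReal NNReal

namespace Pool.Agent.W_332fe5.Six

/-- The model kernel. -/
noncomputable def km (a zt j τ s : ℝ) : ℝ := τ ^ (-1 - zt) * s ^ (zt - j) * Real.exp (-a * s ^ 2 / τ)

theorem km_nonneg {a zt j τ s : ℝ} (hτ : 0 < τ) (hs : 0 < s) : 0 ≤ km a zt j τ s := by
  unfold km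
  positivity

section

variable {zt : ℝ} (h : Zt zt)

/-- `1 / sin ω`. -/
noncomputable def kc (zt : ℝ) : ℝ := 1 / Real.sin (om zt)

/-- lower constant of `Q ≥ a s²`. -/
noncomputable def ac (zt : ℝ) : ℝ := (1 + Real.cos (om zt)) / (2 * Real.sin (om zt) ^ 2)

include h

theorem kc_pos : 0 < kc zt := by
  have := h.sin_pos
  unfold kc
  positivity

theorem cos_gt : -1 < Real.cos (om zt) := by
  have h1 := h.sin_pos
  have h2 := Real.sin_sq_add_cos_sq (om zt)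
  nlinarith

theorem ac_pos : 0 < ac zt := by
  have h1 := h.sin_pos
  have h2 := cos_gt h
  unfold ac
  have : 0 < 1 + Real.cos (om zt) := by linarith
  positivity

theorem norm_ee1 : ‖ee1 zt‖ = kc zt := by
  have h1 := h.sin_pos
  have h2 := Real.sin_sq_add_cos_sq (om zt / 2)
  have h3 : ‖ee1 zt‖ ^ 2 = kc zt ^ 2 := by
    rw [← Complex.normSq_eq_norm_sq, Complex.normSq_apply]
    simp only [ee1, kc]
    field_simp
    linarith
  have h4 := kc_pos h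
  exact (pow_left_inj₀ (norm_nonneg _) h4.le (by norm_num)).1 h3

theorem norm_ee2 : ‖ee2 zt‖ = kc zt := by
  have h1 := h.sin_pos
  have h2 := Real.sin_sq_add_cos_sq (om zt / 2)
  have h3 : ‖ee2 zt‖ ^ 2 = kc zt ^ 2 := by
    rw [← Complex.normSq_eq_norm_sq, Complex.normSq_apply]
    simp only [ee2, kc]
    field_simp
    linarith
  have h4 := kc_pos h
  exact (pow_left_inj₀ (norm_nonneg _) h4.le (by norm_num)).1 h3

variable {y1 y2 : ℝ} (hy1 : 0 ≤ y1) (hy2 : 0 ≤ y2)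

omit h in
theorem sum_ge (c : ℝ) (_hc : -1 < c) (hc1 : c < 0) :
    (1 + c) / 2 * (y1 + y2) ^ 2 ≤ y1 ^ 2 + y2 ^ 2 + 2 * c * y1 * y2 := by
  nlinarith [sq_nonneg (y1 - y2)]

theorem QQ_ge : ac zt * (y1 + y2) ^ 2 ≤ QQ zt y1 y2 := by
  have h1 := h.sin_pos
  have h2 := sum_ge (y1 := y1) (y2 := y2) (Real.cos (om zt)) (cos_gt h) h.cos_neg
  have e : ac zt * (y1 + y2) ^ 2 = ((1 + Real.cos (om zt)) / 2 * (y1 + y2) ^ 2) /
      Real.sin (om zt) ^ 2 := by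
    unfold ac
    field_simp
  rw [e, QQ]
  gcongr

include hy1 hy2

theorem norm_ZZ_le : ‖ZZ zt y1 y2‖ ≤ kc zt * (y1 + y2) := by
  calc ‖ZZ zt y1 y2‖ ≤ ‖(y1 : ℂ) * ee1 zt‖ + ‖(y2 : ℂ) * ee2 zt‖ := norm_add_le _ _
    _ = kc zt * (y1 + y2) := by
      rw [norm_mul, norm_mul, norm_ee1 h, norm_ee2 h, Complex.norm_real, Complex.norm_real,
        Real.norm_of_nonneg hy1, Real.norm_of_nonneg hy2]
      ring

theorem norm_ZZ_ge : Real.sqrt (ac zt) * (y1 + y2) ≤ ‖ZZ zt y1 y2‖ := by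
  have h1 := QQ_ge h (y1 := y1) (y2 := y2)
  rw [QQ_eq' h] at h1
  have h2 : 0 ≤ Real.sqrt (ac zt) * (y1 + y2) := by positivity
  have h3 : (Real.sqrt (ac zt) * (y1 + y2)) ^ 2 = ac zt * (y1 + y2) ^ 2 := by
    rw [mul_pow, Real.sq_sqrt (ac_pos h).le]
  rw [← h3] at h1
  exact (pow_le_pow_iff_left₀ h2 (norm_nonneg _) (by norm_num)).1 h1

theorem QQ1_le : |QQ1 zt y1 y2| ≤ 2 * kc zt ^ 2 * (y1 + y2) := by
  have h1 := h.sin_pos
  have h2 := cos_gt h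
  have h3 := h.cos_neg
  have e : |QQ1 zt y1 y2| = 2 * kc zt ^ 2 * |y1 + Real.cos (om zt) * y2| := by
    rw [QQ1, abs_div, abs_mul, abs_of_pos (by positivity : 0 < Real.sin (om zt) ^ 2), kc]
    simp
    field_simp
  rw [e]
  gcongr
  rw [abs_le]
  constructor <;> nlinarith

theorem QQ2_le : |QQ2 zt y1 y2| ≤ 2 * kc zt ^ 2 * (y1 + y2) := by
  have h1 := h.sin_pos
  have h2 := cos_gt h
  have h3 := h.cos_neg
  have e : |QQ2 zt y1 y2| = 2 * kc zt ^ 2 * |y2 + Real.cos (om zt) * y1| := by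
    rw [QQ2, abs_div, abs_mul, abs_of_pos (by positivity : 0 < Real.sin (om zt) ^ 2), kc]
    simp
    field_simp
  rw [e]
  gcongr
  rw [abs_le]
  constructor <;> nlinarith

omit hy1 hy2 in
theorem QQ11_le : |QQ11 zt| ≤ 2 * kc zt ^ 2 := by
  have h1 := h.sin_pos
  rw [QQ11, kc, abs_of_pos (by positivity)]
  rw [div_pow]
  apply le_of_eq
  ring

omit hy1 hy2 in
theorem QQ12_le : |QQ12 zt| ≤ 2 * kc zt ^ 2 := by
  have h1 := h.sin_pos
  have h2 := cos_gt h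
  have h3 := h.cos_neg
  rw [QQ12, kc, abs_div, abs_of_pos (by positivity : 0 < Real.sin (om zt) ^ 2), div_pow, one_pow,
    mul_one_div]
  gcongr
  rw [abs_mul, abs_of_pos (by norm_num : (0 : ℝ) < 2)]
  have : |Real.cos (om zt)| ≤ 1 := Real.abs_cos_le_one _
  linarith

end

/-- Bounds of `f` and its derivatives. -/
theorem ff_bounds {zt : ℝ} (h : Zt zt) : ∃ C : ℝ, 0 < C ∧ ∀ y1 y2 : ℝ, 0 ≤ y1 → 0 ≤ y2 →
    0 < y1 + y2 → |ff zt y1 y2| ≤ C * (y1 + y2) ^ zt ∧ |ff1 zt y1 y2| ≤ C * (y1 + y2) ^ (zt - 1) ∧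
    |ff2 zt y1 y2| ≤ C * (y1 + y2) ^ (zt - 1) ∧ |ff11 zt y1 y2| ≤ C * (y1 + y2) ^ (zt - 2) ∧
    |ff12 zt y1 y2| ≤ C * (y1 + y2) ^ (zt - 2) ∧ |ff22 zt y1 y2| ≤ C * (y1 + y2) ^ (zt - 2) := by
  have hk := kc_pos h
  have ha := ac_pos h
  have hz := h.pos
  have hz1 := h.z1
  have hz2 := h.z2
  set A : ℝ := kc zt ^ zt with hA
  set B : ℝ := zt * kc zt ^ (zt - 1) * kc zt with hB
  set D : ℝ := zt * (zt - 1) * Real.sqrt (ac zt) ^ (zt - 2) * kc zt ^ 2 with hD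
  have hA0 : 0 < A := by positivity
  have hB0 : 0 < B := by positivity
  have hD0 : 0 ≤ D := by
    have : 0 < zt - 1 := by linarith
    positivity
  have nz : ‖(zt : ℂ)‖ = zt := by rw [Complex.norm_real, Real.norm_of_nonneg hz.le]
  have nz1 : ‖(zt : ℂ) - 1‖ = zt - 1 := by
    rw [show (zt : ℂ) - 1 = ((zt - 1 : ℝ) : ℂ) by push_cast; ring, Complex.norm_real,
      Real.norm_of_nonneg (by linarith)]
  refine ⟨A + B + D, by positivity, ?_⟩
  intro y1 y2 hy1 hy2 hy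
  have n1 := norm_ZZ_le h hy1 hy2
  have n2 := norm_ZZ_ge h hy1 hy2
  have p0 : ‖ZZ zt y1 y2 ^ (zt : ℂ)‖ ≤ A * (y1 + y2) ^ zt := by
    rw [Complex.norm_cpow_real, hA, ← Real.mul_rpow hk.le hy.le]
    exact Real.rpow_le_rpow (norm_nonneg _) n1 hz.le
  have p1 : ‖ZZ zt y1 y2 ^ ((zt : ℂ) - 1)‖ ≤ kc zt ^ (zt - 1) * (y1 + y2) ^ (zt - 1) := by
    rw [show (zt : ℂ) - 1 = ((zt - 1 : ℝ) : ℂ) by push_cast; ring, Complex.norm_cpow_real,
      ← Real.mul_rpow hk.le hy.le]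
    exact Real.rpow_le_rpow (norm_nonneg _) n1 (by linarith)
  have p2 : ‖ZZ zt y1 y2 ^ ((zt : ℂ) - 2)‖ ≤
      Real.sqrt (ac zt) ^ (zt - 2) * (y1 + y2) ^ (zt - 2) := by
    rw [show (zt : ℂ) - 2 = ((zt - 2 : ℝ) : ℂ) by push_cast; ring, Complex.norm_cpow_real,
      ← Real.mul_rpow (Real.sqrt_nonneg _) hy.le]
    exact Real.rpow_le_rpow_of_nonpos (by positivity) n2 (by linarith)
  have q0 : 0 < (y1 + y2) ^ zt := by positivity
  have q1 : 0 < (y1 + y2) ^ (zt - 1) := by positivity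
  have q2 : 0 < (y1 + y2) ^ (zt - 2) := by positivity
  have r1 : ∀ e : ℂ, ‖e‖ = kc zt → |((zt : ℂ) * ZZ zt y1 y2 ^ ((zt : ℂ) - 1) * e).re| ≤
      (A + B + D) * (y1 + y2) ^ (zt - 1) := by
    intro e he
    refine (Complex.abs_re_le_norm _).trans ?_
    rw [norm_mul, norm_mul, nz, he]
    calc zt * ‖ZZ zt y1 y2 ^ ((zt : ℂ) - 1)‖ * kc zt ≤
        zt * (kc zt ^ (zt - 1) * (y1 + y2) ^ (zt - 1)) * kc zt := by gcongr
      _ = B * (y1 + y2) ^ (zt - 1) := by rw [hB]; ring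
      _ ≤ (A + B + D) * (y1 + y2) ^ (zt - 1) := by
        gcongr
        linarith
  have r2 : ∀ e : ℂ, ‖e‖ = kc zt ^ 2 →
      |((zt : ℂ) * ((zt : ℂ) - 1) * ZZ zt y1 y2 ^ ((zt : ℂ) - 2) * e).re| ≤
      (A + B + D) * (y1 + y2) ^ (zt - 2) := by
    intro e he
    refine (Complex.abs_re_le_norm _).trans ?_
    rw [norm_mul, norm_mul, norm_mul, nz, nz1, he]
    have : 0 < zt - 1 := by linarith
    calc zt * (zt - 1) * ‖ZZ zt y1 y2 ^ ((zt : ℂ) - 2)‖ * kc zt ^ 2 ≤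
        zt * (zt - 1) * (Real.sqrt (ac zt) ^ (zt - 2) * (y1 + y2) ^ (zt - 2)) * kc zt ^ 2 := by
          gcongr
      _ = D * (y1 + y2) ^ (zt - 2) := by rw [hD]; ring
      _ ≤ (A + B + D) * (y1 + y2) ^ (zt - 2) := by
        gcongr
        linarith
  refine ⟨?_, r1 _ (norm_ee1 h), r1 _ (norm_ee2 h), r2 _ ?_, r2 _ ?_, r2 _ ?_⟩
  · rw [ff]
    refine (Complex.abs_re_le_norm _).trans (p0.trans ?_)
    gcongr
    linarith
  · rw [norm_pow, norm_ee1 h]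
  · rw [norm_mul, norm_ee1 h, norm_ee2 h, sq]
  · rw [norm_pow, norm_ee2 h]

theorem exp_absorb {b v : ℝ} (hb : 0 < b) (hv : 0 ≤ v) :
    1 + v + v ^ 2 ≤ (1 + 1 / b + 2 / b ^ 2) * Real.exp (b * v) := by
  have h0 : 0 ≤ b * v := by positivity
  have h1 : 1 ≤ Real.exp (b * v) := Real.one_le_exp h0
  have h2 : b * v ≤ Real.exp (b * v) := by linarith [Real.add_one_le_exp (b * v)]
  have h3 := Real.quadratic_le_exp_of_nonneg h0
  have h4 : (b * v) ^ 2 / 2 ≤ Real.exp (b * v) := by linarith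
  have e1 : v = (1 / b) * (b * v) := by field_simp
  have e2 : v ^ 2 = (2 / b ^ 2) * ((b * v) ^ 2 / 2) := by field_simp
  have g1 : v ≤ (1 / b) * Real.exp (b * v) := by
    have h5 : 0 ≤ 1 / b := by positivity
    have h6 := mul_le_mul_of_nonneg_left h2 h5
    linarith
  have g2 : v ^ 2 ≤ (2 / b ^ 2) * Real.exp (b * v) := by
    have h5 : 0 ≤ 2 / b ^ 2 := by positivity
    have h6 := mul_le_mul_of_nonneg_left h4 h5
    linarith
  linarith

theorem gg_pos {zt τ y1 y2 : ℝ} (hτ : 0 < τ) : 0 < gg zt τ y1 y2 := by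
  unfold gg
  positivity

theorem gg_mul_le {zt : ℝ} (h : Zt zt) : ∃ K : ℝ, 0 < K ∧ ∀ τ y1 y2 : ℝ, 0 < τ →
    gg zt τ y1 y2 * (1 + (y1 + y2) ^ 2 / τ + ((y1 + y2) ^ 2 / τ) ^ 2) ≤
      K * (τ ^ (-1 - zt) * Real.exp (-(ac zt / 8) * (y1 + y2) ^ 2 / τ)) := by
  have ha := ac_pos h
  have hb : 0 < ac zt / 8 := by positivity
  refine ⟨1 + 1 / (ac zt / 8) + 2 / (ac zt / 8) ^ 2, by positivity, ?_⟩
  intro τ y1 y2 hτ
  have hv : 0 ≤ (y1 + y2) ^ 2 / τ := by positivity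
  have h1 := exp_absorb hb hv
  have h2 := QQ_ge h (y1 := y1) (y2 := y2)
  have h3 : gg zt τ y1 y2 ≤ τ ^ (-1 - zt) * Real.exp (-(ac zt / 4) * ((y1 + y2) ^ 2 / τ)) := by
    unfold gg
    gcongr
    rw [neg_div, neg_mul, neg_le_neg_iff]
    have e : ac zt / 4 * ((y1 + y2) ^ 2 / τ) = (ac zt * (y1 + y2) ^ 2) / (4 * τ) := by
      field_simp
    rw [e]
    gcongr
  set v := (y1 + y2) ^ 2 / τ with hvd
  calc gg zt τ y1 y2 * (1 + v + v ^ 2) ≤
      (τ ^ (-1 - zt) * Real.exp (-(ac zt / 4) * v)) *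
        ((1 + 1 / (ac zt / 8) + 2 / (ac zt / 8) ^ 2) * Real.exp (ac zt / 8 * v)) := by
        gcongr
    _ = (1 + 1 / (ac zt / 8) + 2 / (ac zt / 8) ^ 2) * (τ ^ (-1 - zt) *
        (Real.exp (-(ac zt / 4) * v) * Real.exp (ac zt / 8 * v))) := by ring
    _ = (1 + 1 / (ac zt / 8) + 2 / (ac zt / 8) ^ 2) * (τ ^ (-1 - zt) *
        Real.exp (-(ac zt / 8) * (y1 + y2) ^ 2 / τ)) := by
        rw [← Real.exp_add]
        congr 3
        rw [hvd]
        ring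

/-- (6.1): bounds of the kernel and its derivatives. -/
theorem pk_bounds {zt : ℝ} (h : Zt zt) : ∃ C a : ℝ, 0 < C ∧ 0 < a ∧ ∀ τ y1 y2 : ℝ, 0 < τ →
    0 ≤ y1 → 0 ≤ y2 → 0 < y1 + y2 →
    |pk zt τ y1 y2| ≤ C * km a zt 0 τ (y1 + y2) ∧
    |pk1 zt τ y1 y2| ≤ C * km a zt 1 τ (y1 + y2) ∧
    |pk2 zt τ y1 y2| ≤ C * km a zt 1 τ (y1 + y2) ∧
    |pk11 zt τ y1 y2| ≤ C * km a zt 2 τ (y1 + y2) ∧
    |pk12 zt τ y1 y2| ≤ C * km a zt 2 τ (y1 + y2) ∧
    |pk22 zt τ y1 y2| ≤ C * km a zt 2 τ (y1 + y2) := by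
  obtain ⟨C, hC, hf⟩ := ff_bounds h
  obtain ⟨K, hK, hg⟩ := gg_mul_le h
  have hk := kc_pos h
  set M : ℝ := C * (1 + 2 * kc zt ^ 2 + kc zt ^ 4) with hM
  have hM0 : 0 < M := by positivity
  refine ⟨M * K, ac zt / 8, by positivity, by have := ac_pos h; positivity, ?_⟩
  intro τ y1 y2 hτ hy1 hy2 hy
  obtain ⟨f0, f1, f2, f11, f12, f22⟩ := hf y1 y2 hy1 hy2 hy
  have b1 := QQ1_le h hy1 hy2
  have b2 := QQ2_le h hy1 hy2
  have b11 := QQ11_le h
  have b12 := QQ12_le h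
  have hg' := hg τ y1 y2 hτ
  have gp := gg_pos (zt := zt) (y1 := y1) (y2 := y2) hτ
  set s := y1 + y2 with hs
  set v := s ^ 2 / τ with hv
  have hv0 : 0 ≤ v := by positivity
  have e1 : s ^ (zt - 1) = s ^ (zt - 2) * s := by
    rw [show zt - 1 = (zt - 2) + 1 by ring, Real.rpow_add_one hy.ne']
  have e0 : s ^ zt = s ^ (zt - 2) * s ^ 2 := by
    rw [show zt = (zt - 2) + 1 + 1 by ring, Real.rpow_add_one hy.ne', Real.rpow_add_one hy.ne']
    ring_nf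
  have e0' : s ^ zt = s ^ (zt - 1) * s := by
    rw [e1, e0]; ring
  have sp : 0 < s ^ (zt - 2) := by positivity
  have sp1 : 0 < s ^ (zt - 1) := by positivity
  have sp0 : 0 < s ^ zt := by positivity
  -- final step
  have fin : ∀ (X j : ℝ), |X| ≤ M * s ^ (zt - j) * (1 + v + v ^ 2) →
      |gg zt τ y1 y2 * X| ≤ M * K * km (ac zt / 8) zt j τ s := by
    intro X j hX
    rw [abs_mul, abs_of_pos gp]
    have spj : 0 < s ^ (zt - j) := by positivity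
    calc gg zt τ y1 y2 * |X| ≤ gg zt τ y1 y2 * (M * s ^ (zt - j) * (1 + v + v ^ 2)) := by gcongr
      _ = M * s ^ (zt - j) * (gg zt τ y1 y2 * (1 + v + v ^ 2)) := by ring
      _ ≤ M * s ^ (zt - j) * (K * (τ ^ (-1 - zt) * Real.exp (-(ac zt / 8) * s ^ 2 / τ))) := by
        gcongr
      _ = M * K * km (ac zt / 8) zt j τ s := by
        unfold km
        ring
  have first : ∀ F Q : ℝ, |F| ≤ C * s ^ (zt - 1) → |Q| ≤ 2 * kc zt ^ 2 * s →
      |F - ff zt y1 y2 * Q / (4 * τ)| ≤ M * s ^ (zt - 1) * (1 + v + v ^ 2) := by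
    intro F Q hF hQ
    have a1 : |ff zt y1 y2 * Q / (4 * τ)| ≤ (C * s ^ zt) * (2 * kc zt ^ 2 * s) / (4 * τ) := by
      rw [abs_div, abs_mul, abs_of_pos (by positivity : 0 < 4 * τ)]
      gcongr
    have a2 : (C * s ^ zt) * (2 * kc zt ^ 2 * s) / (4 * τ) =
        C * s ^ (zt - 1) * (kc zt ^ 2 / 2 * v) := by
      rw [e0', hv]
      field_simp
      ring
    calc |F - ff zt y1 y2 * Q / (4 * τ)| ≤ |F| + |ff zt y1 y2 * Q / (4 * τ)| := abs_sub _ _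
      _ ≤ C * s ^ (zt - 1) + C * s ^ (zt - 1) * (kc zt ^ 2 / 2 * v) := by
        rw [← a2]; gcongr
      _ = C * s ^ (zt - 1) * (1 + kc zt ^ 2 / 2 * v) := by ring
      _ ≤ C * s ^ (zt - 1) * ((1 + 2 * kc zt ^ 2 + kc zt ^ 4) * (1 + v + v ^ 2)) := by
        gcongr
        have k2 : 0 < kc zt ^ 2 := by positivity
        have k4 : 0 < kc zt ^ 4 := by positivity
        have v2 : 0 ≤ v ^ 2 := by positivity
        nlinarith [mul_nonneg k2.le hv0, mul_nonneg k4.le hv0, mul_nonneg k2.le v2,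
          mul_nonneg k4.le v2]
      _ = M * s ^ (zt - 1) * (1 + v + v ^ 2) := by rw [hM]; ring
  have second : ∀ F A B q Q : ℝ, |F| ≤ C * s ^ (zt - 2) → |A| ≤ 4 * C * kc zt ^ 2 * s ^ zt →
      |q| ≤ 2 * kc zt ^ 2 → |Q| ≤ (2 * kc zt ^ 2 * s) ^ 2 → B = A / (4 * τ) →
      |F - B - ff zt y1 y2 * q / (4 * τ) + ff zt y1 y2 * Q / (16 * τ ^ 2)| ≤
        M * s ^ (zt - 2) * (1 + v + v ^ 2) := by
    intro F A B q Q hF hA hq hQ hB
    have a1 : |B| ≤ C * s ^ (zt - 2) * (kc zt ^ 2 * v) := by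
      rw [hB, abs_div, abs_of_pos (by positivity : 0 < 4 * τ), div_le_iff₀ (by positivity)]
      refine hA.trans (le_of_eq ?_)
      rw [e0, hv]
      field_simp
    have a2 : |ff zt y1 y2 * q / (4 * τ)| ≤ C * s ^ (zt - 2) * (kc zt ^ 2 * v) := by
      rw [abs_div, abs_mul, abs_of_pos (by positivity : 0 < 4 * τ), div_le_iff₀ (by positivity)]
      calc |ff zt y1 y2| * |q| ≤ (C * s ^ zt) * (2 * kc zt ^ 2) := by gcongr
        _ ≤ (C * s ^ zt) * (4 * kc zt ^ 2) := by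
          gcongr
          norm_num
        _ = C * s ^ (zt - 2) * (kc zt ^ 2 * v) * (4 * τ) := by
          rw [e0, hv]
          field_simp
    have a3 : |ff zt y1 y2 * Q / (16 * τ ^ 2)| ≤ C * s ^ (zt - 2) * (kc zt ^ 4 * v ^ 2) := by
      rw [abs_div, abs_mul, abs_of_pos (by positivity : 0 < 16 * τ ^ 2),
        div_le_iff₀ (by positivity)]
      calc |ff zt y1 y2| * |Q| ≤ (C * s ^ zt) * ((2 * kc zt ^ 2 * s) ^ 2) := by gcongr
        _ = C * s ^ (zt - 2) * (kc zt ^ 4 * v ^ 2) * (4 * τ ^ 2) := by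
          rw [e0, hv]
          field_simp
          ring
        _ ≤ C * s ^ (zt - 2) * (kc zt ^ 4 * v ^ 2) * (16 * τ ^ 2) := by
          gcongr
          norm_num
    calc |F - B - ff zt y1 y2 * q / (4 * τ) + ff zt y1 y2 * Q / (16 * τ ^ 2)| ≤
        |F| + |B| + |ff zt y1 y2 * q / (4 * τ)| + |ff zt y1 y2 * Q / (16 * τ ^ 2)| := by
          refine (abs_add_le _ _).trans ?_
          gcongr
          refine (abs_sub _ _).trans ?_
          gcongr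
          exact abs_sub _ _
      _ ≤ C * s ^ (zt - 2) + C * s ^ (zt - 2) * (kc zt ^ 2 * v) + C * s ^ (zt - 2) * (kc zt ^ 2 * v) +
          C * s ^ (zt - 2) * (kc zt ^ 4 * v ^ 2) := by gcongr
      _ = C * s ^ (zt - 2) * (1 + 2 * kc zt ^ 2 * v + kc zt ^ 4 * v ^ 2) := by ring
      _ ≤ C * s ^ (zt - 2) * ((1 + 2 * kc zt ^ 2 + kc zt ^ 4) * (1 + v + v ^ 2)) := by
        gcongr
        have k2 : 0 < kc zt ^ 2 := by positivity
        have k4 : 0 < kc zt ^ 4 := by positivity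
        have v2 : 0 ≤ v ^ 2 := by positivity
        nlinarith [mul_nonneg k2.le hv0, mul_nonneg k4.le hv0, mul_nonneg k2.le v2,
          mul_nonneg k4.le v2]
      _ = M * s ^ (zt - 2) * (1 + v + v ^ 2) := by rw [hM]; ring
  refine ⟨?_, ?_, ?_, ?_, ?_, ?_⟩
  · rw [pk]
    apply fin
    rw [sub_zero]
    refine f0.trans ?_
    have k2 : 0 < kc zt ^ 2 := by positivity
    have k4 : 0 < kc zt ^ 4 := by positivity
    calc C * s ^ zt = C * 1 * s ^ zt * 1 := by ring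
      _ ≤ C * (1 + 2 * kc zt ^ 2 + kc zt ^ 4) * s ^ zt * (1 + v + v ^ 2) := by
        gcongr
        · nlinarith
        · nlinarith [sq_nonneg v]
  · rw [pk1]
    exact fin _ _ (first _ _ f1 b1)
  · rw [pk2]
    exact fin _ _ (first _ _ f2 b2)
  · rw [pk11]
    apply fin
    apply second _ (2 * ff1 zt y1 y2 * QQ1 zt y1 y2) _ _ _ f11 _ b11 _ rfl
    · rw [abs_mul, abs_mul, abs_of_pos (by norm_num : (0 : ℝ) < 2)]
      calc 2 * |ff1 zt y1 y2| * |QQ1 zt y1 y2| ≤ 2 * (C * s ^ (zt - 1)) * (2 * kc zt ^ 2 * s) := by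
            gcongr
        _ = 4 * C * kc zt ^ 2 * s ^ zt := by rw [e0']; ring
    · rw [abs_pow]
      gcongr
  · rw [pk12]
    apply fin
    apply second _ (ff1 zt y1 y2 * QQ2 zt y1 y2 + ff2 zt y1 y2 * QQ1 zt y1 y2) _ _ _ f12 _ b12 _ rfl
    · calc |ff1 zt y1 y2 * QQ2 zt y1 y2 + ff2 zt y1 y2 * QQ1 zt y1 y2| ≤
            |ff1 zt y1 y2| * |QQ2 zt y1 y2| + |ff2 zt y1 y2| * |QQ1 zt y1 y2| := by
            rw [← abs_mul, ← abs_mul]
            exact abs_add_le _ _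
        _ ≤ (C * s ^ (zt - 1)) * (2 * kc zt ^ 2 * s) + (C * s ^ (zt - 1)) * (2 * kc zt ^ 2 * s) := by
            gcongr
        _ = 4 * C * kc zt ^ 2 * s ^ zt := by rw [e0']; ring
    · rw [abs_mul, sq (2 * kc zt ^ 2 * s)]
      gcongr
  · rw [pk22]
    apply fin
    apply second _ (2 * ff2 zt y1 y2 * QQ2 zt y1 y2) _ _ _ f22 _ b11 _ rfl
    · rw [abs_mul, abs_mul, abs_of_pos (by norm_num : (0 : ℝ) < 2)]
      calc 2 * |ff2 zt y1 y2| * |QQ2 zt y1 y2| ≤ 2 * (C * s ^ (zt - 1)) * (2 * kc zt ^ 2 * s) := by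
            gcongr
        _ = 4 * C * kc zt ^ 2 * s ^ zt := by rw [e0']; ring
    · rw [abs_pow]
      gcongr

end Pool.Agent.W_332fe5.Six
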