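import Pool.Agent.W_332fe5_h24.K0

set_option autoImplicit false

/-! Block 7, S1: Hölder and the exponents. -/

open MeasureTheory ProbabilityTheory Set Filter Topology
open scoped ENNReal NNReal

namespace Pool.Agent.W_332fe5.Six

/-- Hölder: `∫ N² ≤ (∫ N)^((p-2)/(p-1)) (∫ N^p)^(1/(p-1))`.
`N² = N^((p-2)/(p-1)) N^(p/(p-1))`, exponents `(p-1)/(p-2)` and `p-1`. -/
theorem holder_interp {α : Type} [MeasurableSpace α] (μ : Measure α) {N : α → ℝ≥0∞}
    (hN : Measurable N) {p : ℝ} (hp : 2 < p) :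
    ∫⁻ z, N z ^ 2 ∂μ ≤ (∫⁻ z, N z ∂μ) ^ ((p - 2) / (p - 1)) *
      (∫⁻ z, N z ^ p ∂μ) ^ (1 / (p - 1)) := by
  have hp1 : 0 < p - 1 := by linarith
  have ha : 0 ≤ (p - 2) / (p - 1) := div_nonneg (by linarith) hp1.le
  have hb : 0 ≤ 1 / (p - 1) := div_nonneg zero_le_one hp1.le
  have hab : (p - 2) / (p - 1) + 1 / (p - 1) = 1 := by
    rw [← add_div, div_eq_one_iff_eq hp1.ne']
    ring
  have h1 := ENNReal.lintegral_mul_norm_pow_le (μ := μ) (f := N) (g := fun z => N z ^ p)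
    hN.aemeasurable (hN.pow_const p).aemeasurable ha hb hab
  refine le_trans (le_of_eq ?_) h1
  refine lintegral_congr fun z => ?_
  show N z ^ 2 = N z ^ ((p - 2) / (p - 1)) * (N z ^ p) ^ (1 / (p - 1))
  rw [← ENNReal.rpow_mul, ← ENNReal.rpow_add_of_nonneg _ _ ha (mul_nonneg (by linarith) hb)]
  have h2 : (p - 2) / (p - 1) + p * (1 / (p - 1)) = 2 := by
    field_simp
    ring
  rw [h2, ENNReal.rpow_two]

/-- The exponent inequality: `2 (p-2)/(p-1) + p (2 + δ - 1/q)/(p-1) > 2 + ζ`. -/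
theorem expo {zt p κ δ q : ℝ} (hp : Par zt p κ δ q) :
    2 + zt < 2 * ((p - 2) / (p - 1)) + p * (2 + δ - 1 / q) * (1 / (p - 1)) := by
  have hp2 := hp.hp
  have hp1 : 0 < p - 1 := by linarith
  have hz := hp.z2
  have hd := hp.d0
  have hk := hp.k0
  have hc := hp.crit
  obtain ⟨r, hr⟩ : ∃ r : ℝ, r = 1 / q := ⟨_, rfl⟩
  have h3 : 3 / q = 3 * r := by rw [hr]; ring
  rw [h3] at hc
  rw [← hr]
  have h1 : 2 * ((p - 2) / (p - 1)) + p * (2 + δ - r) * (1 / (p - 1)) =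
      (2 * (p - 2) + p * (2 + δ - r)) / (p - 1) := by
    field_simp
  rw [h1, lt_div_iff₀ hp1]
  have h4 : 2 ≤ p * (2 + δ - 3 * r) := by linarith
  have h5 : p * (3 * zt / 4 - 1) ≤ p * δ := mul_le_mul_of_nonneg_left hd (by linarith)
  have h6 : zt * (p - 2) ≤ 6 / 5 * (p - 2) := mul_le_mul_of_nonneg_right hz (by linarith)
  nlinarith

end Pool.Agent.W_332fe5.Six
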