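import Pool.Agent.W_332fe5_h24.G2

set_option autoImplicit false

/-! Block 7, S2: `N_R`. -/

open MeasureTheory ProbabilityTheory Set Filter Topology
open scoped ENNReal NNReal

namespace Pool.Agent.W_332fe5.Six

/-- `N_R (t, ω) = ∫ |Γ| e^(-y/R)`. -/
noncomputable def NC {zt p κ δ q : ℝ} (C : Core zt p κ δ q) (R : ℝ) (z : ℝ × C.Ω) : ℝ≥0∞ :=
  ∫⁻ x in Bl, ENNReal.ofReal (|gamC C z x| * Real.exp (-yy x / R))

theorem S2_yy_meas : Measurable yy := by
  unfold yy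
  fun_prop

theorem NC_meas {zt p κ δ q : ℝ} (hLin : Need1Lin δ) (C : Core zt p κ δ q) (R : ℝ) :
    Measurable (NC C R) := by
  have h1 : Measurable fun v : (ℝ × C.Ω) × E3 =>
      ENNReal.ofReal (|gamC C v.1 v.2| * Real.exp (-yy v.2 / R)) := by
    refine ENNReal.measurable_ofReal.comp ?_
    have h2 : Measurable fun v : (ℝ × C.Ω) × E3 => Real.exp (-yy v.2 / R) :=
      Real.measurable_exp.comp (((S2_yy_meas.comp measurable_snd).neg).div_const R)
    exact ((measurable_norm.comp (gamC_meas hLin C))).mul h2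
  exact h1.lintegral_prod_right'

/-- `w ↦ ‖w‖_q` is measurable on `L²`. -/
theorem S2_norm_meas {q : ℝ} (hq : 0 < q) :
    Measurable fun f : L2 => eLpNorm f (ENNReal.ofReal q) volume := by
  have h1 : Measurable fun f : L2 => ∫⁻ x, ‖f x‖ₑ ^ q :=
    meas_lint (Φ := fun _ v => ‖v‖ₑ ^ q) (by fun_prop)
  have h2 : (fun f : L2 => eLpNorm f (ENNReal.ofReal q) volume) =
      fun f : L2 => (∫⁻ x, ‖f x‖ₑ ^ q) ^ (1 / q) := by
    funext f
    rw [eLpNorm_eq_lintegral_rpow_enorm_toReal (by simpa using hq) ENNReal.ofReal_ne_top,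
      ENNReal.toReal_ofReal hq.le]
  rw [h2]
  exact h1.pow_const _

/-- (7.2): `E ∫_(T/2)^T N_R^p ≤ (K R^(2 + δ - 1/q))^p (T/2)^(-κ)`.  Proof: `Need1Gam` for
`w t ω ∈ LqS Bl q` (for a.e. `t` the norm is finite by `w_int`); `t^κ ≥ (T/2)^κ` on `(T/2, T)`;
`w_int`. -/
theorem NC_pow {zt p κ δ q : ℝ} (hp : Par zt p κ δ q) (hLin : Need1Lin δ)
    (hB : Need5Bdd zt p κ δ q) (hGam : Need1Gam δ q) : ∃ K : ℝ, 0 ≤ K ∧
    ∀ (C : Core zt p κ δ q) (T R : ℝ), 0 < T → T ≤ 1 → 0 < R → R ≤ 1 / 8 →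
    ∫⁻ z, (if T / 2 < z.1 then NC C R z ^ p else 0)
      ∂((volume.restrict (Ioo (0 : ℝ) T)).prod C.P) ≤
      ENNReal.ofReal ((K * R ^ (2 + δ - 1 / q)) ^ p * (T / 2) ^ (-κ)) := by
  obtain ⟨K0, hK0, hG⟩ := hGam
  have hp0 : 0 < p := by linarith [hp.hp]
  refine ⟨K0 + 1, by linarith, fun C T R hT hT1 hR hR8 => ?_⟩
  set A : ℝ := (K0 + 1) * R ^ (2 + δ - 1 / q) with hA
  have hA0 : 0 < A := mul_pos (by linarith) (Real.rpow_pos_of_pos hR _)
  -- the pointwise bound of `NC`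
  have hac : ((volume.restrict (Ioo (0 : ℝ) T)).prod C.P) ≪
      ((volume.restrict (Ioo (0 : ℝ) 1)).prod C.P) :=
    (Measure.restrict_mono (Ioo_subset_Ioo_right hT1) le_rfl).absolutelyContinuous.prod
      Measure.AbsolutelyContinuous.rfl
  have hNC : ∀ᵐ z ∂((volume.restrict (Ioo (0 : ℝ) T)).prod C.P),
      NC C R z ≤ ENNReal.ofReal A * eLpNorm (C.w z.1 z.2) (ENNReal.ofReal q) volume := by
    refine hac.ae_le ?_
    filter_upwards [gamC_ae hLin hB C] with z hz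
    by_cases hfin : eLpNorm (C.w z.1 z.2) (ENNReal.ofReal q) volume = ∞
    · rw [hfin, ENNReal.mul_top (by simpa using hA0)]
      exact le_top
    · have h1 := hG (C.w z.1 z.2) ⟨C.w_mem _ _, lt_top_iff_ne_top.2 hfin⟩ (C.w_rot _ _) R hR hR8
      have h2 : NC C R z = ∫⁻ x in Bl, ENNReal.ofReal
          (|Gam δ (C.w z.1 z.2) x| * Real.exp (-yy x / R)) := by
        refine lintegral_congr_ae (ae_restrict_of_ae ?_)
        filter_upwards [hz] with x hx
        rw [hx]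
      rw [h2]
      refine h1.trans ?_
      have h4 : K0 * R ^ (2 + δ - 1 / q) ≤ A := by
        rw [hA]
        exact mul_le_mul_of_nonneg_right (by linarith) (Real.rpow_nonneg hR.le _)
      gcongr
  have hTκ : 0 < (T / 2) ^ κ := Real.rpow_pos_of_pos (by linarith) _
  have hpt : ∀ᵐ z ∂((volume.restrict (Ioo (0 : ℝ) T)).prod C.P),
      (if T / 2 < z.1 then NC C R z ^ p else 0) ≤
      ENNReal.ofReal (A ^ p * (T / 2) ^ (-κ)) *
        (eLpNorm (C.w z.1 z.2) (ENNReal.ofReal q) volume ^ p * ENNReal.ofReal (z.1 ^ κ)) := by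
    filter_upwards [hNC] with z hz
    split_ifs with h
    · have h1 : NC C R z ^ p ≤ ENNReal.ofReal (A ^ p) *
          eLpNorm (C.w z.1 z.2) (ENNReal.ofReal q) volume ^ p := by
        refine (ENNReal.rpow_le_rpow hz hp0.le).trans ?_
        rw [ENNReal.mul_rpow_of_nonneg _ _ hp0.le, ENNReal.ofReal_rpow_of_pos hA0]
      have h2 : (1 : ℝ≥0∞) ≤ ENNReal.ofReal ((T / 2) ^ (-κ)) * ENNReal.ofReal (z.1 ^ κ) := by
        rw [← ENNReal.ofReal_mul (Real.rpow_nonneg (by linarith) _), ← ENNReal.ofReal_one]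
        refine ENNReal.ofReal_le_ofReal ?_
        rw [Real.rpow_neg (by linarith)]
        have h3 : (T / 2) ^ κ ≤ z.1 ^ κ := Real.rpow_le_rpow (by linarith) h.le hp.k0
        rw [inv_mul_eq_div, le_div_iff₀ hTκ, one_mul]
        exact h3
      calc NC C R z ^ p ≤ ENNReal.ofReal (A ^ p) *
            eLpNorm (C.w z.1 z.2) (ENNReal.ofReal q) volume ^ p * 1 := by rw [mul_one]; exact h1
        _ ≤ ENNReal.ofReal (A ^ p) * eLpNorm (C.w z.1 z.2) (ENNReal.ofReal q) volume ^ p *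
            (ENNReal.ofReal ((T / 2) ^ (-κ)) * ENNReal.ofReal (z.1 ^ κ)) := by gcongr
        _ = _ := by
            rw [ENNReal.ofReal_mul (Real.rpow_nonneg hA0.le _)]
            ring
    · exact zero_le
  have hmeas : Measurable fun z : ℝ × C.Ω =>
      eLpNorm (C.w z.1 z.2) (ENNReal.ofReal q) volume ^ p * ENNReal.ofReal (z.1 ^ κ) := by
    have h1 : Measurable fun z : ℝ × C.Ω => eLpNorm (C.w z.1 z.2) (ENNReal.ofReal q) volume :=
      (S2_norm_meas (by linarith [hp.hq])).comp C.w_meas.measurable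
    exact (h1.pow_const p).mul (ENNReal.measurable_ofReal.comp (measurable_fst.pow_const κ))
  calc ∫⁻ z, (if T / 2 < z.1 then NC C R z ^ p else 0)
        ∂((volume.restrict (Ioo (0 : ℝ) T)).prod C.P)
      ≤ ∫⁻ z, ENNReal.ofReal (A ^ p * (T / 2) ^ (-κ)) *
        (eLpNorm (C.w z.1 z.2) (ENNReal.ofReal q) volume ^ p * ENNReal.ofReal (z.1 ^ κ))
        ∂((volume.restrict (Ioo (0 : ℝ) T)).prod C.P) := lintegral_mono_ae hpt
    _ = ENNReal.ofReal (A ^ p * (T / 2) ^ (-κ)) * ∫⁻ z,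
        (eLpNorm (C.w z.1 z.2) (ENNReal.ofReal q) volume ^ p * ENNReal.ofReal (z.1 ^ κ))
        ∂((volume.restrict (Ioo (0 : ℝ) T)).prod C.P) := lintegral_const_mul _ hmeas
    _ = ENNReal.ofReal (A ^ p * (T / 2) ^ (-κ)) * ∫⁻ ω, (∫⁻ t in Ioo (0 : ℝ) T,
        (eLpNorm (C.w t ω) (ENNReal.ofReal q) volume ^ p * ENNReal.ofReal (t ^ κ))) ∂C.P := by
        rw [lintegral_prod_symm' _ hmeas]
    _ ≤ ENNReal.ofReal (A ^ p * (T / 2) ^ (-κ)) * ∫⁻ _ω, 1 ∂C.P := by
        refine mul_le_mul_right ?_ _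
        refine lintegral_mono fun ω => ?_
        exact (lintegral_mono_set (Ioo_subset_Ioo_right hT1)).trans (C.w_int ω)
    _ = ENNReal.ofReal (A ^ p * (T / 2) ^ (-κ)) := by
        rw [lintegral_const, measure_univ, mul_one, mul_one]

/-- The inputs are: `absInt` and `Wall` of the two-point data in terms of `Core`. -/
theorem absC {zt p κ δ q : ℝ} (hLin : Need1Lin δ) (hB : Need5Bdd zt p κ δ q)
    (C : Core zt p κ δ q) {T : ℝ} (_hT : 0 < T) (hT1 : T ≤ 1) (Φ : E3 → ℝ≥0∞) :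
    ∫⁻ z, (∫⁻ x in Bl, ENNReal.ofReal |gamC C z x| * Φ x)
      ∂((volume.restrict (Ioo (0 : ℝ) T)).prod C.P) =
    ∫⁻ z in Ioo (0 : ℝ) T ×ˢ univ, (∫⁻ x in Bl, ENNReal.ofReal |Gam δ (C.w z.1 z.2) x| * Φ x)
      ∂((volume : Measure ℝ).prod C.P) := by
  have h0 : ((volume : Measure ℝ).prod C.P).restrict (Ioo (0 : ℝ) T ×ˢ univ) =
      (volume.restrict (Ioo (0 : ℝ) T)).prod C.P := by
    rw [← Measure.prod_restrict, Measure.restrict_univ]
  rw [h0]
  have hac : ((volume.restrict (Ioo (0 : ℝ) T)).prod C.P) ≪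
      ((volume.restrict (Ioo (0 : ℝ) 1)).prod C.P) :=
    (Measure.restrict_mono (Ioo_subset_Ioo_right hT1) le_rfl).absolutelyContinuous.prod
      Measure.AbsolutelyContinuous.rfl
  refine lintegral_congr_ae (hac.ae_le ?_)
  filter_upwards [gamC_ae hLin hB C] with z hz
  refine lintegral_congr_ae (ae_restrict_of_ae ?_)
  filter_upwards [hz] with x hx
  rw [hx]

end Pool.Agent.W_332fe5.Six
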