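import Pool.Agent.W_332fe5_h24.S1
import Pool.Agent.W_332fe5_h24.S2

set_option autoImplicit false

/-! Block 7, S3: the top term is small. -/

open MeasureTheory ProbabilityTheory Set Filter Topology
open scoped ENNReal NNReal

namespace Pool.Agent.W_332fe5.Six

/-- The first moment of `N_R` up to the time `T`. -/
theorem S3_first {zt p κ δ q : ℝ} (hLin : Need1Lin δ)
    (hB : Need5Bdd zt p κ δ q) (C : Core zt p κ δ q) {T K R : ℝ} (hT : 0 < T) (hT1 : T ≤ 1)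
    (hW : ∫⁻ z in Ioo (0 : ℝ) 1 ×ˢ univ, (∫⁻ x in Bl, ENNReal.ofReal
      (|Gam δ (C.w z.1 z.2) x| * Real.exp (-yy x / R))) ∂((volume : Measure ℝ).prod C.P) ≤
      ENNReal.ofReal (K * R ^ 2)) :
    ∫⁻ z, NC C R z ∂((volume.restrict (Ioo (0 : ℝ) T)).prod C.P) ≤ ENNReal.ofReal (K * R ^ 2) := by
  have e1 : ∀ z, NC C R z = ∫⁻ x in Bl, ENNReal.ofReal |gamC C z x| *
      ENNReal.ofReal (Real.exp (-yy x / R)) := by
    intro z
    unfold NC
    refine lintegral_congr fun x => ?_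
    rw [ENNReal.ofReal_mul (abs_nonneg _)]
  have e2 := absC hLin hB C hT hT1 (fun x => ENNReal.ofReal (Real.exp (-yy x / R)))
  simp only [e1]
  rw [e2]
  refine le_trans ?_ hW
  refine le_trans (le_of_eq ?_) (lintegral_mono_set (s := Ioo (0 : ℝ) T ×ˢ univ)
    (prod_mono (Ioo_subset_Ioo_right hT1) subset_rfl))
  refine lintegral_congr fun z => lintegral_congr fun x => ?_
  rw [ENNReal.ofReal_mul (abs_nonneg _)]

/-- `R^(-2-ζ) E ∫_(T/2)^T N_R² → 0` as `R → 0`. -/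
theorem top_small {zt p κ δ q : ℝ} (hp : Par zt p κ δ q) (hLin : Need1Lin δ)
    (hB : Need5Bdd zt p κ δ q) (hGam : Need1Gam δ q) (hW : Need5Wall zt p κ δ q)
    (C : Core zt p κ δ q) {T : ℝ} (hT : 0 < T) (hT1 : T ≤ 1) :
    Tendsto (fun R : ℝ => ENNReal.ofReal (R ^ (-2 - zt)) *
      ∫⁻ z, (if T / 2 < z.1 then NC C R z ^ 2 else 0)
        ∂((volume.restrict (Ioo (0 : ℝ) T)).prod C.P)) (𝓝[>] 0) (𝓝 0) := by
  obtain ⟨K5, hK5, R0, hR0, hWall⟩ := hW
  obtain ⟨K, hK, hPow⟩ := NC_pow hp hLin hB hGam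
  have hp2 := hp.hp
  have hp1 : 0 < p - 1 := by linarith
  have ha : 0 ≤ (p - 2) / (p - 1) := div_nonneg (by linarith) hp1.le
  have hb : 0 ≤ 1 / (p - 1) := div_nonneg zero_le_one hp1.le
  have hexp := expo hp
  set a : ℝ := (p - 2) / (p - 1) with ha'
  set b : ℝ := 1 / (p - 1) with hb'
  set e : ℝ := 2 + δ - 1 / q with he
  set M : ℝ := (T / 2) ^ (-κ) with hM
  have hM0 : 0 ≤ M := Real.rpow_nonneg (by linarith) _
  set θ : ℝ := -2 - zt + 2 * a + p * e * b with hθ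
  have hθ0 : 0 < θ := by
    rw [hθ]
    linarith
  have hlim : Tendsto (fun R : ℝ => ENNReal.ofReal (K5 ^ a * (K ^ p * M) ^ b * R ^ θ)) (𝓝[>] 0)
      (𝓝 0) := by
    have h1 : Tendsto (fun R : ℝ => K5 ^ a * (K ^ p * M) ^ b * R ^ θ) (𝓝 0)
        (𝓝 (K5 ^ a * (K ^ p * M) ^ b * 0 ^ θ)) :=
      ((Real.continuousAt_rpow_const 0 θ (Or.inr hθ0.le)).tendsto).const_mul _
    rw [Real.zero_rpow hθ0.ne', mul_zero] at h1
    have h2 := ENNReal.tendsto_ofReal h1
    rw [ENNReal.ofReal_zero] at h2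
    exact h2.mono_left nhdsWithin_le_nhds
  refine tendsto_of_tendsto_of_tendsto_of_le_of_le' tendsto_const_nhds hlim
    (Eventually.of_forall fun R => zero_le) ?_
  have hmin : 0 < min R0 (1 / 8) := lt_min hR0 (by norm_num)
  filter_upwards [Ioo_mem_nhdsGT hmin] with R hR
  have hR1 : 0 < R := hR.1
  have hR2 : R ≤ R0 := hR.2.le.trans (min_le_left _ _)
  have hR3 : R ≤ 1 / 8 := hR.2.le.trans (min_le_right _ _)
  set μ : Measure (ℝ × C.Ω) := (volume.restrict (Ioo (0 : ℝ) T)).prod C.P with hμ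
  have hNm : Measurable fun z : ℝ × C.Ω => if T / 2 < z.1 then NC C R z else 0 :=
    Measurable.ite (measurableSet_lt measurable_const measurable_fst) (NC_meas hLin C R)
      measurable_const
  have h1 := holder_interp μ hNm hp2
  have hfirst : ∫⁻ z, (if T / 2 < z.1 then NC C R z else 0) ∂μ ≤ ENNReal.ofReal (K5 * R ^ 2) := by
    refine le_trans (lintegral_mono fun z => ?_)
      (S3_first hLin hB C hT hT1 (hWall C R hR1 hR2))
    simp only
    split_ifs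
    · exact le_rfl
    · exact zero_le
  have hpth : ∫⁻ z, (if T / 2 < z.1 then NC C R z else 0) ^ p ∂μ ≤
      ENNReal.ofReal ((K * R ^ e) ^ p * M) := by
    refine le_trans (lintegral_mono fun z => ?_) (hPow C T R hT hT1 hR1 hR3)
    simp only
    split_ifs
    · exact le_rfl
    · rw [ENNReal.zero_rpow_of_pos (by linarith)]
  have h2 : ∫⁻ z, (if T / 2 < z.1 then NC C R z ^ 2 else 0) ∂μ ≤
      ENNReal.ofReal (K5 * R ^ 2) ^ a * ENNReal.ofReal ((K * R ^ e) ^ p * M) ^ b := by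
    refine le_trans (le_of_eq ?_) (h1.trans (mul_le_mul' (ENNReal.rpow_le_rpow hfirst ha)
      (ENNReal.rpow_le_rpow hpth hb)))
    refine lintegral_congr fun z => ?_
    split_ifs <;> simp
  have hRe : 0 ≤ R ^ e := Real.rpow_nonneg hR1.le _
  have hRp : 0 ≤ R ^ (-2 - zt) := Real.rpow_nonneg hR1.le _
  have hX : 0 ≤ K5 * R ^ 2 := by positivity
  have hY : 0 ≤ (K * R ^ e) ^ p * M := mul_nonneg (Real.rpow_nonneg (mul_nonneg hK hRe) _) hM0
  have h3 : R ^ (-2 - zt) * ((K5 * R ^ 2) ^ a * ((K * R ^ e) ^ p * M) ^ b) =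
      K5 ^ a * (K ^ p * M) ^ b * R ^ θ := by
    have e1 : (K5 * R ^ 2) ^ a = K5 ^ a * R ^ (2 * a) := by
      rw [Real.mul_rpow hK5 (by positivity), ← Real.rpow_natCast, ← Real.rpow_mul hR1.le]
      norm_num
    have e2 : ((K * R ^ e) ^ p * M) ^ b = (K ^ p * M) ^ b * R ^ (p * e * b) := by
      rw [Real.mul_rpow hK hRe, ← Real.rpow_mul hR1.le]
      have e3 : K ^ p * R ^ (e * p) * M = K ^ p * M * R ^ (e * p) := by ring
      rw [e3, Real.mul_rpow (mul_nonneg (Real.rpow_nonneg hK _) hM0)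
        (Real.rpow_nonneg hR1.le _), ← Real.rpow_mul hR1.le]
      congr 2
      ring
    rw [e1, e2, hθ, Real.rpow_add hR1, Real.rpow_add hR1]
    ring
  calc ENNReal.ofReal (R ^ (-2 - zt)) * ∫⁻ z, (if T / 2 < z.1 then NC C R z ^ 2 else 0) ∂μ
      ≤ ENNReal.ofReal (R ^ (-2 - zt)) * (ENNReal.ofReal (K5 * R ^ 2) ^ a *
        ENNReal.ofReal ((K * R ^ e) ^ p * M) ^ b) := mul_le_mul' le_rfl h2
    _ = ENNReal.ofReal (K5 ^ a * (K ^ p * M) ^ b * R ^ θ) := by
        rw [ENNReal.ofReal_rpow_of_nonneg hX ha, ENNReal.ofReal_rpow_of_nonneg hY hb,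
          ← ENNReal.ofReal_mul (Real.rpow_nonneg hX _), ← ENNReal.ofReal_mul hRp, h3]

end Pool.Agent.W_332fe5.Six
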